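import Pool.Agent.Lib.Closing.Cross

/-!
# Assembly: from the two halves to the failure of the closing lemma
-/

open scoped ContDiff Manifold Topology
open Set Filter

namespace Pool.Agent.Closing

noncomputable section

/-- A point to which nontrivial iterates converge is recurrent. -/
theorem recurrent_of_tendsto {M : Type} [TopologicalSpace M] {f : Equiv.Perm M} {x : M}
    (T : ℕ → ℤ) (hT : ∀ n, T n ≠ 0) (h : Tendsto (fun n => (f ^ T n) x) atTop (𝓝 x)) :
    Recurrent f x := by
  intro hemb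
  have h1 : Tendsto T atTop (𝓝 0) := by
    rw [hemb.tendsto_nhds_iff]
    simpa [Function.comp_def] using h
  rw [nhds_discrete, tendsto_pure] at h1
  obtain ⟨n, hn⟩ := h1.exists
  exact hT n hn

/-- the recurrence of the base point -/
def Rec (R : RetSys E Word) : Prop :=
  ∃ (z : ℕ → E) (T : ℕ → ℕ), (∀ n, 0 < T n) ∧ (∀ n, R.Chain (T n) 0 (z n)) ∧
    Tendsto z atTop (𝓝 0)

theorem Rec.recurrent {R : RetSys E Word} (h : Rec R) (r : ℕ∞) :
    Recurrent (R.shift r).toEquiv (R.phi 0 0) := by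
  obtain ⟨z, T, hT, hz, hlim⟩ := h
  refine recurrent_of_tendsto (fun n => (T n : ℤ)) (fun n => by have := hT n; omega) ?_
  have h1 : ∀ n, ((R.shift r).toEquiv ^ (T n : ℤ)) (R.phi 0 0) = R.phi 0 (z n) := by
    intro n
    rw [zpow_natCast, ← Equiv.Perm.iterate_eq_pow]
    exact R.shift_iterate_of_chain r (hz n) 0
  simp only [h1]
  have h2 := (R.continuous_phi 0).tendsto 0
  exact h2.comp hlim

/-- The two halves give the failure of the closing lemma. -/
theorem not_closingLemma_of {B : ℝ} {R : RetSys E Word} (geo : Geo B R) (hrec : Rec R)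
    {e : ℕ → ℝ} (he : ∀ n, 0 < e n) (hc : IsEmpty (Cycle B e)) {r : ℕ∞} (hr : 2 ≤ r) :
    ¬ ClosingLemma r := by
  intro h
  obtain ⟨U, hU, hU'⟩ := geo.exists_nhds he hc hr
  obtain ⟨g, hg, n, hn, hper⟩ := h E R.Mfd (R.shift r) (R.phi 0 0) (hrec.recurrent r) U hU
  exact hU' g hg n hn hper

end

end Pool.Agent.Closing
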