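import Pool.Agent.Lib.Closing.Defs

/-!
# Closing lemma counterexample: basic facts

Scales, digits, positions, tails.
-/

open scoped ContDiff Topology
open Set Filter

namespace Pool.Agent.Closing

noncomputable section

variable {B : ℝ}

/-! ### Scales -/

theorem kappa_pos (B : ℝ) (k : ℕ) : 0 < kappa B k := Real.exp_pos _

theorem kappa_nonneg (B : ℝ) (k : ℕ) : 0 ≤ kappa B k := (kappa_pos B k).le

theorem kappa_succ_le_exp (hB : 0 ≤ B) (k : ℕ) :
    kappa B (k + 1) ≤ Real.exp (-(B / 4)) * kappa B k := by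
  unfold kappa
  rw [← Real.exp_add]
  apply Real.exp_le_exp.2
  have h1 : (1 : ℝ) ≤ (5 / 4 : ℝ) ^ k := one_le_pow₀ (by norm_num)
  rw [pow_succ]
  nlinarith

theorem exp_neg_hundred_le : Real.exp (-(100 : ℝ)) ≤ 1 / 10 ^ 30 := by
  have h1 : (2 : ℝ) ≤ Real.exp 1 := by
    have := Real.add_one_le_exp (1 : ℝ)
    linarith
  have h2 : (2 : ℝ) ^ 100 ≤ Real.exp 100 := by
    have : Real.exp 100 = Real.exp 1 ^ 100 := by
      rw [← Real.exp_nat_mul]
      norm_num
    rw [this]
    exact pow_le_pow_left₀ (by norm_num) h1 100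
  rw [Real.exp_neg, inv_eq_one_div]
  apply one_div_le_one_div_of_le (by positivity)
  refine le_trans ?_ h2
  norm_num

theorem kappa_succ_le (hB : 400 ≤ B) (k : ℕ) : kappa B (k + 1) ≤ kappa B k / 10 ^ 30 := by
  refine (kappa_succ_le_exp (by linarith) k).trans ?_
  have h1 : Real.exp (-(B / 4)) ≤ 1 / 10 ^ 30 := by
    refine le_trans ?_ exp_neg_hundred_le
    apply Real.exp_le_exp.2
    linarith
  have := mul_le_mul_of_nonneg_right h1 (kappa_nonneg B k)
  linarith

theorem kappa_antitone (hB : 0 ≤ B) : Antitone (kappa B) := by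
  apply antitone_nat_of_succ_le
  intro k
  refine (kappa_succ_le_exp hB k).trans ?_
  have h1 : Real.exp (-(B / 4)) ≤ 1 := by
    rw [Real.exp_le_one_iff]
    linarith
  have := mul_le_mul_of_nonneg_right h1 (kappa_nonneg B k)
  linarith

theorem kappa_le_one (hB : 0 ≤ B) (k : ℕ) : kappa B k ≤ 1 := by
  unfold kappa
  rw [Real.exp_le_one_iff]
  have : 0 ≤ B * (5 / 4 : ℝ) ^ k := by positivity
  linarith

theorem kappa_le_small (hB : 400 ≤ B) (k : ℕ) : kappa B (k + 1) ≤ 1 / 10 ^ 30 := by
  refine (kappa_succ_le hB k).trans ?_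
  have := kappa_le_one (by linarith : 0 ≤ B) k
  linarith

theorem kappa_zero_le_small (hB : 400 ≤ B) : kappa B 0 ≤ 1 / 10 ^ 30 := by
  unfold kappa
  refine le_trans ?_ exp_neg_hundred_le
  apply Real.exp_le_exp.2
  simp only [pow_zero, mul_one]
  linarith

theorem tendsto_kappa (hB : 400 ≤ B) : Tendsto (kappa B) atTop (𝓝 0) := by
  have h : ∀ k, kappa B k ≤ (1 / 2 : ℝ) ^ k := by
    intro k
    induction k with
    | zero => simpa using kappa_le_one (by linarith) 0
    | succ k ih =>
      have h1 := kappa_succ_le hB k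
      have h2 := kappa_nonneg B k
      rw [pow_succ]
      linarith
  refine squeeze_zero (fun k => kappa_nonneg B k) h ?_
  exact tendsto_pow_atTop_nhds_zero_of_lt_one (by norm_num) (by norm_num)

/-! ### Digits -/

theorem sperm_le {d : ℕ} (hd : d ≤ 7) : sperm d ≤ 7 := by
  interval_cases d <;> simp [sperm]

theorem sperm_inj {d e : ℕ} (hd : d ≤ 7) (he : e ≤ 7) (h : sperm d = sperm e) : d = e := by
  interval_cases d <;> interval_cases e <;> simp_all [sperm]

@[simp] theorem xi_zero : xi 0 = 0 := by
  simp [xi, sperm]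

theorem norm_xi_le {d : ℕ} (hd : d ≤ 7) : ‖xi d‖ ≤ 7 := by
  rw [xi, Prod.norm_def]
  simp only [Real.norm_natCast, sup_le_iff]
  exact ⟨by exact_mod_cast hd, by exact_mod_cast sperm_le hd⟩

theorem hs_le_one (d : ℕ) : hs d ≤ 1 := by
  unfold hs; split_ifs <;> norm_num

theorem le_hs (d : ℕ) : 31 / 32 ≤ hs d := by
  unfold hs; split_ifs <;> norm_num

theorem hs_pos (d : ℕ) : 0 < hs d := lt_of_lt_of_le (by norm_num) (le_hs d)

@[simp] theorem hs_zero : hs 0 = 1 := by simp [hs]
@[simp] theorem hs_one : hs 1 = 1 := by simp [hs]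

/-- the list consists of digits `0..7` -/
def IsDig (u : List ℕ) : Prop := ∀ d ∈ u, d ≤ 7

theorem IsDig.nil : IsDig [] := by simp [IsDig]

theorem isDig_cons {d : ℕ} {u : List ℕ} : IsDig (d :: u) ↔ d ≤ 7 ∧ IsDig u := by
  simp [IsDig]

theorem isDig_append {u v : List ℕ} : IsDig (u ++ v) ↔ IsDig u ∧ IsDig v := by
  simp only [IsDig, List.mem_append]
  constructor
  · exact fun h => ⟨fun d hd => h d (Or.inl hd), fun d hd => h d (Or.inr hd)⟩
  · rintro ⟨h1, h2⟩ d (hd | hd)
    exacts [h1 d hd, h2 d hd]

theorem isDig_dig (i : Word) : IsDig (dig i) := by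
  intro d hd
  simp only [dig, List.mem_map] at hd
  obtain ⟨e, -, rfl⟩ := hd
  omega

theorem isDig_succ {u : List ℕ} (h : IsDig u) : IsDig (succ u) := by
  induction u with
  | nil => simp [succ, IsDig]
  | cons d u ih =>
    rw [isDig_cons] at h
    rw [succ]
    split_ifs with hd
    · rw [isDig_cons]; exact ⟨by norm_num, ih h.2⟩
    · rw [isDig_cons]; exact ⟨by omega, h.2⟩

theorem isDig_tgt (i : Word) : IsDig (tgt i) := isDig_succ (isDig_dig i)

@[simp] theorem dig_nil : dig [] = [] := rfl
@[simp] theorem dig_cons (d : Fin 7) (i : Word) : dig (d :: i) = (d.val + 1) :: dig i := rfl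
@[simp] theorem length_dig (i : Word) : (dig i).length = i.length := by simp [dig]

@[simp] theorem tgt_nil : tgt [] = [1] := rfl

theorem tgt_cons (d : Fin 7) (i : Word) :
    tgt (d :: i) = if d.val = 6 then 0 :: tgt i else (d.val + 2) :: dig i := by
  simp only [tgt, dig_cons, succ]
  by_cases h : d.val = 6 <;> simp [h]

/-- The labels `i, j` have a longest common prefix; here in terms of digits of the label. -/
theorem dig_common {i j : Word} (h : i ≠ j) :
    ∃ c u v : List ℕ, dig i = c ++ u ∧ dig j = c ++ v ∧ u.headD 0 ≠ v.headD 0 := by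
  induction i generalizing j with
  | nil =>
    cases j with
    | nil => exact absurd rfl h
    | cons d j => exact ⟨[], [], dig (d :: j), rfl, rfl, by simp⟩
  | cons d i ih =>
    cases j with
    | nil => exact ⟨[], dig (d :: i), [], rfl, rfl, by simp⟩
    | cons e j =>
      by_cases hde : d = e
      · subst hde
        obtain ⟨c, u, v, h1, h2, h3⟩ := ih (j := j) (by rintro rfl; exact h rfl)
        exact ⟨(d.val + 1) :: c, u, v, by simp [h1], by simp [h2], h3⟩
      · refine ⟨[], dig (d :: i), dig (e :: j), rfl, rfl, ?_⟩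
        simp only [dig_cons, List.headD_cons, ne_eq, add_left_inj]
        exact fun h => hde (Fin.ext h)

/-- The targets of the labels `i, j` and the labels themselves have their first difference at the
same digit. -/
theorem tgt_common {i j : Word} (h : i ≠ j) :
    ∃ c c' u v u' v' : List ℕ, dig i = c ++ u ∧ dig j = c ++ v ∧ u.headD 0 ≠ v.headD 0 ∧
      tgt i = c' ++ u' ∧ tgt j = c' ++ v' ∧ u'.headD 0 ≠ v'.headD 0 ∧ c.length = c'.length := by
  induction i generalizing j with
  | nil =>
    cases j with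
    | nil => exact absurd rfl h
    | cons d j =>
      refine ⟨[], [], [], dig (d :: j), [1], tgt (d :: j), rfl, rfl, by simp, rfl, rfl, ?_, rfl⟩
      rw [tgt_cons]
      split_ifs <;> simp
  | cons d i ih =>
    cases j with
    | nil =>
      refine ⟨[], [], dig (d :: i), [], tgt (d :: i), [1], rfl, rfl, by simp, rfl, rfl, ?_, rfl⟩
      rw [tgt_cons]
      split_ifs <;> simp
    | cons e j =>
      by_cases hde : d = e
      · subst hde
        have hij : i ≠ j := by rintro rfl; exact h rfl
        by_cases hd : d.val = 6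
        · obtain ⟨c, c', u, v, u', v', h1, h2, h3, h4, h5, h6, h7⟩ := ih hij
          refine ⟨(d.val + 1) :: c, 0 :: c', u, v, u', v', by simp [h1], by simp [h2], h3, ?_, ?_,
            h6, by simp [h7]⟩
          · rw [tgt_cons, if_pos hd, h4]; rfl
          · rw [tgt_cons, if_pos hd, h5]; rfl
        · obtain ⟨c, u, v, h1, h2, h3⟩ := dig_common hij
          refine ⟨(d.val + 1) :: c, (d.val + 2) :: c, u, v, u, v, by simp [h1], by simp [h2], h3,
            ?_, ?_, h3, by simp⟩
          · rw [tgt_cons, if_neg hd, h1]; rfl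
          · rw [tgt_cons, if_neg hd, h2]; rfl
      · refine ⟨[], [], dig (d :: i), dig (e :: j), tgt (d :: i), tgt (e :: j), rfl, rfl, ?_, rfl,
          rfl, ?_, rfl⟩
        · simp only [dig_cons, List.headD_cons, ne_eq, add_left_inj]
          exact fun h => hde (Fin.ext h)
        · rw [tgt_cons, tgt_cons]
          have h1 : d.val ≠ e.val := fun h => hde (Fin.ext h)
          split_ifs <;> simp <;> omega

/-! ### Positions -/

theorem pos_nil (B : ℝ) (k p : ℕ) : pos B k p [] = 0 := by rw [pos]

theorem pos_cons (B : ℝ) (k p d : ℕ) (l : List ℕ) :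
    pos B k p (d :: l) = (kappa B k * hs p) • xi d + pos B (k + 1) d l := by rw [pos]

theorem pos_headD (B : ℝ) (k p : ℕ) (l : List ℕ) :
    pos B k p l = (kappa B k * hs p) • xi (l.headD 0) + pos B (k + 1) (l.headD 0) l.tail := by
  cases l with
  | nil => simp [pos_nil]
  | cons d l => simp [pos_cons]

theorem norm_pos_le (hB : 400 ≤ B) (k p : ℕ) {l : List ℕ} (hl : IsDig l) :
    ‖pos B k p l‖ ≤ 8 * kappa B k := by
  induction l generalizing k p with
  | nil =>
    rw [pos_nil, norm_zero]
    have := kappa_nonneg B k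
    linarith
  | cons d l ih =>
    rw [isDig_cons] at hl
    rw [pos_cons]
    have h1 : ‖(kappa B k * hs p) • xi d‖ ≤ 7 * kappa B k := by
      rw [norm_smul, Real.norm_eq_abs, abs_of_nonneg (mul_nonneg (kappa_nonneg B k) (hs_pos p).le)]
      have h2 := norm_xi_le hl.1
      have h3 := hs_le_one p
      have h4 := kappa_nonneg B k
      have h5 : kappa B k * hs p ≤ kappa B k := by nlinarith
      have h6 : 0 ≤ kappa B k * hs p := mul_nonneg h4 (hs_pos p).le
      nlinarith [norm_nonneg (xi d)]
    have h2 := ih (k := k + 1) (p := d) hl.2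
    have h3 := kappa_succ_le hB k
    have h4 := norm_add_le ((kappa B k * hs p) • xi d) (pos B (k + 1) d l)
    have h5 := kappa_nonneg B k
    linarith

/-- Positions of digit strings with different first digit differ by at least `0.9 κ` in both
coordinates. -/
theorem pos_sub_head (hB : 400 ≤ B) (k p : ℕ) {u v : List ℕ} (hu : IsDig u) (hv : IsDig v)
    (h : u.headD 0 ≠ v.headD 0) :
    9 / 10 * kappa B k ≤ |(pos B k p u - pos B k p v).1| ∧
      9 / 10 * kappa B k ≤ |(pos B k p u - pos B k p v).2| := by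
  set d := u.headD 0 with hd
  set e := v.headD 0 with he
  have hd7 : d ≤ 7 := by
    cases u with
    | nil => simp [hd]
    | cons a u => exact (isDig_cons.1 hu).1
  have he7 : e ≤ 7 := by
    cases v with
    | nil => simp [he]
    | cons a v => exact (isDig_cons.1 hv).1
  have hut : IsDig u.tail := fun x hx => hu x (List.mem_of_mem_tail hx)
  have hvt : IsDig v.tail := fun x hx => hv x (List.mem_of_mem_tail hx)
  rw [pos_headD B k p u, pos_headD B k p v, ← hd, ← he]
  have n1 := norm_pos_le hB (k + 1) d hut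
  have n2 := norm_pos_le hB (k + 1) e hvt
  set r := pos B (k + 1) d u.tail
  set r' := pos B (k + 1) e v.tail
  have hk := kappa_succ_le hB k
  have hk0 := kappa_nonneg B k
  have n1a : |r.1| ≤ ‖r‖ := norm_fst_le r
  have n1b : |r.2| ≤ ‖r‖ := norm_snd_le r
  have n2a : |r'.1| ≤ ‖r'‖ := norm_fst_le r'
  have n2b : |r'.2| ≤ ‖r'‖ := norm_snd_le r'
  have hs1 := le_hs p
  have key : ∀ (x y : ℕ) (a b : ℝ), x ≠ y → |a| ≤ 8 * kappa B (k + 1) →
      |b| ≤ 8 * kappa B (k + 1) →
      9 / 10 * kappa B k ≤ |kappa B k * hs p * x + a - (kappa B k * hs p * y + b)| := by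
    intro x y a b hxy ha hb
    have h1 : (1 : ℝ) ≤ |(x : ℝ) - y| := by
      have : (1 : ℤ) ≤ |(x : ℤ) - y| := Int.one_le_abs (by omega)
      exact_mod_cast this
    have h2 : kappa B k * (31 / 32) ≤ |kappa B k * hs p * (x - y)| := by
      rw [abs_mul, abs_of_nonneg (mul_nonneg hk0 (hs_pos p).le)]
      have : kappa B k * (31 / 32) ≤ kappa B k * hs p := by nlinarith
      have h0 : 0 ≤ kappa B k * hs p := mul_nonneg hk0 (hs_pos p).le
      nlinarith
    have h3 : |kappa B k * hs p * (x - y)| ≤
        |kappa B k * hs p * x + a - (kappa B k * hs p * y + b)| + |a| + |b| := by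
      have e1 : kappa B k * hs p * (x - y) =
        (kappa B k * hs p * x + a - (kappa B k * hs p * y + b)) - a + b := by ring
      rw [e1]
      refine (abs_add_le _ _).trans ?_
      have := abs_sub (kappa B k * hs p * x + a - (kappa B k * hs p * y + b)) a
      linarith
    nlinarith
  constructor
  · have := key d e r.1 r'.1 h (n1a.trans n1) (n2a.trans n2)
    simpa [xi, mul_comm, mul_left_comm, mul_assoc] using this
  · have := key (sperm d) (sperm e) r.2 r'.2 (fun h' => h (sperm_inj hd7 he7 h'))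
      (n1b.trans n1) (n2b.trans n2)
    simpa [xi, mul_comm, mul_left_comm, mul_assoc] using this

/-- the last digit of `c`, or `p` if `c` is empty -/
def lastD (p : ℕ) (c : List ℕ) : ℕ := c.getLastD p

theorem pos_append (B : ℝ) (k p : ℕ) (c u : List ℕ) :
    pos B k p (c ++ u) = pos B k p c + pos B (k + c.length) (lastD p c) u := by
  induction c generalizing k p with
  | nil => simp [pos_nil, lastD]
  | cons d c ih =>
    have h1 : lastD p (d :: c) = lastD d c := by
      unfold lastD
      cases c <;> rfl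
    have h2 : k + (c.length + 1) = k + 1 + c.length := by ring
    rw [List.cons_append, pos_cons, pos_cons, ih, List.length_cons, h1, h2,
      add_assoc ((kappa B k * hs p) • xi d)]

theorem X_append (B : ℝ) (c u : List ℕ) :
    X B (c ++ u) = X B c + pos B (c.length + 1) (lastD 0 c) u := by
  rw [X, X, pos_append, add_comm 1]

theorem X_sub_common (hB : 400 ≤ B) {c u v : List ℕ} (hu : IsDig u) (hv : IsDig v)
    (h : u.headD 0 ≠ v.headD 0) :
    9 / 10 * kappa B (c.length + 1) ≤ |(X B (c ++ u) - X B (c ++ v)).1| ∧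
      9 / 10 * kappa B (c.length + 1) ≤ |(X B (c ++ u) - X B (c ++ v)).2| := by
  rw [X_append, X_append, add_sub_add_left_eq_sub]
  exact pos_sub_head hB _ _ hu hv h

theorem norm_X_le (hB : 400 ≤ B) {u : List ℕ} (hu : IsDig u) : ‖X B u‖ ≤ 8 * kappa B 1 :=
  norm_pos_le hB 1 0 hu

end

end Pool.Agent.Closing
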