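import Mathlib

/-!
# Elementary lemmas on series for the bridge
-/

open Finset

namespace Pool.Agent.Closing

noncomputable section

/-- the two-sided geometric sum -/
theorem sum_half_natAbs_aux (R m : ℕ) :
    ∑ k ∈ range (R + m), (1 / 2 : ℝ) ^ ((k : ℤ) - R).natAbs ≤ 3 - 2 * (1 / 2) ^ m := by
  induction m with
  | zero =>
    have h : ∀ n ≤ R, ∑ k ∈ range n, (1 / 2 : ℝ) ^ ((k : ℤ) - R).natAbs ≤ (1 / 2) ^ (R - n) := by
      intro n hn
      induction n with
      | zero => simp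
      | succ n ih =>
        rw [sum_range_succ]
        have h1 := ih (by omega)
        have e1 : ((n : ℤ) - R).natAbs = R - n := by omega
        have e2 : R - n = (R - (n + 1)) + 1 := by omega
        rw [e1, e2, pow_succ]
        rw [e2, pow_succ] at h1
        linarith
    have := h R le_rfl
    simp only [Nat.sub_self, pow_zero] at this
    simp only [add_zero, pow_zero]
    linarith
  | succ m ih =>
    rw [← add_assoc, sum_range_succ]
    have e1 : (((R + m : ℕ) : ℤ) - R).natAbs = m := by omega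
    rw [e1, pow_succ]
    have : (0 : ℝ) < (1 / 2) ^ m := by positivity
    linarith

theorem sum_half_natAbs (R n : ℕ) :
    ∑ k ∈ range n, (1 / 2 : ℝ) ^ ((k : ℤ) - R).natAbs ≤ 3 := by
  have h1 := sum_half_natAbs_aux R n
  have h2 : (0 : ℝ) ≤ (1 / 2) ^ n := by positivity
  have h3 : ∑ k ∈ range n, (1 / 2 : ℝ) ^ ((k : ℤ) - R).natAbs ≤
      ∑ k ∈ range (R + n), (1 / 2 : ℝ) ^ ((k : ℤ) - R).natAbs :=
    sum_le_sum_of_subset_of_nonneg (range_mono (by omega)) fun _ _ _ => by positivity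
  linarith

/-- the minimum of the first values of a positive sequence, times `2^{-n-1}` -/
def eseq (θ : ℕ → ℝ) (n : ℕ) : ℝ :=
  (range (n + 1)).inf' nonempty_range_add_one θ * (1 / 2) ^ (n + 1)

theorem eseq_pos {θ : ℕ → ℝ} (h : ∀ n, 0 < θ n) (n : ℕ) : 0 < eseq θ n := by
  unfold eseq
  have : 0 < (range (n + 1)).inf' nonempty_range_add_one θ := by
    rw [lt_inf'_iff]
    exact fun k _ => h k
  positivity

theorem eseq_le {θ : ℕ → ℝ} (h : ∀ n, 0 < θ n) {m n : ℕ} (hmn : m ≤ n) :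
    eseq θ n ≤ θ m * (1 / 2) ^ (n + 1) := by
  unfold eseq
  exact mul_le_mul_of_nonneg_right (inf'_le _ (mem_range.2 (by omega))) (by positivity)

theorem eseq_le_self {θ : ℕ → ℝ} (h : ∀ n, 0 < θ n) (n : ℕ) : eseq θ n ≤ θ n := by
  refine (eseq_le h le_rfl).trans ?_
  have h1 : (1 / 2 : ℝ) ^ (n + 1) ≤ 1 := pow_le_one₀ (by norm_num) (by norm_num)
  have := mul_le_mul_of_nonneg_left h1 (h n).le
  linarith

theorem sum_eseq_le {θ : ℕ → ℝ} (h : ∀ n, 0 < θ n) (m n : ℕ) :
    ∑ k ∈ Ico m n, eseq θ k ≤ θ m := by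
  have h1 : ∀ d, ∑ k ∈ Ico m (m + d), eseq θ k ≤ θ m * (1 - (1 / 2) ^ d) := by
    intro d
    induction d with
    | zero => simp
    | succ d ih =>
      rw [← add_assoc, sum_Ico_succ_top (by omega)]
      have h2 := eseq_le h (show m ≤ m + d by omega)
      have h3 : (1 / 2 : ℝ) ^ (m + d + 1) ≤ (1 / 2) ^ (d + 1) :=
        pow_le_pow_of_le_one (by norm_num) (by norm_num) (by omega)
      have h4 := mul_le_mul_of_nonneg_left h3 (h m).le
      have h5 : (1 / 2 : ℝ) ^ (d + 1) = (1 / 2) ^ d * (1 / 2) := pow_succ _ _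
      rw [h5] at h4 ⊢
      nlinarith
  rcases le_total n m with hnm | hnm
  · rw [Ico_eq_empty_of_le hnm, sum_empty]
    exact (h m).le
  · obtain ⟨d, rfl⟩ := Nat.exists_eq_add_of_le hnm
    refine (h1 d).trans ?_
    have h2 : (0 : ℝ) ≤ (1 / 2) ^ d := by positivity
    nlinarith [h m]

end

end Pool.Agent.Closing
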