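import Mathlib

/-!
# `C^{1,1}`-small displacement maps

`Small δ w`: the displacement `w : V → V` is bounded by `δ`, `δ`-Lipschitz and has first order
Taylor expansions with remainder at most `δ |q - p|²`.  Composition of maps `id + w`, and the
construction of globally small displacements by cutting off.
-/

open scoped ContDiff Manifold Topology
open Set Filter

namespace Pool.Agent.Closing

noncomputable section

variable {V : Type*} [NormedAddCommGroup V] [NormedSpace ℝ V]

/-- `C^{1,1}`-small displacements -/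
structure Small (δ : ℝ) (w : V → V) : Prop where
  bd : ∀ p, ‖w p‖ ≤ δ
  lip : ∀ p q, ‖w q - w p‖ ≤ δ * ‖q - p‖
  tay : ∀ p, ∃ L : V →L[ℝ] V, ‖L‖ ≤ δ ∧ ∀ q, ‖w q - w p - L (q - p)‖ ≤ δ * ‖q - p‖ ^ 2

theorem Small.nonneg {δ : ℝ} {w : V → V} (h : Small δ w) : 0 ≤ δ :=
  (norm_nonneg _).trans (h.bd 0)

theorem Small.mono {δ δ' : ℝ} {w : V → V} (h : Small δ w) (hd : δ ≤ δ') : Small δ' w where
  bd p := (h.bd p).trans hd
  lip p q := (h.lip p q).trans (mul_le_mul_of_nonneg_right hd (norm_nonneg _))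
  tay p := by
    obtain ⟨L, h1, h2⟩ := h.tay p
    exact ⟨L, h1.trans hd, fun q => (h2 q).trans (mul_le_mul_of_nonneg_right hd (sq_nonneg _))⟩

theorem small_zero : Small 0 (fun _ : V => (0 : V)) where
  bd p := by simp
  lip p q := by simp
  tay p := ⟨0, by simp, fun q => by simp⟩

/-- composition of `id + w₁` and `id + w₂` -/
theorem Small.comp {δ₁ δ₂ : ℝ} {w₁ w₂ : V → V} (h₁ : Small δ₁ w₁) (h₂ : Small δ₂ w₂)
    (hδ : δ₁ ≤ 1 / 2) : Small (δ₁ + 3 * δ₂) (fun p => w₁ p + w₂ (p + w₁ p)) where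
  bd p := by
    have n1 := h₁.bd p
    have n2 := h₂.bd (p + w₁ p)
    have n3 := norm_add_le (w₁ p) (w₂ (p + w₁ p))
    have := h₂.nonneg
    linarith
  lip p q := by
    have n1 := h₁.lip p q
    have n2 := h₂.lip (p + w₁ p) (q + w₁ q)
    have e1 : q + w₁ q - (p + w₁ p) = (q - p) + (w₁ q - w₁ p) := by abel
    have n3 : ‖q + w₁ q - (p + w₁ p)‖ ≤ (1 + δ₁) * ‖q - p‖ := by
      rw [e1]
      refine (norm_add_le _ _).trans ?_
      linarith
    have e2 : w₁ q + w₂ (q + w₁ q) - (w₁ p + w₂ (p + w₁ p)) =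
      (w₁ q - w₁ p) + (w₂ (q + w₁ q) - w₂ (p + w₁ p)) := by abel
    rw [e2]
    refine (norm_add_le _ _).trans ?_
    have h0 := h₂.nonneg
    have n4 : δ₂ * ‖q + w₁ q - (p + w₁ p)‖ ≤ δ₂ * ((1 + δ₁) * ‖q - p‖) :=
      mul_le_mul_of_nonneg_left n3 h0
    have n5 : δ₂ * ((1 + δ₁) * ‖q - p‖) ≤ 3 * δ₂ * ‖q - p‖ := by
      have : 0 ≤ δ₂ * ‖q - p‖ := mul_nonneg h0 (norm_nonneg _)
      nlinarith
    linarith
  tay p := by
    obtain ⟨L₁, a1, a2⟩ := h₁.tay p
    obtain ⟨L₂, b1, b2⟩ := h₂.tay (p + w₁ p)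
    have h0 := h₂.nonneg
    have h0' := h₁.nonneg
    refine ⟨L₁ + L₂.comp (ContinuousLinearMap.id ℝ V + L₁), ?_, fun q => ?_⟩
    · have n1 : ‖L₂.comp (ContinuousLinearMap.id ℝ V + L₁)‖ ≤ δ₂ * (1 + δ₁) := by
        refine (ContinuousLinearMap.opNorm_comp_le _ _).trans ?_
        have n2 : ‖ContinuousLinearMap.id ℝ V + L₁‖ ≤ 1 + δ₁ := by
          refine (norm_add_le _ _).trans ?_
          have := ContinuousLinearMap.norm_id_le (𝕜 := ℝ) (E := V)
          linarith
        exact mul_le_mul b1 n2 (norm_nonneg _) h0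
      refine (norm_add_le _ _).trans ?_
      nlinarith
    · have n1 := a2 q
      have n2 := b2 (q + w₁ q)
      have e1 : q + w₁ q - (p + w₁ p) = (q - p) + (w₁ q - w₁ p) := by abel
      have n3 : ‖q + w₁ q - (p + w₁ p)‖ ≤ 3 / 2 * ‖q - p‖ := by
        rw [e1]
        refine (norm_add_le _ _).trans ?_
        have := h₁.lip p q
        have h00 := norm_nonneg (q - p)
        nlinarith
      have n4 : ‖q + w₁ q - (p + w₁ p)‖ ^ 2 ≤ 9 / 4 * ‖q - p‖ ^ 2 := by
        have := pow_le_pow_left₀ (norm_nonneg _) n3 2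
        nlinarith
      have n5 : ‖w₂ (q + w₁ q) - w₂ (p + w₁ p) - L₂ (q + w₁ q - (p + w₁ p))‖ ≤
          δ₂ * (9 / 4 * ‖q - p‖ ^ 2) := n2.trans (mul_le_mul_of_nonneg_left n4 h0)
      have n6 : ‖L₂ (w₁ q - w₁ p - L₁ (q - p))‖ ≤ δ₂ * (δ₁ * ‖q - p‖ ^ 2) := by
        refine (L₂.le_opNorm _).trans ?_
        exact mul_le_mul b1 n1 (norm_nonneg _) h0
      have e2 : w₁ q + w₂ (q + w₁ q) - (w₁ p + w₂ (p + w₁ p)) -
          (L₁ + L₂.comp (ContinuousLinearMap.id ℝ V + L₁)) (q - p) =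
          (w₁ q - w₁ p - L₁ (q - p)) +
          (w₂ (q + w₁ q) - w₂ (p + w₁ p) - L₂ (q + w₁ q - (p + w₁ p))) +
          L₂ (w₁ q - w₁ p - L₁ (q - p)) := by
        simp only [add_apply, ContinuousLinearMap.comp_apply,
          ContinuousLinearMap.id_apply, e1, map_add, map_sub]
        abel
      rw [e2]
      have n7 := norm_add₃_le (a := w₁ q - w₁ p - L₁ (q - p))
        (b := w₂ (q + w₁ q) - w₂ (p + w₁ p) - L₂ (q + w₁ q - (p + w₁ p)))
        (c := L₂ (w₁ q - w₁ p - L₁ (q - p)))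
      have h00 : 0 ≤ δ₂ * ‖q - p‖ ^ 2 := mul_nonneg h0 (sq_nonneg _)
      nlinarith

/-- the composition of the first `n` maps `id + w k` -/
def compo (w : ℕ → V → V) : ℕ → V → V
  | 0, p => p
  | n + 1, p => compo w n p + w n (compo w n p)

theorem small_compo {w : ℕ → V → V} {δ : ℕ → ℝ} (h : ∀ n, Small (δ n) (w n)) {Δ : ℝ}
    (hΔ : Δ ≤ 1 / 2) (hs : ∀ n, ∑ k ∈ Finset.range n, 3 * δ k ≤ Δ) (n : ℕ) :
    Small (∑ k ∈ Finset.range n, 3 * δ k) (fun p => compo w n p - p) := by
  induction n with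
  | zero =>
    simpa [compo] using (small_zero (V := V))
  | succ n ih =>
    have h1 := ih.comp (h n) ((hs n).trans hΔ)
    rw [Finset.sum_range_succ]
    convert h1 using 2 with p
    simp only [compo, add_sub_cancel]
    abel

/-! ### Displacements with small second order jets are small -/

theorem small_of_bounds {w : V → V} (hw : ContDiff ℝ 2 w) {δ : ℝ} (h0 : ∀ p, ‖w p‖ ≤ δ)
    (h1 : ∀ p, ‖fderiv ℝ w p‖ ≤ δ) (h2 : ∀ p, ‖iteratedFDeriv ℝ 2 w p‖ ≤ δ) : Small δ w where
  bd := h0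
  lip p q := by
    have hd : ∀ x ∈ (univ : Set V), DifferentiableAt ℝ w x := fun x _ =>
      (hw.differentiable (by norm_num)) x
    exact convex_univ.norm_image_sub_le_of_norm_fderiv_le hd (fun x _ => h1 x) (mem_univ p)
      (mem_univ q)
  tay p := by
    refine ⟨fderiv ℝ w p, h1 p, fun q => ?_⟩
    have hδ : 0 ≤ δ := (norm_nonneg _).trans (h0 p)
    have hd1 : ContDiff ℝ 1 (fderiv ℝ w) := hw.fderiv_right (by norm_num)
    have hlip : ∀ x, ‖fderiv ℝ w x - fderiv ℝ w p‖ ≤ δ * ‖x - p‖ := by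
      intro x
      have hd : ∀ x ∈ (univ : Set V), DifferentiableAt ℝ (fderiv ℝ w) x := fun x _ =>
        (hd1.differentiable (by norm_num)) x
      refine convex_univ.norm_image_sub_le_of_norm_fderiv_le hd (fun z _ => ?_) (mem_univ p)
        (mem_univ x)
      rw [← norm_iteratedFDeriv_one, norm_iteratedFDeriv_fderiv]
      exact h2 z
    have hconv : Convex ℝ (Metric.closedBall p ‖q - p‖) := convex_closedBall _ _
    have hp : p ∈ Metric.closedBall p ‖q - p‖ := Metric.mem_closedBall_self (norm_nonneg _)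
    have hq : q ∈ Metric.closedBall p ‖q - p‖ := by
      rw [mem_closedBall_iff_norm]
    have key := hconv.norm_image_sub_le_of_norm_hasFDerivWithin_le
      (f := fun x => w x - fderiv ℝ w p x) (f' := fun x => fderiv ℝ w x - fderiv ℝ w p)
      (C := δ * ‖q - p‖) (fun x _ => by
        have a1 : HasFDerivAt w (fderiv ℝ w x) x :=
          ((hw.differentiable (by norm_num)) x).hasFDerivAt
        exact (a1.sub (fderiv ℝ w p).hasFDerivAt).hasFDerivWithinAt) (fun x hx => by
        refine (hlip x).trans (mul_le_mul_of_nonneg_left ?_ hδ)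
        rwa [mem_closedBall_iff_norm] at hx) hp hq
    have e1 : w q - fderiv ℝ w p q - (w p - fderiv ℝ w p p) = w q - w p - fderiv ℝ w p (q - p) := by
      rw [map_sub]
      abel
    rw [e1] at key
    rw [sq, ← mul_assoc]
    exact key

/-! ### Cutting off -/

/-- the displacement of `σ` cut off by `c` -/
def cut (c : V → ℝ) (σ : V → V) (p : V) : V := c p • (σ p - p)

theorem exists_cut_const [FiniteDimensional ℝ V] {G : Set V} (hG : IsClosed G) {c : V → ℝ}
    (hc : ContDiff ℝ ∞ c) (hcs : HasCompactSupport c) (hc0 : ∀ p ∉ G, c p = 0) :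
    ∃ M : ℝ, 0 < M ∧ ∀ (σ : V → V) (e : ℝ), 0 ≤ e → (∀ p ∈ G, ContDiffAt ℝ 2 σ p) →
      (∀ p ∈ G, ‖σ p - p‖ ≤ e) →
      (∀ p ∈ G, ‖fderiv ℝ σ p - ContinuousLinearMap.id ℝ V‖ ≤ e) →
      (∀ p ∈ G, ‖iteratedFDeriv ℝ 2 σ p‖ ≤ e) → Small (M * e) (cut c σ) := by
  have hbd : ∀ i : ℕ, ∃ C : ℝ, 0 ≤ C ∧ ∀ x, ‖iteratedFDeriv ℝ i c x‖ ≤ C := by
    intro i
    obtain ⟨C, hC⟩ := (hc.continuous_iteratedFDeriv (m := i)
      (by exact_mod_cast le_top)).bounded_above_of_compact_support (hcs.iteratedFDeriv i)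
    exact ⟨C, (norm_nonneg _).trans (hC 0), hC⟩
  obtain ⟨C0, C0n, hC0⟩ := hbd 0
  obtain ⟨C1, C1n, hC1⟩ := hbd 1
  obtain ⟨C2, C2n, hC2⟩ := hbd 2
  refine ⟨C0 + 2 * C1 + C2 + 1, by positivity, fun σ e he h2 b0 b1 b2 => ?_⟩
  set M := C0 + 2 * C1 + C2 + 1 with hM
  have hu : ∀ p ∈ G, ContDiffAt ℝ 2 (fun q => σ q - q) p := fun p hp => (h2 p hp).sub contDiffAt_id
  have hw : ContDiff ℝ 2 (cut c σ) := by
    rw [contDiff_iff_contDiffAt]
    intro p
    by_cases hp : p ∈ G
    · exact (hc.contDiffAt.of_le (by norm_cast)).smul (hu p hp)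
    · have : cut c σ =ᶠ[𝓝 p] fun _ => 0 := by
        filter_upwards [hG.isOpen_compl.mem_nhds hp] with q hq
        simp [cut, hc0 q hq]
      exact contDiffAt_const.congr_of_eventuallyEq this
  -- the bounds off `G`
  have hoff : ∀ p ∉ G, ∀ i : ℕ, iteratedFDeriv ℝ i (cut c σ) p = 0 := by
    intro p hp i
    have : cut c σ =ᶠ[𝓝 p] fun _ => 0 := by
      filter_upwards [hG.isOpen_compl.mem_nhds hp] with q hq
      simp [cut, hc0 q hq]
    have h3 := this.iteratedFDeriv (𝕜 := ℝ) i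
    rw [h3.self_of_nhds, iteratedFDeriv_fun_zero]
    rfl
  have hjet : ∀ p ∈ G, ∀ j ≤ 2, ‖iteratedFDeriv ℝ j (fun q => σ q - q) p‖ ≤ e := by
    intro p hp j hj
    have hσ := h2 p hp
    interval_cases j
    · rw [norm_iteratedFDeriv_zero]
      exact b0 p hp
    · rw [norm_iteratedFDeriv_one]
      have : fderiv ℝ (fun q => σ q - q) p = fderiv ℝ σ p - ContinuousLinearMap.id ℝ V := by
        rw [fderiv_fun_sub (hσ.differentiableAt (by norm_num)) differentiableAt_fun_id]
        congr 1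
        exact fderiv_id
      rw [this]
      exact b1 p hp
    · have : iteratedFDeriv ℝ 2 (fun q => σ q - q) p = iteratedFDeriv ℝ 2 σ p := by
        rw [fun_iteratedFDeriv_sub_apply (by exact_mod_cast hσ) (by exact_mod_cast contDiffAt_id)]
        have h6 : iteratedFDeriv ℝ 2 (fun q : V => q) p = 0 := by
          ext v
          rw [iteratedFDeriv_two_apply]
          have h7 : (fderiv ℝ (fun q : V => q)) = fun _ => ContinuousLinearMap.id ℝ V := by
            funext z
            exact fderiv_id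
          rw [h7, fderiv_fun_const]
          simp
        rw [h6, sub_zero]
      rw [this]
      exact b2 p hp
  have hon : ∀ p ∈ G, ∀ j ≤ 2, ‖iteratedFDeriv ℝ j (cut c σ) p‖ ≤
      ∑ i ∈ Finset.range (j + 1), (j.choose i : ℝ) * ‖iteratedFDeriv ℝ i c p‖ * e := by
    intro p hp j hj
    obtain ⟨s, hs, hsu⟩ := (hu p hp).contDiffOn (m := 2) le_rfl (by simp)
    obtain ⟨s', hs's, hs'o, hps'⟩ := mem_nhds_iff.mp (by simpa using hs)
    have hj2 : ((j : ℕ) : WithTop ℕ∞) ≤ 2 := by exact_mod_cast hj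
    have key := norm_iteratedFDerivWithin_smul_le (𝕜 := ℝ) (f := c) (g := fun q => σ q - q)
      (s := s') (N := 2) ((hc.of_le (by norm_cast)).contDiffOn)
      (hsu.mono hs's) hs'o.uniqueDiffOn hps' hj2
    rw [iteratedFDerivWithin_of_isOpen j hs'o hps'] at key
    refine key.trans (Finset.sum_le_sum fun i hi => ?_)
    rw [iteratedFDerivWithin_of_isOpen i hs'o hps', iteratedFDerivWithin_of_isOpen (j - i) hs'o hps']
    exact mul_le_mul_of_nonneg_left (hjet p hp (j - i) (by omega)) (by positivity)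
  have hall : ∀ p, ∀ j ≤ 2, ‖iteratedFDeriv ℝ j (cut c σ) p‖ ≤ M * e := by
    intro p j hj
    by_cases hp : p ∈ G
    · refine (hon p hp j hj).trans ?_
      have a0 := hC0 p
      have a1 := hC1 p
      have a2 := hC2 p
      interval_cases j
      · simp only [zero_add, Finset.range_one, Finset.sum_singleton, Nat.choose_self, Nat.cast_one,
          one_mul]
        nlinarith
      · simp only [Finset.sum_range_succ, Finset.range_zero, Finset.sum_empty, zero_add]
        simp only [Nat.choose_zero_right, Nat.choose_self, Nat.cast_one, one_mul]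
        nlinarith
      · simp only [Finset.sum_range_succ, Finset.range_zero, Finset.sum_empty, zero_add]
        simp only [Nat.choose_zero_right, Nat.choose_self, Nat.cast_one, one_mul,
          show Nat.choose 2 1 = 2 from rfl, Nat.cast_ofNat]
        nlinarith
    · rw [hoff p hp j, norm_zero]
      positivity
  refine small_of_bounds hw (fun p => ?_) (fun p => ?_) (fun p => hall p 2 le_rfl)
  · have := hall p 0 (by norm_num)
    rwa [norm_iteratedFDeriv_zero] at this
  · have := hall p 1 (by norm_num)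
    rwa [norm_iteratedFDeriv_one] at this

/-- smooth cutoff functions for a compact set inside the interior of a closed set -/
theorem exists_cutoff [FiniteDimensional ℝ V] {K G : Set V} (hK : IsCompact K)
    (hG : Bornology.IsBounded G) (hGc : IsClosed G) (hKG : K ⊆ interior G) :
    ∃ c : V → ℝ, ContDiff ℝ ∞ c ∧ HasCompactSupport c ∧ (∀ p ∈ K, c p = 1) ∧
      (∀ p ∉ G, c p = 0) := by
  obtain ⟨f, h1, h2, -⟩ := exists_contMDiffMap_one_nhds_of_subset_interior (I := 𝓘(ℝ, V))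
    (n := ⊤) hK.isClosed hKG
  refine ⟨f, f.contMDiff.contDiff, ?_, fun p hp => h1.self_of_nhdsSet p hp, h2⟩
  have : ProperSpace V := FiniteDimensional.proper_real V
  refine HasCompactSupport.of_support_subset_isCompact
    (Metric.isCompact_of_isClosed_isBounded hGc hG) (fun p hp => ?_)
  by_contra h
  exact hp (h2 p h)

end

end Pool.Agent.Closing
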