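import Pool.Agent.Lib.Closing.Defs
import Pool.Agent.Lib.Closing.Small
import Pool.Agent.Lib.Closing.BridgeSum

/-!
# The bridge: a cycle is driven by one global `C^{1,1}`-small map

For a suitable sequence `e`, every `Cycle B e` has a globally small displacement `v` with
`y n (rho (i (n+1))) = P + v P`, `P = y n (1 - rho (i n))`.
-/

open scoped ContDiff Topology
open Set Filter

namespace Pool.Agent.Closing

noncomputable section

/-- The separation properties of the windows used by the bridge. -/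
structure Sep (B : ℝ) : Prop where
  dsep : ∀ j : Word, ∃ γ : ℝ, 0 < γ ∧ ∀ i, i ≠ j → ∀ p ∈ D B i,
    wd B j + γ ≤ ‖p.2 - X B (dig j)‖
  ssep : ∀ j : Word, ∃ γ : ℝ, 0 < γ ∧ ∀ i, i ≠ j → ∀ p ∈ S B i, wd B j + γ ≤ ‖off B j p‖
  dbox : ∀ i : Word, ∀ p ∈ D B i, ‖p.2‖ ≤ 1
  sbox : ∀ i : Word, ∀ p ∈ S B i, ‖p.2‖ ≤ 2 → |p.1| ≤ 1
  offc : ∀ j : Word, Continuous (off B j)
  openS : ∀ j : Word, IsOpen (S B j)
  fin : ∀ n : ℕ, {i : Word | rt i ≤ n}.Finite
  rho_pos : ∀ i : Word, 0 < rho i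

variable {B : ℝ}

theorem Sep.rt_eq (hS : Sep B) (i : Word) : (rt i : ℤ) = 2 * rho i - 1 := by
  have := hS.rho_pos i
  unfold rt
  omega

/-- the core of the good region of level `t` -/
def Core (B : ℝ) (γ γ' : Word → ℝ) (t : ℤ) : Set E :=
  {p | |p.1| ≤ 3 / 2 ∧ ‖p.2‖ ≤ 3 ∧
    (∀ j : Word, (rt j : ℤ) < 2 * t → wd B j + γ j / 2 ≤ ‖p.2 - X B (dig j)‖) ∧
    (∀ j : Word, (rt j : ℤ) < -(2 * t) → wd B j + γ' j / 2 ≤ ‖off B j p‖)}

theorem isOpen_D' (B : ℝ) (i : Word) : IsOpen (D B i) :=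
  isOpen_lt (by fun_prop) continuous_const

theorem isClosed_Core (hS : Sep B) (γ γ' : Word → ℝ) (t : ℤ) : IsClosed (Core B γ γ' t) := by
  have h1 : IsClosed {p : E | |p.1| ≤ 3 / 2} := isClosed_le (by fun_prop) continuous_const
  have h2 : IsClosed {p : E | ‖p.2‖ ≤ 3} := isClosed_le (by fun_prop) continuous_const
  refine IsClosed.inter h1 ?_
  refine IsClosed.inter h2 ?_
  refine IsClosed.inter ?_ ?_
  · have : {p : E | ∀ j : Word, (rt j : ℤ) < 2 * t → wd B j + γ j / 2 ≤ ‖p.2 - X B (dig j)‖} =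
        ⋂ j : Word, ⋂ _ : (rt j : ℤ) < 2 * t, {p : E | wd B j + γ j / 2 ≤ ‖p.2 - X B (dig j)‖} := by
      ext p
      simp
    change IsClosed {p : E | ∀ j : Word, (rt j : ℤ) < 2 * t →
      wd B j + γ j / 2 ≤ ‖p.2 - X B (dig j)‖}
    rw [this]
    exact isClosed_iInter fun j => isClosed_iInter fun _ =>
      isClosed_le continuous_const (by fun_prop)
  · have : {p : E | ∀ j : Word, (rt j : ℤ) < -(2 * t) → wd B j + γ' j / 2 ≤ ‖off B j p‖} =
        ⋂ j : Word, ⋂ _ : (rt j : ℤ) < -(2 * t), {p : E | wd B j + γ' j / 2 ≤ ‖off B j p‖} := by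
      ext p
      simp
    change IsClosed {p : E | ∀ j : Word, (rt j : ℤ) < -(2 * t) →
      wd B j + γ' j / 2 ≤ ‖off B j p‖}
    rw [this]
    exact isClosed_iInter fun j => isClosed_iInter fun _ =>
      isClosed_le continuous_const (hS.offc j).norm

theorem isCompact_Core (hS : Sep B) (γ γ' : Word → ℝ) (t : ℤ) : IsCompact (Core B γ γ' t) := by
  refine Metric.isCompact_of_isClosed_isBounded (isClosed_Core hS γ γ' t) ?_
  refine (Metric.isBounded_closedBall (x := (0 : E)) (r := 3)).subset (fun p hp => ?_)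
  rw [mem_closedBall_zero_iff, Prod.norm_def, Real.norm_eq_abs]
  exact max_le (hp.1.trans (by norm_num)) hp.2.1

theorem isBounded_Good (B : ℝ) (t : ℤ) : Bornology.IsBounded (Good B t) := by
  refine (Metric.isBounded_closedBall (x := (0 : E)) (r := 50)).subset (fun p hp => ?_)
  rw [mem_closedBall_zero_iff, Prod.norm_def, Real.norm_eq_abs]
  exact max_le (hp.1.trans (by norm_num)) hp.2.1

theorem isClosed_Good (hS : Sep B) (t : ℤ) : IsClosed (Good B t) := by
  have h1 : IsClosed {p : E | |p.1| ≤ 2} := isClosed_le (by fun_prop) continuous_const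
  have h2 : IsClosed {p : E | ‖p.2‖ ≤ 50} := isClosed_le (by fun_prop) continuous_const
  refine IsClosed.inter h1 ?_
  refine IsClosed.inter h2 ?_
  refine IsClosed.inter ?_ ?_
  · have : {p : E | 0 ≤ t → ∀ j : Word, (rt j : ℤ) < 2 * t → p ∉ D B j} =
        ⋂ _ : 0 ≤ t, ⋂ j : Word, ⋂ _ : (rt j : ℤ) < 2 * t, (D B j)ᶜ := by
      ext p
      simp
    change IsClosed {p : E | 0 ≤ t → ∀ j : Word, (rt j : ℤ) < 2 * t → p ∉ D B j}
    rw [this]
    exact isClosed_iInter fun _ => isClosed_iInter fun j => isClosed_iInter fun _ =>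
      (isOpen_D' B j).isClosed_compl
  · have : {p : E | t < 0 → ∀ j : Word, (rt j : ℤ) < -(2 * t) → p ∉ S B j} =
        ⋂ _ : t < 0, ⋂ j : Word, ⋂ _ : (rt j : ℤ) < -(2 * t), (S B j)ᶜ := by
      ext p
      simp
    change IsClosed {p : E | t < 0 → ∀ j : Word, (rt j : ℤ) < -(2 * t) → p ∉ S B j}
    rw [this]
    exact isClosed_iInter fun _ => isClosed_iInter fun j => isClosed_iInter fun _ =>
      (hS.openS j).isClosed_compl

theorem finite_rt_lt (hS : Sep B) (m : ℤ) : {j : Word | (rt j : ℤ) < m}.Finite := by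
  refine (hS.fin m.toNat).subset (fun j hj => ?_)
  simp only [mem_ofPred_eq] at hj ⊢
  omega

theorem Core_subset_interior_Good (hS : Sep B) {γ γ' : Word → ℝ} (hγ : ∀ j, 0 < γ j)
    (hγ' : ∀ j, 0 < γ' j) (t : ℤ) : Core B γ γ' t ⊆ interior (Good B t) := by
  intro p hp
  have hF := finite_rt_lt hS (2 * t)
  have hF' := finite_rt_lt hS (-(2 * t))
  have hopen : IsOpen ({q : E | |q.1| < 2} ∩ {q : E | ‖q.2‖ < 50} ∩
      (⋂ j ∈ {j : Word | (rt j : ℤ) < 2 * t}, {q : E | wd B j < ‖q.2 - X B (dig j)‖}) ∩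
      (⋂ j ∈ {j : Word | (rt j : ℤ) < -(2 * t)}, {q : E | wd B j < ‖off B j q‖})) := by
    refine IsOpen.inter (IsOpen.inter (IsOpen.inter ?_ ?_) ?_) ?_
    · exact isOpen_lt (by fun_prop) continuous_const
    · exact isOpen_lt (by fun_prop) continuous_const
    · exact hF.isOpen_biInter fun j _ => isOpen_lt continuous_const (by fun_prop)
    · exact hF'.isOpen_biInter fun j _ => isOpen_lt continuous_const (hS.offc j).norm
  refine interior_maximal ?_ hopen ?_
  · rintro q ⟨⟨⟨h1, h2⟩, h3⟩, h4⟩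
    refine ⟨le_of_lt h1, le_of_lt h2, fun _ j hj hq => ?_, fun _ j hj hq => ?_⟩
    · have := mem_iInter₂.1 h3 j hj
      have hq' : ‖q.2 - X B (dig j)‖ < wd B j := hq
      simp only [mem_ofPred_eq] at this
      linarith
    · have := mem_iInter₂.1 h4 j hj
      have hq' : ‖off B j q‖ < wd B j := hq.1
      simp only [mem_ofPred_eq] at this
      linarith
  · obtain ⟨h1, h2, h3, h4⟩ := hp
    refine ⟨⟨⟨?_, ?_⟩, ?_⟩, ?_⟩
    · exact lt_of_le_of_lt h1 (by norm_num)
    · exact lt_of_le_of_lt h2 (by norm_num)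
    · refine mem_iInter₂.2 fun j hj => ?_
      have := h3 j hj
      have h5 := hγ j
      simp only [mem_ofPred_eq]
      linarith
    · refine mem_iInter₂.2 fun j hj => ?_
      have := h4 j hj
      have h5 := hγ' j
      simp only [mem_ofPred_eq]
      linarith

/-- uniform continuity of the offset on the box -/
theorem exists_unif (hS : Sep B) (j : Word) {γ : ℝ} (hγ : 0 < γ) :
    ∃ θ : ℝ, 0 < θ ∧ ∀ p q : E, ‖p‖ ≤ 3 → ‖q‖ ≤ 3 → ‖p - q‖ ≤ θ →
      |‖off B j p‖ - ‖off B j q‖| ≤ γ := by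
  have hc : ContinuousOn (fun p : E => ‖off B j p‖) (Metric.closedBall 0 3) :=
    (hS.offc j).norm.continuousOn
  have hu := (isCompact_closedBall (0 : E) 3).uniformContinuousOn_of_continuous hc
  rw [Metric.uniformContinuousOn_iff_le] at hu
  obtain ⟨θ, h1, h2⟩ := hu γ hγ
  refine ⟨θ, h1, fun p q hp hq hpq => ?_⟩
  have := h2 p (by rwa [mem_closedBall_zero_iff]) q (by rwa [mem_closedBall_zero_iff])
    (by rwa [dist_eq_norm])
  rwa [Real.dist_eq] at this

/-- the threshold for the perturbations of level `±n` -/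
theorem exists_theta (hS : Sep B) {γ γ' : Word → ℝ} (hγ : ∀ j, 0 < γ j) (hγ' : ∀ j, 0 < γ' j)
    (n : ℕ) : ∃ θ : ℝ, 0 < θ ∧ θ ≤ 1 / 8 ∧ (∀ j : Word, (rt j : ℤ) < 2 * n → θ ≤ γ j / 2) ∧
      (∀ j : Word, (rt j : ℤ) < 2 * n → ∀ p q : E, ‖p‖ ≤ 3 → ‖q‖ ≤ 3 → ‖p - q‖ ≤ θ →
        |‖off B j p‖ - ‖off B j q‖| ≤ γ' j / 2) := by
  have hF := finite_rt_lt hS (2 * n)
  choose θ h1 h2 using fun j => exists_unif hS j (half_pos (hγ' j))
  obtain ⟨a, ha, ha'⟩ : ∃ a : ℝ, 0 < a ∧ ∀ j ∈ {j : Word | (rt j : ℤ) < 2 * n},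
      a ≤ min (γ j / 2) (θ j) := by
    have hpos : ∀ j, 0 < min (γ j / 2) (θ j) := fun j => lt_min (half_pos (hγ j)) (h1 j)
    rcases hF.toFinset.eq_empty_or_nonempty with h | h
    · refine ⟨1, one_pos, fun j hj => ?_⟩
      have : j ∈ hF.toFinset := hF.mem_toFinset.2 hj
      rw [h] at this
      simp at this
    · refine ⟨hF.toFinset.inf' h fun j => min (γ j / 2) (θ j), ?_, fun j hj => ?_⟩
      · rw [Finset.lt_inf'_iff]
        exact fun j _ => hpos j
      · exact Finset.inf'_le _ (hF.mem_toFinset.2 hj)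
  refine ⟨min a (1 / 8), lt_min ha (by norm_num), min_le_right _ _, fun j hj => ?_,
    fun j hj p q hp hq hpq => ?_⟩
  · exact (min_le_left _ _).trans ((ha' j hj).trans (min_le_left _ _))
  · exact h2 j p q hp hq (hpq.trans ((min_le_left _ _).trans ((ha' j hj).trans (min_le_right _ _))))

/-! ### Tracking a passage of a cycle -/

section Track

variable {e : ℕ → ℝ} (C : Cycle B e)

theorem Cycle.step_le (n : ℕ) {t : ℤ} (h1 : 1 - (rho (C.i n) : ℤ) ≤ t)
    (h2 : t < rho (C.i (n + 1))) : ‖C.y n (t + 1) - C.y n t‖ ≤ e t.natAbs := by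
  rw [C.step n t h1 h2]
  exact C.close0 t _ (C.good n t h1 h2)

/-- outward part: distance to the end point -/
theorem Cycle.out_le (hS : Sep B) (n d : ℕ) (hd : d ≤ rho (C.i (n + 1))) :
    ‖C.y n (rho (C.i (n + 1)) : ℤ) - C.y n ((rho (C.i (n + 1)) - d : ℕ) : ℤ)‖ ≤
      ∑ k ∈ Finset.Ico (rho (C.i (n + 1)) - d) (rho (C.i (n + 1))), e k := by
  have hr := hS.rho_pos (C.i n)
  set s := rho (C.i (n + 1)) with hs
  induction d with
  | zero => simp
  | succ d ih =>
    have h1 := ih (by omega)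
    have h2 := C.step_le n (t := ((s - (d + 1) : ℕ) : ℤ)) (by omega) (by omega)
    have e1 : ((s - (d + 1) : ℕ) : ℤ) + 1 = ((s - d : ℕ) : ℤ) := by omega
    rw [e1, Int.natAbs_natCast] at h2
    have e2 : s - d = s - (d + 1) + 1 := by omega
    rw [Finset.sum_eq_sum_Ico_succ_bot (by omega), ← e2]
    have e3 : C.y n (s : ℤ) - C.y n ((s - (d + 1) : ℕ) : ℤ) =
      (C.y n (s : ℤ) - C.y n ((s - d : ℕ) : ℤ)) +
        (C.y n ((s - d : ℕ) : ℤ) - C.y n ((s - (d + 1) : ℕ) : ℤ)) := by abel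
    rw [e3]
    refine (norm_add_le _ _).trans ?_
    linarith

/-- inward part: distance to the starting point -/
theorem Cycle.in_le (hS : Sep B) (n d : ℕ) (hd : d + 1 ≤ rho (C.i n)) :
    ‖C.y n (-((rho (C.i n) - 1 - d : ℕ) : ℤ)) - C.y n (1 - (rho (C.i n) : ℤ))‖ ≤
      ∑ k ∈ Finset.Ico (rho (C.i n) - d) (rho (C.i n)), e k := by
  have hr := hS.rho_pos (C.i (n + 1))
  set r := rho (C.i n) with hs
  induction d with
  | zero =>
    have e1 : (-((r - 1 - 0 : ℕ) : ℤ)) = 1 - (r : ℤ) := by omega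
    rw [e1]
    simp
  | succ d ih =>
    have h1 := ih (by omega)
    have h2 := C.step_le n (t := -((r - 1 - d : ℕ) : ℤ)) (by omega) (by omega)
    have e1 : -((r - 1 - d : ℕ) : ℤ) + 1 = -((r - 1 - (d + 1) : ℕ) : ℤ) := by omega
    have e0 : (-((r - 1 - d : ℕ) : ℤ)).natAbs = r - (d + 1) := by omega
    rw [e1, e0] at h2
    have e2 : r - d = r - (d + 1) + 1 := by omega
    rw [Finset.sum_eq_sum_Ico_succ_bot (by omega), ← e2]
    have e3 : C.y n (-((r - 1 - (d + 1) : ℕ) : ℤ)) - C.y n (1 - (r : ℤ)) =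
      (C.y n (-((r - 1 - (d + 1) : ℕ) : ℤ)) - C.y n (-((r - 1 - d : ℕ) : ℤ))) +
        (C.y n (-((r - 1 - d : ℕ) : ℤ)) - C.y n (1 - (r : ℤ))) := by abel
    rw [e3]
    refine (norm_add_le _ _).trans ?_
    linarith

end Track

theorem fst_abs_le (p : E) : |p.1| ≤ ‖p‖ := norm_fst_le p

theorem snd_norm_le (p : E) : ‖p.2‖ ≤ ‖p‖ := norm_snd_le p

/-- All points of a passage of a cycle lie in the cores of the good regions. -/
theorem Cycle.mem_Core (hS : Sep B) {γ γ' : Word → ℝ}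
    (hγD : ∀ j i, i ≠ j → ∀ p ∈ D B i, wd B j + γ j ≤ ‖p.2 - X B (dig j)‖)
    (hγS : ∀ j i, i ≠ j → ∀ p ∈ S B i, wd B j + γ' j ≤ ‖off B j p‖)
    {θ : ℕ → ℝ} (hθ2 : ∀ n, θ n ≤ 1 / 8)
    (hθ3 : ∀ (n : ℕ) (j : Word), (rt j : ℤ) < 2 * n → θ n ≤ γ j / 2)
    (hθ4 : ∀ (n : ℕ) (j : Word), (rt j : ℤ) < 2 * n → ∀ p q : E, ‖p‖ ≤ 3 → ‖q‖ ≤ 3 →
      ‖p - q‖ ≤ θ n → |‖off B j p‖ - ‖off B j q‖| ≤ γ' j / 2)
    {e : ℕ → ℝ} (he0 : ∀ n, 0 ≤ e n) (he : ∀ m n, ∑ k ∈ Finset.Ico m n, e k ≤ θ m)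
    (C : Cycle B e) (n : ℕ) {t : ℤ} (h1 : 1 - (rho (C.i n) : ℤ) ≤ t)
    (h2 : t < rho (C.i (n + 1))) : C.y n t ∈ Core B γ γ' t := by
  have hs0 := hS.rho_pos (C.i (n + 1))
  have hr0 := hS.rho_pos (C.i n)
  have hrs := hS.rt_eq (C.i (n + 1))
  have hrr := hS.rt_eq (C.i n)
  have hQ := C.fin n
  have hP := C.start n
  set s := rho (C.i (n + 1)) with hs
  set r := rho (C.i n) with hr
  set Q := C.y n (s : ℤ) with hQdef
  set P := C.y n (1 - (r : ℤ)) with hPdef
  -- outward and inward distances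
  have hout : ∀ m : ℕ, m ≤ s → ‖Q - C.y n (m : ℤ)‖ ≤ θ m := by
    intro m hm
    have := C.out_le hS n (s - m) (by omega)
    have e1 : s - (s - m) = m := by omega
    rw [← hs, e1] at this
    exact this.trans (he m s)
  have hin : ∀ m : ℕ, m + 1 ≤ r → ‖C.y n (-(m : ℤ)) - P‖ ≤ θ m := by
    intro m hm
    have := C.in_le hS n (r - 1 - m) (by omega)
    have e1 : r - 1 - (r - 1 - m) = m := by omega
    rw [← hr, e1] at this
    refine this.trans (le_trans ?_ (he m r))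
    refine Finset.sum_le_sum_of_subset_of_nonneg ?_ (fun k _ _ => he0 k)
    intro k hk
    rw [Finset.mem_Ico] at hk ⊢
    omega
  have h0 : ‖Q - C.y n 0‖ ≤ 1 / 8 := by
    have := hout 0 (by omega)
    simp only [Nat.cast_zero] at this
    exact this.trans (hθ2 0)
  have h0' : ‖C.y n 0 - P‖ ≤ 1 / 8 := by
    have := hin 0 (by omega)
    simp only [Nat.cast_zero, neg_zero] at this
    exact this.trans (hθ2 0)
  have hQ2 : ‖Q.2‖ ≤ 1 := hS.dbox _ _ hQ
  have n1 : ‖(Q - C.y n 0).2‖ ≤ ‖Q - C.y n 0‖ := snd_norm_le _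
  have n2 : ‖(C.y n 0 - P).2‖ ≤ ‖C.y n 0 - P‖ := snd_norm_le _
  have hP2 : ‖P.2‖ ≤ 2 := by
    have e1 : P.2 = Q.2 - (Q - C.y n 0).2 - (C.y n 0 - P).2 := by simp
    rw [e1]
    refine (norm_sub_le _ _).trans ?_
    have := norm_sub_le Q.2 (Q - C.y n 0).2
    linarith
  have hP1 : |P.1| ≤ 1 := hS.sbox _ _ hP hP2
  have hnear : ‖C.y n t - C.y n 0‖ ≤ 1 / 4 := by
    rcases le_or_gt 0 t with ht | ht
    · obtain ⟨m, rfl⟩ := Int.eq_ofNat_of_zero_le ht
      have h3 := hout m (by omega)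
      have h4 := hθ2 m
      have e1 : C.y n (m : ℤ) - C.y n 0 = (Q - C.y n 0) - (Q - C.y n (m : ℤ)) := by abel
      rw [e1]
      refine (norm_sub_le _ _).trans ?_
      linarith
    · obtain ⟨m, hm⟩ := Int.eq_ofNat_of_zero_le (show 0 ≤ -t by omega)
      obtain rfl : t = -(m : ℤ) := by omega
      have h3 := hin m (by omega)
      have h4 := hθ2 m
      have e1 : C.y n (-(m : ℤ)) - C.y n 0 = (C.y n (-(m : ℤ)) - P) - (C.y n 0 - P) := by abel
      rw [e1]
      refine (norm_sub_le _ _).trans ?_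
      linarith
  have n3 : ‖(C.y n t - C.y n 0).2‖ ≤ ‖C.y n t - C.y n 0‖ := snd_norm_le _
  have n4 : |(C.y n t - C.y n 0).1| ≤ ‖C.y n t - C.y n 0‖ := fst_abs_le _
  have n5 : |(C.y n 0 - P).1| ≤ ‖C.y n 0 - P‖ := fst_abs_le _
  have m2 : ‖(C.y n t).2‖ ≤ 2 := by
    have e1 : (C.y n t).2 = Q.2 - (Q - C.y n 0).2 + (C.y n t - C.y n 0).2 := by simp
    rw [e1]
    refine (norm_add_le _ _).trans ?_
    have := norm_sub_le Q.2 (Q - C.y n 0).2
    linarith
  have m1 : |(C.y n t).1| ≤ 3 / 2 := by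
    have e1 : (C.y n t).1 = P.1 + (C.y n 0 - P).1 + (C.y n t - C.y n 0).1 := by simp
    rw [e1]
    refine (abs_add_le _ _).trans ?_
    have := abs_add_le P.1 (C.y n 0 - P).1
    linarith
  refine ⟨m1, by linarith, fun j hj => ?_, fun j hj => ?_⟩
  · -- outward separation
    have hjrt : 0 < rt j := by
      have := hS.rt_eq j
      have := hS.rho_pos j
      omega
    obtain ⟨m, rfl⟩ := Int.eq_ofNat_of_zero_le (show 0 ≤ t by omega)
    have hne : C.i (n + 1) ≠ j := by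
      rintro rfl
      omega
    have h3 := hγD j _ hne Q hQ
    have h4 := hout m (by omega)
    have h5 := hθ3 m j hj
    have n6 : ‖(Q - C.y n (m : ℤ)).2‖ ≤ ‖Q - C.y n (m : ℤ)‖ := snd_norm_le _
    have e1 : Q.2 - X B (dig j) = ((C.y n (m : ℤ)).2 - X B (dig j)) + (Q - C.y n (m : ℤ)).2 := by
      simp
    rw [e1] at h3
    have := norm_add_le ((C.y n (m : ℤ)).2 - X B (dig j)) (Q - C.y n (m : ℤ)).2
    linarith
  · -- inward separation
    have hjrt : 0 < rt j := by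
      have := hS.rt_eq j
      have := hS.rho_pos j
      omega
    obtain ⟨m, hm⟩ := Int.eq_ofNat_of_zero_le (show 0 ≤ -t by omega)
    obtain rfl : t = -(m : ℤ) := by omega
    have hne : C.i n ≠ j := by
      rintro rfl
      omega
    have h3 := hγS j _ hne P hP
    have h4 := hin m (by omega)
    have b1 : ‖P‖ ≤ 3 := by
      rw [Prod.norm_def, Real.norm_eq_abs]
      exact max_le (by linarith) (by linarith)
    have b2 : ‖C.y n (-(m : ℤ))‖ ≤ 3 := by
      rw [Prod.norm_def, Real.norm_eq_abs]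
      exact max_le (by linarith) (by linarith)
    have h5 := hθ4 m j (by omega) (C.y n (-(m : ℤ))) P b2 b1 h4
    have := (abs_le.1 h5).1
    linarith

theorem exists_e_global (hS : Sep B) {ε : ℝ} (hε : 0 < ε) :
    ∃ e : ℕ → ℝ, (∀ n, 0 < e n) ∧ ∀ C : Cycle B e, ∃ v : E → E, Small ε v ∧
      ∀ n, C.y n (rho (C.i (n + 1)) : ℤ) =
        C.y n (1 - (rho (C.i n) : ℤ)) + v (C.y n (1 - (rho (C.i n) : ℤ))) := by
  choose γ hγ hγD using hS.dsep
  choose γ' hγ' hγS using hS.ssep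
  choose c hc1 hc2 hc3 hc4 using fun t : ℤ => exists_cutoff (isCompact_Core hS γ γ' t)
    (isBounded_Good B t) (isClosed_Good hS t) (Core_subset_interior_Good hS hγ hγ' t)
  choose M hM1 hM2 using fun t : ℤ =>
    exists_cut_const (isClosed_Good hS t) (hc1 t) (hc2 t) (hc4 t)
  choose θ hθ1 hθ2 hθ3 hθ4 using fun n => exists_theta hS hγ hγ' n
  set ε' := min ε (1 / 2) with hε'
  have hε'0 : 0 < ε' := lt_min hε (by norm_num)
  set Θ : ℕ → ℝ := fun n => min (θ n) (ε' / 9 * (1 / 2) ^ n / (M n + M (-n))) with hΘdef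
  have hMM : ∀ n : ℕ, 0 < M n + M (-n) := fun n => add_pos (hM1 _) (hM1 _)
  have hΘ : ∀ n, 0 < Θ n := fun n => lt_min (hθ1 n) (div_pos (by positivity) (hMM n))
  refine ⟨eseq Θ, eseq_pos hΘ, fun C => ?_⟩
  -- bound for the half times
  obtain ⟨R, hR⟩ : ∃ R : ℕ, ∀ n, rho (C.i n) ≤ R := by
    refine ⟨(Finset.range C.N).sup fun n => rho (C.i n), fun n => ?_⟩
    have h1 : Function.Periodic C.i C.N := C.per
    rw [← h1.map_mod_nat n]
    exact Finset.le_sup (f := fun n => rho (C.i n)) (Finset.mem_range.2 (Nat.mod_lt n C.hN))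
  set w : ℕ → E → E := fun k => cut (c ((k : ℤ) - R)) (C.σ ((k : ℤ) - R)) with hw
  have hsmall : ∀ k : ℕ, Small (ε' / 9 * (1 / 2) ^ ((k : ℤ) - R).natAbs) (w k) := by
    intro k
    set t : ℤ := (k : ℤ) - R with ht
    have h1 := hM2 t (C.σ t) (eseq Θ t.natAbs) (eseq_pos hΘ _).le (C.smooth t) (C.close0 t)
      (C.close1 t) (C.close2 t)
    refine h1.mono ?_
    have h2 : M t ≤ M (t.natAbs : ℤ) + M (-(t.natAbs : ℤ)) := by
      rcases Int.natAbs_eq t with h | h
      · rw [← h]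
        have := hM1 (-t)
        linarith
      · have h3 : -(t.natAbs : ℤ) = t := by omega
        rw [h3]
        have := hM1 (t.natAbs : ℤ)
        linarith
    have h3 : eseq Θ t.natAbs ≤ ε' / 9 * (1 / 2) ^ t.natAbs / (M t.natAbs + M (-t.natAbs)) :=
      (eseq_le_self hΘ _).trans (min_le_right _ _)
    have h4 := hMM t.natAbs
    rw [le_div_iff₀ h4] at h3
    have h5 := (eseq_pos hΘ t.natAbs).le
    nlinarith
  have hsum : ∀ n, ∑ k ∈ Finset.range n, 3 * (ε' / 9 * (1 / 2) ^ ((k : ℤ) - R).natAbs) ≤ ε' := by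
    intro n
    have h1 := sum_half_natAbs R n
    have h2 : ∑ k ∈ Finset.range n, 3 * (ε' / 9 * (1 / 2) ^ ((k : ℤ) - R).natAbs) =
        ε' / 3 * ∑ k ∈ Finset.range n, (1 / 2 : ℝ) ^ ((k : ℤ) - R).natAbs := by
      rw [Finset.mul_sum]
      refine Finset.sum_congr rfl fun k _ => ?_
      ring
    rw [h2]
    nlinarith
  refine ⟨fun p => compo w (2 * R + 1) p - p,
    ((small_compo hsmall (min_le_right _ _) hsum (2 * R + 1)).mono
      ((hsum _).trans (min_le_left _ _))), fun n => ?_⟩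
  have hrR := hR n
  have hsR := hR (n + 1)
  have hs0 := hS.rho_pos (C.i (n + 1))
  have hr0 := hS.rho_pos (C.i n)
  have hrs := hS.rt_eq (C.i (n + 1))
  have hrr := hS.rt_eq (C.i n)
  have hQ := C.fin n
  have hP := C.start n
  have hcore := fun {t : ℤ} (h1 : 1 - (rho (C.i n) : ℤ) ≤ t) (h2 : t < rho (C.i (n + 1))) =>
    C.mem_Core hS hγD hγS hθ2 hθ3 hθ4 (fun n => (eseq_pos hΘ n).le)
      (fun m n => (sum_eseq_le hΘ m n).trans (min_le_left _ _)) n h1 h2
  set s := rho (C.i (n + 1)) with hs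
  set r := rho (C.i n) with hr
  set Q := C.y n (s : ℤ) with hQdef
  set P := C.y n (1 - (r : ℤ)) with hPdef
  set z : ℤ → E := fun t => if t ≤ 1 - (r : ℤ) then P else if t ≤ s then C.y n t else Q with hz
  have hstep : ∀ t : ℤ, z (t + 1) = z t + cut (c t) (C.σ t) (z t) := by
    intro t
    simp only [hz]
    rcases lt_or_ge t (1 - (r : ℤ)) with h1 | h1
    · rw [if_pos (by omega), if_pos (by omega)]
      have : c t P = 0 := by
        refine hc4 t P fun hG => hG.2.2.2 (by omega) (C.i n) (by omega) hP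
      simp [cut, this]
    rcases lt_or_ge t s with h2 | h2
    · have hy : (if t ≤ 1 - (r : ℤ) then P else if t ≤ s then C.y n t else Q) = C.y n t := by
        split_ifs with h3 h4
        · have : t = 1 - (r : ℤ) := le_antisymm h3 h1
          rw [this]
        · rfl
        · omega
      rw [hy, if_neg (by omega), if_pos (by omega), C.step n t h1 h2]
      have : c t (C.y n t) = 1 := hc3 t _ (hcore h1 h2)
      simp [cut, this]
    · have hy : (if t ≤ 1 - (r : ℤ) then P else if t ≤ s then C.y n t else Q) = Q := by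
        rw [if_neg (by omega)]
        split_ifs with h3
        · have : t = s := le_antisymm h3 h2
          rw [this]
        · rfl
      rw [hy, if_neg (by omega), if_neg (by omega)]
      have : c t Q = 0 := by
        refine hc4 t Q fun hG => hG.2.2.1 (by omega) (C.i (n + 1)) (by omega) hQ
      simp [cut, this]
  have hcomp : ∀ k : ℕ, compo w k P = z ((k : ℤ) - R) := by
    intro k
    induction k with
    | zero =>
      simp only [compo, hz]
      rw [if_pos (by push_cast; omega)]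
    | succ k ih =>
      have h1 := hstep ((k : ℤ) - R)
      have e1 : ((k + 1 : ℕ) : ℤ) - R = (k : ℤ) - R + 1 := by push_cast; ring
      rw [e1, h1]
      change compo w k P + w k (compo w k P) = _
      rw [ih]
  have hfin := hcomp (2 * R + 1)
  simp only [hfin]
  have : z (((2 * R + 1 : ℕ) : ℤ) - R) = Q := by
    simp only [hz]
    rw [if_neg (by push_cast; omega), if_neg (by push_cast; omega)]
  rw [this]
  abel

end

end Pool.Agent.Closing
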