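import Pool.Agent.Lib.Closing.PurePos

/-!
Tube bounds: Lipschitz and first order Taylor bounds for maps of `ℝ × ℝ²` which are close to
the identity in the second variable, and their behaviour under composition.
-/

namespace Pool.Agent.Closing.Pure

/-- Phase space: height `a` and position `b`. -/
abbrev E3 := ℝ × V2

/-- Tube bounds. -/
structure TB (T : E3 → E3) (Ω : Set E3) (g e K B A : ℝ) : Prop where
  lipb : ∀ y ∈ Ω, ∀ y' ∈ Ω,
    ‖(T y').2 - (T y).2 - (y'.2 - y.2)‖ ≤ g * ‖y'.2 - y.2‖ + e * |y'.1 - y.1|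
  lipa : ∀ y ∈ Ω, ∀ y' ∈ Ω, |(T y').1 - (T y).1| ≤ K * (|y'.1 - y.1| + ‖y'.2 - y.2‖)
  tay : ∀ y ∈ Ω, ∃ L : E3 →ₗ[ℝ] E3,
    (∀ y' ∈ Ω, ‖(T y').2 - (T y).2 - (L (y' - y)).2‖ ≤ B * ‖y' - y‖ ^ 2 ∧
      |(T y').1 - (T y).1 - (L (y' - y)).1| ≤ A * ‖y' - y‖ ^ 2) ∧
    (∀ d, ‖(L d).2 - d.2‖ ≤ g * ‖d.2‖ + e * |d.1|) ∧
    (∀ d, |(L d).1| ≤ K * (|d.1| + ‖d.2‖))

/-- The height reset function. -/
structure Reset (χ χ1 : ℝ → ℝ) : Prop where
  lip : ∀ a a', |χ a' - χ a| ≤ |a' - a|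
  tay : ∀ a a', |χ a' - χ a - χ1 a * (a' - a)| ≤ (a' - a) ^ 2
  d1 : ∀ a, |χ1 a| ≤ 1
  bd : ∀ a, |χ a| ≤ 1

/-- A core pass through a window. -/
def Fw (χ : ℝ → ℝ) (τ : ℝ) (c : V2) (y : E3) : E3 := (τ * χ y.1, y.2 + c)

theorem fst_le_norm (y : E3) : |y.1| ≤ ‖y‖ := by
  rw [← Real.norm_eq_abs]; exact norm_fst_le y

theorem snd_le_norm (y : E3) : ‖y.2‖ ≤ ‖y‖ := norm_snd_le y

theorem norm_le_of (y : E3) {c : ℝ} (h1 : |y.1| ≤ c) (h2 : ‖y.2‖ ≤ c) : ‖y‖ ≤ c := by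
  rw [Prod.norm_def]; exact max_le (by rwa [Real.norm_eq_abs]) h2

theorem TB.mono {T : E3 → E3} {Ω Ω' : Set E3} {g e K B A g' e' K' B' A' : ℝ}
    (h : TB T Ω g e K B A) (hΩ : Ω' ⊆ Ω) (hg : g ≤ g') (he : e ≤ e') (hK : K ≤ K') (hB : B ≤ B')
    (hA : A ≤ A') : TB T Ω' g' e' K' B' A' := by
  refine ⟨fun y hy y' hy' => ?_, fun y hy y' hy' => ?_, fun y hy => ?_⟩
  · refine (h.lipb y (hΩ hy) y' (hΩ hy')).trans ?_
    gcongr
  · refine (h.lipa y (hΩ hy) y' (hΩ hy')).trans ?_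
    gcongr
  · obtain ⟨L, h1, h2, h3⟩ := h.tay y (hΩ hy)
    refine ⟨L, fun y' hy' => ⟨((h1 y' (hΩ hy')).1).trans ?_, ((h1 y' (hΩ hy')).2).trans ?_⟩,
      fun d => (h2 d).trans ?_, fun d => (h3 d).trans ?_⟩ <;> gcongr

/-- Composition of two tubes with a core pass in between. -/
theorem TB.comp {T1 T2 : E3 → E3} {Ω1 Ω2 : Set E3} {g1 e1 K1 B1 A1 g2 e2 K2 B2 A2 τ : ℝ}
    {χ χ1 : ℝ → ℝ} {c : V2} (hχ : Reset χ χ1)
    (h1 : TB T1 Ω1 g1 e1 K1 B1 A1) (h2 : TB T2 Ω2 g2 e2 K2 B2 A2)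
    (hm : ∀ y ∈ Ω1, Fw χ τ c (T1 y) ∈ Ω2)
    (hg1 : 0 ≤ g1) (he1 : 0 ≤ e1) (hK1 : 0 ≤ K1)
    (hg2 : 0 ≤ g2) (he2 : 0 ≤ e2) (hK2 : 0 ≤ K2) (hB2 : 0 ≤ B2) (hA2 : 0 ≤ A2)
    (hτ : 0 ≤ τ) (hge : g1 + e1 ≤ 1) (hgτ : g1 + τ * K1 ≤ 1) (heτ : e1 + τ * K1 ≤ 2) :
    TB (fun y => T2 (Fw χ τ c (T1 y))) Ω1
      (g1 + g2 * (1 + g1) + e2 * τ * K1) (e1 + g2 * e1 + e2 * τ * K1) (2 * K2)
      ((1 + g2) * B1 + e2 * (τ * (A1 + 4 * K1 ^ 2)) + 4 * B2)
      (K2 * (B1 + τ * (A1 + 4 * K1 ^ 2)) + 4 * A2) := by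
  have hτK : 0 ≤ τ * K1 := mul_nonneg hτ hK1
  -- bounds on the intermediate difference
  have key : ∀ y ∈ Ω1, ∀ y' ∈ Ω1,
      ‖(Fw χ τ c (T1 y')).2 - (Fw χ τ c (T1 y)).2‖ ≤
        (1 + g1) * ‖y'.2 - y.2‖ + e1 * |y'.1 - y.1| ∧
      |(Fw χ τ c (T1 y')).1 - (Fw χ τ c (T1 y)).1| ≤
        τ * K1 * (|y'.1 - y.1| + ‖y'.2 - y.2‖) := by
    intro y hy y' hy'
    constructor
    · have e : (Fw χ τ c (T1 y')).2 - (Fw χ τ c (T1 y)).2
          = ((T1 y').2 - (T1 y).2 - (y'.2 - y.2)) + (y'.2 - y.2) := by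
        simp [Fw]
      rw [e]
      calc _ ≤ _ := norm_add_le _ _
        _ ≤ (g1 * ‖y'.2 - y.2‖ + e1 * |y'.1 - y.1|) + ‖y'.2 - y.2‖ := by
          gcongr; exact h1.lipb y hy y' hy'
        _ = _ := by ring
    · have e : (Fw χ τ c (T1 y')).1 - (Fw χ τ c (T1 y)).1
          = τ * (χ (T1 y').1 - χ (T1 y).1) := by
        simp [Fw]; ring
      rw [e, abs_mul, abs_of_nonneg hτ]
      calc τ * |χ (T1 y').1 - χ (T1 y).1| ≤ τ * (K1 * (|y'.1 - y.1| + ‖y'.2 - y.2‖)) := by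
            gcongr; exact (hχ.lip _ _).trans (h1.lipa y hy y' hy')
        _ = _ := by ring
  refine ⟨?_, ?_, ?_⟩
  · intro y hy y' hy'
    obtain ⟨k1, k2⟩ := key y hy y' hy'
    have q1 := h2.lipb _ (hm y hy) _ (hm y' hy')
    have q2 := h1.lipb y hy y' hy'
    have q0 : (Fw χ τ c (T1 y')).2 - (Fw χ τ c (T1 y)).2 = (T1 y').2 - (T1 y).2 := by
      simp [Fw]
    set x := ‖y'.2 - y.2‖
    set w := |y'.1 - y.1|
    have e : (T2 (Fw χ τ c (T1 y'))).2 - (T2 (Fw χ τ c (T1 y))).2 - (y'.2 - y.2)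
        = ((T2 (Fw χ τ c (T1 y'))).2 - (T2 (Fw χ τ c (T1 y))).2
            - ((Fw χ τ c (T1 y')).2 - (Fw χ τ c (T1 y)).2))
          + ((T1 y').2 - (T1 y).2 - (y'.2 - y.2)) := by
      rw [q0]; abel
    rw [e]
    calc _ ≤ _ := norm_add_le _ _
      _ ≤ (g2 * ((1 + g1) * x + e1 * w) + e2 * (τ * K1 * (w + x))) + (g1 * x + e1 * w) := by
        refine add_le_add (q1.trans ?_) q2
        gcongr
      _ = _ := by ring
  · intro y hy y' hy'
    obtain ⟨k1, k2⟩ := key y hy y' hy'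
    have q1 := h2.lipa _ (hm y hy) _ (hm y' hy')
    have hx : 0 ≤ ‖y'.2 - y.2‖ := norm_nonneg _
    have hw : 0 ≤ |y'.1 - y.1| := abs_nonneg _
    set x := ‖y'.2 - y.2‖
    set w := |y'.1 - y.1|
    calc _ ≤ K2 * (τ * K1 * (w + x) + ((1 + g1) * x + e1 * w)) := by
          refine q1.trans ?_; gcongr
      _ ≤ K2 * (2 * (w + x)) := by
          gcongr
          nlinarith [mul_nonneg (sub_nonneg.mpr hgτ) hx, mul_nonneg (sub_nonneg.mpr heτ) hw]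
      _ = _ := by ring
  · intro y hy
    obtain ⟨L1, a1, a2, a3⟩ := h1.tay y hy
    obtain ⟨L2, b1, b2, b3⟩ := h2.tay _ (hm y hy)
    set DF : E3 →ₗ[ℝ] E3 :=
      LinearMap.prodMap ((τ * χ1 (T1 y).1) • (LinearMap.id : ℝ →ₗ[ℝ] ℝ)) LinearMap.id with hDF
    have hDF1 : ∀ d, (DF d).1 = τ * χ1 (T1 y).1 * d.1 := fun d => by
      simp [hDF]
    have hDF2 : ∀ d, (DF d).2 = d.2 := fun d => by simp [hDF]
    refine ⟨L2 ∘ₗ DF ∘ₗ L1, ?_, ?_, ?_⟩
    · intro y' hy'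
      obtain ⟨k1, k2⟩ := key y hy y' hy'
      obtain ⟨c1, c2⟩ := a1 y' hy'
      obtain ⟨d1, d2⟩ := b1 _ (hm y' hy')
      have s1 := snd_le_norm (y' - y)
      have s2 := fst_le_norm (y' - y)
      rw [Prod.snd_sub] at s1
      rw [Prod.fst_sub] at s2
      have hx : 0 ≤ ‖y'.2 - y.2‖ := norm_nonneg _
      have hw : 0 ≤ |y'.1 - y.1| := abs_nonneg _
      have hs : 0 ≤ ‖y' - y‖ := norm_nonneg _
      set s := ‖y' - y‖ with hsdef
      -- intermediate difference has norm at most 2 s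
      have hΔ : ‖Fw χ τ c (T1 y') - Fw χ τ c (T1 y)‖ ≤ 2 * s := by
        apply norm_le_of
        · rw [Prod.fst_sub]
          refine k2.trans ?_
          have : τ * K1 ≤ 1 := by linarith
          nlinarith
        · rw [Prod.snd_sub]
          refine k1.trans ?_
          nlinarith
      have hΔ2 : ‖Fw χ τ c (T1 y') - Fw χ τ c (T1 y)‖ ^ 2 ≤ 4 * s ^ 2 := by
        have := norm_nonneg (Fw χ τ c (T1 y') - Fw χ τ c (T1 y))
        nlinarith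
      -- the remainder
      set ρ : E3 := (Fw χ τ c (T1 y') - Fw χ τ c (T1 y)) - DF (L1 (y' - y)) with hρ
      have hρ2 : ‖ρ.2‖ ≤ B1 * s ^ 2 := by
        have : ρ.2 = (T1 y').2 - (T1 y).2 - (L1 (y' - y)).2 := by
          rw [hρ, Prod.snd_sub, hDF2]; simp [Fw]
        rw [this]; exact c1
      have hρ1 : |ρ.1| ≤ τ * (A1 + 4 * K1 ^ 2) * s ^ 2 := by
        have e1 : ρ.1 = τ * (χ (T1 y').1 - χ (T1 y).1 - χ1 (T1 y).1 * ((T1 y').1 - (T1 y).1))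
            + τ * χ1 (T1 y).1 * ((T1 y').1 - (T1 y).1 - (L1 (y' - y)).1) := by
          rw [hρ, Prod.fst_sub, hDF1, Prod.fst_sub]; simp only [Fw]; ring
        have e2 : ((T1 y').1 - (T1 y).1) ^ 2 ≤ 4 * K1 ^ 2 * s ^ 2 := by
          have := h1.lipa y hy y' hy'
          have h5 : |(T1 y').1 - (T1 y).1| ≤ K1 * (2 * s) := by
            refine this.trans ?_; gcongr; linarith
          rw [← sq_abs]
          have h6 := abs_nonneg ((T1 y').1 - (T1 y).1)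
          calc |(T1 y').1 - (T1 y).1| ^ 2 ≤ (K1 * (2 * s)) ^ 2 := by gcongr
            _ = _ := by ring
        rw [e1]
        calc _ ≤ _ := abs_add_le _ _
          _ ≤ τ * (4 * K1 ^ 2 * s ^ 2) + τ * (1 * (A1 * s ^ 2)) := by
            rw [abs_mul, abs_of_nonneg hτ, mul_assoc τ (χ1 _), abs_mul, abs_of_nonneg hτ, abs_mul]
            gcongr
            · exact (hχ.tay _ _).trans e2
            · exact hχ.d1 _
          _ = _ := by ring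
      have hsplit : ∀ z : E3, z - L2 (DF (L1 (y' - y)))
          = (z - L2 (Fw χ τ c (T1 y') - Fw χ τ c (T1 y))) + L2 ρ := by
        intro z
        have h7 : L2 ρ = L2 (Fw χ τ c (T1 y') - Fw χ τ c (T1 y)) - L2 (DF (L1 (y' - y))) :=
          map_sub L2 _ _
        rw [h7]
        generalize L2 (Fw χ τ c (T1 y') - Fw χ τ c (T1 y)) = p
        generalize L2 (DF (L1 (y' - y))) = q
        abel
      have hs2 : 0 ≤ s ^ 2 := by positivity
      constructor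
      · have e := congrArg Prod.snd (hsplit (T2 (Fw χ τ c (T1 y')) - T2 (Fw χ τ c (T1 y))))
        simp only [Prod.snd_sub, Prod.snd_add] at e
        show ‖(T2 (Fw χ τ c (T1 y'))).2 - (T2 (Fw χ τ c (T1 y))).2 - (L2 (DF (L1 (y' - y)))).2‖ ≤ _
        rw [e]
        have f1 := b2 ρ
        have f2 : ‖(L2 ρ).2‖ ≤ (1 + g2) * ‖ρ.2‖ + e2 * |ρ.1| := by
          have : (L2 ρ).2 = ((L2 ρ).2 - ρ.2) + ρ.2 := by abel
          rw [this]
          calc _ ≤ _ := norm_add_le _ _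
            _ ≤ (g2 * ‖ρ.2‖ + e2 * |ρ.1|) + ‖ρ.2‖ := by gcongr
            _ = _ := by ring
        calc _ ≤ _ := norm_add_le _ _
          _ ≤ B2 * (4 * s ^ 2) + ((1 + g2) * (B1 * s ^ 2)
              + e2 * (τ * (A1 + 4 * K1 ^ 2) * s ^ 2)) := by
            refine add_le_add (d1.trans ?_) (f2.trans ?_)
            · gcongr
            · gcongr
          _ = _ := by ring
      · have e := congrArg Prod.fst (hsplit (T2 (Fw χ τ c (T1 y')) - T2 (Fw χ τ c (T1 y))))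
        simp only [Prod.fst_sub, Prod.fst_add] at e
        show |(T2 (Fw χ τ c (T1 y'))).1 - (T2 (Fw χ τ c (T1 y))).1 - (L2 (DF (L1 (y' - y)))).1| ≤ _
        rw [e]
        have f1 := b3 ρ
        calc _ ≤ _ := abs_add_le _ _
          _ ≤ A2 * (4 * s ^ 2) + K2 * (τ * (A1 + 4 * K1 ^ 2) * s ^ 2 + B1 * s ^ 2) := by
            refine add_le_add (d2.trans ?_) (f1.trans ?_)
            · gcongr
            · gcongr
          _ = _ := by ring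
    · intro d
      have f1 := b2 (DF (L1 d))
      have f2 := a2 d
      have f3 := a3 d
      rw [hDF2, hDF1] at f1
      have f4 : ‖(L1 d).2‖ ≤ (1 + g1) * ‖d.2‖ + e1 * |d.1| := by
        have : (L1 d).2 = ((L1 d).2 - d.2) + d.2 := by abel
        rw [this]
        calc _ ≤ _ := norm_add_le _ _
          _ ≤ (g1 * ‖d.2‖ + e1 * |d.1|) + ‖d.2‖ := by gcongr
          _ = _ := by ring
      have f5 : |τ * χ1 (T1 y).1 * (L1 d).1| ≤ τ * (K1 * (|d.1| + ‖d.2‖)) := by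
        rw [abs_mul, abs_mul, abs_of_nonneg hτ]
        calc τ * |χ1 (T1 y).1| * |(L1 d).1| ≤ τ * 1 * (K1 * (|d.1| + ‖d.2‖)) := by
              gcongr; exact hχ.d1 _
          _ = _ := by ring
      show ‖(L2 (DF (L1 d))).2 - d.2‖ ≤ _
      have e : (L2 (DF (L1 d))).2 - d.2 = ((L2 (DF (L1 d))).2 - (L1 d).2) + ((L1 d).2 - d.2) := by
        abel
      rw [e]
      calc _ ≤ _ := norm_add_le _ _
        _ ≤ (g2 * ((1 + g1) * ‖d.2‖ + e1 * |d.1|) + e2 * (τ * (K1 * (|d.1| + ‖d.2‖))))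
            + (g1 * ‖d.2‖ + e1 * |d.1|) := by
          refine add_le_add (f1.trans ?_) f2
          gcongr
        _ = _ := by ring
    · intro d
      have f1 := b3 (DF (L1 d))
      have f2 := a2 d
      have f3 := a3 d
      rw [hDF2, hDF1] at f1
      have f4 : ‖(L1 d).2‖ ≤ (1 + g1) * ‖d.2‖ + e1 * |d.1| := by
        have : (L1 d).2 = ((L1 d).2 - d.2) + d.2 := by abel
        rw [this]
        calc _ ≤ _ := norm_add_le _ _
          _ ≤ (g1 * ‖d.2‖ + e1 * |d.1|) + ‖d.2‖ := by gcongr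
          _ = _ := by ring
      have f5 : |τ * χ1 (T1 y).1 * (L1 d).1| ≤ τ * (K1 * (|d.1| + ‖d.2‖)) := by
        rw [abs_mul, abs_mul, abs_of_nonneg hτ]
        calc τ * |χ1 (T1 y).1| * |(L1 d).1| ≤ τ * 1 * (K1 * (|d.1| + ‖d.2‖)) := by
              gcongr; exact hχ.d1 _
          _ = _ := by ring
      have hx : 0 ≤ ‖d.2‖ := norm_nonneg _
      have hw : 0 ≤ |d.1| := abs_nonneg _
      show |(L2 (DF (L1 d))).1| ≤ _
      calc _ ≤ K2 * (τ * (K1 * (|d.1| + ‖d.2‖)) + ((1 + g1) * ‖d.2‖ + e1 * |d.1|)) := by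
            refine f1.trans ?_
            gcongr
        _ ≤ K2 * (2 * (|d.1| + ‖d.2‖)) := by
            gcongr
            nlinarith [mul_nonneg (sub_nonneg.mpr hgτ) hx, mul_nonneg (sub_nonneg.mpr heτ) hw]
        _ = _ := by ring

end Pool.Agent.Closing.Pure
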