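import Pool.Agent.Lib.Closing.Defs
import Pool.Agent.Lib.Closing.PureTube

/-!
# The reset function `chi`
-/

open scoped ContDiff Topology
open Set Filter

namespace Pool.Agent.Closing

noncomputable section

/-- the derivative of `chi` -/
def chi1 (a : ℝ) : ℝ := 1 / √(1 + a ^ 2) ^ 3

theorem one_le_sqrt_one_add_sq (a : ℝ) : 1 ≤ √(1 + a ^ 2) := by
  rw [Real.one_le_sqrt]
  nlinarith [sq_nonneg a]

theorem hasDerivAt_sqrt_one_add_sq (a : ℝ) :
    HasDerivAt (fun a : ℝ => √(1 + a ^ 2)) (a / √(1 + a ^ 2)) a := by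
  have h1 : HasDerivAt (fun a : ℝ => 1 + a ^ 2) (2 * a) a := by
    simpa using (hasDerivAt_pow 2 a).const_add 1
  have h0 : (1 + a ^ 2 : ℝ) ≠ 0 := by positivity
  have h2 := h1.sqrt h0
  convert h2 using 1
  have := one_le_sqrt_one_add_sq a
  have h3 : √(1 + a ^ 2) ≠ 0 := by positivity
  field_simp

theorem hasDerivAt_chi (a : ℝ) : HasDerivAt chi (chi1 a) a := by
  have h := hasDerivAt_sqrt_one_add_sq a
  have h3 : √(1 + a ^ 2) ≠ 0 := by
    have := one_le_sqrt_one_add_sq a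
    positivity
  have h4 := (hasDerivAt_id a).div h h3
  have h5 : √(1 + a ^ 2) ^ 2 = 1 + a ^ 2 := Real.sq_sqrt (by positivity)
  have e1 : chi1 a = (1 * √(1 + a ^ 2) - id a * (a / √(1 + a ^ 2))) / √(1 + a ^ 2) ^ 2 := by
    unfold chi1
    simp only [id_eq]
    field_simp
    rw [h5]
    ring
  rw [e1]
  exact h4

theorem hasDerivAt_chi1 (a : ℝ) : HasDerivAt chi1 (-3 * a / √(1 + a ^ 2) ^ 5) a := by
  have h := (hasDerivAt_sqrt_one_add_sq a).pow 3
  have h3 : √(1 + a ^ 2) ≠ 0 := by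
    have := one_le_sqrt_one_add_sq a
    positivity
  have h4 := (hasDerivAt_const a (1 : ℝ)).div h (pow_ne_zero 3 h3)
  have e1 : -3 * a / √(1 + a ^ 2) ^ 5 = (0 * √(1 + a ^ 2) ^ 3 - 1 * (3 * √(1 + a ^ 2) ^ (3 - 1) *
      (a / √(1 + a ^ 2)))) / (√(1 + a ^ 2) ^ 3) ^ 2 := by
    field_simp
    norm_num
  rw [e1]
  exact h4

theorem abs_chi1_le (a : ℝ) : |chi1 a| ≤ 1 := by
  unfold chi1
  have h1 := one_le_sqrt_one_add_sq a
  have h2 : 1 ≤ √(1 + a ^ 2) ^ 3 := one_le_pow₀ h1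
  rw [abs_of_nonneg (by positivity), div_le_one (by positivity)]
  exact h2

theorem abs_deriv_chi1_le (a : ℝ) : |-3 * a / √(1 + a ^ 2) ^ 5| ≤ 1 := by
  have h1 := one_le_sqrt_one_add_sq a
  have h0 : 0 < √(1 + a ^ 2) ^ 5 := by positivity
  rw [abs_div, abs_of_pos h0, div_le_one h0]
  have h5 : (√(1 + a ^ 2) ^ 5) ^ 2 = (1 + a ^ 2) ^ 5 := by
    rw [← pow_mul, mul_comm, pow_mul, Real.sq_sqrt (by positivity)]
  rw [← abs_of_pos h0, ← sq_le_sq, h5]
  nlinarith [sq_nonneg (a ^ 2), sq_nonneg (a ^ 2 - 1 / 5), pow_nonneg (sq_nonneg a) 3,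
    pow_nonneg (sq_nonneg a) 4, pow_nonneg (sq_nonneg a) 5]

theorem chi_lip (a a' : ℝ) : |chi a' - chi a| ≤ |a' - a| := by
  have := convex_univ.norm_image_sub_le_of_norm_hasDerivWithin_le (f := chi) (f' := chi1) (C := 1)
    (fun x _ => (hasDerivAt_chi x).hasDerivWithinAt) (fun x _ => abs_chi1_le x) (mem_univ a)
    (mem_univ a')
  simpa using this

theorem chi1_lip (a a' : ℝ) : |chi1 a' - chi1 a| ≤ |a' - a| := by
  have := convex_univ.norm_image_sub_le_of_norm_hasDerivWithin_le (f := chi1)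
    (f' := fun a => -3 * a / √(1 + a ^ 2) ^ 5) (C := 1)
    (fun x _ => (hasDerivAt_chi1 x).hasDerivWithinAt) (fun x _ => abs_deriv_chi1_le x) (mem_univ a)
    (mem_univ a')
  simpa using this

theorem chi_tay (a a' : ℝ) : |chi a' - chi a - chi1 a * (a' - a)| ≤ (a' - a) ^ 2 := by
  have h := (convex_closedBall a |a' - a|).norm_image_sub_le_of_norm_hasDerivWithin_le
    (f := fun x => chi x - chi1 a * x) (f' := fun x => chi1 x - chi1 a) (C := |a' - a|)
    (fun x _ => by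
      have h1 := (hasDerivAt_chi x).fun_sub ((hasDerivAt_id x).const_mul (chi1 a))
      simpa using h1.hasDerivWithinAt) (fun x hx => by
      refine (chi1_lip a x).trans ?_
      rw [mem_closedBall_iff_norm, Real.norm_eq_abs] at hx
      exact hx) (Metric.mem_closedBall_self (abs_nonneg _))
    (by rw [mem_closedBall_iff_norm, Real.norm_eq_abs] : a' ∈ Metric.closedBall a |a' - a|)
  have e1 : chi a' - chi1 a * a' - (chi a - chi1 a * a) = chi a' - chi a - chi1 a * (a' - a) := by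
    ring
  rw [e1, Real.norm_eq_abs, Real.norm_eq_abs, abs_mul_abs_self] at h
  rw [sq]
  exact h

theorem abs_chi_le (a : ℝ) : |chi a| ≤ 1 := by
  unfold chi
  have h1 := one_le_sqrt_one_add_sq a
  have h0 : 0 < √(1 + a ^ 2) := by positivity
  rw [abs_div, abs_of_pos h0, div_le_one h0, ← Real.sqrt_sq_eq_abs]
  exact Real.sqrt_le_sqrt (by linarith)

theorem reset_chi : Pure.Reset chi chi1 where
  lip := chi_lip
  tay := chi_tay
  d1 := abs_chi1_le
  bd := abs_chi_le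

end

end Pool.Agent.Closing
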