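import Pool.Agent.Lib.Closing.PureTube

/-!
The system of windows, tails and one global perturbation; orbits; tubes.
-/

namespace Pool.Agent.Closing.Pure

/-- The small constant used for the band lengths. -/
noncomputable def eta : ℝ := 1 / 4

/-- Digits whose tail band moves to the right. -/
def isX (d : ℕ) : Prop := 5 ≤ d

instance : DecidablePred isX := fun d => inferInstanceAs (Decidable (5 ≤ d))

/-- All data of the model: scales, band heights, band functions, resets and the displacement. -/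
structure Sys where
  κ : ℕ → ℝ
  hκ : Kap κ
  α : ℕ → ℝ
  hα : ∀ j, 1 ≤ j → α j ≤ κ (j + 3)
  hα' : ∀ j, α (j + 1) ≤ α j
  Λ : ℕ → ℝ → ℝ
  Λ0 : ∀ j a, 0 ≤ Λ j a
  Λle : ∀ j a, 1 ≤ j → Λ j a ≤ eta * κ (j + 1)
  Λz : ∀ j a, a ≤ α (j + 1) → Λ j a = 0
  Λfull : ∀ j a, 1 ≤ j → α j ≤ a → Λ j a = eta * κ (j + 1)
  τ : ℕ → ℕ → ℝ
  τ0 : ∀ l w, 0 ≤ τ l w
  τle : ∀ l w, τ l w ≤ κ (l + 5)
  χ : ℝ → ℝ
  χ1 : ℝ → ℝ
  hχ : Reset χ χ1
  v : E3 → E3
  v0 : ∀ y, ‖v y‖ ≤ κ 10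
  v1 : ∀ y y', ‖v y' - v y‖ ≤ κ 10 * ‖y' - y‖
  v2 : ∀ y, ∃ L : E3 →ₗ[ℝ] E3, (∀ d, ‖L d‖ ≤ κ 10 * ‖d‖) ∧
    ∀ y', ‖v y' - v y - L (y' - y)‖ ≤ κ 10 * ‖y' - y‖ ^ 2

namespace Sys

variable (S : Sys)

/-- Tail displacement at height `a` for the target `u`, with bands `0, …, L`. -/
noncomputable def Gam (L u : ℕ) (a : ℝ) : V2 :=
  (∑ j ∈ Finset.range (L + 1), if isX (dig j u) then S.Λ j a else 0,
   ∑ j ∈ Finset.range (L + 1), if isX (dig j u) then 0 else S.Λ j a)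

/-- The perturbed identity. -/
def sig (y : E3) : E3 := y + S.v y

/-- Core pass through the window `w` of stage `l`. -/
noncomputable def Fc (l w : ℕ) (y : E3) : E3 :=
  Fw S.χ (S.τ l w) (Xt S.κ (l + 1) (w + 1) - Xt S.κ l w) y

/-- The tube starting at index `s` with `V` core passes. -/
noncomputable def T (s : ℕ) : ℕ → E3 → E3
  | 0 => S.sig
  | V + 1 => fun y => S.sig (S.Fc (fz (s + V)) (win (s + V)) (T s V y))

theorem T_zero (s : ℕ) : S.T s 0 = S.sig := rfl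

theorem T_succ (s V : ℕ) (y : E3) :
    S.T s (V + 1) y = S.sig (S.Fc (fz (s + V)) (win (s + V)) (S.T s V y)) := rfl

/-- Concatenation of tubes. -/
theorem T_concat (s V V' : ℕ) (y : E3) :
    S.T s (V + 1 + V') y =
      S.T (s + V + 1) V' (S.Fc (fz (s + V)) (win (s + V)) (S.T s V y)) := by
  induction V' with
  | zero => rw [add_zero, T_succ, T_zero]
  | succ V' ih =>
    rw [← add_assoc, T_succ, ih, T_succ]
    rw [show s + (V + 1 + V') = s + V + 1 + V' by ring]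

theorem T_congr {k s s' V : ℕ} (h : s ≡ s' [MOD 8 ^ k]) (h2 : ∀ i < V, ¬ NZ k (s + i)) :
    S.T s V = S.T s' V := by
  induction V with
  | zero => rfl
  | succ V ih =>
    funext y
    rw [T_succ, T_succ, ih fun i hi => h2 i (by omega)]
    have h3 : s + V ≡ s' + V [MOD 8 ^ k] := h.add_right V
    rw [fz_congr h3 (h2 V (by omega)), win_congr h3 (h2 V (by omega))]

/-- The crude displacement bound. -/
theorem T_disp_crude (s V : ℕ) {k : ℕ} (h2 : ∀ i < V, ¬ NZ k (s + i)) (y : E3) :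
    ‖(S.T s V y).2 - y.2 - (Xt S.κ k (s + V) - Xt S.κ k s)‖ ≤ (V + 1) * S.κ 10 := by
  have hs : ∀ z : E3, ‖(S.sig z).2 - z.2‖ ≤ S.κ 10 := fun z => by
    have : (S.sig z).2 - z.2 = (S.v z).2 := by simp [sig]
    rw [this]; exact (snd_le_norm _).trans (S.v0 z)
  induction V with
  | zero =>
    rw [T_zero, add_zero, sub_self, sub_zero]
    simpa using hs y
  | succ V ih =>
    rw [T_succ]
    have h3 := ih fun i hi => h2 i (by omega)
    set q := S.Fc (fz (s + V)) (win (s + V)) (S.T s V y) with hq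
    have h4 : q.2 = (S.T s V y).2 + (Xt S.κ k (s + V + 1) - Xt S.κ k (s + V)) := by
      rw [hq]
      show (S.T s V y).2 + (_ - _) = _
      rw [Xt_step S.κ (fz_lt_of_not_NZ (h2 V (by omega)))]
    have e : (S.sig q).2 - y.2 - (Xt S.κ k (s + (V + 1)) - Xt S.κ k s)
        = ((S.sig q).2 - q.2) + ((S.T s V y).2 - y.2 - (Xt S.κ k (s + V) - Xt S.κ k s)) := by
      rw [h4, ← add_assoc]; abel
    rw [e]
    calc _ ≤ _ := norm_add_le _ _
      _ ≤ S.κ 10 + (V + 1) * S.κ 10 := add_le_add (hs q) h3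
      _ = _ := by push_cast; ring

theorem tele {k : ℕ} {m n : ℕ} (hmn : m < n) (h : ∀ i, m < i → i < n → ¬ NZ k i) {K : ℕ}
    (hK : k ≤ K) :
    Xt S.κ K n - Xt S.κ K (m + 1) = Xt S.κ k n - Xt S.κ k (m + 1) := by
  induction n, hmn using Nat.le_induction with
  | base => simp
  | succ n hn ih =>
    have h1 := ih fun i h3 h4 => h i h3 (by omega)
    have h2 : ¬ NZ k n := h n hn (by omega)
    have h3 := fz_lt_of_not_NZ h2
    have s1 := Xt_step S.κ (z := n) (K := K) (by omega)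
    have s2 := Xt_step S.κ (z := n) (K := k) (by omega)
    have e1 : Xt S.κ K (n + 1) - Xt S.κ K (m + 1)
        = (Xt S.κ K (n + 1) - Xt S.κ K n) + (Xt S.κ K n - Xt S.κ K (m + 1)) := by abel
    have e2 : Xt S.κ k (n + 1) - Xt S.κ k (m + 1)
        = (Xt S.κ k (n + 1) - Xt S.κ k n) + (Xt S.κ k n - Xt S.κ k (m + 1)) := by abel
    rw [e1, e2, s1, s2, h1]

theorem tele_hs {k : ℕ} {m n : ℕ} (hmn : m < n) (h : ∀ i, m < i → i < n → ¬ NZ k i) :
    hs (dig k n) = hs (dig k (m + 1)) := by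
  induction n, hmn using Nat.le_induction with
  | base => rfl
  | succ n hn ih =>
    rw [hs_step (h n hn (by omega)), ih fun i h3 h4 => h i h3 (by omega)]

theorem tele_dig {k j : ℕ} {m n : ℕ} (hj : k < j) (hmn : m < n)
    (h : ∀ i, m < i → i < n → ¬ NZ k i) : dig j n = dig j (m + 1) := by
  induction n, hmn using Nat.le_induction with
  | base => rfl
  | succ n hn ih =>
    rw [dig_step (h n hn (by omega)) hj, ih fun i h3 h4 => h i h3 (by omega)]

end Sys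

/-- An orbit of the perturbed system, indexed by the window passes. -/
structure Orb (S : Sys) where
  l : ℕ → ℕ
  w : ℕ → ℕ
  P : ℕ → E3
  Q : ℕ → E3
  wlt : ∀ n, w n < 8 ^ l n
  nz : ∀ n, NZ (l n) (w n)
  hQ : ∀ n, Q n = S.sig (P n)
  hD : ∀ n, ‖(Q n).2 - Xt S.κ (l n) (w n)‖ < 64 * S.κ (l n + 2)
  hP : ∀ n, (P (n + 1)).2 = Xt S.κ (l n + 1) (w n + 1) + S.Gam (l n) (w n + 1) (P (n + 1)).1
    + ((Q n).2 - Xt S.κ (l n) (w n))
  ha : ∀ n, - S.κ (l n + 5) ≤ (P (n + 1)).1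
  core : ∀ n, ‖(Q n).2 - Xt S.κ (l n) (w n)‖ < 16 * S.κ (l n + 2) →
    (P (n + 1)).1 = S.τ (l n) (w n) * S.χ (Q n).1 ∧
    S.Gam (l n) (w n + 1) (P (n + 1)).1 = 0

end Pool.Agent.Closing.Pure
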