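import Pool.Agent.Lib.Closing.Basics
import Pool.Agent.Lib.Closing.PureSys

/-!
The scales `kappa B` satisfy the growth conditions of the pure theorem for large `B`.
-/

namespace Pool.Agent.Closing
noncomputable section

theorem sq_le_pow_five_fourths (k : ℕ) : ((k : ℝ) + 1) ^ 2 ≤ 14 * (5 / 4 : ℝ) ^ k := by
  rcases Nat.lt_or_ge k 9 with h | h
  · interval_cases k <;> norm_num
  · induction k, h using Nat.le_induction with
    | base => norm_num
    | succ k hk ih =>
      have hk' : (9 : ℝ) ≤ k := by exact_mod_cast hk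
      have h1 : ((k : ℝ) + 1 + 1) ^ 2 ≤ 5 / 4 * ((k : ℝ) + 1) ^ 2 := by nlinarith
      have h2 : (5 / 4 : ℝ) ^ (k + 1) = 5 / 4 * (5 / 4 : ℝ) ^ k := by ring
      rw [h2]
      push_cast
      linarith

theorem MM_le_exp (k : ℕ) : Pure.MM k ≤ Real.exp (1000 * (5 / 4 : ℝ) ^ k) := by
  have h1 : (2 : ℝ) ≤ Real.exp (7 / 10) := by
    have h2 : Real.log 2 ≤ 7 / 10 := by
      have := Real.log_two_lt_d9
      linarith
    calc (2 : ℝ) = Real.exp (Real.log 2) := (Real.exp_log (by norm_num)).symm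
      _ ≤ _ := Real.exp_le_exp.2 h2
  unfold Pure.MM
  calc (2 : ℝ) ^ (100 * (k + 1) ^ 2) ≤ (Real.exp (7 / 10)) ^ (100 * (k + 1) ^ 2) :=
        pow_le_pow_left₀ (by norm_num) h1 _
    _ = Real.exp (((100 * (k + 1) ^ 2 : ℕ) : ℝ) * (7 / 10)) := by rw [← Real.exp_nat_mul]
    _ ≤ _ := by
      apply Real.exp_le_exp.2
      have := sq_le_pow_five_fourths k
      push_cast
      nlinarith

theorem kap_kappa {B : ℝ} (hB : 4000 ≤ B) : Pure.Kap (kappa B) := by
  have key : ∀ (k : ℕ) (x : ℝ), 1000 * (5 / 4 : ℝ) ^ k ≤ x → Pure.MM k * Real.exp (-x) ≤ 1 := by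
    intro k x hx
    have h1 := MM_le_exp k
    calc Pure.MM k * Real.exp (-x) ≤ Real.exp (1000 * (5 / 4 : ℝ) ^ k) * Real.exp (-x) := by
          have := Real.exp_pos (-x)
          nlinarith
      _ = Real.exp (1000 * (5 / 4 : ℝ) ^ k - x) := by rw [← Real.exp_add]; rfl
      _ ≤ 1 := by
        rw [Real.exp_le_one_iff]
        linarith
  refine ⟨kappa_pos B, kappa_le_one (by linarith) 0, ?_, ?_⟩
  · intro k
    have h1 : (1 : ℝ) ≤ (5 / 4 : ℝ) ^ k := one_le_pow₀ (by norm_num)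
    have e : kappa B (k + 1) = Real.exp (-(B / 4 * (5 / 4 : ℝ) ^ k)) * kappa B k := by
      unfold kappa
      rw [← Real.exp_add]
      congr 1
      rw [pow_succ]
      ring
    rw [e, ← mul_assoc]
    have h2 := key k (B / 4 * (5 / 4 : ℝ) ^ k) (by nlinarith)
    have h3 := kappa_nonneg B k
    nlinarith
  · intro k
    have h1 : (1 : ℝ) ≤ (5 / 4 : ℝ) ^ k := one_le_pow₀ (by norm_num)
    have e : kappa B k ^ 2 = Real.exp (-(7 * B / 16 * (5 / 4 : ℝ) ^ k)) * kappa B (k + 2) := by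
      unfold kappa
      rw [← Real.exp_add, ← Real.exp_nat_mul]
      congr 1
      push_cast
      rw [pow_add]
      ring
    rw [e, ← mul_assoc]
    have h2 := key k (7 * B / 16 * (5 / 4 : ℝ) ^ k) (by nlinarith)
    have h3 := kappa_nonneg B (k + 2)
    nlinarith

end
end Pool.Agent.Closing
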