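import Pool.Agent.Lib.Closing.Basics
import Pool.Agent.Lib.Closing.PureSys

/-!
Translation between digit lists and octal digits of natural numbers.
-/

namespace Pool.Agent.Closing
noncomputable section

theorem pure_dig_one_cons {d z : ℕ} (hd : d ≤ 7) : Pure.dig 1 (d + 8 * z) = d := by
  rw [show (1 : ℕ) = 0 + 1 from rfl, Pure.dig_succ, pow_zero, Nat.div_one]
  omega

theorem pure_dig_add_two_cons {d z : ℕ} (hd : d ≤ 7) (j : ℕ) :
    Pure.dig (j + 2) (d + 8 * z) = Pure.dig (j + 1) z := by
  rw [show j + 2 = (j + 1) + 1 from rfl, Pure.dig_succ, Pure.dig_succ, pow_succ',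
    ← Nat.div_div_eq_div_mul]
  congr 2
  omega

theorem pure_dig_nil (j : ℕ) : Pure.dig j 0 = 0 := by simp [Pure.dig]

theorem ofDigits_dig_lt (i : Word) : Nat.ofDigits 8 (dig i) < 8 ^ i.length := by
  rw [← length_dig i]
  exact Nat.ofDigits_lt_base_pow_length (by norm_num) fun d hd => by
    have := isDig_dig i d hd
    omega

theorem NZ_ofDigits (i : Word) : Pure.NZ i.length (Nat.ofDigits 8 (dig i)) := by
  induction i with
  | nil => exact Pure.NZ_zero _
  | cons d i ih =>
    intro j h1 h2
    rw [dig_cons, Nat.ofDigits_cons]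
    obtain rfl | ⟨j, rfl⟩ : j = 1 ∨ ∃ k, j = k + 2 := by
      rcases j with _ | _ | j
      · omega
      · exact Or.inl rfl
      · exact Or.inr ⟨j, rfl⟩
    · have := pure_dig_one_cons (d := d.val + 1) (z := Nat.ofDigits 8 (dig i)) (by omega)
      intro h
      have h3 : d.val + 1 = 0 := this.symm.trans h
      omega
    · have := pure_dig_add_two_cons (d := d.val + 1) (z := Nat.ofDigits 8 (dig i)) (by omega) j
      intro h
      exact ih (j + 1) (by omega) (by simp at h2; omega) (this.symm.trans h)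

theorem pure_hs_eq (d : ℕ) : Pure.hs d = hs d := rfl

theorem pure_xi_eq {d : ℕ} (hd : d ≤ 7) : Pure.xi d = xi d := by
  interval_cases d <;> simp [Pure.xi, xi, Pure.sp, sperm]

theorem pos_eq_sum (B : ℝ) {u : List ℕ} (hu : IsDig u) {K : ℕ} (hK : u.length ≤ K) (k p : ℕ) :
    pos B (k + 1) p u = ∑ j ∈ Finset.range K,
      (kappa B (k + j + 1) * hs (if j = 0 then p else Pure.dig j (Nat.ofDigits 8 u))) •
        Pure.xi (Pure.dig (j + 1) (Nat.ofDigits 8 u)) := by
  induction u generalizing K k p with
  | nil =>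
    rw [pos_nil]
    symm
    apply Finset.sum_eq_zero
    intro j _
    rw [Nat.ofDigits_nil, pure_dig_nil (j + 1), Pure.xi_zero, smul_zero]
  | cons d u ih =>
    rw [isDig_cons] at hu
    obtain ⟨K, rfl⟩ : ∃ K', K = K' + 1 := ⟨K - 1, by simp at hK; omega⟩
    rw [pos_cons, Finset.sum_range_succ', ih hu.2 (K := K) (by simpa using hK) (k + 1) d,
      Nat.ofDigits_cons, add_comm]
    congr 1
    · apply Finset.sum_congr rfl
      intro j _
      rw [pure_dig_add_two_cons hu.1, if_neg (by omega : ¬ j + 1 = 0),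
        show k + 1 + j + 1 = k + (j + 1) + 1 by ring]
      congr 3
      rcases j with _ | j
      · rw [if_pos rfl, pure_dig_one_cons hu.1]
      · rw [if_neg (by omega), pure_dig_add_two_cons hu.1]
    · rw [if_pos rfl, zero_add, pure_dig_one_cons hu.1, pure_xi_eq hu.1, add_zero]

theorem Xt_ofDigits (B : ℝ) {u : List ℕ} (hu : IsDig u) {K : ℕ} (hK : u.length ≤ K) :
    Pure.Xt (kappa B) K (Nat.ofDigits 8 u) = X B u := by
  unfold X Pure.Xt
  rw [show (1 : ℕ) = 0 + 1 from rfl, pos_eq_sum B hu hK 0 0]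
  apply Finset.sum_congr rfl
  intro j _
  rw [pure_hs_eq, show 0 + j + 1 = j + 1 by ring]
  congr 3
  rcases j with _ | j
  · rw [if_pos rfl, Pure.dig_zero]
  · rw [if_neg (by omega)]

theorem ofDigits_succ_eq {u : List ℕ} (hu : IsDig u) :
    Nat.ofDigits 8 (succ u) = Nat.ofDigits 8 u + 1 := by
  induction u with
  | nil => simp [succ]
  | cons d u ih =>
    rw [isDig_cons] at hu
    rw [succ]
    split_ifs with h
    · rw [Nat.ofDigits_cons, Nat.ofDigits_cons, ih hu.2, h]
      show 0 + 8 * (Nat.ofDigits 8 u + 1) = 7 + 8 * Nat.ofDigits 8 u + 1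
      ring
    · rw [Nat.ofDigits_cons, Nat.ofDigits_cons]
      show (d + 1) + 8 * Nat.ofDigits 8 u = d + 8 * Nat.ofDigits 8 u + 1
      ring

theorem length_succ_le_add_one (u : List ℕ) : (succ u).length ≤ u.length + 1 := by
  induction u with
  | nil => simp [succ]
  | cons d u ih =>
    rw [succ]
    split_ifs with h
    · simpa using ih
    · simp

theorem length_le_length_succ (u : List ℕ) : u.length ≤ (succ u).length := by
  induction u with
  | nil => simp
  | cons d u ih =>
    rw [succ]
    split_ifs with h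
    · simpa using ih
    · simp

theorem Xt_dig (B : ℝ) (i : Word) :
    Pure.Xt (kappa B) i.length (Nat.ofDigits 8 (dig i)) = X B (dig i) :=
  Xt_ofDigits B (isDig_dig i) (length_dig i).le

theorem Xt_tgt (B : ℝ) (i : Word) :
    Pure.Xt (kappa B) (i.length + 1) (Nat.ofDigits 8 (dig i) + 1) = X B (tgt i) := by
  rw [← ofDigits_succ_eq (isDig_dig i)]
  refine Xt_ofDigits B (isDig_tgt i) ?_
  have := length_succ_le_add_one (dig i)
  rw [length_dig] at this
  exact this

theorem pure_isX_iff {d : ℕ} (hd : d ≤ 7) : Pure.isX d ↔ isX d = true := by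
  interval_cases d <;> simp [Pure.isX, isX]

theorem gamAux_take (B : ℝ) (a : ℝ) {v : List ℕ} (hv : IsDig v) {K : ℕ} (hK : K ≤ v.length)
    (k : ℕ) :
    gamAux B (k + 1) (v.take K) a =
      (∑ j ∈ Finset.range K,
        (if Pure.isX (Pure.dig (j + 1) (Nat.ofDigits 8 v)) then Lam B (k + j + 1) a else 0),
      ∑ j ∈ Finset.range K,
        (if Pure.isX (Pure.dig (j + 1) (Nat.ofDigits 8 v)) then 0 else Lam B (k + j + 1) a)) := by
  induction v generalizing K k with
  | nil =>
    have : K = 0 := by simpa using hK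
    subst this
    simp only [List.take_nil, gamAux, Finset.range_zero, Finset.sum_empty]
    rfl
  | cons d v ih =>
    rcases K with _ | K
    · simp only [List.take_zero, gamAux, Finset.range_zero, Finset.sum_empty]
      rfl
    · rw [isDig_cons] at hv
      rw [List.take_succ_cons, gamAux, ih hv.2 (K := K) (by simpa using hK) (k + 1),
        Finset.sum_range_succ', Finset.sum_range_succ', Nat.ofDigits_cons]
      simp only [show ∀ j, j + 1 + 1 = j + 2 from fun j => rfl, pure_dig_add_two_cons hv.1,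
        zero_add, pure_dig_one_cons hv.1, add_zero,
        show ∀ j, k + 1 + j + 1 = k + (j + 1) + 1 from fun j => by ring]
      by_cases hd : isX d = true
      · have hd' := (pure_isX_iff hv.1).2 hd
        simp [dir, hd, hd', eX, add_comm]
      · have hd' : ¬ Pure.isX d := fun h => hd ((pure_isX_iff hv.1).1 h)
        simp [dir, hd, hd', eY, add_comm]

theorem Gam_tl (B : ℝ) (i : Word) (a : ℝ) :
    (∑ j ∈ Finset.range (i.length + 1),
        (if Pure.isX (Pure.dig j (Nat.ofDigits 8 (dig i) + 1)) then Lam B j a else 0),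
      ∑ j ∈ Finset.range (i.length + 1),
        (if Pure.isX (Pure.dig j (Nat.ofDigits 8 (dig i) + 1)) then 0 else Lam B j a)) =
      Gam B (tl i) a := by
  have hlen : i.length ≤ (tgt i).length := by
    have := length_le_length_succ (dig i)
    rw [length_dig] at this
    exact this
  have h := gamAux_take B a (isDig_tgt i) hlen 0
  rw [Gam, tl, show (1 : ℕ) = 0 + 1 from rfl, h, Finset.sum_range_succ', Finset.sum_range_succ']
  have e : Nat.ofDigits 8 (tgt i) = Nat.ofDigits 8 (dig i) + 1 := ofDigits_succ_eq (isDig_dig i)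
  rw [e]
  have h0 : ¬ Pure.isX (Pure.dig 0 (Nat.ofDigits 8 (dig i) + 1)) := by
    rw [Pure.dig_zero]; simp [Pure.isX]
  rw [if_neg h0, if_neg h0]
  simp [eY, add_comm (Lam B 0 a)]

end
end Pool.Agent.Closing
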