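import Pool.Agent.Lib.Closing.BridgeSep
import Pool.Agent.Lib.Closing.BridgeReset
import Pool.Agent.Lib.Closing.Translate
import Pool.Agent.Lib.Closing.KapB

/-!
# The bridge: a cycle gives an orbit of the pure system
-/

open scoped ContDiff Topology
open Set Filter

namespace Pool.Agent.Closing

noncomputable section

variable {B : ℝ}

/-- the pure system driven by a globally small displacement -/
def pureSys (hB : 400 ≤ B) (hK : Pure.Kap (kappa B)) {v : E → E} (hv : Small (kappa B 10) v) :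
    Pure.Sys where
  κ := kappa B
  hκ := hK
  α := alpha B
  hα j hj := by
    obtain ⟨k, rfl⟩ := Nat.exists_eq_add_of_le' hj
    exact le_of_eq rfl
  hα' j := (alpha_succ_lt hB j).le
  Λ := Lam B
  Λ0 := Lam_nonneg hB
  Λle j a hj := by
    obtain ⟨k, rfl⟩ := Nat.exists_eq_add_of_le' hj
    refine (Lam_succ_le B k a).trans (le_of_eq ?_)
    unfold Lk Pure.eta
    ring
  Λz _ _ h := Lam_eq_zero hB h
  Λfull j a hj h := by
    obtain ⟨k, rfl⟩ := Nat.exists_eq_add_of_le' hj
    rw [Lam_eq_full hB h]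
    unfold Lk Pure.eta
    ring
  τ l _ := kappa B (l + 20) ^ 2 / 10
  τ0 l _ := by positivity
  τle l _ := by
    have h1 : kappa B (l + 20) ≤ kappa B (l + 5) := kappa_antitone (by linarith) (by omega)
    have h2 := kappa_nonneg B (l + 20)
    have h3 := kappa_le_one (by linarith : 0 ≤ B) (l + 20)
    nlinarith
  χ := chi
  χ1 := chi1
  hχ := reset_chi
  v := v
  v0 := hv.bd
  v1 := hv.lip
  v2 y := by
    obtain ⟨L, h1, h2⟩ := hv.tay y
    exact ⟨(L : E →ₗ[ℝ] E), fun d => (L.le_opNorm d).trans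
      (mul_le_mul_of_nonneg_right h1 (norm_nonneg _)), h2⟩

/-- The orbit of the pure system given by a cycle. -/
def pureOrb (hB : 400 ≤ B) (hK : Pure.Kap (kappa B)) {v : E → E} (hv : Small (kappa B 10) v)
    {e : ℕ → ℝ} (C : Cycle B e)
    (hC : ∀ n, C.y n (rho (C.i (n + 1)) : ℤ) =
      C.y n (1 - (rho (C.i n) : ℤ)) + v (C.y n (1 - (rho (C.i n) : ℤ)))) :
    Pure.Orb (pureSys hB hK hv) where
  l n := (C.i (n + 1)).length
  w n := Nat.ofDigits 8 (dig (C.i (n + 1)))
  P n := C.y n (1 - (rho (C.i n) : ℤ))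
  Q n := C.y n (rho (C.i (n + 1)) : ℤ)
  wlt n := ofDigits_dig_lt _
  nz n := NZ_ofDigits _
  hQ n := hC n
  hD n := by
    have h := C.fin n
    rw [show (pureSys hB hK hv).κ = kappa B from rfl, Xt_dig]
    exact h
  hP n := by
    have h := C.pass n
    change (C.y (n + 1) (1 - (rho (C.i (n + 1)) : ℤ))).2 =
      Pure.Xt (kappa B) ((C.i (n + 1)).length + 1) (Nat.ofDigits 8 (dig (C.i (n + 1))) + 1) +
        (∑ j ∈ Finset.range ((C.i (n + 1)).length + 1),
            (if Pure.isX (Pure.dig j (Nat.ofDigits 8 (dig (C.i (n + 1))) + 1)) then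
              Lam B j (C.y (n + 1) (1 - (rho (C.i (n + 1)) : ℤ))).1 else 0),
          ∑ j ∈ Finset.range ((C.i (n + 1)).length + 1),
            (if Pure.isX (Pure.dig j (Nat.ofDigits 8 (dig (C.i (n + 1))) + 1)) then 0
              else Lam B j (C.y (n + 1) (1 - (rho (C.i (n + 1)) : ℤ))).1)) +
        ((C.y n (rho (C.i (n + 1)) : ℤ)).2 -
          Pure.Xt (kappa B) (C.i (n + 1)).length (Nat.ofDigits 8 (dig (C.i (n + 1)))))
    rw [Xt_tgt, Gam_tl, Xt_dig, h]
    rfl
  ha n := by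
    have h := C.pass n
    have hS : C.y (n + 1) (1 - (rho (C.i (n + 1)) : ℤ)) ∈ S B (C.i (n + 1)) := C.start (n + 1)
    have h1 := neg_tau_lt_of_mem_S hS
    refine le_trans ?_ h1.le
    rw [neg_le_neg_iff]
    exact (pureSys hB hK hv).τle (C.i (n + 1)).length 0
  core n hn := by
    have h := C.pass n
    have hn' : ‖(C.y n (rho (C.i (n + 1)) : ℤ)).2 - X B (dig (C.i (n + 1)))‖ <
        16 * kappa B ((C.i (n + 1)).length + 2) := by
      rw [← Xt_dig]
      exact hn
    have hk := kappa_pos B ((C.i (n + 1)).length + 2)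
    have h1 : phi B (C.i (n + 1)) ((C.y n (rho (C.i (n + 1)) : ℤ)).2 -
        X B (dig (C.i (n + 1)))) = 0 := by
      refine phi_eq_zero ?_
      unfold wd W
      linarith
    have h2 : (C.y (n + 1) (1 - (rho (C.i (n + 1)) : ℤ))).1 =
        tau B (C.i (n + 1)) * chi (C.y n (rho (C.i (n + 1)) : ℤ)).1 := by
      rw [h]
      simp only [F]
      rw [h1, zero_add]
    refine ⟨h2, ?_⟩
    change (∑ j ∈ Finset.range ((C.i (n + 1)).length + 1),
            (if Pure.isX (Pure.dig j (Nat.ofDigits 8 (dig (C.i (n + 1))) + 1)) then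
              Lam B j (C.y (n + 1) (1 - (rho (C.i (n + 1)) : ℤ))).1 else 0),
          ∑ j ∈ Finset.range ((C.i (n + 1)).length + 1),
            (if Pure.isX (Pure.dig j (Nat.ofDigits 8 (dig (C.i (n + 1))) + 1)) then 0
              else Lam B j (C.y (n + 1) (1 - (rho (C.i (n + 1)) : ℤ))).1)) = 0
    rw [Gam_tl]
    have ht := tau_pos B (C.i (n + 1))
    have h3 : (C.y (n + 1) (1 - (rho (C.i (n + 1)) : ℤ))).1 ≤ tau B (C.i (n + 1)) := by
      rw [h2]
      have := (abs_le.1 (abs_chi_le (C.y n (rho (C.i (n + 1)) : ℤ)).1)).2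
      nlinarith
    refine Gam_eq_zero hB (h3.trans ?_)
    have hl : (tl (C.i (n + 1))).length ≤ (C.i (n + 1)).length := by
      unfold tl
      rw [List.length_take]
      exact min_le_left _ _
    have h4 : kappa B ((C.i (n + 1)).length + 4) ≤ kappa B ((tl (C.i (n + 1))).length + 4) :=
      kappa_antitone (by linarith) (by omega)
    have h5 : kappa B ((C.i (n + 1)).length + 20) ≤ kappa B ((C.i (n + 1)).length + 4) :=
      kappa_antitone (by linarith) (by omega)
    have h6 := kappa_nonneg B ((C.i (n + 1)).length + 20)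
    have h7 := kappa_le_one (by linarith : 0 ≤ B) ((C.i (n + 1)).length + 20)
    change tau B (C.i (n + 1)) ≤ kappa B ((tl (C.i (n + 1))).length + 4)
    unfold tau
    nlinarith

/-- **The bridge.** -/
theorem exists_orb {B : ℝ} (hB : 400 ≤ B) (hK : Pure.Kap (kappa B)) :
    ∃ e : ℕ → ℝ, (∀ n, 0 < e n) ∧ ∀ _C : Cycle B e, ∃ S : Pure.Sys, ∃ O : Pure.Orb S, ∃ L : ℕ,
      ∀ n, O.l n ≤ L := by
  obtain ⟨e, he, h⟩ := exists_e_global (sep_of_ge hB) (kappa_pos B 10)
  refine ⟨e, he, fun C => ?_⟩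
  obtain ⟨v, hv, hC⟩ := h C
  refine ⟨pureSys hB hK hv, pureOrb hB hK hv C hC,
    (Finset.range C.N).sup fun n => (C.i n).length, fun n => ?_⟩
  change (C.i (n + 1)).length ≤ _
  have h1 : Function.Periodic C.i C.N := C.per
  rw [← h1.map_mod_nat (n + 1)]
  exact Finset.le_sup (f := fun n => (C.i n).length)
    (Finset.mem_range.2 (Nat.mod_lt (n + 1) C.hN))

/-- The dynamic half from the pure theorem: no cycles for suitable perturbation sizes. -/
theorem no_cycle_of_pure (hpure : ∀ (S : Pure.Sys) (O : Pure.Orb S), ¬ ∃ L : ℕ, ∀ n, O.l n ≤ L)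
    {B : ℝ} (hB : 4000 ≤ B) : ∃ e : ℕ → ℝ, (∀ n, 0 < e n) ∧ IsEmpty (Cycle B e) := by
  obtain ⟨e, he, h⟩ := exists_orb (by linarith : 400 ≤ B) (kap_kappa hB)
  refine ⟨e, he, ⟨fun C => ?_⟩⟩
  obtain ⟨S, O, L, hL⟩ := h C
  exact hpure S O ⟨L, hL⟩

end

end Pool.Agent.Closing
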