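import Mathlib

/-!
# Globalization of a system of partial diffeomorphisms

`RetSys E ι` is a system of partial diffeomorphisms `F i : D_i → S_i` of a proper normed space `E`
with return times `t i ≥ 1`.  It is globalized to a smooth manifold `R.Mfd` (a quotient of
`ℤ × E`) with a diffeomorphism `R.shift` such that `R.shift (R.phi s y) = R.phi (s + 1) y` and
`R.phi s y = R.phi (s - t i) (F i y)` for `y ∈ D_i`.
-/

open scoped ContDiff Manifold Topology
open Set Filter

namespace Pool.Agent.Closing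

noncomputable section

/-- A system of return maps. -/
structure RetSys (E : Type*) [NormedAddCommGroup E] [NormedSpace ℝ E] (ι : Type*) where
  /-- the return maps -/
  F : ι → OpenPartialHomeomorph E E
  /-- the return times -/
  t : ι → ℕ
  one_le : ∀ i, 1 ≤ t i
  fin : ∀ n, {i | t i ≤ n}.Finite
  disjD : ∀ i j y, y ∈ (F i).source → y ∈ (F j).source → i = j
  disjS : ∀ i j y, y ∈ (F i).target → y ∈ (F j).target → i = j
  smooth : ∀ i, ContDiffOn ℝ ∞ (F i) (F i).source
  smooth_symm : ∀ i, ContDiffOn ℝ ∞ (F i).symm (F i).target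
  closed : ∀ i, IsClosed {p : E × E | p.1 ∈ (F i).source ∧ F i p.1 = p.2}
  bdd : ∀ i j, Bornology.IsBounded ((F i).target ∩ (F j).source)

variable {E : Type*} [NormedAddCommGroup E] [NormedSpace ℝ E] {ι : Type*}

namespace RetSys

/-- The inverse system. -/
def symm (R : RetSys E ι) : RetSys E ι where
  F i := (R.F i).symm
  t := R.t
  one_le := R.one_le
  fin := R.fin
  disjD i j y hi hj := R.disjS i j y hi hj
  disjS i j y hi hj := R.disjD i j y hi hj
  smooth i := R.smooth_symm i
  smooth_symm i := R.smooth i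
  closed i := by
    have h := (R.closed i).preimage (continuous_swap (X := E) (Y := E))
    convert h using 1
    ext ⟨y, z⟩
    simp only [mem_ofPred_eq, mem_preimage, Prod.swap_prod_mk, OpenPartialHomeomorph.symm_source]
    constructor
    · rintro ⟨hy, rfl⟩
      exact ⟨(R.F i).map_target hy, (R.F i).right_inv hy⟩
    · rintro ⟨hz, rfl⟩
      exact ⟨(R.F i).map_source hz, (R.F i).left_inv hz⟩
  bdd i j := by
    rw [inter_comm]
    exact R.bdd j i

@[simp] theorem symm_symm (R : RetSys E ι) : R.symm.symm = R := by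
  cases R
  simp [symm]

/-- `R.Chain n y z`: a chain of passages through windows, of total time `n`, leads from `y` to
`z`. -/
inductive Chain (R : RetSys E ι) : ℕ → E → E → Prop
  | nil (y : E) : Chain R 0 y y
  | cons {i : ι} {y z : E} {n : ℕ} (hy : y ∈ (R.F i).source) (h : Chain R n (R.F i y) z) :
      Chain R (R.t i + n) y z

variable (R : RetSys E ι)

theorem Chain.single {R : RetSys E ι} {i : ι} {y : E} (hy : y ∈ (R.F i).source) :
    R.Chain (R.t i) y (R.F i y) := by
  have := Chain.cons hy (Chain.nil (R.F i y))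
  simpa using this

theorem Chain.single_symm {R : RetSys E ι} {i : ι} {y : E} (hy : y ∈ (R.F i).target) :
    R.Chain (R.t i) ((R.F i).symm y) y := by
  have := Chain.single (R := R) ((R.F i).map_target hy)
  rwa [(R.F i).right_inv hy] at this

theorem Chain.eq_of_zero {R : RetSys E ι} {n : ℕ} {y z : E} (h : R.Chain n y z) (hn : n = 0) :
    y = z := by
  cases h with
  | nil => rfl
  | @cons i y z n hy h =>
    have := R.one_le i
    omega

theorem chain_zero {y z : E} : R.Chain 0 y z ↔ y = z :=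
  ⟨fun h => h.eq_of_zero rfl, fun h => h ▸ Chain.nil y⟩

theorem Chain.trans {R : RetSys E ι} {m n : ℕ} {x y z : E} (h : R.Chain m x y)
    (h' : R.Chain n y z) : R.Chain (m + n) x z := by
  induction h with
  | nil y => simpa using h'
  | cons hy h ih =>
    rw [add_assoc]
    exact Chain.cons hy (ih h')

theorem Chain.symm {R : RetSys E ι} {n : ℕ} {y z : E} (h : R.Chain n y z) :
    R.symm.Chain n z y := by
  induction h with
  | nil y => exact Chain.nil y
  | cons hy h ih =>
    rw [add_comm]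
    refine ih.trans ?_
    have := Chain.single_symm (R := R.symm) hy
    exact this

theorem chain_symm_iff {n : ℕ} {y z : E} : R.symm.Chain n z y ↔ R.Chain n y z :=
  ⟨fun h => by simpa using h.symm, fun h => h.symm⟩

theorem Chain.exists_cons {R : RetSys E ι} {n : ℕ} {y z : E} (h : R.Chain n y z) (hn : n ≠ 0) :
    ∃ i m, y ∈ (R.F i).source ∧ n = R.t i + m ∧ R.Chain m (R.F i y) z := by
  cases h with
  | nil => exact absurd rfl hn
  | cons hy h => exact ⟨_, _, hy, rfl, h⟩

theorem Chain.exists_snoc {R : RetSys E ι} {n : ℕ} {y z : E} (h : R.Chain n y z) (hn : n ≠ 0) :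
    ∃ i m, z ∈ (R.F i).target ∧ n = m + R.t i ∧ R.Chain m y ((R.F i).symm z) := by
  obtain ⟨i, m, h1, h2, h3⟩ := h.symm.exists_cons hn
  refine ⟨i, m, h1, ?_, ?_⟩
  · rw [h2, add_comm]; rfl
  · exact R.chain_symm_iff.1 h3

/-- forward determinism -/
theorem Chain.sub {R : RetSys E ι} {m n : ℕ} {y z w : E} (h : R.Chain m y z)
    (h' : R.Chain n y w) (hmn : m ≤ n) : R.Chain (n - m) z w := by
  induction h generalizing n with
  | nil y => simpa using h'
  | @cons i y z k hy h ih =>
    have hn : n ≠ 0 := by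
      have := R.one_le i
      omega
    obtain ⟨j, l, hj, rfl, hl⟩ := h'.exists_cons hn
    obtain rfl := R.disjD _ _ _ hy hj
    have := ih hl (by omega)
    rwa [Nat.add_sub_add_left]

/-- backward determinism -/
theorem Chain.sub' {R : RetSys E ι} {m n : ℕ} {y z w : E} (h : R.Chain m y z)
    (h' : R.Chain n w z) (hmn : m ≤ n) : R.Chain (n - m) w y :=
  R.chain_symm_iff.1 (h.symm.sub h'.symm hmn)

theorem Chain.right_unique {R : RetSys E ι} {n : ℕ} {y z w : E} (h : R.Chain n y z)
    (h' : R.Chain n y w) : z = w :=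
  (h.sub h' le_rfl).eq_of_zero (Nat.sub_self n)

theorem Chain.left_unique {R : RetSys E ι} {n : ℕ} {y z w : E} (h : R.Chain n y z)
    (h' : R.Chain n w z) : y = w :=
  ((h.sub' h' le_rfl).eq_of_zero (Nat.sub_self n)).symm

/-- Chains are locally given by smooth partial homeomorphisms. -/
theorem Chain.exists_local {R : RetSys E ι} {n : ℕ} {y z : E} (h : R.Chain n y z) :
    ∃ G : OpenPartialHomeomorph E E, y ∈ G.source ∧ G y = z ∧
      (∀ w ∈ G.source, R.Chain n w (G w)) ∧
      ContDiffOn ℝ ∞ G G.source ∧ ContDiffOn ℝ ∞ G.symm G.target := by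
  induction h with
  | nil y =>
    exact ⟨OpenPartialHomeomorph.refl E, mem_univ _, rfl, fun w _ => Chain.nil w,
      contDiffOn_id, contDiffOn_id⟩
  | @cons i y z k hy h ih =>
    obtain ⟨G, h1, h2, h3, h4, h5⟩ := ih
    refine ⟨(R.F i).trans G, ?_, ?_, ?_, ?_, ?_⟩
    · simp only [OpenPartialHomeomorph.trans_source]
      exact ⟨hy, h1⟩
    · simpa using h2
    · intro w hw
      simp only [OpenPartialHomeomorph.trans_source] at hw
      exact Chain.cons hw.1 (h3 _ hw.2)
    · simp only [OpenPartialHomeomorph.trans_source, OpenPartialHomeomorph.coe_trans]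
      exact h4.comp ((R.smooth i).mono inter_subset_left) (fun w hw => hw.2)
    · simp only [OpenPartialHomeomorph.trans_target, OpenPartialHomeomorph.coe_trans_symm]
      exact (R.smooth_symm i).comp (h5.mono inter_subset_left) (fun w hw => hw.2)

/-- The chain relations are closed. -/
theorem isClosed_chain [ProperSpace E] (n : ℕ) : IsClosed {p : E × E | R.Chain n p.1 p.2} := by
  induction n using Nat.strong_induction_on with
  | _ n ih =>
  rcases Nat.eq_zero_or_pos n with rfl | hn
  · simp only [chain_zero]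
    exact isClosed_eq continuous_fst continuous_snd
  have key : {p : E × E | R.Chain n p.1 p.2} =
      ⋃ i ∈ {i | R.t i ≤ n},
        {p : E × E | p.1 ∈ (R.F i).source ∧ R.Chain (n - R.t i) (R.F i p.1) p.2} := by
    ext ⟨y, z⟩
    simp only [mem_ofPred_eq, mem_iUnion, exists_prop]
    constructor
    · intro h
      obtain ⟨i, m, h1, rfl, h3⟩ := h.exists_cons hn.ne'
      exact ⟨i, by omega, h1, by simpa using h3⟩
    · rintro ⟨i, hi, h1, h2⟩
      have := Chain.cons h1 h2
      rwa [Nat.add_sub_cancel' hi] at this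
  rw [key]
  refine (R.fin n).isClosed_biUnion fun i hi => ?_
  have hi' : R.t i ≤ n := hi
  rcases Nat.eq_zero_or_pos (n - R.t i) with h0 | hpos
  · rw [h0]
    simp only [chain_zero]
    exact R.closed i
  -- the intermediate point lies in a compact set
  set K : Set E := closure (⋃ j ∈ {j | R.t j ≤ n}, (R.F i).target ∩ (R.F j).source) with hK
  have hKc : IsCompact K := by
    apply Bornology.IsBounded.isCompact_closure
    rw [Bornology.isBounded_biUnion (R.fin n)]
    exact fun j _ => R.bdd i j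
  have hKmem : ∀ {y z}, y ∈ (R.F i).source → R.Chain (n - R.t i) (R.F i y) z →
      R.F i y ∈ K := by
    intro y z hy hc
    obtain ⟨j, m, h1, h2, -⟩ := hc.exists_cons hpos.ne'
    apply subset_closure
    simp only [mem_iUnion]
    exact ⟨j, show R.t j ≤ n by omega, (R.F i).map_source hy, h1⟩
  rw [← isSeqClosed_iff_isClosed]
  intro u p hu hup
  have hlim1 : Tendsto (fun m => (u m).1) atTop (𝓝 p.1) :=
    (continuous_fst.tendsto p).comp hup
  have hlim2 : Tendsto (fun m => (u m).2) atTop (𝓝 p.2) :=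
    (continuous_snd.tendsto p).comp hup
  obtain ⟨w, -, φ, hφ, hw⟩ := hKc.tendsto_subseq (x := fun m => R.F i (u m).1)
    (fun m => hKmem (hu m).1 (hu m).2)
  have c1 : (p.1, w) ∈ {p : E × E | p.1 ∈ (R.F i).source ∧ R.F i p.1 = p.2} := by
    refine (R.closed i).mem_of_tendsto
      (f := fun m => ((u (φ m)).1, R.F i (u (φ m)).1)) (b := atTop) ?_ ?_
    · exact (hlim1.comp hφ.tendsto_atTop).prodMk_nhds hw
    · exact Eventually.of_forall fun m => ⟨(hu (φ m)).1, rfl⟩
  have c2 : (w, p.2) ∈ {p : E × E | R.Chain (n - R.t i) p.1 p.2} := by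
    have hlt : n - R.t i < n := by
      have := R.one_le i
      omega
    refine (ih _ hlt).mem_of_tendsto
      (f := fun m => (R.F i (u (φ m)).1, (u (φ m)).2)) (b := atTop) ?_ ?_
    · exact hw.prodMk_nhds (hlim2.comp hφ.tendsto_atTop)
    · exact Eventually.of_forall fun m => (hu (φ m)).2
  obtain ⟨c1, c1'⟩ := c1
  simp only [mem_ofPred_eq] at c1 c1' c2
  refine ⟨c1, ?_⟩
  rw [c1']
  exact c2

/-- The equivalence relation on `ℤ × E`. -/
def Rel (p q : ℤ × E) : Prop :=
  (∃ n : ℕ, p.1 = q.1 + n ∧ R.Chain n p.2 q.2) ∨ (∃ n : ℕ, q.1 = p.1 + n ∧ R.Chain n q.2 p.2)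

theorem Rel.refl (p : ℤ × E) : R.Rel p p := Or.inl ⟨0, by simp, Chain.nil _⟩

variable {R} in
theorem Rel.symm {p q : ℤ × E} (h : R.Rel p q) : R.Rel q p := Or.symm h

variable {R} in
theorem Rel.trans {p q r : ℤ × E} (h : R.Rel p q) (h' : R.Rel q r) : R.Rel p r := by
  rcases h with ⟨n, h1, h2⟩ | ⟨n, h1, h2⟩ <;> rcases h' with ⟨m, h3, h4⟩ | ⟨m, h3, h4⟩
  · exact Or.inl ⟨n + m, by push_cast; omega, h2.trans h4⟩
  · rcases le_total n m with h | h
    · exact Or.inr ⟨m - n, by omega, h2.sub' h4 h⟩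
    · exact Or.inl ⟨n - m, by omega, h4.sub' h2 h⟩
  · rcases le_total n m with h | h
    · exact Or.inl ⟨m - n, by omega, h2.sub h4 h⟩
    · exact Or.inr ⟨n - m, by omega, h4.sub h2 h⟩
  · exact Or.inr ⟨m + n, by push_cast; omega, h4.trans h2⟩

/-- the setoid -/
def setoid : Setoid (ℤ × E) where
  r := R.Rel
  iseqv := ⟨Rel.refl R, Rel.symm, Rel.trans⟩

/-- The globalization manifold of the system of return maps. -/
def Mfd : Type _ := Quotient R.setoid

instance : TopologicalSpace R.Mfd := inferInstanceAs (TopologicalSpace (Quotient R.setoid))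

/-- The parametrization of level `s`. -/
def phi (s : ℤ) (y : E) : R.Mfd := Quotient.mk R.setoid (s, y)

theorem phi_surj (p : R.Mfd) : ∃ s y, R.phi s y = p := by
  obtain ⟨⟨s, y⟩, rfl⟩ := Quotient.exists_rep p
  exact ⟨s, y, rfl⟩

theorem phi_eq_iff_rel {s t : ℤ} {y z : E} : R.phi s y = R.phi t z ↔ R.Rel (s, y) (t, z) :=
  Quotient.eq (r := R.setoid)

theorem phi_eq_iff {s t : ℤ} {y z : E} : R.phi s y = R.phi t z ↔
    (∃ n : ℕ, s = t + n ∧ R.Chain n y z) ∨ (∃ n : ℕ, t = s + n ∧ R.Chain n z y) :=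
  R.phi_eq_iff_rel

/-- A representation at a higher level leads, by a chain, to a representation at a lower level. -/
theorem phi_eq_iff_of_le {s t : ℤ} {y z : E} (h : t ≤ s) :
    R.phi s y = R.phi t z ↔ R.Chain (s - t).toNat y z := by
  rw [phi_eq_iff]
  constructor
  · rintro (⟨n, h1, h2⟩ | ⟨n, h1, h2⟩)
    · have : (s - t).toNat = n := by omega
      rwa [this]
    · obtain rfl : n = 0 := by omega
      have : (s - t).toNat = 0 := by omega
      rw [this, chain_zero]
      exact ((R.chain_zero).1 h2).symm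
  · intro h'
    exact Or.inl ⟨_, by omega, h'⟩

theorem phi_eq_of_chain {n : ℕ} {y z : E} (h : R.Chain n y z) (s : ℤ) :
    R.phi s y = R.phi (s - n) z :=
  R.phi_eq_iff.2 (Or.inl ⟨n, by omega, h⟩)

/-- The identification rule. -/
theorem phi_eq_phi_F {i : ι} {y : E} (hy : y ∈ (R.F i).source) (s : ℤ) :
    R.phi s y = R.phi (s - R.t i) (R.F i y) :=
  R.phi_eq_of_chain (Chain.single hy) s

theorem phi_eq_phi_F_symm {i : ι} {y : E} (hy : y ∈ (R.F i).target) (s : ℤ) :
    R.phi s y = R.phi (s + R.t i) ((R.F i).symm y) := by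
  rw [R.phi_eq_of_chain (Chain.single_symm hy) (s + R.t i)]
  congr 1
  omega

theorem phi_injective (s : ℤ) : Function.Injective (R.phi s) := by
  intro y z h
  rw [phi_eq_iff_of_le R le_rfl] at h
  exact h.eq_of_zero (by simp)

/-- Local form of the transition map between levels. -/
theorem exists_local_transition {s t : ℤ} {y z : E} (h : R.phi s y = R.phi t z) :
    ∃ G : OpenPartialHomeomorph E E, y ∈ G.source ∧ G y = z ∧
      (∀ w ∈ G.source, R.phi s w = R.phi t (G w)) ∧
      ContDiffOn ℝ ∞ G G.source ∧ ContDiffOn ℝ ∞ G.symm G.target := by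
  rcases (R.phi_eq_iff).1 h with ⟨n, h1, h2⟩ | ⟨n, h1, h2⟩
  · obtain ⟨G, g1, g2, g3, g4, g5⟩ := h2.exists_local
    exact ⟨G, g1, g2, fun w hw => R.phi_eq_iff.2 (Or.inl ⟨n, h1, g3 w hw⟩), g4, g5⟩
  · obtain ⟨G, g1, g2, g3, g4, g5⟩ := h2.exists_local
    refine ⟨G.symm, ?_, ?_, ?_, g5, by simpa using g4⟩
    · rw [← g2]; exact G.map_source g1
    · rw [← g2]; exact G.left_inv g1
    · intro w hw
      refine R.phi_eq_iff.2 (Or.inr ⟨n, h1, ?_⟩)
      have := g3 (G.symm w) (G.map_target hw)
      rwa [G.right_inv hw] at this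

theorem isOpen_iff {A : Set R.Mfd} : IsOpen A ↔ ∀ s, IsOpen (R.phi s ⁻¹' A) := by
  have h1 : IsOpen A ↔ IsOpen (Quotient.mk R.setoid ⁻¹' A) := Iff.rfl
  rw [h1]
  constructor
  · intro h s
    exact h.preimage (Continuous.prodMk_right s)
  · intro h
    rw [isOpen_iff_mem_nhds]
    rintro ⟨s, y⟩ hy
    rw [nhds_prod_eq, nhds_discrete, pure_prod]
    exact (h s).mem_nhds hy

theorem isClosed_iff {A : Set R.Mfd} : IsClosed A ↔ ∀ s, IsClosed (R.phi s ⁻¹' A) := by
  rw [← isOpen_compl_iff, isOpen_iff]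
  simp only [preimage_compl, isOpen_compl_iff]

theorem continuous_phi (s : ℤ) : Continuous (R.phi s) := by
  rw [continuous_def]
  intro A hA
  exact R.isOpen_iff.1 hA s

theorem isOpenMap_phi (s : ℤ) : IsOpenMap (R.phi s) := by
  intro V hV
  rw [isOpen_iff]
  intro t
  rw [isOpen_iff_mem_nhds]
  rintro z ⟨y, hy, hyz⟩
  obtain ⟨G, g1, g2, g3, -, -⟩ := R.exists_local_transition hyz.symm
  have : ∀ᶠ w in 𝓝 z, w ∈ G.source ∧ G w ∈ V := by
    refine Filter.Eventually.and (G.open_source.mem_nhds g1) ?_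
    have := G.continuousAt g1
    exact this.eventually_mem (hV.mem_nhds (by rwa [g2]))
  filter_upwards [this] with w hw
  exact ⟨G w, hw.2, (g3 w hw.1).symm⟩

theorem isOpenEmbedding_phi (s : ℤ) : Topology.IsOpenEmbedding (R.phi s) :=
  .of_continuous_injective_isOpenMap (R.continuous_phi s) (R.phi_injective s)
    (R.isOpenMap_phi s)

theorem phi_mem_interior {A : Set R.Mfd} {s : ℤ} {y : E} :
    R.phi s y ∈ interior A ↔ y ∈ interior (R.phi s ⁻¹' A) := by
  rw [← (R.isOpenMap_phi s).preimage_interior_eq_interior_preimage (R.continuous_phi s)]; rfl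

instance [ProperSpace E] : T2Space R.Mfd where
  t2 p q hpq := by
    obtain ⟨s, y, rfl⟩ := R.phi_surj p
    obtain ⟨t, z, rfl⟩ := R.phi_surj q
    have hc : IsClosed {r : E × E | R.phi s r.1 = R.phi t r.2} := by
      rcases le_total t s with h | h
      · simp only [R.phi_eq_iff_of_le h]
        exact R.isClosed_chain _
      · simp only [eq_comm (a := R.phi s _), R.phi_eq_iff_of_le h]
        exact (R.isClosed_chain _).preimage (continuous_swap (X := E) (Y := E))
    have hmem : (y, z) ∈ {r : E × E | R.phi s r.1 = R.phi t r.2}ᶜ := hpq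
    have := hc.isOpen_compl.mem_nhds hmem
    rw [mem_nhds_prod_iff'] at this
    obtain ⟨V, W, hV, hyV, hW, hzW, hVW⟩ := this
    refine ⟨R.phi s '' V, R.phi t '' W, R.isOpenMap_phi s V hV, R.isOpenMap_phi t W hW,
      ⟨y, hyV, rfl⟩, ⟨z, hzW, rfl⟩, ?_⟩
    rw [Set.disjoint_left]
    rintro - ⟨y', hy', rfl⟩ ⟨z', hz', h⟩
    exact hVW (Set.mk_mem_prod hy' hz') h.symm

instance [ProperSpace E] : SecondCountableTopology R.Mfd := by
  let f : ℤ × E → R.Mfd := fun p => R.phi p.1 p.2
  have hq : Topology.IsQuotientMap f := isQuotientMap_quot_mk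
  have h : IsOpenMap f := by
    intro U hU
    have : f '' U = ⋃ s, R.phi s '' {y | (s, y) ∈ U} := by
      ext p
      rw [mem_iUnion]
      constructor
      · rintro ⟨⟨s, y⟩, hy, rfl⟩
        exact ⟨s, y, hy, rfl⟩
      · rintro ⟨s, y, hy, rfl⟩
        exact ⟨(s, y), hy, rfl⟩
    rw [this]
    refine isOpen_iUnion fun s => R.isOpenMap_phi s _ ?_
    exact hU.preimage (Continuous.prodMk_right s)
  exact hq.secondCountableTopology h

/-- The chart of level `s`. -/
def chart (s : ℤ) : OpenPartialHomeomorph R.Mfd E :=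
  ((R.isOpenEmbedding_phi s).toOpenPartialHomeomorph (R.phi s)).symm

@[simp] theorem chart_source (s : ℤ) : (R.chart s).source = range (R.phi s) := by
  simp [chart]

@[simp] theorem chart_target (s : ℤ) : (R.chart s).target = univ := by
  simp [chart]

@[simp] theorem chart_symm_coe (s : ℤ) : ⇑(R.chart s).symm = R.phi s := by
  simp [chart]

@[simp] theorem chart_phi (s : ℤ) (y : E) : R.chart s (R.phi s y) = y := by
  have := (R.chart s).right_inv (x := y) (by simp)
  simpa using this

theorem phi_chart {s : ℤ} {p : R.Mfd} (hp : p ∈ range (R.phi s)) :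
    R.phi s (R.chart s p) = p := by
  obtain ⟨y, rfl⟩ := hp
  simp

instance : Nonempty R.Mfd := ⟨R.phi 0 0⟩

/-- A level in which the point is represented. -/
def lev (p : R.Mfd) : ℤ := (R.phi_surj p).choose

theorem mem_range_phi_lev (p : R.Mfd) : p ∈ range (R.phi (R.lev p)) :=
  (R.phi_surj p).choose_spec

instance : ChartedSpace E R.Mfd where
  atlas := range R.chart
  chartAt p := R.chart (R.lev p)
  mem_chart_source p := by
    rw [chart_source]
    exact R.mem_range_phi_lev p
  chart_mem_atlas p := mem_range_self _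

theorem chart_mem_atlas (s : ℤ) : R.chart s ∈ atlas E R.Mfd := mem_range_self s

theorem contDiffOn_transition (s t : ℤ) :
    ContDiffOn ℝ ∞ ((R.chart s).symm.trans (R.chart t))
      ((R.chart s).symm.trans (R.chart t)).source := by
  intro y hy
  simp only [OpenPartialHomeomorph.trans_source, chart_source, OpenPartialHomeomorph.symm_source,
    chart_target, univ_inter, mem_preimage, chart_symm_coe] at hy
  obtain ⟨z, hz⟩ := hy
  obtain ⟨G, g1, g2, g3, g4, -⟩ := R.exists_local_transition hz.symm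
  have h1 : ContDiffAt ℝ ∞ G y := (g4 y g1).contDiffAt (G.open_source.mem_nhds g1)
  refine (h1.congr_of_eventuallyEq ?_).contDiffWithinAt
  filter_upwards [G.open_source.mem_nhds g1] with w hw
  simp [g3 w hw]

instance instIsManifoldInfty : IsManifold 𝓘(ℝ, E) ∞ R.Mfd := by
  apply isManifold_of_contDiffOn
  rintro - - ⟨s, rfl⟩ ⟨t, rfl⟩
  have := R.contDiffOn_transition s t
  simpa using this

theorem chart_mem_maximalAtlas (s : ℤ) :
    R.chart s ∈ IsManifold.maximalAtlas 𝓘(ℝ, E) ∞ R.Mfd :=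
  IsManifold.subset_maximalAtlas (R.chart_mem_atlas s)

theorem contMDiff_phi (s : ℤ) : ContMDiff 𝓘(ℝ, E) 𝓘(ℝ, E) ∞ (R.phi s) := by
  have := contMDiffOn_symm_of_mem_maximalAtlas (R.chart_mem_maximalAtlas s)
  simp only [chart_target, chart_symm_coe] at this
  exact contMDiffOn_univ.1 this

theorem contMDiffOn_chart (s : ℤ) :
    ContMDiffOn 𝓘(ℝ, E) 𝓘(ℝ, E) ∞ (R.chart s) (range (R.phi s)) := by
  have := contMDiffOn_of_mem_maximalAtlas (R.chart_mem_maximalAtlas s)
  simpa using this

/-- The shift by `k` levels. -/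
def shiftFun (k : ℤ) : R.Mfd → R.Mfd :=
  Quotient.map' (s₁ := R.setoid) (s₂ := R.setoid) (fun p : ℤ × E => (p.1 + k, p.2)) (by
    rintro ⟨s, y⟩ ⟨t, z⟩ (⟨n, h1, h2⟩ | ⟨n, h1, h2⟩)
    · exact Or.inl ⟨n, by simp only at h1 ⊢; omega, h2⟩
    · exact Or.inr ⟨n, by simp only at h1 ⊢; omega, h2⟩)

@[simp] theorem shiftFun_phi (k s : ℤ) (y : E) : R.shiftFun k (R.phi s y) = R.phi (s + k) y := rfl

theorem contMDiff_shiftFun (k : ℤ) : ContMDiff 𝓘(ℝ, E) 𝓘(ℝ, E) ∞ (R.shiftFun k) := by
  intro p
  obtain ⟨s, y, rfl⟩ := R.phi_surj p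
  have hmem : range (R.phi s) ∈ 𝓝 (R.phi s y) :=
    (R.isOpenEmbedding_phi s).isOpen_range.mem_nhds (mem_range_self y)
  have h1 : ContMDiffAt 𝓘(ℝ, E) 𝓘(ℝ, E) ∞ (R.phi (s + k) ∘ R.chart s) (R.phi s y) :=
    (R.contMDiff_phi (s + k)).contMDiffAt.comp _ ((R.contMDiffOn_chart s).contMDiffAt hmem)
  refine h1.congr_of_eventuallyEq ?_
  filter_upwards [hmem] with q hq
  obtain ⟨z, rfl⟩ := hq
  simp

/-- The diffeomorphism of the globalization manifold. -/
def shift (r : ℕ∞) : R.Mfd ≃ₘ^r⟮𝓘(ℝ, E), 𝓘(ℝ, E)⟯ R.Mfd where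
  toFun := R.shiftFun 1
  invFun := R.shiftFun (-1)
  left_inv p := by
    obtain ⟨s, y, rfl⟩ := R.phi_surj p
    simp
  right_inv p := by
    obtain ⟨s, y, rfl⟩ := R.phi_surj p
    simp
  contMDiff_toFun := (R.contMDiff_shiftFun 1).of_le (by exact_mod_cast le_top)
  contMDiff_invFun := (R.contMDiff_shiftFun (-1)).of_le (by exact_mod_cast le_top)

@[simp] theorem shift_phi (r : ℕ∞) (s : ℤ) (y : E) :
    R.shift r (R.phi s y) = R.phi (s + 1) y := rfl

@[simp] theorem shift_symm_phi (r : ℕ∞) (s : ℤ) (y : E) :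
    (R.shift r).symm (R.phi s y) = R.phi (s - 1) y := rfl

theorem shift_iterate_phi (r : ℕ∞) (n : ℕ) (s : ℤ) (y : E) :
    (R.shift r)^[n] (R.phi s y) = R.phi (s + n) y := by
  induction n generalizing s with
  | zero => simp
  | succ n ih =>
    rw [Function.iterate_succ_apply, shift_phi, ih]
    congr 1
    push_cast
    ring

theorem shift_zpow_phi (r : ℕ∞) (n s : ℤ) (y : E) :
    ((R.shift r).toEquiv ^ n) (R.phi s y) = R.phi (s + n) y := by
  induction n using Int.induction_on with
  | zero => simp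
  | succ n ih =>
    rw [add_comm, zpow_add, zpow_one, Equiv.Perm.mul_apply, ih]
    change R.shift r _ = _
    rw [shift_phi]
    congr 1
    ring
  | pred n ih =>
    rw [sub_eq_add_neg, add_comm, zpow_add, zpow_neg_one, Equiv.Perm.mul_apply, ih]
    change (R.shift r).symm _ = _
    rw [shift_symm_phi]
    congr 1
    ring

/-- return rule -/
theorem shift_iterate_of_chain (r : ℕ∞) {n : ℕ} {y z : E} (h : R.Chain n y z) (s : ℤ) :
    (R.shift r)^[n] (R.phi s y) = R.phi s z := by
  rw [shift_iterate_phi, R.phi_eq_of_chain h]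
  congr 1
  ring

theorem isCompact_phi_image {K : Set E} (hK : IsCompact K) (s : ℤ) :
    IsCompact (R.phi s '' K) := hK.image (R.continuous_phi s)

theorem iUnion_range_phi : ⋃ s, range (R.phi s) = univ := by
  rw [eq_univ_iff_forall]
  intro p
  obtain ⟨s, y, rfl⟩ := R.phi_surj p
  exact mem_iUnion.2 ⟨s, mem_range_self y⟩

/-- If some return time is `1`, the manifold is connected. -/
theorem connectedSpace (i : ι) (hi : R.t i = 1) (hne : (R.F i).source.Nonempty) :
    ConnectedSpace R.Mfd := by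
  rw [connectedSpace_iff_univ, ← R.iUnion_range_phi]
  refine IsConnected.iUnion_of_chain (fun s => ?_) (fun s => ?_)
  · exact isConnected_range (R.continuous_phi s)
  · obtain ⟨y, hy⟩ := hne
    refine ⟨R.phi (s + 1) y, ?_, ?_⟩
    · rw [R.phi_eq_phi_F hy, hi]
      refine ⟨R.F i y, ?_⟩
      congr 1
      push_cast
      ring
    · exact mem_range_self y

end RetSys

end

end Pool.Agent.Closing
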