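import Pool.Agent.Lib.Closing.Tails
import Pool.Agent.Lib.Closing.Manifold

/-!
# Closing lemma counterexample: the windows `F i : D i → S i` and the system `sys B`
-/

open scoped ContDiff Topology
open Set Filter

namespace Pool.Agent.Closing

noncomputable section

variable {B : ℝ}

/-! ### The functions `zeta`, `chi` -/

theorem contDiffAt_zeta {s : ℝ} (hs : |s| < 1) {n : ℕ∞} : ContDiffAt ℝ n zeta s := by
  unfold zeta
  have h1 : ContDiff ℝ n (fun s : ℝ => 4 * s ^ 2 - 1) := by fun_prop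
  have h2 : ContDiff ℝ n (fun s : ℝ => 1 - s ^ 2) := by fun_prop
  refine (Real.smoothTransition.contDiff.comp h1).contDiffAt.div h2.contDiffAt ?_
  have : s ^ 2 < 1 := by rwa [sq_lt_one_iff_abs_lt_one]
  linarith

theorem zeta_nonneg {s : ℝ} (hs : |s| < 1) : 0 ≤ zeta s := by
  unfold zeta
  have : s ^ 2 < 1 := by rwa [sq_lt_one_iff_abs_lt_one]
  exact div_nonneg (Real.smoothTransition.nonneg _) (by linarith)

/-- `zeta` vanishes on the core -/
theorem zeta_eq_zero {s : ℝ} (hs : |s| ≤ 1 / 2) : zeta s = 0 := by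
  unfold zeta
  rw [Real.smoothTransition.zero_of_nonpos, zero_div]
  have : s ^ 2 ≤ (1 / 2) ^ 2 := by
    rw [← sq_abs s]
    exact pow_le_pow_left₀ (abs_nonneg s) hs 2
  norm_num at this
  linarith

/-- a bound of `zeta s` keeps `s` away from `±1` -/
theorem sq_le_of_zeta_le {s C : ℝ} (hs : |s| < 1) (hC : 2 ≤ C) (h : zeta s ≤ C) :
    s ^ 2 ≤ 1 - 1 / C := by
  have h1 : s ^ 2 < 1 := by rwa [sq_lt_one_iff_abs_lt_one]
  have hC' : 1 / C ≤ 1 / 2 := one_div_le_one_div_of_le (by norm_num) hC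
  by_contra hcon
  push Not at hcon
  have h2 : 1 ≤ 4 * s ^ 2 - 1 := by linarith
  unfold zeta at h
  rw [Real.smoothTransition.one_of_one_le h2, div_le_iff₀ (by linarith)] at h
  have h3 : 0 < C := by linarith
  have h4 : C * (1 / C) = 1 := by field_simp
  nlinarith

theorem sqrt_one_add_sq_pos (a : ℝ) : 0 < √(1 + a ^ 2) := Real.sqrt_pos.2 (by positivity)

theorem abs_chi_lt_one (a : ℝ) : |chi a| < 1 := by
  unfold chi
  rw [abs_div, abs_of_pos (sqrt_one_add_sq_pos a), div_lt_one (sqrt_one_add_sq_pos a),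
    ← Real.sqrt_sq_eq_abs]
  exact Real.sqrt_lt_sqrt (sq_nonneg a) (by linarith)

theorem contDiff_chi {n : ℕ∞} : ContDiff ℝ n chi := by
  unfold chi
  have h1 : ContDiff ℝ n (fun a : ℝ => 1 + a ^ 2) := by fun_prop
  refine contDiff_id.div (h1.sqrt ?_) ?_
  · intro a
    positivity
  · intro a
    exact (sqrt_one_add_sq_pos a).ne'

@[simp] theorem chi_zero : chi 0 = 0 := by simp [chi]

/-- the inverse of `chi` -/
def chiInv (y : ℝ) : ℝ := y / √(1 - y ^ 2)

theorem chiInv_chi (a : ℝ) : chiInv (chi a) = a := by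
  unfold chiInv chi
  have h0 := sqrt_one_add_sq_pos a
  have h1 : √(1 + a ^ 2) ^ 2 = 1 + a ^ 2 := Real.sq_sqrt (by positivity)
  have h2 : 1 - (a / √(1 + a ^ 2)) ^ 2 = (1 / √(1 + a ^ 2)) ^ 2 := by
    rw [div_pow, div_pow, h1]
    field_simp
    ring
  rw [h2, Real.sqrt_sq (by positivity)]
  field_simp

theorem chi_chiInv {y : ℝ} (hy : |y| < 1) : chi (chiInv y) = y := by
  unfold chiInv chi
  have hy2 : y ^ 2 < 1 := by rwa [sq_lt_one_iff_abs_lt_one]
  have h0 : 0 < √(1 - y ^ 2) := Real.sqrt_pos.2 (by linarith)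
  have h1 : √(1 - y ^ 2) ^ 2 = 1 - y ^ 2 := Real.sq_sqrt (by linarith)
  have h2 : 1 + (y / √(1 - y ^ 2)) ^ 2 = (1 / √(1 - y ^ 2)) ^ 2 := by
    rw [div_pow, div_pow, h1]
    have : 1 - y ^ 2 ≠ 0 := by linarith
    field_simp
    ring
  rw [h2, Real.sqrt_sq (by positivity)]
  field_simp

theorem contDiffAt_chiInv {y : ℝ} (hy : |y| < 1) {n : ℕ∞} : ContDiffAt ℝ n chiInv y := by
  unfold chiInv
  have hy2 : y ^ 2 < 1 := by rwa [sq_lt_one_iff_abs_lt_one]
  have h1 : ContDiff ℝ n (fun y : ℝ => 1 - y ^ 2) := by fun_prop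
  refine contDiffAt_id.div (h1.contDiffAt.sqrt (by linarith)) ?_
  exact (Real.sqrt_pos.2 (by linarith)).ne'

/-! ### The rim function -/

theorem abs_div_wd_lt {i : Word} {β : ℝ × ℝ} (h : ‖β‖ < wd B i) :
    |β.1 / wd B i| < 1 ∧ |β.2 / wd B i| < 1 := by
  have hw := wd_pos B i
  have h1 : |β.1| ≤ ‖β‖ := norm_fst_le β
  have h2 : |β.2| ≤ ‖β‖ := norm_snd_le β
  rw [abs_div, abs_div, abs_of_pos hw, div_lt_one hw, div_lt_one hw]
  exact ⟨by linarith, by linarith⟩

theorem contDiffAt_phi {i : Word} {β : ℝ × ℝ} (h : ‖β‖ < wd B i) {n : ℕ∞} :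
    ContDiffAt ℝ n (phi B i) β := by
  obtain ⟨h1, h2⟩ := abs_div_wd_lt h
  unfold phi
  have e1 : ContDiffAt ℝ n (fun β : ℝ × ℝ => β.1 / wd B i) β := by fun_prop
  have e2 : ContDiffAt ℝ n (fun β : ℝ × ℝ => β.2 / wd B i) β := by fun_prop
  exact ((contDiffAt_zeta h1).comp β e1).add ((contDiffAt_zeta h2).comp β e2)

theorem phi_nonneg {i : Word} {β : ℝ × ℝ} (h : ‖β‖ < wd B i) : 0 ≤ phi B i β := by
  obtain ⟨h1, h2⟩ := abs_div_wd_lt h
  exact add_nonneg (zeta_nonneg h1) (zeta_nonneg h2)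

/-- the rim function vanishes on the core -/
theorem phi_eq_zero {i : Word} {β : ℝ × ℝ} (h : ‖β‖ ≤ wd B i / 2) : phi B i β = 0 := by
  have hw := wd_pos B i
  have h1 : |β.1| ≤ ‖β‖ := norm_fst_le β
  have h2 : |β.2| ≤ ‖β‖ := norm_snd_le β
  unfold phi
  rw [zeta_eq_zero, zeta_eq_zero, add_zero]
  · rw [abs_div, abs_of_pos hw, div_le_iff₀ hw]
    linarith
  · rw [abs_div, abs_of_pos hw, div_le_iff₀ hw]
    linarith

/-- a bound of the rim function keeps `β` away from the boundary of the window -/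
theorem norm_le_of_phi_le {i : Word} {β : ℝ × ℝ} {C : ℝ} (h : ‖β‖ < wd B i) (hC : 2 ≤ C)
    (hφ : phi B i β ≤ C) : ‖β‖ ≤ √(1 - 1 / C) * wd B i := by
  obtain ⟨h1, h2⟩ := abs_div_wd_lt h
  have hw := wd_pos B i
  have z1 := zeta_nonneg h1
  have z2 := zeta_nonneg h2
  unfold phi at hφ
  have g1 := sq_le_of_zeta_le h1 hC (by linarith)
  have g2 := sq_le_of_zeta_le h2 hC (by linarith)
  rw [← Real.sqrt_le_sqrt_iff (by nlinarith [sq_nonneg (β.1 / wd B i)]), Real.sqrt_sq_eq_abs,
    abs_div, abs_of_pos hw, div_le_iff₀ hw] at g1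
  rw [← Real.sqrt_le_sqrt_iff (by nlinarith [sq_nonneg (β.2 / wd B i)]), Real.sqrt_sq_eq_abs,
    abs_div, abs_of_pos hw, div_le_iff₀ hw] at g2
  rw [Prod.norm_def]
  exact max_le g1 g2

theorem sqrt_one_sub_lt_one {C : ℝ} (hC : 2 ≤ C) : √(1 - 1 / C) < 1 := by
  rw [Real.sqrt_lt' (by norm_num)]
  have : 0 < 1 / C := by positivity
  linarith

/-! ### The window maps -/

/-- the inverse window map -/
def Finv (B : ℝ) (i : Word) (q : E) : E :=
  (chiInv ((q.1 - phi B i (off B i q)) / tau B i), X B (dig i) + off B i q)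

theorem off_F (B : ℝ) (i : Word) (p : E) : off B i (F B i p) = p.2 - X B (dig i) := by
  simp only [off, F]
  abel

theorem F_mem_S {i : Word} {p : E} (hp : p ∈ D B i) : F B i p ∈ S B i := by
  have hp' : ‖p.2 - X B (dig i)‖ < wd B i := hp
  refine ⟨by rwa [off_F], ?_⟩
  rw [off_F]
  simp only [F, add_sub_cancel_left]
  rw [abs_mul, abs_of_pos (tau_pos B i)]
  have := mul_lt_mul_of_pos_left (abs_chi_lt_one p.1) (tau_pos B i)
  linarith

theorem Finv_mem_D {i : Word} {q : E} (hq : q ∈ S B i) : Finv B i q ∈ D B i := by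
  have h1 := hq.1
  change ‖(Finv B i q).2 - X B (dig i)‖ < wd B i
  simpa [Finv] using h1

theorem Finv_F {i : Word} {p : E} (_hp : p ∈ D B i) : Finv B i (F B i p) = p := by
  have h := (tau_pos B i).ne'
  unfold Finv
  rw [off_F]
  ext1
  · simp only [F, add_sub_cancel_left]
    rw [mul_div_cancel_left₀ _ h, chiInv_chi]
  · simp

theorem F_Finv {i : Word} {q : E} (hq : q ∈ S B i) : F B i (Finv B i q) = q := by
  have ht := tau_pos B i
  have h1 : |(q.1 - phi B i (off B i q)) / tau B i| < 1 := by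
    rw [abs_div, abs_of_pos ht, div_lt_one ht]
    exact hq.2
  have h2 : (Finv B i q).2 - X B (dig i) = off B i q := by simp [Finv]
  have h3 : phi B i (off B i q) + tau B i * chi (Finv B i q).1 = q.1 := by
    simp only [Finv]
    rw [chi_chiInv h1]
    field_simp
    ring
  unfold F
  rw [h2, h3]
  ext1
  · rfl
  · simp only [off]
    abel

theorem contDiffAt_F {i : Word} {p : E} (hp : p ∈ D B i) {n : ℕ∞} :
    ContDiffAt ℝ n (F B i) p := by
  have hp' : ‖p.2 - X B (dig i)‖ < wd B i := hp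
  have h1 : ContDiffAt ℝ n (fun p : E => p.2 - X B (dig i)) p := by fun_prop
  have h2 : ContDiffAt ℝ n (fun p : E => phi B i (p.2 - X B (dig i))) p :=
    ContDiffAt.comp (g := phi B i) p (contDiffAt_phi hp') h1
  have h3 : ContDiffAt ℝ n (fun p : E => tau B i * chi p.1) p :=
    contDiffAt_const.mul ((contDiff_chi.contDiffAt).comp p contDiffAt_fst)
  have h4 := h2.add h3
  have h5 : ContDiffAt ℝ n (fun p : E =>
      Gam B (tl i) (phi B i (p.2 - X B (dig i)) + tau B i * chi p.1)) p :=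
    (contDiff_Gam B (tl i)).contDiffAt.comp p h4
  exact h4.prodMk ((contDiffAt_const.add h5).add h1)

theorem contDiff_off (B : ℝ) (i : Word) {n : ℕ∞} : ContDiff ℝ n (off B i) := by
  unfold off
  have h1 : ContDiff ℝ n (fun p : E => Gam B (tl i) p.1) :=
    (contDiff_Gam B (tl i)).comp contDiff_fst
  exact (contDiff_snd.sub contDiff_const).sub h1

theorem contDiffAt_Finv {i : Word} {q : E} (hq : q ∈ S B i) {n : ℕ∞} :
    ContDiffAt ℝ n (Finv B i) q := by
  have ht := tau_pos B i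
  have h1 : |(q.1 - phi B i (off B i q)) / tau B i| < 1 := by
    rw [abs_div, abs_of_pos ht, div_lt_one ht]
    exact hq.2
  have h2 : ContDiffAt ℝ n (off B i) q := (contDiff_off B i).contDiffAt
  have h3 : ContDiffAt ℝ n (fun q : E => phi B i (off B i q)) q :=
    (contDiffAt_phi hq.1).comp q h2
  have h4 : ContDiffAt ℝ n (fun q : E => (q.1 - phi B i (off B i q)) / tau B i) q :=
    (contDiffAt_fst.sub h3).div_const _
  exact ((contDiffAt_chiInv h1).comp q h4).prodMk (contDiffAt_const.add h2)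

theorem isOpen_D (B : ℝ) (i : Word) : IsOpen (D B i) :=
  isOpen_lt (by fun_prop) continuous_const

theorem isOpen_S (B : ℝ) (i : Word) : IsOpen (S B i) := by
  have hoff : Continuous (off B i) := (contDiff_off B i (n := 0)).continuous
  have h1 : IsOpen {p : E | ‖off B i p‖ < wd B i} := isOpen_lt hoff.norm continuous_const
  have h2 : ContinuousOn (fun p : E => |p.1 - phi B i (off B i p)|)
      {p : E | ‖off B i p‖ < wd B i} := by
    intro p hp
    have h3 : ContinuousAt (fun p : E => phi B i (off B i p)) p :=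
      ContinuousAt.comp (g := phi B i) (contDiffAt_phi (n := 0) hp).continuousAt
        hoff.continuousAt
    exact ((continuousAt_fst.sub h3).abs).continuousWithinAt
  exact h2.isOpen_inter_preimage h1 isOpen_Iio

/-- The window map as a partial homeomorphism. -/
def Fh (B : ℝ) (i : Word) : OpenPartialHomeomorph E E where
  toFun := F B i
  invFun := Finv B i
  source := D B i
  target := S B i
  map_source' _ hp := F_mem_S hp
  map_target' _ hq := Finv_mem_D hq
  left_inv' _ hp := Finv_F hp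
  right_inv' _ hq := F_Finv hq
  open_source := isOpen_D B i
  open_target := isOpen_S B i
  continuousOn_toFun _ hp := (contDiffAt_F (n := 0) hp).continuousAt.continuousWithinAt
  continuousOn_invFun _ hq := (contDiffAt_Finv (n := 0) hq).continuousAt.continuousWithinAt

@[simp] theorem Fh_coe (B : ℝ) (i : Word) : ⇑(Fh B i) = F B i := rfl
@[simp] theorem Fh_symm_coe (B : ℝ) (i : Word) : ⇑(Fh B i).symm = Finv B i := rfl
@[simp] theorem Fh_source (B : ℝ) (i : Word) : (Fh B i).source = D B i := rfl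
@[simp] theorem Fh_target (B : ℝ) (i : Word) : (Fh B i).target = S B i := rfl

/-- heights in `S i` are at least `-τ_i` -/
theorem neg_tau_lt_of_mem_S {i : Word} {p : E} (hp : p ∈ S B i) : -tau B i < p.1 := by
  have h1 := phi_nonneg hp.1
  have h2 := (abs_lt.1 hp.2).1
  linarith

theorem tau_le_small (hB : 400 ≤ B) (i : Word) : tau B i ≤ 1 / 10 ^ 30 := by
  unfold tau
  have h1 := kappa_le_small hB (i.length + 19)
  have h2 := kappa_nonneg B (i.length + 20)
  have e : i.length + 19 + 1 = i.length + 20 := rfl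
  rw [e] at h1
  nlinarith

theorem wd_le_small (hB : 400 ≤ B) (i : Word) : wd B i ≤ 1 / 10 ^ 26 := by
  have h1 := wd_le hB (Nat.zero_le i.length)
  have h2 := kappa_le_small hB 0
  linarith

/-- (W4) the height in `S i` is bounded by the size of `b`, uniformly in the window -/
theorem height_le_of_mem_S (hB : 400 ≤ B) {i : Word} {p : E} (hp : p ∈ S B i) :
    |p.1| ≤ ‖p.2‖ + 2 := by
  have h1 := neg_tau_lt_of_mem_S hp
  have h2 := tau_le_small hB i
  rw [abs_le]
  refine ⟨by linarith [norm_nonneg p.2], ?_⟩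
  rcases le_or_gt p.1 1 with h | h
  · linarith [norm_nonneg p.2]
  have h3 := Lam_le_Gam_snd hB (tl i) p.1
  rw [Lam_zero_eq hB h.le] at h3
  have h4 : |p.2.2 - (X B (tgt i)).2 - (Gam B (tl i) p.1).2| < wd B i := by
    refine lt_of_le_of_lt ?_ hp.1
    exact norm_snd_le (off B i p)
  have h5 : |(X B (tgt i)).2| ≤ ‖X B (tgt i)‖ := norm_snd_le (X B (tgt i))
  have h6 := norm_X_le hB (isDig_tgt i)
  have h7 := kappa_le_small hB 0
  have h8 := wd_le_small hB i
  have h9 : |p.2.2| ≤ ‖p.2‖ := norm_snd_le p.2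
  have h10 := (abs_lt.1 h4).1
  have h11 := (abs_le.1 h5).1
  have h12 := (abs_le.1 h9).2
  norm_num at h2 h7 h8
  linarith

theorem isBounded_S_inter_D (hB : 400 ≤ B) (i j : Word) :
    Bornology.IsBounded (S B i ∩ D B j) := by
  rw [isBounded_iff_forall_norm_le]
  refine ⟨12, fun p hp => ?_⟩
  have h1 := height_le_of_mem_S hB hp.1
  have h2 : ‖p.2 - X B (dig j)‖ < wd B j := hp.2
  have h3 := norm_X_le hB (isDig_dig j)
  have h4 := kappa_le_small hB 0
  have h5 := wd_le_small hB j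
  have h6 : ‖p.2‖ ≤ 10 := by
    have : p.2 = (p.2 - X B (dig j)) + X B (dig j) := by abel
    rw [this]
    refine (norm_add_le _ _).trans ?_
    norm_num at h4 h5 ⊢
    linarith
  rw [Prod.norm_def, Real.norm_eq_abs]
  exact max_le (by linarith) (by linarith)

theorem isClosed_graph_F (B : ℝ) (i : Word) :
    IsClosed {p : E × E | p.1 ∈ D B i ∧ F B i p.1 = p.2} := by
  rw [← isSeqClosed_iff_isClosed]
  intro u p hu hup
  have hlim1 : Tendsto (fun m => (u m).1) atTop (𝓝 p.1) :=
    (continuous_fst.tendsto p).comp hup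
  have hlim2 : Tendsto (fun m => (u m).2) atTop (𝓝 p.2) :=
    (continuous_snd.tendsto p).comp hup
  have ht := tau_pos B i
  -- a bound for the height of the image
  obtain ⟨C, hC2, hC⟩ : ∃ C : ℝ, 2 ≤ C ∧ ∀ᶠ m in atTop, (u m).2.1 ≤ C - tau B i := by
    refine ⟨max 2 (p.2.1 + 1 + tau B i), le_max_left _ _, ?_⟩
    have h1 : Tendsto (fun m => (u m).2.1) atTop (𝓝 p.2.1) :=
      (continuous_fst.tendsto p.2).comp hlim2
    filter_upwards [h1.eventually_lt_const (lt_add_one p.2.1)] with m hm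
    have := le_max_right 2 (p.2.1 + 1 + tau B i)
    linarith
  have hbd : ∀ᶠ m in atTop, ‖(u m).1.2 - X B (dig i)‖ ≤ √(1 - 1 / C) * wd B i := by
    filter_upwards [hC] with m hm
    have h1 := (hu m).1
    have h2 := (hu m).2
    refine norm_le_of_phi_le h1 hC2 ?_
    have h3 : phi B i ((u m).1.2 - X B (dig i)) + tau B i * chi (u m).1.1 = (u m).2.1 := by
      rw [← h2]
      rfl
    have h4 := (abs_lt.1 (abs_chi_lt_one (u m).1.1)).1
    nlinarith
  have hlim : ‖p.1.2 - X B (dig i)‖ ≤ √(1 - 1 / C) * wd B i := by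
    have h1 : Tendsto (fun m => ‖(u m).1.2 - X B (dig i)‖) atTop
        (𝓝 ‖p.1.2 - X B (dig i)‖) := by
      have : Continuous (fun q : E => ‖q.2 - X B (dig i)‖) := by fun_prop
      exact (this.tendsto p.1).comp hlim1
    exact le_of_tendsto h1 hbd
  have hmem : p.1 ∈ D B i := by
    change ‖p.1.2 - X B (dig i)‖ < wd B i
    refine lt_of_le_of_lt hlim ?_
    have := mul_lt_mul_of_pos_right (sqrt_one_sub_lt_one hC2) (wd_pos B i)
    linarith
  refine ⟨hmem, ?_⟩
  have h5 : Tendsto (fun m => F B i (u m).1) atTop (𝓝 (F B i p.1)) :=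
    (contDiffAt_F (n := 0) hmem).continuousAt.tendsto.comp hlim1
  have h6 : (fun m => F B i (u m).1) = fun m => (u m).2 := by
    ext1 m
    exact (hu m).2
  rw [h6] at h5
  exact tendsto_nhds_unique h5 hlim2

/-- The system of windows. -/
def sys (B : ℝ) (hB : 400 ≤ B) : RetSys E Word where
  F := Fh B
  t := rt
  one_le := one_le_rt
  fin := rt_finite
  disjD _ _ _ hi hj := D_disjoint hB hi hj
  disjS _ _ _ hi hj := S_disjoint hB hi hj
  smooth _ _ hp := (contDiffAt_F hp).contDiffWithinAt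
  smooth_symm _ _ hq := (contDiffAt_Finv hq).contDiffWithinAt
  closed i := isClosed_graph_F B i
  bdd i j := isBounded_S_inter_D hB i j

end

end Pool.Agent.Closing
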