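import Pool.Agent.Lib.Closing.Bridge
import Pool.Agent.Lib.Closing.Windows

/-!
# The separation properties of the windows used by the bridge
-/

open scoped ContDiff Topology
open Set Filter

namespace Pool.Agent.Closing

noncomputable section

variable {B : ℝ}

theorem wd_nonneg (B : ℝ) (i : Word) : 0 ≤ wd B i := (wd_pos B i).le

theorem D_sep (hB : 400 ≤ B) {i j : Word} (h : i ≠ j) {p : E} (hp : p ∈ D B i) :
    wd B j + kappa B (j.length + 1) / 2 ≤ ‖p.2 - X B (dig j)‖ := by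
  obtain ⟨K, h1, h2, h3, -⟩ := D_gap hB h
  have hp' : ‖p.2 - X B (dig i)‖ < wd B i := hp
  have w1 := wd_le hB h1
  have w2 := wd_le hB h2
  have n1 : |(X B (dig i) - X B (dig j)).1| ≤ ‖X B (dig i) - X B (dig j)‖ :=
    norm_fst_le (X B (dig i) - X B (dig j))
  have n2 : ‖X B (dig i) - X B (dig j)‖ ≤ ‖p.2 - X B (dig j)‖ + ‖p.2 - X B (dig i)‖ := by
    have e : X B (dig i) - X B (dig j) = (p.2 - X B (dig j)) - (p.2 - X B (dig i)) := by abel
    rw [e]
    exact norm_sub_le _ _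
  have h4 : kappa B (j.length + 1) ≤ kappa B (K + 1) :=
    kappa_antitone (by linarith) (by omega)
  have h0 := kappa_nonneg B (K + 1)
  linarith

theorem S_sep (hB : 400 ≤ B) {i j : Word} (h : i ≠ j) {p : E} (hp : p ∈ S B i) :
    wd B j + kappa B (j.length + 1) / 2 ≤ ‖off B j p‖ := by
  obtain ⟨K, h1, h2, h3⟩ := S_gap hB h
  have h3 := (h3 p.1).1
  have hp' : ‖off B i p‖ < wd B i := hp.1
  have w1 := wd_le hB h1
  have w2 := wd_le hB h2
  set y := X B (tgt i) + Gam B (tl i) p.1 - (X B (tgt j) + Gam B (tl j) p.1) with hy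
  have n1 : |y.1| ≤ ‖y‖ := norm_fst_le y
  have n2 : ‖y‖ ≤ ‖off B j p‖ + ‖off B i p‖ := by
    have e : y = off B j p - off B i p := by
      rw [hy, off, off]
      abel
    rw [e]
    exact norm_sub_le _ _
  have h4 : kappa B (j.length + 1) ≤ kappa B (K + 1) :=
    kappa_antitone (by linarith) (by omega)
  have h0 := kappa_nonneg B (K + 1)
  linarith

theorem D_box (hB : 400 ≤ B) {i : Word} {p : E} (hp : p ∈ D B i) : ‖p.2‖ ≤ 1 := by
  have hp' : ‖p.2 - X B (dig i)‖ < wd B i := hp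
  have h3 := norm_X_le hB (isDig_dig i)
  have h4 := kappa_le_small hB 0
  have h5 := wd_le_small hB i
  have : p.2 = (p.2 - X B (dig i)) + X B (dig i) := by abel
  rw [this]
  refine (norm_add_le _ _).trans ?_
  norm_num at h4 h5 ⊢
  linarith

theorem S_box (hB : 400 ≤ B) {i : Word} {p : E} (hp : p ∈ S B i) (h2 : ‖p.2‖ ≤ 2) :
    |p.1| ≤ 1 := by
  have h1 := neg_tau_lt_of_mem_S hp
  have h2' := tau_le_small hB i
  rw [abs_le]
  refine ⟨by norm_num at h2' ⊢; linarith, ?_⟩
  by_contra h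
  push Not at h
  have h3 := Lam_le_Gam_snd hB (tl i) p.1
  rw [Lam_zero_eq hB h.le] at h3
  have h4 : |p.2.2 - (X B (tgt i)).2 - (Gam B (tl i) p.1).2| < wd B i := by
    refine lt_of_le_of_lt ?_ hp.1
    exact norm_snd_le (off B i p)
  have h5 : |(X B (tgt i)).2| ≤ ‖X B (tgt i)‖ := norm_snd_le (X B (tgt i))
  have h6 := norm_X_le hB (isDig_tgt i)
  have h7 := kappa_le_small hB 0
  have h8 := wd_le_small hB i
  have h9 : |p.2.2| ≤ ‖p.2‖ := norm_snd_le p.2
  have h10 := (abs_lt.1 h4).1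
  have h11 := (abs_le.1 h5).1
  have h12 := (abs_le.1 h9).2
  norm_num at h7 h8
  linarith

theorem sep_of_ge (hB : 400 ≤ B) : Sep B where
  dsep j := ⟨kappa B (j.length + 1) / 2, half_pos (kappa_pos _ _),
    fun _ h _ hp => D_sep hB h hp⟩
  ssep j := ⟨kappa B (j.length + 1) / 2, half_pos (kappa_pos _ _),
    fun _ h _ hp => S_sep hB h hp⟩
  dbox _ _ hp := D_box hB hp
  sbox _ _ hp h2 := S_box hB hp h2
  offc j := (contDiff_off B j (n := 0)).continuous
  openS j := isOpen_S B j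
  fin := rt_finite
  rho_pos := zero_lt_rho

end

end Pool.Agent.Closing
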