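import Pool.Agent.Lib.Closing.Statement
import Pool.Agent.Lib.Closing.Manifold

/-!
# Neighbourhoods in the strong topology

* `nhds_of_family`: a countable locally finite family of chart conditions defines a neighbourhood.
* `graph_nhds`: an open neighbourhood of the graph defines a neighbourhood.
* `trap_nhds`: `f Z ⊆ interior Z`, `Z` closed, is stable.
* `RetSys.sigma_nhds`: locally finite `C²` control of the level maps of a perturbation of the shift.
-/

open scoped ContDiff Manifold Topology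
open Set Filter

namespace Pool.Agent.Closing

noncomputable section

section General

variable {V : Type} [NormedAddCommGroup V] [NormedSpace ℝ V]
  {M : Type} [TopologicalSpace M] [ChartedSpace V M]

theorem basic_nhds {r : ℕ∞} (f : M ≃ₘ^r⟮𝓘(ℝ, V), 𝓘(ℝ, V)⟯ M) (d : BasicData (V := V) (f : M → M))
    {k : ℕ} (hk : (k : ℕ∞) ≤ r) :
    {g : M ≃ₘ^r⟮𝓘(ℝ, V), 𝓘(ℝ, V)⟯ M | d.Mem k g} ∈ @nhds _ (strongTopology V M r) f := by
  let := strongTopology V M r
  refine IsOpen.mem_nhds (TopologicalSpace.isOpen_generateFrom_of_mem ⟨f, d, k, hk, rfl⟩) ?_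
  intro i
  refine ⟨d.hfK i, fun p _ j _ => ?_⟩
  rw [sub_self, norm_zero]
  exact d.hε i

/-- a countable locally finite family of chart conditions defines a strong neighbourhood -/
theorem nhds_of_family {r : ℕ∞} (f : M ≃ₘ^r⟮𝓘(ℝ, V), 𝓘(ℝ, V)⟯ M) {α : Type*} [Countable α]
    (φ ψ : α → OpenPartialHomeomorph M V) (K : α → Set M) (ε : α → ℝ)
    (hφ : ∀ a, φ a ∈ IsManifold.maximalAtlas 𝓘(ℝ, V) ∞ M)
    (hψ : ∀ a, ψ a ∈ IsManifold.maximalAtlas 𝓘(ℝ, V) ∞ M)
    (hK : ∀ a, IsCompact (K a)) (hKφ : ∀ a, K a ⊆ (φ a).source)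
    (hfK : ∀ a, f '' K a ⊆ (ψ a).source) (lf : LocallyFinite K) (hε : ∀ a, 0 < ε a)
    {k : ℕ} (hk : (k : ℕ∞) ≤ r) :
    {g : M ≃ₘ^r⟮𝓘(ℝ, V), 𝓘(ℝ, V)⟯ M | ∀ a, g '' K a ⊆ (ψ a).source ∧
      ∀ p ∈ K a, ∀ j ≤ k,
        ‖iteratedFDeriv ℝ j (ψ a ∘ f ∘ (φ a).symm) (φ a p) -
          iteratedFDeriv ℝ j (ψ a ∘ g ∘ (φ a).symm) (φ a p)‖ < ε a} ∈
      @nhds _ (strongTopology V M r) f := by
  let := strongTopology V M r
  classical
  rcases isEmpty_or_nonempty α with he | ⟨⟨a0⟩⟩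
  · refine Filter.mem_of_superset Filter.univ_mem (fun g _ a => he.elim a)
  obtain ⟨enc, henc⟩ := exists_injective_nat α
  set dec : ℕ → Option α := fun n => if h : ∃ a, enc a = n then some h.choose else none with hdec
  have hdec1 : ∀ a, dec (enc a) = some a := by
    intro a
    have h : ∃ b, enc b = enc a := ⟨a, rfl⟩
    simp only [hdec, dif_pos h]
    exact congrArg some (henc h.choose_spec)
  have hdec2 : ∀ n a, dec n = some a → enc a = n := by
    intro n a h
    by_cases h' : ∃ b, enc b = n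
    · simp only [hdec, dif_pos h', Option.some.injEq] at h
      rw [← h]; exact h'.choose_spec
    · simp only [hdec, dif_neg h'] at h
      exact absurd h (by simp)
  let K' : ℕ → Set M := fun n => (dec n).elim ∅ K
  let idx : ℕ → α := fun n => (dec n).getD a0
  have hK'emp : ∀ n, dec n = none → K' n = ∅ := fun n h => by simp [K', h]
  have hK'some : ∀ n a, dec n = some a → K' n = K a ∧ idx n = a := fun n a h => by
    simp [K', idx, h]
  have cases : ∀ n, (K' n = ∅) ∨ (K' n = K (idx n)) := by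
    intro n
    rcases hd : dec n with _ | a
    · exact Or.inl (hK'emp n hd)
    · obtain ⟨h1, h2⟩ := hK'some n a hd
      rw [h2]; exact Or.inr h1
  have sub : ∀ n, K' n ⊆ K (idx n) := by
    intro n
    rcases cases n with h | h
    · rw [h]; exact empty_subset _
    · rw [h]
  let d : BasicData (V := V) (f : M → M) :=
    { φ := fun n => φ (idx n)
      ψ := fun n => ψ (idx n)
      K := K'
      ε := fun n => ε (idx n)
      hφ := fun n => hφ _
      hψ := fun n => hψ _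
      hK := fun n => by
        rcases cases n with h | h
        · rw [h]; exact isCompact_empty
        · rw [h]; exact hK _
      hKφ := fun n => (sub n).trans (hKφ _)
      hfK := fun n => (image_mono (sub n)).trans (hfK _)
      lf := by
        intro p
        obtain ⟨U, hU, hfin⟩ := lf p
        refine ⟨U, hU, (hfin.image enc).subset ?_⟩
        rintro n ⟨q, hq1, hq2⟩
        rcases hd : dec n with _ | a
        · rw [hK'emp n hd] at hq1; exact absurd hq1 (notMem_empty q)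
        · obtain ⟨h1, h2⟩ := hK'some n a hd
          rw [h1] at hq1
          exact ⟨a, ⟨q, hq1, hq2⟩, hdec2 n a hd⟩
      hε := fun n => hε _ }
  refine Filter.mem_of_superset (basic_nhds f d hk) (fun g hg a => ?_)
  have h := hg (enc a)
  obtain ⟨h1, h2⟩ := hK'some (enc a) a (hdec1 a)
  change g '' K' (enc a) ⊆ (ψ (idx (enc a))).source ∧ ∀ p ∈ K' (enc a), ∀ j ≤ k,
    ‖iteratedFDeriv ℝ j (ψ (idx (enc a)) ∘ f ∘ (φ (idx (enc a))).symm) (φ (idx (enc a)) p) -
      iteratedFDeriv ℝ j (ψ (idx (enc a)) ∘ g ∘ (φ (idx (enc a))).symm) (φ (idx (enc a)) p)‖ <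
      ε (idx (enc a)) at h
  rw [h1, h2] at h
  exact h

lemma norm_sub_le_iterated {A B : V → V} (x : V) :
    ‖A x - B x‖ ≤ ‖iteratedFDeriv ℝ 0 A x - iteratedFDeriv ℝ 0 B x‖ := by
  have h := (iteratedFDeriv ℝ 0 A x - iteratedFDeriv ℝ 0 B x).le_opNorm (fun _ => 0)
  simpa using h

variable [FiniteDimensional ℝ V] [T2Space M] [SecondCountableTopology M]
  [IsManifold 𝓘(ℝ, V) ∞ M]

/-- an open neighbourhood of the graph defines a strong neighbourhood -/
theorem graph_nhds {r : ℕ∞} (f : M ≃ₘ^r⟮𝓘(ℝ, V), 𝓘(ℝ, V)⟯ M) {O : Set (M × M)} (hO : IsOpen O)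
    (hf : ∀ p, (p, f p) ∈ O) :
    {g : M ≃ₘ^r⟮𝓘(ℝ, V), 𝓘(ℝ, V)⟯ M | ∀ p, (p, g p) ∈ O} ∈
      @nhds _ (strongTopology V M r) f := by
  let := strongTopology V M r
  have : LocallyCompactSpace V := inferInstance
  have : LocallyCompactSpace M := ChartedSpace.locallyCompactSpace V M
  have hfc : Continuous f := f.continuous
  let W : M → Set M := fun p => (chartAt V p).source ∩ f ⁻¹' (chartAt V (f p)).source
  have hW : ∀ p, W p ∈ 𝓝 p := fun p => Filter.inter_mem
    ((chartAt V p).open_source.mem_nhds (mem_chart_source V p))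
    (((chartAt V (f p)).open_source.preimage hfc).mem_nhds (mem_chart_source V (f p)))
  have hB : ∀ x : M, (𝓝 x).HasBasis (fun s => (s ∈ 𝓝 x ∧ IsCompact s) ∧ s ⊆ W x) id :=
    fun x => (compact_basis_nhds x).restrict_subset (hW x)
  obtain ⟨α, c, K, hK, hcov, hlf⟩ := refinement_of_locallyCompact_sigmaCompact_of_nhds_basis hB
  simp only [id] at hcov hlf
  have hne : ∀ a, (K a).Nonempty := fun a => ⟨c a, mem_of_mem_nhds (hK a).1.1⟩
  have : Countable α := by
    have := hlf.countable_univ hne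
    exact Set.countable_univ_iff.mp this
  -- the sizes
  have hε : ∀ a, ∃ ε > 0, ∀ p ∈ K a, ∀ q ∈ (chartAt V (f (c a))).source,
      ‖chartAt V (f (c a)) (f p) - chartAt V (f (c a)) q‖ < ε → (p, q) ∈ O := by
    intro a
    set ψ := chartAt V (f (c a)) with hψ
    refine (hK a).1.2.induction_on (p := fun s => ∃ ε > 0, ∀ p ∈ s, ∀ q ∈ ψ.source,
      ‖ψ (f p) - ψ q‖ < ε → (p, q) ∈ O) ?_ ?_ ?_ ?_
    · exact ⟨1, one_pos, fun p hp => absurd hp (notMem_empty p)⟩
    · rintro s t hst ⟨ε, h1, h2⟩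
      exact ⟨ε, h1, fun p hp => h2 p (hst hp)⟩
    · rintro s t ⟨ε, h1, h2⟩ ⟨ε', h1', h2'⟩
      refine ⟨min ε ε', lt_min h1 h1', fun p hp q hq hpq => ?_⟩
      rcases hp with hp | hp
      · exact h2 p hp q hq (hpq.trans_le (min_le_left _ _))
      · exact h2' p hp q hq (hpq.trans_le (min_le_right _ _))
    · intro p hp
      have hpW := (hK a).2 hp
      have hfp : f p ∈ ψ.source := hpW.2
      have h1 : ContinuousAt (fun z : M × V => (z.1, ψ.symm z.2)) (p, ψ (f p)) := by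
        refine continuousAt_fst.prodMk ?_
        exact (ψ.symm.continuousAt (ψ.map_source hfp)).comp (f := fun z : M × V => z.2)
          continuousAt_snd
      have h2 : (fun z : M × V => (z.1, ψ.symm z.2)) ⁻¹' O ∈ 𝓝 (p, ψ (f p)) := by
        refine h1.preimage_mem_nhds ?_
        simp only
        rw [ψ.left_inv hfp]
        exact hO.mem_nhds (hf p)
      rw [nhds_prod_eq] at h2
      obtain ⟨U, hU, B, hB, hUB⟩ := Filter.mem_prod_iff.mp h2
      obtain ⟨δ, hδ, hBδ⟩ := Metric.mem_nhds_iff.mp hB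
      refine ⟨U ∩ {p' | ‖ψ (f p') - ψ (f p)‖ < δ / 2}, ?_, δ / 2, by positivity, ?_⟩
      · refine mem_nhdsWithin_of_mem_nhds (Filter.inter_mem hU ?_)
        have h3 : ContinuousAt (fun p' => ψ (f p')) p :=
          (ψ.continuousAt hfp).comp hfc.continuousAt
        have h4 := Metric.tendsto_nhds.mp h3.tendsto (δ / 2) (by positivity)
        filter_upwards [h4] with p' hp'
        rwa [dist_eq_norm] at hp'
      · rintro p' ⟨hp'1, hp'2⟩ q hq hpq
        have h5 : ψ q ∈ B := by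
          apply hBδ
          rw [Metric.mem_ball, dist_eq_norm]
          have h6 : ψ q - ψ (f p) = -(ψ (f p') - ψ q) + (ψ (f p') - ψ (f p)) := by abel
          rw [h6]
          refine (norm_add_le _ _).trans_lt ?_
          rw [norm_neg]
          have h7 : ‖ψ (f p') - ψ (f p)‖ < δ / 2 := hp'2
          linarith
        have h6 := hUB (Set.mk_mem_prod hp'1 h5)
        simp only [mem_preimage] at h6
        rwa [ψ.left_inv hq] at h6
  choose ε hε0 hε1 using hε
  refine Filter.mem_of_superset (nhds_of_family f (fun a => chartAt V (c a))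
    (fun a => chartAt V (f (c a))) K ε (fun a => IsManifold.chart_mem_maximalAtlas _)
    (fun a => IsManifold.chart_mem_maximalAtlas _) (fun a => (hK a).1.2)
    (fun a => (hK a).2.trans inter_subset_left) (fun a => ?_) hlf hε0 (k := 0) (by simp))
    (fun g hg p => ?_)
  · rintro _ ⟨p, hp, rfl⟩
    exact ((hK a).2 hp).2
  · have hp : p ∈ ⋃ a, K a := by rw [hcov]; exact mem_univ p
    obtain ⟨a, ha⟩ := mem_iUnion.mp hp
    obtain ⟨h1, h2⟩ := hg a
    have h3 := h2 p ha 0 le_rfl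
    have hpW := (hK a).2 ha
    refine hε1 a p ha (g p) (h1 ⟨p, ha, rfl⟩) (lt_of_le_of_lt ?_ h3)
    have h4 := norm_sub_le_iterated (A := chartAt V (f (c a)) ∘ f ∘ (chartAt V (c a)).symm)
      (B := chartAt V (f (c a)) ∘ g ∘ (chartAt V (c a)).symm) (chartAt V (c a) p)
    simp only [Function.comp_apply, (chartAt V (c a)).left_inv hpW.1] at h4
    exact h4

/-- a closed trap `Z` with `f Z ⊆ interior Z` is stable -/
theorem trap_nhds {r : ℕ∞} (f : M ≃ₘ^r⟮𝓘(ℝ, V), 𝓘(ℝ, V)⟯ M) {Z : Set M} (hZ : IsClosed Z)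
    (hf : ∀ p ∈ Z, f p ∈ interior Z) :
    {g : M ≃ₘ^r⟮𝓘(ℝ, V), 𝓘(ℝ, V)⟯ M | ∀ p ∈ Z, g p ∈ interior Z} ∈
      @nhds _ (strongTopology V M r) f := by
  have hO : IsOpen (Z ×ˢ (interior Z)ᶜ)ᶜ := by
    rw [isOpen_compl_iff]
    exact hZ.prod isOpen_interior.isClosed_compl
  refine Filter.mem_of_superset (graph_nhds f hO (fun p => ?_)) (fun g hg p hp => ?_)
  · rintro ⟨h1, h2⟩
    exact h2 (hf p h1)
  · by_contra h
    exact hg p ⟨hp, h⟩

end General

namespace RetSys

variable {E : Type} [NormedAddCommGroup E] [NormedSpace ℝ E] {ι : Type} (R : RetSys E ι)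

/-- compact exhaustion of the globalization manifold -/
def box (rad : ℕ → ℝ) (n : ℕ) : Set R.Mfd :=
  ⋃ t ∈ {t : ℤ | t.natAbs < n}, R.phi t '' Metric.closedBall 0 (rad n)

theorem mem_box {rad : ℕ → ℝ} {n : ℕ} {t : ℤ} {y : E} (ht : t.natAbs < n) (hy : ‖y‖ ≤ rad n) :
    R.phi t y ∈ R.box rad n :=
  mem_iUnion₂.mpr ⟨t, ht, y, mem_closedBall_zero_iff.mpr hy, rfl⟩

theorem box_zero (rad : ℕ → ℝ) : R.box rad 0 = ∅ := by
  simp [box]

theorem phi_mem_interior_box {rad : ℕ → ℝ} {n : ℕ} {t : ℤ} {y : E} (ht : t.natAbs < n)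
    (hy : ‖y‖ < rad n) : R.phi t y ∈ interior (R.box rad n) := by
  rw [phi_mem_interior]
  refine mem_interior.mpr ⟨Metric.ball 0 (rad n), fun z hz => ?_, Metric.isOpen_ball,
    mem_ball_zero_iff.mpr hy⟩
  exact R.mem_box ht (mem_ball_zero_iff.mp hz).le

theorem box_subset_interior {rad : ℕ → ℝ} (hrad : StrictMono rad) {m n : ℕ} (h : m < n) :
    R.box rad m ⊆ interior (R.box rad n) := by
  intro p hp
  obtain ⟨t, ht, y, hy, rfl⟩ := mem_iUnion₂.mp hp
  exact R.phi_mem_interior_box (lt_trans (show t.natAbs < m from ht) h)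
    (lt_of_le_of_lt (mem_closedBall_zero_iff.mp hy) (hrad h))

theorem exists_mem_box {rad : ℕ → ℝ} (hrad : Tendsto rad atTop atTop) (p : R.Mfd) :
    ∃ n, p ∈ R.box rad n := by
  obtain ⟨t, y, rfl⟩ := R.phi_surj p
  obtain ⟨n, h1, h2⟩ := ((hrad.eventually_ge_atTop ‖y‖).and
    (eventually_gt_atTop t.natAbs)).exists
  exact ⟨n, R.mem_box h2 h1⟩

theorem isCompact_box [ProperSpace E] (rad : ℕ → ℝ) (n : ℕ) : IsCompact (R.box rad n) := by
  have hfin : {t : ℤ | t.natAbs < n}.Finite := by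
    refine (Set.finite_Icc (-(n : ℤ)) n).subset (fun t ht => ?_)
    have : t.natAbs < n := ht
    constructor <;> omega
  exact hfin.isCompact_biUnion fun t _ => R.isCompact_phi_image (isCompact_closedBall _ _) t

/-- the level map of a map `g` of the globalization manifold -/
def sigma (g : R.Mfd → R.Mfd) (t : ℤ) (y : E) : E := R.chart (t + 1) (g (R.phi t y))

theorem phi_sigma {g : R.Mfd → R.Mfd} {t : ℤ} {y : E} (h : g (R.phi t y) ∈ range (R.phi (t + 1))) :
    R.phi (t + 1) (R.sigma g t y) = g (R.phi t y) := R.phi_chart h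

theorem contDiffAt_sigma {r : ℕ∞} (g : R.Mfd ≃ₘ^r⟮𝓘(ℝ, E), 𝓘(ℝ, E)⟯ R.Mfd) {t : ℤ} {y : E}
    (h : g (R.phi t y) ∈ range (R.phi (t + 1))) : ContDiffAt ℝ r (R.sigma g t) y := by
  have h1 : ContMDiffAt 𝓘(ℝ, E) 𝓘(ℝ, E) r (R.phi t) y :=
    ((R.contMDiff_phi t).of_le (by exact_mod_cast le_top)).contMDiffAt
  have h2 : ContMDiffAt 𝓘(ℝ, E) 𝓘(ℝ, E) r g (R.phi t y) := g.contMDiff.contMDiffAt
  have h3 : ContMDiffAt 𝓘(ℝ, E) 𝓘(ℝ, E) r (R.chart (t + 1)) (g (R.phi t y)) :=
    ((R.contMDiffOn_chart (t + 1)).contMDiffAt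
      ((R.isOpenEmbedding_phi (t + 1)).isOpen_range.mem_nhds h)).of_le (by exact_mod_cast le_top)
  exact (h3.comp y (h2.comp y h1)).contDiffAt

/-- Locally finite `C²` control of the level maps of perturbations of the shift. -/
theorem sigma_nhds [FiniteDimensional ℝ E] {r : ℕ∞} (hr : 2 ≤ r) {rad : ℕ → ℝ}
    (hrad : StrictMono rad) (hrad' : Tendsto rad atTop atTop) {ε : ℕ → ℝ} (hε : ∀ n, 0 < ε n) :
    {g : R.Mfd ≃ₘ^r⟮𝓘(ℝ, E), 𝓘(ℝ, E)⟯ R.Mfd | ∀ (n : ℕ) (t : ℤ) (y : E), t.natAbs ≤ n →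
      ‖y‖ ≤ rad (n + 1) → R.phi t y ∉ interior (R.box rad n) →
      g (R.phi t y) ∈ range (R.phi (t + 1)) ∧ ContDiffAt ℝ 2 (R.sigma g t) y ∧
      ‖R.sigma g t y - y‖ ≤ ε n ∧
      ‖fderiv ℝ (R.sigma g t) y - ContinuousLinearMap.id ℝ E‖ ≤ ε n ∧
      ‖iteratedFDeriv ℝ 2 (R.sigma g t) y‖ ≤ ε n} ∈
      @nhds _ (strongTopology E R.Mfd r) (R.shift r) := by
  let := strongTopology E R.Mfd r
  have : ProperSpace E := FiniteDimensional.proper_real E
  let α := {p : ℕ × ℤ // p.2.natAbs ≤ p.1}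
  let K : α → Set R.Mfd := fun a =>
    R.phi a.1.2 '' Metric.closedBall 0 (rad (a.1.1 + 1)) \ interior (R.box rad a.1.1)
  have hKc : ∀ a, IsCompact (K a) := fun a =>
    (R.isCompact_phi_image (isCompact_closedBall _ _) _).diff isOpen_interior
  have hKs : ∀ a : α, K a ⊆ (R.chart a.1.2).source := by
    rintro a p ⟨⟨y, _, rfl⟩, _⟩
    rw [chart_source]
    exact mem_range_self y
  have hfK : ∀ a : α, R.shift r '' K a ⊆ (R.chart (a.1.2 + 1)).source := by
    rintro a _ ⟨p, ⟨⟨y, _, rfl⟩, _⟩, rfl⟩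
    rw [chart_source, shift_phi]
    exact mem_range_self y
  have hlf : LocallyFinite K := by
    intro p
    obtain ⟨m, hm⟩ := R.exists_mem_box hrad' p
    refine ⟨interior (R.box rad (m + 1)), isOpen_interior.mem_nhds
      (R.box_subset_interior hrad (Nat.lt_succ_self m) hm), ?_⟩
    have hfin : {q : ℕ × ℤ | q.1 ≤ m ∧ q.2 ∈ Set.Icc (-(m : ℤ)) m}.Finite :=
      ((Set.finite_Iic m).prod (Set.finite_Icc (-(m : ℤ)) m)).subset (fun q hq => ⟨hq.1, hq.2⟩)
    refine (hfin.preimage (f := fun a : α => a.1) Subtype.val_injective.injOn).subset ?_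
    rintro ⟨⟨n, t⟩, ht⟩ ⟨q, ⟨_, hq1⟩, hq2⟩
    simp only at ht hq1
    have hnm : n ≤ m := by
      by_contra hcon
      push Not at hcon
      apply hq1
      exact interior_mono (by
        rcases (Nat.succ_le_of_lt hcon).lt_or_eq with h | h
        · exact (R.box_subset_interior hrad h).trans interior_subset
        · rw [← h]) hq2
    simp only [mem_preimage, mem_ofPred_eq, mem_Icc]
    refine ⟨hnm, ?_, ?_⟩ <;> omega
  refine Filter.mem_of_superset (nhds_of_family (R.shift r) (fun a : α => R.chart a.1.2)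
    (fun a => R.chart (a.1.2 + 1)) K (fun a => ε a.1.1) (fun a => R.chart_mem_maximalAtlas _)
    (fun a => R.chart_mem_maximalAtlas _) hKc hKs hfK hlf (fun a => hε _) (k := 2)
    (by exact_mod_cast hr)) (fun g hg n t y ht hy hbox => ?_)
  have hpK : R.phi t y ∈ K ⟨(n, t), ht⟩ :=
    ⟨⟨y, mem_closedBall_zero_iff.mpr hy, rfl⟩, hbox⟩
  obtain ⟨h1, h2⟩ := hg ⟨(n, t), ht⟩
  have h3 := h1 ⟨_, hpK, rfl⟩
  simp only [chart_source] at h3
  have e1 : (R.chart (t + 1) ∘ (R.shift r) ∘ (R.chart t).symm : E → E) = id := by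
    funext z
    simp
  have e2 : (R.chart (t + 1) ∘ g ∘ (R.chart t).symm : E → E) = R.sigma g t := by
    funext z
    simp [sigma]
  have h4 : ∀ j ≤ 2, ‖iteratedFDeriv ℝ j (id : E → E) y -
      iteratedFDeriv ℝ j (R.sigma g t) y‖ < ε n := by
    intro j hj
    have h5 := h2 _ hpK j hj
    simp only [e1, e2, chart_phi] at h5
    exact h5
  have hr2 : ((2 : ℕ∞) : WithTop ℕ∞) ≤ (r : WithTop ℕ∞) := WithTop.coe_le_coe.mpr hr
  have hc : ContDiffAt ℝ 2 (R.sigma g t) y := (R.contDiffAt_sigma g h3).of_le hr2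
  refine ⟨h3, hc, ?_, ?_, ?_⟩
  · rw [norm_sub_rev]
    exact (norm_sub_le_iterated (A := id) (B := R.sigma g t) y).trans (h4 0 (by norm_num)).le
  · rw [norm_sub_rev]
    have h5 := (h4 1 (by norm_num)).le
    refine le_trans (ContinuousLinearMap.opNorm_le_bound _ (norm_nonneg _) (fun v => ?_)) h5
    have h6 := (iteratedFDeriv ℝ 1 (id : E → E) y - iteratedFDeriv ℝ 1 (R.sigma g t) y).le_opNorm
      (fun _ => v)
    simp only [Fin.prod_univ_one, sub_apply,
      iteratedFDeriv_one_apply] at h6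
    simpa using h6
  · have h5 := (h4 2 le_rfl).le
    have h6 : iteratedFDeriv ℝ 2 (id : E → E) y = 0 := by
      ext v
      rw [iteratedFDeriv_two_apply]
      have h7 : (fderiv ℝ (id : E → E)) = fun _ => ContinuousLinearMap.id ℝ E := by
        funext z
        exact fderiv_id
      rw [h7, fderiv_fun_const]
      simp
    rwa [h6, zero_sub, norm_neg] at h5

end RetSys

end

end Pool.Agent.Closing
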