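import Pool.Agent.Lib.Closing.Defs
import Pool.Agent.Lib.Closing.Strong

/-!
# The cross lemma: a periodic orbit of a perturbation has the normal form `Cycle`

`Geo B R` collects the geometric facts on the windows which are used.  `Trap` is the set of points
with a far or a rim representation; it is forward invariant under every controlled perturbation
and does not contain the base point.
-/

open scoped ContDiff Manifold Topology
open Set Filter

namespace Pool.Agent.Closing

noncomputable section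

/-- The geometric facts on the windows used in the cross lemma. -/
structure Geo (B : ℝ) (R : RetSys E Word) : Prop where
  src : ∀ i, (R.F i).source = D B i
  trg : ∀ i, (R.F i).target = S B i
  map : ∀ i, ∀ p ∈ D B i, R.F i p = F B i p
  time : ∀ i, R.t i = rt i
  bD : ∀ j, ∀ p ∈ D B j, ‖p.2‖ ≤ 48
  aS : ∀ j, ∀ p ∈ S B j, ‖p.2‖ ≤ 51 → |p.1| ≤ 1
  rim : ∀ j, ∃ ζ > 0, ∀ p : E, wd B j - ζ ≤ ‖p.2 - X B (dig j)‖ →
    ‖p.2 - X B (dig j)‖ ≤ wd B j + ζ →
      ‖p.2‖ ≤ 48 ∧ (∀ k, k ≠ j → p ∉ D B k) ∧ (p ∈ D B j → 51 ≤ ‖(F B j p).2‖)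
  sep : ∀ k, ∃ δ > 0, ∀ j, j ≠ k → ∀ p ∈ S B j, ∀ q ∈ S B k, δ ≤ ‖p - q‖
  bF : ∀ j, ∀ ζ > 0, ∃ C, ∀ p : E, ‖p.2 - X B (dig j)‖ ≤ wd B j - ζ → ‖F B j p‖ ≤ C
  base : ∀ k, (0 : E) ∉ S B k
  baseD : ∀ n z, R.Chain n 0 z → ‖z.2‖ ≤ 48

lemma rho_pos (i : Word) : 1 ≤ rho i := by
  unfold rho
  have := Nat.one_le_pow i.length 8 (by norm_num)
  omega

lemma rt_eq (i : Word) : (rt i : ℤ) = 2 * rho i - 1 := by
  unfold rt
  have := rho_pos i
  push_cast [Nat.cast_sub (show 1 ≤ 2 * rho i by omega)]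
  ring

/-- The parameters of the neighbourhood. -/
structure Par (B : ℝ) (e : ℕ → ℝ) where
  ζ : Word → ℝ
  δ : Word → ℝ
  rad : ℕ → ℝ
  C : ℕ → ℝ
  ζpos : ∀ j, 0 < ζ j
  δpos : ∀ j, 0 < δ j
  rim : ∀ j, ∀ p : E, wd B j - ζ j ≤ ‖p.2 - X B (dig j)‖ →
    ‖p.2 - X B (dig j)‖ ≤ wd B j + ζ j →
      ‖p.2‖ ≤ 48 ∧ (∀ k, k ≠ j → p ∉ D B k) ∧ (p ∈ D B j → 51 ≤ ‖(F B j p).2‖)
  sep : ∀ k, ∀ j, j ≠ k → ∀ p ∈ S B j, ∀ q ∈ S B k, δ k ≤ ‖p - q‖
  rad_mono : StrictMono rad
  rad_top : Tendsto rad atTop atTop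
  rad_ge : ∀ n, 51 ≤ rad n
  rad_F : ∀ n j, rho j ≤ n → ∀ p : E, ‖p.2 - X B (dig j)‖ ≤ wd B j - ζ j / 2 →
    ‖F B j p‖ ≤ rad (n + 1)
  Cpos : ∀ n, 0 < C n
  Canti : Antitone C
  Cone : ∀ n, C n ≤ 1
  Ce : ∀ n, C n ≤ e n
  Cζ : ∀ n j, rho j ≤ n → C n ≤ ζ j
  Cδ : ∀ n j, rho j ≤ n → C n ≤ δ j

lemma exists_antitone_le (c : ℕ → ℝ) (hc : ∀ n, 0 < c n) :
    ∃ C : ℕ → ℝ, Antitone C ∧ (∀ n, 0 < C n) ∧ ∀ n, C n ≤ c n := by
  let C : ℕ → ℝ := fun n => Nat.rec (c 0) (fun k x => min x (c (k + 1))) n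
  have hs : ∀ n, C (n + 1) = min (C n) (c (n + 1)) := fun n => rfl
  have h0 : C 0 = c 0 := rfl
  refine ⟨C, antitone_nat_of_succ_le fun n => by rw [hs]; exact min_le_left _ _, ?_, ?_⟩
  · intro n
    induction n with
    | zero => rw [h0]; exact hc 0
    | succ n ih => rw [hs]; exact lt_min ih (hc _)
  · intro n
    cases n with
    | zero => rw [h0]
    | succ n => rw [hs]; exact min_le_right _ _

lemma exists_pos_le_of_finite {ι : Type*} {s : Set ι} (hs : s.Finite) (f : ι → ℝ)
    (hf : ∀ i, 0 < f i) : ∃ c > 0, ∀ i ∈ s, c ≤ f i := by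
  induction s, hs using Set.Finite.induction_on with
  | empty => exact ⟨1, one_pos, fun i hi => by simp at hi⟩
  | @insert a s _ _ ih =>
    obtain ⟨c, hc, h⟩ := ih
    refine ⟨min c (f a), lt_min hc (hf a), fun i hi => ?_⟩
    rcases hi with rfl | hi
    · exact min_le_right _ _
    · exact (min_le_left _ _).trans (h i hi)

lemma exists_ge_of_finite {ι : Type*} {s : Set ι} (hs : s.Finite) (f : ι → ℝ) :
    ∃ c, 0 ≤ c ∧ ∀ i ∈ s, f i ≤ c := by
  induction s, hs using Set.Finite.induction_on with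
  | empty => exact ⟨0, le_rfl, fun i hi => by simp at hi⟩
  | @insert a s _ _ ih =>
    obtain ⟨c, hc, h⟩ := ih
    refine ⟨max c (f a), le_max_of_le_left hc, fun i hi => ?_⟩
    rcases hi with rfl | hi
    · exact le_max_right _ _
    · exact (h i hi).trans (le_max_left _ _)

variable {B : ℝ} {R : RetSys E Word}

theorem Geo.finite_rho (geo : Geo B R) (n : ℕ) : {i : Word | rho i ≤ n}.Finite := by
  refine (R.fin (2 * n)).subset fun i hi => ?_
  simp only [mem_ofPred_eq, geo.time, rt] at hi ⊢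
  omega

theorem Geo.exists_par (geo : Geo B R) (e : ℕ → ℝ) (he : ∀ n, 0 < e n) : Nonempty (Par B e) := by
  choose ζ hζ rim using geo.rim
  choose δ hδ sep using geo.sep
  choose bd hbd using fun j => geo.bF j (ζ j / 2) (by have := hζ j; positivity)
  choose b hb0 hb using fun n => exists_ge_of_finite (geo.finite_rho n) bd
  choose c1 hc1 hc1' using fun n => exists_pos_le_of_finite (geo.finite_rho n) ζ hζ
  choose c2 hc2 hc2' using fun n => exists_pos_le_of_finite (geo.finite_rho n) δ hδ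
  obtain ⟨C, hC1, hC2, hC3⟩ := exists_antitone_le
    (fun n => min (min 1 (e n)) (min (c1 n) (c2 n)))
    (fun n => lt_min (lt_min one_pos (he n)) (lt_min (hc1 n) (hc2 n)))
  let rad : ℕ → ℝ := fun n => 51 + n + ∑ m ∈ Finset.range n, b m
  have hmono : StrictMono rad := by
    refine strictMono_nat_of_lt_succ fun n => ?_
    simp only [rad, Finset.sum_range_succ]
    push_cast
    linarith [hb0 n]
  have hsum : ∀ n, 0 ≤ ∑ m ∈ Finset.range n, b m := fun n => Finset.sum_nonneg fun m _ => hb0 m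
  exact ⟨{
    ζ := ζ
    δ := δ
    rad := rad
    C := C
    ζpos := hζ
    δpos := hδ
    rim := rim
    sep := sep
    rad_mono := hmono
    rad_top := by
      refine tendsto_atTop_mono (f := fun n : ℕ => (n : ℝ)) (fun n => ?_)
        tendsto_natCast_atTop_atTop
      simp only [rad]
      linarith [hsum n]
    rad_ge := fun n => by
      simp only [rad]
      have : (0 : ℝ) ≤ n := Nat.cast_nonneg n
      linarith [hsum n]
    rad_F := fun n j hj p hp => by
      refine (hbd j p hp).trans ((hb n j hj).trans ?_)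
      simp only [rad, Finset.sum_range_succ]
      have : (0 : ℝ) ≤ ((n + 1 : ℕ) : ℝ) := Nat.cast_nonneg _
      linarith [hsum n]
    Cpos := hC2
    Canti := hC1
    Cone := fun n => (hC3 n).trans ((min_le_left _ _).trans (min_le_left _ _))
    Ce := fun n => (hC3 n).trans ((min_le_left _ _).trans (min_le_right _ _))
    Cζ := fun n j hj => (hC3 n).trans ((min_le_right _ _).trans
      ((min_le_left _ _).trans (hc1' n j hj)))
    Cδ := fun n j hj => (hC3 n).trans ((min_le_right _ _).trans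
      ((min_le_right _ _).trans (hc2' n j hj))) }⟩

/-! ### powers of `1/2` and radii -/

/-- `h n = 2^{-n}` -/
abbrev hf (n : ℕ) : ℝ := (1 / 2 : ℝ) ^ n

lemma hf_pos (n : ℕ) : 0 < hf n := by positivity

lemma hf_succ (n : ℕ) : hf (n + 1) = hf n / 2 := by
  simp only [hf, pow_succ]; ring

lemma hf_le_one (n : ℕ) : hf n ≤ 1 := pow_le_one₀ (by norm_num) (by norm_num)

lemma hf_anti : Antitone hf := fun _ _ h =>
  pow_le_pow_of_le_one (by norm_num) (by norm_num) h

/-- the radius of the far region at level `t` -/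
def Bt (t : ℤ) : ℝ := if 0 ≤ t then 49 + hf (t.natAbs + 1) else 50 - hf (t.natAbs + 1)

lemma Bt_ge (t : ℤ) : 49 ≤ Bt t := by
  unfold Bt
  split_ifs
  · linarith [hf_pos (t.natAbs + 1)]
  · linarith [hf_le_one (t.natAbs + 1)]

lemma Bt_le (t : ℤ) : Bt t ≤ 50 := by
  unfold Bt
  split_ifs
  · linarith [hf_le_one (t.natAbs + 1)]
  · linarith [hf_pos (t.natAbs + 1)]

lemma Bt_step (t : ℤ) : Bt (t + 1) + hf (t.natAbs + 2) ≤ Bt t := by
  unfold Bt
  rcases lt_or_ge t 0 with h | h
  · rcases (show t + 1 ≤ 0 by omega).lt_or_eq with h1 | h1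
    · rw [if_neg (by omega), if_neg (by omega)]
      obtain ⟨r, hr⟩ : ∃ r, t.natAbs = r + 1 := ⟨t.natAbs - 1, by omega⟩
      have h2 : (t + 1).natAbs = r := by omega
      rw [hr, h2, hf_succ (r + 1 + 1), hf_succ (r + 1), hf_succ r]
      linarith [hf_pos r]
    · obtain rfl : t = -1 := by omega
      norm_num [hf]
  · rw [if_pos (by omega), if_pos h]
    have h2 : (t + 1).natAbs = t.natAbs + 1 := by omega
    rw [h2, hf_succ (t.natAbs + 1)]
    linarith

namespace Par

variable {e : ℕ → ℝ} (P : Par B e)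

/-- the size of the perturbations -/
def ε (n : ℕ) : ℝ := hf (n + 2) * P.C n

lemma ε_pos (n : ℕ) : 0 < P.ε n := mul_pos (hf_pos _) (P.Cpos n)

lemma ε_anti : Antitone P.ε := fun m n h =>
  mul_le_mul (hf_anti (by omega)) (P.Canti h) (P.Cpos n).le (hf_pos _).le

lemma ε_le_hf (n : ℕ) : P.ε n ≤ hf (n + 2) :=
  mul_le_of_le_one_right (hf_pos _).le (P.Cone n)

lemma ε_le_e (n : ℕ) : P.ε n ≤ e n :=
  (mul_le_of_le_one_left (P.Cpos n).le (hf_le_one _)).trans (P.Ce n)

lemma ε_le_ζ {n : ℕ} {j : Word} (h : rho j ≤ n) : P.ε n ≤ hf (n + 2) * P.ζ j :=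
  mul_le_mul_of_nonneg_left (P.Cζ n j h) (hf_pos _).le

lemma ε_le_δ {n : ℕ} {j : Word} (h : rho j ≤ n) : P.ε n ≤ hf (n + 2) * P.δ j :=
  mul_le_mul_of_nonneg_left (P.Cδ n j h) (hf_pos _).le

/-- far representation -/
def Far (t : ℤ) (y : E) : Prop :=
  Bt t ≤ ‖y.2‖ ∧ (t < 0 → ∀ k, rho k ≤ t.natAbs → ∀ q ∈ S B k,
    P.δ k * (1 - hf (t.natAbs + 1)) ≤ ‖y - q‖)

/-- rim representation -/
def Rim (t : ℤ) (y : E) : Prop :=
  ∃ j, (rho j : ℤ) ≤ t ∧
    |‖y.2 - X B (dig j)‖ - wd B j| ≤ P.ζ j * (1 - hf (t.natAbs + 1))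

/-- controlled maps -/
def Ctrl (R : RetSys E Word) (g : R.Mfd → R.Mfd) : Prop :=
  ∀ (n : ℕ) (t : ℤ) (y : E), t.natAbs ≤ n → ‖y‖ ≤ P.rad (n + 1) →
    R.phi t y ∉ interior (R.box P.rad n) →
    g (R.phi t y) ∈ range (R.phi (t + 1)) ∧ ContDiffAt ℝ 2 (R.sigma g t) y ∧
    ‖R.sigma g t y - y‖ ≤ P.ε n ∧
    ‖fderiv ℝ (R.sigma g t) y - ContinuousLinearMap.id ℝ E‖ ≤ P.ε n ∧
    ‖iteratedFDeriv ℝ 2 (R.sigma g t) y‖ ≤ P.ε n

/-- the trap -/
def Trap (R : RetSys E Word) (p : R.Mfd) : Prop :=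
  ∃ t y, R.phi t y = p ∧ (P.Far t y ∨ P.Rim t y)

lemma far_step {t : ℤ} {y y' : E} (h : P.Far t y) {n : ℕ} (hn : t.natAbs ≤ n)
    (hy : ‖y' - y‖ ≤ P.ε n) : P.Far (t + 1) y' := by
  have hy1 : ‖y' - y‖ ≤ P.ε t.natAbs := hy.trans (P.ε_anti hn)
  refine ⟨?_, fun ht k hk q hq => ?_⟩
  · have h1 : ‖y.2‖ ≤ ‖y'.2‖ + ‖y' - y‖ := by
      have h2 : ‖y.2‖ ≤ ‖y'.2‖ + ‖y.2 - y'.2‖ := by
        have := norm_add_le y'.2 (y.2 - y'.2)
        simpa using this
      have h3 : ‖y.2 - y'.2‖ ≤ ‖y' - y‖ := by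
        rw [norm_sub_rev]; exact norm_snd_le (y' - y)
      linarith
    linarith [h.1, Bt_step t, P.ε_le_hf t.natAbs]
  · obtain ⟨r, hr⟩ : ∃ r, t.natAbs = r + 1 := ⟨t.natAbs - 1, by omega⟩
    have hr' : (t + 1).natAbs = r := by omega
    rw [hr'] at hk ⊢
    have h1 := h.2 (by omega) k (by omega) q hq
    rw [hr, hf_succ (r + 1), hf_succ r] at h1
    have h2 := P.ε_le_δ (n := r + 1) (j := k) (by omega)
    rw [hf_succ (r + 1 + 1), hf_succ (r + 1), hf_succ r] at h2
    rw [hr] at hy1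
    have h3 : ‖y - q‖ ≤ ‖y' - q‖ + ‖y' - y‖ := by
      have := norm_sub_le (y' - q) (y' - y)
      simpa using this
    rw [hf_succ r]
    nlinarith [hf_pos r, P.δpos k, mul_pos (P.δpos k) (hf_pos r)]

lemma rim_step {t : ℤ} {y y' : E} (h : P.Rim t y) {n : ℕ} (hn : t.natAbs ≤ n)
    (hy : ‖y' - y‖ ≤ P.ε n) : P.Rim (t + 1) y' := by
  obtain ⟨j, hj, h1⟩ := h
  have hy1 : ‖y' - y‖ ≤ P.ε t.natAbs := hy.trans (P.ε_anti hn)
  refine ⟨j, by omega, ?_⟩
  have h2 := P.ε_le_ζ (n := t.natAbs) (j := j) (by omega)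
  have h3 : |‖y'.2 - X B (dig j)‖ - ‖y.2 - X B (dig j)‖| ≤ ‖y' - y‖ := by
    refine (abs_norm_sub_norm_le _ _).trans ?_
    have : y'.2 - X B (dig j) - (y.2 - X B (dig j)) = (y' - y).2 := by
      simp
    rw [this]
    exact norm_snd_le _
  have h4 : (t + 1).natAbs = t.natAbs + 1 := by have := rho_pos j; omega
  rw [h4, hf_succ (t.natAbs + 1)]
  rw [hf_succ (t.natAbs + 1)] at h2
  have h5 := abs_le.1 h1
  have h6 := abs_le.1 h3
  rw [abs_le]
  constructor <;> nlinarith [hf_pos (t.natAbs + 1), P.ζpos j]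

end Par

/-! ### representations -/

namespace Geo

variable (geo : Geo B R)
include geo

/-- the last step of a chain -/
lemma last_step {s t : ℤ} {w y : E} (h : R.phi s w = R.phi t y) (hts : t < s) :
    ∃ k, y ∈ S B k ∧ t + rt k ≤ s ∧
      ∃ z ∈ D B k, F B k z = y ∧ R.phi (t + rt k) z = R.phi t y := by
  have h1 := (R.phi_eq_iff_of_le hts.le).1 h
  obtain ⟨k, m, h2, h3, -⟩ := h1.exists_snoc (by omega)
  rw [geo.time] at h3
  have h4 : (R.F k).symm y ∈ D B k := by
    rw [← geo.src]; exact (R.F k).map_target h2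
  refine ⟨k, by rwa [← geo.trg], by omega, (R.F k).symm y, h4, ?_, ?_⟩
  · rw [← geo.map k _ h4, (R.F k).right_inv h2]
  · rw [R.phi_eq_phi_F_symm h2 t, geo.time]

/-- the first step of a chain -/
lemma first_step {s t : ℤ} {w y : E} (h : R.phi s w = R.phi t y) (hts : t < s) :
    ∃ k, w ∈ D B k ∧ t + rt k ≤ s := by
  have h1 := (R.phi_eq_iff_of_le hts.le).1 h
  obtain ⟨k, m, h2, h3, -⟩ := h1.exists_cons (by omega)
  rw [geo.time] at h3
  exact ⟨k, by rwa [← geo.src], by omega⟩

lemma phi_pass {k : Word} {y : E} (hy : y ∈ D B k) (t : ℤ) :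
    R.phi t y = R.phi (t - rt k) (F B k y) := by
  rw [← geo.map k y hy, ← geo.time]
  exact R.phi_eq_phi_F (by rwa [geo.src]) t

lemma F_mem {k : Word} {y : E} (hy : y ∈ D B k) : F B k y ∈ S B k := by
  rw [← geo.map k y hy, ← geo.trg]
  exact (R.F k).map_source (by rwa [geo.src])

lemma disjD {j k : Word} {y : E} (hj : y ∈ D B j) (hk : y ∈ D B k) : j = k :=
  R.disjD j k y (by rwa [geo.src]) (by rwa [geo.src])

lemma disjS {j k : Word} {y : E} (hj : y ∈ S B j) (hk : y ∈ S B k) : j = k :=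
  R.disjS j k y (by rwa [geo.trg]) (by rwa [geo.trg])

end Geo

lemma rho_inj {i j : Word} (h : rho i = rho j) (hl : i.length = j.length) : i = j := by
  unfold rho at h
  rw [hl] at h
  have h1 : Nat.ofDigits 8 (dig i) = Nat.ofDigits 8 (dig j) := by omega
  have h2 : dig i = dig j := by
    refine Nat.ofDigits_inj_of_len_eq (by norm_num) (by simp [dig, hl]) ?_ ?_ h1
    · intro d hd
      simp only [dig, List.mem_map] at hd
      obtain ⟨a, -, rfl⟩ := hd
      omega
    · intro d hd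
      simp only [dig, List.mem_map] at hd
      obtain ⟨a, -, rfl⟩ := hd
      omega
  refine List.map_injective_iff.2 ?_ h2
  intro a b hab
  simp only at hab
  omega

lemma rho_injective {i j : Word} (h : rho i = rho j) : i = j := by
  have key : ∀ i : Word, Nat.ofDigits 8 (dig i) < 8 ^ i.length := by
    intro i
    have h1 := Nat.ofDigits_lt_base_pow_length (b := 8) (l := dig i) (by norm_num) (by
      intro d hd
      simp only [dig, List.mem_map] at hd
      obtain ⟨a, -, rfl⟩ := hd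
      omega)
    simpa [dig] using h1
  have hlt : ∀ i j : Word, i.length < j.length → rho i < rho j := by
    intro i j hij
    have h1 := key i
    have h2 : 8 ^ (i.length + 1) ≤ 8 ^ j.length := Nat.pow_le_pow_right (by norm_num) hij
    unfold rho
    rw [pow_succ] at h2
    omega
  refine rho_inj h ?_
  rcases lt_trichotomy i.length j.length with h1 | h1 | h1
  · exact absurd h (hlt _ _ h1).ne
  · exact h1
  · exact absurd h (hlt _ _ h1).ne'

namespace Par

variable {e : ℕ → ℝ} (P : Par B e)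

/-- every point has a controlled representation -/
lemma exists_controlled (R : RetSys E Word) (p : R.Mfd) :
    ∃ (n : ℕ) (s : ℤ) (w : E), R.phi s w = p ∧ s.natAbs ≤ n ∧ ‖w‖ ≤ P.rad (n + 1) ∧
      p ∉ interior (R.box P.rad n) := by
  classical
  have hex := R.exists_mem_box P.rad_top p
  set m := Nat.find hex with hm
  have h1 : p ∈ R.box P.rad m := Nat.find_spec hex
  have h0 : m ≠ 0 := by
    intro h0
    rw [h0, RetSys.box_zero] at h1
    exact h1
  obtain ⟨n, hn⟩ := Nat.exists_eq_succ_of_ne_zero h0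
  have h2 : p ∉ R.box P.rad n := Nat.find_min hex (by omega)
  rw [hn] at h1
  simp only [RetSys.box, mem_iUnion] at h1
  obtain ⟨s, hs, w, hw, hp⟩ := h1
  refine ⟨n, s, w, hp, ?_, by simpa using hw, fun h => h2 (interior_subset h)⟩
  exact Nat.lt_succ_iff.1 hs

end Par

namespace Par

variable {e : ℕ → ℝ} (P : Par B e)

lemma norm_eq (p : E) : ‖p‖ = max |p.1| ‖p.2‖ := rfl

/-- all representations of a point with a far representation have levels of larger size -/
lemma far_level (geo : Geo B R) {t s : ℤ} {y w : E} (hy : P.Far t y)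
    (h : R.phi s w = R.phi t y) : t ≤ s ∧ t.natAbs ≤ s.natAbs := by
  have hts : t ≤ s := by
    by_contra hcon
    obtain ⟨k, hk, -⟩ := geo.first_step h.symm (by omega)
    linarith [geo.bD k y hk, hy.1, Bt_ge t]
  refine ⟨hts, ?_⟩
  rcases hts.eq_or_lt with rfl | hlt
  · exact le_rfl
  obtain ⟨k, hk, h1, -⟩ := geo.last_step h hlt
  rcases lt_or_ge t 0 with ht | ht
  · have h2 : ¬ rho k ≤ t.natAbs := by
      intro h3
      have h4 := hy.2 ht k h3 y hk
      rw [sub_self, norm_zero] at h4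
      have h5 : hf (t.natAbs + 1) < 1 := by
        rw [hf_succ]
        linarith [hf_le_one t.natAbs]
      nlinarith [P.δpos k]
    rw [rt_eq] at h1
    omega
  · omega

/-- A far representation or a rim representation of a point yields a trap representation with
control. -/
lemma trap_controlled (geo : Geo B R) {p : R.Mfd} (hp : P.Trap R p) :
    ∃ (n : ℕ) (t : ℤ) (y : E), R.phi t y = p ∧ (P.Far t y ∨ P.Rim t y) ∧ t.natAbs ≤ n ∧
      ‖y‖ ≤ P.rad (n + 1) ∧ p ∉ interior (R.box P.rad n) := by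
  obtain ⟨n, s, w, hsw, hsn, hw, hbox⟩ := P.exists_controlled R p
  by_cases hfar : ∃ t y, R.phi t y = p ∧ P.Far t y
  · obtain ⟨t, y, hty, hy⟩ := hfar
    have h0 : R.phi s w = R.phi t y := hsw.trans hty.symm
    obtain ⟨hts, hts'⟩ := P.far_level geo hy h0
    by_cases hyr : ‖y‖ ≤ P.rad (n + 1)
    · exact ⟨n, t, y, hty, Or.inl hy, hts'.trans hsn, hyr, hbox⟩
    push Not at hyr
    have hlt : t < s := by
      refine lt_of_le_of_ne hts fun h => ?_
      subst h
      have := R.phi_injective t h0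
      subst this
      linarith
    obtain ⟨k, hk, h1, z, hz, hFz, hphi⟩ := geo.last_step h0 hlt
    -- `ρ_k ≤ t + t_k`
    have hT : (rho k : ℤ) ≤ t + rt k := by
      rw [rt_eq]
      have h6 := rho_pos k
      rcases lt_or_ge t 0 with ht | ht
      · have h2 : ¬ rho k ≤ t.natAbs := by
          intro h3
          have h4 := hy.2 ht k h3 y hk
          rw [sub_self, norm_zero] at h4
          have h5 : hf (t.natAbs + 1) < 1 := by
            rw [hf_succ]
            linarith [hf_le_one t.natAbs]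
          nlinarith [P.δpos k]
        omega
      · omega
    have hTn : (t + rt k).natAbs ≤ n := by
      have h6 := rho_pos k
      omega
    -- `z` lies in the rim
    have hrim : P.Rim (t + rt k) z := by
      refine ⟨k, hT, ?_⟩
      have h2 : ¬ ‖z.2 - X B (dig k)‖ ≤ wd B k - P.ζ k / 2 := by
        intro h3
        have h4 := P.rad_F n k (by have := rho_pos k; omega) z h3
        rw [hFz] at h4
        linarith
      have h3 : ‖z.2 - X B (dig k)‖ < wd B k := hz
      have h5 : hf ((t + rt k).natAbs + 1) ≤ 1 / 2 := by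
        rw [hf_succ]
        linarith [hf_le_one (t + rt k).natAbs]
      push Not at h2
      rw [abs_le]
      constructor <;> nlinarith [P.ζpos k]
    refine ⟨n, t + rt k, z, hphi.trans hty, Or.inr hrim, hTn, ?_, hbox⟩
    by_contra hcon
    push Not at hcon
    -- `z` is in no `S_j`, so `s = t + t_k`
    have hz1 := geo.bD k z hz
    have hza : 51 < |z.1| := by
      by_contra h4
      push Not at h4
      have : ‖z‖ ≤ 51 := by
        rw [norm_eq]; exact max_le h4 (by linarith)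
      linarith [P.rad_ge (n + 1)]
    have h7 : R.phi s w = R.phi (t + rt k) z := h0.trans hphi.symm
    rcases h1.eq_or_lt with h8 | h8
    · rw [← h8] at h7
      have := R.phi_injective _ h7
      rw [this] at hw
      linarith
    · obtain ⟨j, hj, -⟩ := geo.last_step h7 h8
      linarith [geo.aS j z hj (by linarith)]
  · obtain ⟨t, y, hty, hy | ⟨j, hjt, hj⟩⟩ := hp
    · exact absurd ⟨t, y, hty, hy⟩ hfar
    have h0 : R.phi s w = R.phi t y := hsw.trans hty.symm
    have hρ := rho_pos j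
    have h5 := hf_pos (t.natAbs + 1)
    have h6 := abs_le.1 hj
    obtain ⟨hr1, hr2, hr3⟩ := P.rim j y (by nlinarith [P.ζpos j]) (by nlinarith [P.ζpos j])
    have hyD : y ∉ D B j := by
      intro hyD
      apply hfar
      refine ⟨t - rt j, F B j y, by rw [← geo.phi_pass hyD]; exact hty, ?_, ?_⟩
      · exact (Bt_le _).trans (by linarith [hr3 hyD])
      · intro hlt k hk q hq
        have hjk : j ≠ k := by
          rintro rfl
          rw [rt_eq] at hk hlt
          omega
        have h7 := P.sep k j hjk _ (geo.F_mem hyD) q hq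
        have h8 := hf_pos ((t - ↑(rt j)).natAbs + 1)
        nlinarith [P.δpos k]
    have hnoD : ∀ k, y ∉ D B k := by
      intro k
      by_cases h : k = j
      · rw [h]; exact hyD
      · exact hr2 k h
    have hts : t ≤ s := by
      by_contra hcon
      obtain ⟨k, hk, -⟩ := geo.first_step h0.symm (by omega)
      exact hnoD k hk
    refine ⟨n, t, y, hty, Or.inr ⟨j, hjt, hj⟩, by omega, ?_, hbox⟩
    rcases hts.eq_or_lt with h | h
    · subst h
      have := R.phi_injective _ h0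
      rw [← this]; exact hw
    · obtain ⟨k, hk, -⟩ := geo.last_step h0 h
      have h9 := geo.aS k y hk (by linarith)
      rw [norm_eq]
      exact max_le (by linarith [P.rad_ge (n + 1)]) (by linarith [P.rad_ge (n + 1)])

lemma trap_step (geo : Geo B R) {g : R.Mfd → R.Mfd} (hg : P.Ctrl R g) {p : R.Mfd}
    (hp : P.Trap R p) : P.Trap R (g p) := by
  obtain ⟨n, t, y, rfl, h, hn, hy, hbox⟩ := P.trap_controlled geo hp
  obtain ⟨h1, -, h2, -, -⟩ := hg n t y hn hy hbox
  refine ⟨t + 1, R.sigma g t y, R.phi_sigma h1, ?_⟩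
  rcases h with h | h
  · exact Or.inl (P.far_step h hn h2)
  · exact Or.inr (P.rim_step h hn h2)

lemma trap_iterate (geo : Geo B R) {g : R.Mfd → R.Mfd} (hg : P.Ctrl R g) {p : R.Mfd}
    (hp : P.Trap R p) (m : ℕ) : P.Trap R (g^[m] p) := by
  induction m with
  | zero => exact hp
  | succ m ih => rw [Function.iterate_succ_apply']; exact P.trap_step geo hg ih

/-- No point of the core lies in the trap. -/
lemma core_not_trap (geo : Geo B R) {y : E} (hy : ‖y.2‖ < 49) : ¬ P.Trap R (R.phi 0 y) := by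
  rintro ⟨t, z, htz, h⟩
  rcases lt_trichotomy t 0 with ht | rfl | ht
  · rcases h with h | ⟨j, hj, -⟩
    · -- `z` lies in a window image `S_k` with `ρ_k ≤ |t|`
      obtain ⟨k, hk, h1, -⟩ := geo.last_step htz.symm ht
      have h2 := rho_pos k
      rw [rt_eq] at h1
      have h3 := h.2 ht k (by omega) z hk
      rw [sub_self, norm_zero] at h3
      have h4 : hf (t.natAbs + 1) < 1 := by
        rw [hf_succ]
        linarith [hf_le_one t.natAbs]
      nlinarith [P.δpos k]
    · have := rho_pos j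
      omega
  · have := R.phi_injective _ htz
    subst this
    rcases h with h | ⟨j, hj, -⟩
    · linarith [h.1, Bt_ge 0]
    · have := rho_pos j
      omega
  · obtain ⟨k, hk, h1⟩ := geo.first_step htz ht
    rcases h with h | ⟨j, hj, hj'⟩
    · linarith [h.1, Bt_ge t, geo.bD k z hk]
    · have h5 := hf_pos (t.natAbs + 1)
      have h6 := abs_le.1 hj'
      obtain ⟨-, hr2, hr3⟩ := P.rim j z (by nlinarith [P.ζpos j]) (by nlinarith [P.ζpos j])
      have hjk : k = j := by
        by_contra hne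
        exact hr2 k hne hk
      subst hjk
      have h7 := hr3 hk
      -- the next representation is `F_k z`
      have h8 : R.phi (t - rt k) (F B k z) = R.phi 0 y := by
        rw [← geo.phi_pass hk]; exact htz
      rcases (show (0 : ℤ) ≤ t - rt k by omega).eq_or_lt with h9 | h9
      · rw [← h9] at h8
        have := R.phi_injective _ h8
        rw [this] at h7
        linarith
      · obtain ⟨m, hm, -⟩ := geo.first_step h8 h9
        linarith [geo.bD m _ hm]

/-- The base point does not lie in the trap. -/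
lemma base_not_trap (geo : Geo B R) : ¬ P.Trap R (R.phi 0 0) :=
  P.core_not_trap geo (by simp)

end Par

/-! ### the main orbit -/

lemma good_level (geo : Geo B R) {t s : ℤ} {y w : E} (hy : y ∈ Good B t)
    (h : R.phi s w = R.phi t y) (hst : s ≠ t) : t.natAbs < s.natAbs := by
  obtain ⟨-, -, h1, h2⟩ := hy
  rcases lt_or_gt_of_ne hst with hlt | hlt
  · obtain ⟨k, hk, h3⟩ := geo.first_step h.symm hlt
    rw [rt_eq] at h3
    have h6 := rho_pos k
    rcases lt_or_ge t 0 with ht | ht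
    · omega
    · have h4 : ¬ ((rt k : ℤ) < 2 * t) := fun h5 => h1 ht k h5 hk
      rw [rt_eq] at h4
      omega
  · obtain ⟨k, hk, h3, -⟩ := geo.last_step h hlt
    rw [rt_eq] at h3
    have h6 := rho_pos k
    rcases lt_or_ge t 0 with ht | ht
    · have h4 : ¬ ((rt k : ℤ) < -(2 * t)) := fun h5 => h2 ht k h5 hk
      rw [rt_eq] at h4
      omega
    · omega

lemma good_unique (geo : Geo B R) {t s : ℤ} {y w : E} (hy : y ∈ Good B t) (hw : w ∈ Good B s)
    (h : R.phi s w = R.phi t y) : s = t := by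
  by_contra hne
  have h1 := good_level geo hy h hne
  have h2 := good_level geo hw h.symm (Ne.symm hne)
  omega

lemma good_not_box (geo : Geo B R) {t : ℤ} {y : E} (hy : y ∈ Good B t) (rad : ℕ → ℝ) :
    R.phi t y ∉ R.box rad t.natAbs := by
  intro h
  simp only [RetSys.box, mem_iUnion] at h
  obtain ⟨s, hs, w, -, hp⟩ := h
  have hs' : s.natAbs < t.natAbs := hs
  have h1 := good_level geo hy hp (by rintro rfl; omega)
  omega

namespace Par

variable {e : ℕ → ℝ} (P : Par B e)

lemma good_ctrl (geo : Geo B R) {g : R.Mfd → R.Mfd} (hg : P.Ctrl R g) {t : ℤ} {y : E}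
    (hy : y ∈ Good B t) :
    g (R.phi t y) ∈ range (R.phi (t + 1)) ∧ ContDiffAt ℝ 2 (R.sigma g t) y ∧
    ‖R.sigma g t y - y‖ ≤ P.ε t.natAbs ∧
    ‖fderiv ℝ (R.sigma g t) y - ContinuousLinearMap.id ℝ E‖ ≤ P.ε t.natAbs ∧
    ‖iteratedFDeriv ℝ 2 (R.sigma g t) y‖ ≤ P.ε t.natAbs := by
  refine hg t.natAbs t y le_rfl ?_ fun h => good_not_box geo hy P.rad (interior_subset h)
  rw [norm_eq]
  have := P.rad_ge (t.natAbs + 1)
  exact max_le (by linarith [hy.1]) (by linarith [hy.2.1])

/-- invariants of the main representation `(t, y)` of the points of the orbit; `i` is the last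
window passed and `z` is the point of arrival -/
structure Inv (R : RetSys E Word) (O : Set R.Mfd) (i : Word) (z : E) (t : ℤ) (y : E) :
    Prop where
  lvl : 1 - (rho i : ℤ) ≤ t
  near : t < 0 → z ∈ S B i ∧ ‖y - z‖ ≤ hf (t.natAbs + 2) * P.C (t.natAbs + 1)
  bnd : 0 ≤ t → |y.1| ≤ 2 - hf (t.natAbs + 1)
  far : ‖y.2‖ < Bt t
  noD : 0 ≤ t → ∀ j, (rho j : ℤ) ≤ t → y ∉ D B j
  mem : R.phi t y ∈ O

variable {P} in
lemma Inv.near_one (geo : Geo B R) {O : Set R.Mfd} {i : Word} {z : E} {t : ℤ} {y : E}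
    (h : P.Inv R O i z t y) (ht : t < 0) : |y.1| ≤ 1 + 1 / 8 := by
  obtain ⟨h1, h2⟩ := h.near ht
  have h3 : hf (t.natAbs + 2) * P.C (t.natAbs + 1) ≤ 1 / 8 := by
    have h4 : hf (t.natAbs + 2) ≤ hf 3 := hf_anti (by omega)
    have h5 : hf 3 = 1 / 8 := by norm_num [hf]
    exact (mul_le_of_le_one_right (hf_pos _).le (P.Cone (t.natAbs + 1))).trans (h4.trans h5.le)
  have h4 : ‖z.2‖ ≤ 51 := by
    have h5 : ‖z.2‖ ≤ ‖y.2‖ + ‖(y - z).2‖ := by
      have := norm_sub_le y.2 (y - z).2
      simpa using this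
    linarith [norm_snd_le (y - z), h.far, Bt_le t]
  have h5 := geo.aS i z h1 h4
  have h6 : |y.1| ≤ |z.1| + |(y - z).1| := by
    have := abs_add_le z.1 (y - z).1
    simpa using this
  have h7 : |(y - z).1| ≤ ‖y - z‖ := norm_fst_le (y - z)
  linarith

variable {P} in
lemma Inv.good (geo : Geo B R) {O : Set R.Mfd} {i : Word} {z : E} {t : ℤ} {y : E}
    (h : P.Inv R O i z t y) : y ∈ Good B t := by
  refine ⟨?_, (h.far.le.trans (Bt_le t)), fun ht j hj => h.noD ht j ?_, fun ht j hj hy => ?_⟩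
  · rcases lt_or_ge t 0 with ht | ht
    · linarith [h.near_one geo ht]
    · linarith [h.bnd ht, hf_pos (t.natAbs + 1)]
  · rw [rt_eq] at hj
    omega
  · obtain ⟨h1, h2⟩ := h.near ht
    have h3 := h.lvl
    have h4 : i ≠ j := by
      rintro rfl
      rw [rt_eq] at hj
      omega
    have h5 := P.sep j i h4 z h1 y hy
    rw [rt_eq] at hj
    have h6 := P.Cδ (t.natAbs + 1) j (by omega)
    have h7 : hf (t.natAbs + 2) < 1 := by
      rw [hf_succ]
      linarith [hf_le_one (t.natAbs + 1)]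
    rw [norm_sub_rev] at h5
    nlinarith [P.δpos j, hf_pos (t.natAbs + 2), P.Cpos (t.natAbs + 1)]

/-- one step of the main orbit -/
lemma inv_step (geo : Geo B R) {g : R.Mfd → R.Mfd} (hg : P.Ctrl R g) {O : Set R.Mfd}
    (hO : ∀ p ∈ O, g p ∈ O) (hT : ∀ p ∈ O, ¬ P.Trap R p) {i : Word} {z : E} {t : ℤ} {y : E}
    (h : P.Inv R O i z t y) :
    P.Inv R O i z (t + 1) (R.sigma g t y) ∨
    ∃ j, (rho j : ℤ) = t + 1 ∧ R.sigma g t y ∈ D B j ∧
      F B j (R.sigma g t y) ∈ S B j ∧
      P.Inv R O j (F B j (R.sigma g t y)) (1 - rho j) (F B j (R.sigma g t y)) := by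
  obtain ⟨c1, -, c2, -, -⟩ := P.good_ctrl geo hg (h.good geo)
  have c3 : R.phi (t + 1) (R.sigma g t y) = g (R.phi t y) := R.phi_sigma c1
  generalize R.sigma g t y = y' at c2 c3 ⊢
  have hp : R.phi (t + 1) y' ∈ O := by rw [c3]; exact hO _ h.mem
  have hnT := hT _ hp
  have hi := h.lvl
  have hnear : t < 0 → z ∈ S B i ∧
      ‖y' - z‖ ≤ hf ((t + 1).natAbs + 2) * P.C ((t + 1).natAbs + 1) := by
    intro ht
    obtain ⟨h1, h2⟩ := h.near ht
    refine ⟨h1, ?_⟩
    obtain ⟨r, hr⟩ : ∃ r, t.natAbs = r + 1 := ⟨t.natAbs - 1, by omega⟩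
    have hr' : (t + 1).natAbs = r := by omega
    rw [hr'] 
    rw [hr] at h2 c2
    unfold ε at c2
    have h3 : ‖y' - z‖ ≤ ‖y' - y‖ + ‖y - z‖ := by
      have := norm_add_le (y' - y) (y - z)
      simpa using this
    have h4 := P.Canti (show r + 1 ≤ r + 1 + 1 by omega)
    have h5 : hf (r + 1 + 2) = hf (r + 2) / 2 := by rw [← hf_succ]
    rw [h5] at h2 c2
    nlinarith [hf_pos (r + 2)]
  have hfar : ‖y'.2‖ < Bt (t + 1) := by
    by_contra hcon
    push Not at hcon
    refine hnT ⟨t + 1, y', rfl, Or.inl ⟨hcon, fun ht k hk q hq => ?_⟩⟩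
    obtain ⟨h1, h2⟩ := hnear (by omega)
    have hik : i ≠ k := by
      rintro rfl
      omega
    have h3 := P.sep k i hik z h1 q hq
    have h4 := P.Cδ ((t + 1).natAbs + 1) k (by omega)
    have h5 : ‖z - q‖ ≤ ‖y' - z‖ + ‖y' - q‖ := by
      have := norm_sub_le (y' - q) (y' - z)
      rw [sub_sub_sub_cancel_left] at this
      linarith
    rw [hf_succ ((t + 1).natAbs + 1)] at h2
    nlinarith [hf_pos ((t + 1).natAbs + 1), P.δpos k, P.Cpos ((t + 1).natAbs + 1)]
  by_cases hpass : ∃ j, (rho j : ℤ) = t + 1 ∧ y' ∈ D B j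
  · right
    obtain ⟨j, hj, hyj⟩ := hpass
    have hj1 := rho_pos j
    have hS := geo.F_mem hyj
    refine ⟨j, hj, hyj, hS, ?_⟩
    have hphi : R.phi (1 - rho j) (F B j y') = R.phi (t + 1) y' := by
      rw [geo.phi_pass hyj (t + 1), rt_eq]
      congr 1
      omega
    have hfar' : ‖(F B j y').2‖ < Bt (1 - rho j) := by
      by_contra hcon
      push Not at hcon
      refine hnT ⟨1 - rho j, F B j y', hphi, Or.inl ⟨hcon, fun ht k hk q hq => ?_⟩⟩
      have hjk : j ≠ k := by
        rintro rfl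
        omega
      have h3 := P.sep k j hjk _ hS q hq
      nlinarith [hf_pos ((1 - (rho j : ℤ)).natAbs + 1), P.δpos k]
    exact {
      lvl := le_rfl
      near := fun _ => ⟨hS, by
        rw [sub_self, norm_zero]
        exact (mul_pos (hf_pos _) (P.Cpos _)).le⟩
      bnd := fun _ => by
        have h1 := geo.aS j _ hS (by linarith [Bt_le (1 - (rho j : ℤ))])
        have h2 : hf ((1 - (rho j : ℤ)).natAbs + 1) ≤ 1 := hf_le_one _
        linarith
      far := hfar'
      noD := fun h0 k hk => by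
        have := rho_pos k
        omega
      mem := by rw [hphi]; exact hp }
  · left
    exact {
      lvl := by omega
      near := fun ht => hnear (by omega)
      bnd := fun ht => by
        have h1 : |y'.1| ≤ |y.1| + ‖y' - y‖ := by
          have h2 : |y'.1| ≤ |y.1| + |(y' - y).1| := by
            have := abs_add_le y.1 (y' - y).1
            simpa using this
          have h3 : |(y' - y).1| ≤ ‖y' - y‖ := norm_fst_le (y' - y)
          linarith
        have h4 := P.ε_le_hf t.natAbs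
        rcases lt_or_ge t 0 with h0 | h0
        · have h5 := h.near_one geo h0
          obtain rfl : t = -1 := by omega
          norm_num [hf] at h4 ⊢
          have h6 : ‖y' - y‖ ≤ 1 / 8 := by
            refine c2.trans ?_
            norm_num
            linarith
          linarith
        · have h5 := h.bnd h0
          have h6 : (t + 1).natAbs = t.natAbs + 1 := by omega
          rw [h6, hf_succ (t.natAbs + 1)]
          rw [hf_succ (t.natAbs + 1)] at h4
          linarith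
      far := hfar
      noD := fun ht j hj hyj => by
        have hj1 := rho_pos j
        rcases hj.lt_or_eq with h0 | h0
        · have h1 : y ∉ D B j := h.noD (by omega) j (by omega)
          refine hnT ⟨t + 1, y', rfl, Or.inr ⟨j, hj, ?_⟩⟩
          have h2 : wd B j ≤ ‖y.2 - X B (dig j)‖ := not_lt.1 h1
          have h3 : ‖y'.2 - X B (dig j)‖ < wd B j := hyj
          have h4 : |‖y'.2 - X B (dig j)‖ - ‖y.2 - X B (dig j)‖| ≤ ‖y' - y‖ := by
            refine (abs_norm_sub_norm_le _ _).trans ?_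
            have : y'.2 - X B (dig j) - (y.2 - X B (dig j)) = (y' - y).2 := by
              simp
            rw [this]
            exact norm_snd_le _
          have h5 := abs_le.1 h4
          have h6 := P.ε_le_ζ (n := t.natAbs) (j := j) (by omega)
          have h7 : hf (t.natAbs + 2) ≤ 1 / 4 := by
            rw [hf_succ, hf_succ]
            linarith [hf_le_one t.natAbs]
          have h8 : hf ((t + 1).natAbs + 1) ≤ 1 / 2 := by
            rw [hf_succ]
            linarith [hf_le_one (t + 1).natAbs]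
          rw [abs_le]
          constructor <;> nlinarith [P.ζpos j, hf_pos (t.natAbs + 2), hf_pos ((t + 1).natAbs + 1)]
        · exact hpass ⟨j, h0, hyj⟩
      mem := hp }

end Par

/-! ### segments and the cycle -/

/-- the orbit under the level maps -/
def seg (R : RetSys E Word) (g : R.Mfd → R.Mfd) (t0 : ℤ) (z : E) : ℕ → E
  | 0 => z
  | k + 1 => R.sigma g (t0 + k) (seg R g t0 z k)

namespace Par

variable {e : ℕ → ℝ} (P : Par B e)

lemma exists_pass (geo : Geo B R) {g : R.Mfd → R.Mfd} (hg : P.Ctrl R g) {O : Set R.Mfd}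
    (hfin : O.Finite) (hO : ∀ p ∈ O, g p ∈ O) (hT : ∀ p ∈ O, ¬ P.Trap R p) {i : Word} {z : E}
    {t0 : ℤ} {y0 : E} (h : P.Inv R O i z t0 y0) :
    ∃ k : ℕ, (∀ m ≤ k, P.Inv R O i z (t0 + m) (seg R g t0 y0 m)) ∧
      ∃ j, (rho j : ℤ) = t0 + k + 1 ∧ seg R g t0 y0 (k + 1) ∈ D B j ∧
        F B j (seg R g t0 y0 (k + 1)) ∈ S B j ∧
        P.Inv R O j (F B j (seg R g t0 y0 (k + 1))) (1 - rho j)
          (F B j (seg R g t0 y0 (k + 1))) := by
  by_contra hcon
  have hall : ∀ k : ℕ, ∀ m ≤ k, P.Inv R O i z (t0 + m) (seg R g t0 y0 m) := by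
    intro k
    induction k with
    | zero =>
      intro m hm
      obtain rfl : m = 0 := by omega
      simpa [seg] using h
    | succ k ih =>
      intro m hm
      rcases hm.lt_or_eq with h1 | rfl
      · exact ih m (by omega)
      rcases P.inv_step geo hg hO hT (ih k le_rfl) with h2 | ⟨j, h2⟩
      · have : t0 + ((k + 1 : ℕ) : ℤ) = t0 + k + 1 := by push_cast; ring
        rw [this]
        exact h2
      · exact absurd ⟨k, ih, j, h2⟩ hcon
  have hinj : Function.Injective (fun m : ℕ => R.phi (t0 + m) (seg R g t0 y0 m)) := by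
    intro a b hab
    have h1 := good_unique geo ((hall b b le_rfl).good geo) ((hall a a le_rfl).good geo) hab
    omega
  exact Set.infinite_of_injective_forall_mem hinj (fun m => (hall m m le_rfl).mem) hfin

theorem nonempty_cycle (geo : Geo B R) {g : R.Mfd → R.Mfd} (hg : P.Ctrl R g) {n : ℕ}
    (hn : 0 < n) {y0 : E} (hy1 : |y0.1| ≤ 1) (hy2 : ‖y0.2‖ < 49)
    (hper : g^[n] (R.phi 0 y0) = R.phi 0 y0) : Nonempty (Cycle B e) := by
  classical
  set x := R.phi 0 y0 with hx
  set O : Set R.Mfd := range (fun m : ℕ => g^[m] x) with hOdef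
  have hper' : ∀ m : ℕ, g^[n * m] x = x := by
    intro m
    rw [Function.iterate_mul]
    exact Function.iterate_fixed hper m
  have hfin : O.Finite := by
    refine ((Set.finite_lt_nat n).image (fun m : ℕ => g^[m] x)).subset ?_
    rintro _ ⟨m, rfl⟩
    refine ⟨m % n, Nat.mod_lt _ hn, ?_⟩
    simp only
    conv_rhs => rw [← Nat.mod_add_div m n, Function.iterate_add_apply, hper']
  have hO : ∀ p ∈ O, g p ∈ O := by
    rintro _ ⟨m, rfl⟩
    exact ⟨m + 1, Function.iterate_succ_apply' g m x⟩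
  have hT : ∀ p ∈ O, ¬ P.Trap R p := by
    rintro _ ⟨m, rfl⟩ hp
    apply P.core_not_trap geo hy2
    have h1 := P.trap_iterate geo hg hp (n * (m + 1) - m)
    simp only [← Function.iterate_add_apply] at h1
    have h2 : n * (m + 1) - m + m = n * (m + 1) := by
      have : m ≤ n * (m + 1) := by nlinarith
      omega
    rwa [h2, hper'] at h1
  have hstart : P.Inv R O [] 0 0 y0 := {
    lvl := by simp [rho]
    near := fun h => absurd h (lt_irrefl _)
    bnd := fun _ => by
      have : hf ((0 : ℤ).natAbs + 1) ≤ 1 := hf_le_one _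
      linarith
    far := by linarith [Bt_ge 0]
    noD := fun _ j hj => by
      have := rho_pos j
      omega
    mem := ⟨0, rfl⟩ }
  -- the states after a pass
  let Ps : Set (Word × E) := {s | s.2 ∈ S B s.1 ∧ P.Inv R O s.1 s.2 (1 - rho s.1) s.2}
  have hPfin : Finite Ps := by
    have hOf : Finite O := hfin
    refine Finite.of_injective (β := O) (fun s => ⟨R.phi (1 - rho s.1.1) s.1.2, s.2.2.mem⟩) ?_
    rintro ⟨⟨i, z⟩, h1, h2⟩ ⟨⟨i', z'⟩, h1', h2'⟩ heq
    simp only [Subtype.mk.injEq] at heq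
    simp only at h1 h2 h1' h2'
    have h3 := good_unique geo (h2'.good geo) (h2.good geo) heq
    rw [h3] at heq
    have h4 := R.phi_injective _ heq
    subst h4
    have h5 := geo.disjS h1 h1'
    subst h5
    rfl
  -- next state
  let Seg : Word × E → Word × E → Prop := fun s s' =>
    ∃ k : ℕ, (rho s'.1 : ℤ) = (1 - rho s.1) + k + 1 ∧
      (∀ m ≤ k, seg R g (1 - rho s.1) s.2 m ∈ Good B ((1 - rho s.1) + m)) ∧
      seg R g (1 - rho s.1) s.2 (k + 1) ∈ D B s'.1 ∧
      s'.2 = F B s'.1 (seg R g (1 - rho s.1) s.2 (k + 1))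
  have hnext : ∀ s : Ps, ∃ s' : Ps, Seg s.1 s'.1 := by
    rintro ⟨⟨i, z⟩, h1, h2⟩
    obtain ⟨k, hk, j, hj1, hj2, hj3, hj4⟩ := P.exists_pass geo hg hfin hO hT h2
    exact ⟨⟨⟨j, _⟩, hj3, hj4⟩, k, hj1, fun m hm => (hk m hm).good geo, hj2, rfl⟩
  choose nx hnx using hnext
  obtain ⟨k, -, j, -, -, hj3, hj4⟩ := P.exists_pass geo hg hfin hO hT hstart
  let s0 : Ps := ⟨⟨j, _⟩, hj3, hj4⟩
  obtain ⟨a, b, hab, heq⟩ := Finite.exists_ne_map_eq_of_infinite (fun m : ℕ => nx^[m] s0)
  wlog hlt : a < b generalizing a b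
  · exact this b a hab.symm heq.symm (by omega)
  let st : ℕ → Ps := fun m => nx^[a + m] s0
  have hst : ∀ m, st (m + 1) = nx (st m) := fun m =>
    Function.iterate_succ_apply' nx (a + m) s0
  have hstN : ∀ m, st (m + (b - a)) = st m := by
    intro m
    simp only [st]
    rw [show a + (m + (b - a)) = m + b by omega, Function.iterate_add_apply, ← heq,
      ← Function.iterate_add_apply, add_comm]
  have hseg : ∀ m, Seg (st m).1 (st (m + 1)).1 := fun m => by rw [hst]; exact hnx _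
  exact ⟨{
    σ := fun t => R.sigma g t
    smooth := fun t p hp => (P.good_ctrl geo hg hp).2.1
    close0 := fun t p hp => (P.good_ctrl geo hg hp).2.2.1.trans (P.ε_le_e _)
    close1 := fun t p hp => (P.good_ctrl geo hg hp).2.2.2.1.trans (P.ε_le_e _)
    close2 := fun t p hp => (P.good_ctrl geo hg hp).2.2.2.2.trans (P.ε_le_e _)
    N := b - a
    hN := by omega
    i := fun m => (st m).1.1
    per := fun m => by simp only [hstN]
    y := fun m t => seg R g (1 - rho (st m).1.1) (st m).1.2 (t - (1 - rho (st m).1.1)).toNat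
    good := fun m t ht1 ht2 => by
      obtain ⟨k, h1, h2, -, -⟩ := hseg m
      have h3 := h2 (t - (1 - rho (st m).1.1)).toNat (by omega)
      have h4 : (1 - (rho (st m).1.1 : ℤ)) + ((t - (1 - rho (st m).1.1)).toNat : ℤ) = t := by
        omega
      rwa [h4] at h3
    step := fun m t ht1 ht2 => by
      have h3 : (t + 1 - (1 - (rho (st m).1.1 : ℤ))).toNat =
          (t - (1 - (rho (st m).1.1 : ℤ))).toNat + 1 := by omega
      have h4 : (1 - (rho (st m).1.1 : ℤ)) + ((t - (1 - rho (st m).1.1)).toNat : ℤ) = t := by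
        omega
      simp only [h3, seg, h4]
    start := fun m => by
      simp only [sub_self, Int.toNat_zero, seg]
      exact (st m).2.1
    fin := fun m => by
      obtain ⟨k, h1, -, h3, -⟩ := hseg m
      have h4 : ((rho (st (m + 1)).1.1 : ℤ) - (1 - (rho (st m).1.1 : ℤ))).toNat = k + 1 := by
        omega
      simp only [h4]
      exact h3
    pass := fun m => by
      obtain ⟨k, h1, -, -, h3⟩ := hseg m
      have h4 : ((rho (st (m + 1)).1.1 : ℤ) - (1 - (rho (st m).1.1 : ℤ))).toNat = k + 1 := by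
        omega
      simp only [h4, sub_self, Int.toNat_zero, seg]
      simp only [seg] at h3
      exact h3 }⟩

end Par

/-- The geometric half: no normal form, no periodic orbit through the core. -/
theorem Geo.exists_nhds_core (geo : Geo B R) {e : ℕ → ℝ} (he : ∀ n, 0 < e n)
    (hc : IsEmpty (Cycle B e)) {r : ℕ∞} (hr : 2 ≤ r) :
    ∃ U ∈ @nhds _ (strongTopology E R.Mfd r) (R.shift r), ∀ g ∈ U, ∀ y : E, |y.1| ≤ 1 →
      ‖y.2‖ < 49 → ∀ n : ℕ, 0 < n → (g : R.Mfd → R.Mfd)^[n] (R.phi 0 y) ≠ R.phi 0 y := by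
  obtain ⟨P⟩ := geo.exists_par e he
  refine ⟨_, R.sigma_nhds hr P.rad_mono P.rad_top P.ε_pos,
    fun g hg y hy1 hy2 n hn hper => ?_⟩
  have hg' : P.Ctrl R g := hg
  exact not_nonempty_iff.2 hc (P.nonempty_cycle geo hg' hn hy1 hy2 hper)

/-- The geometric half: no normal form, no periodic orbit through the base point. -/
theorem Geo.exists_nhds (geo : Geo B R) {e : ℕ → ℝ} (he : ∀ n, 0 < e n)
    (hc : IsEmpty (Cycle B e)) {r : ℕ∞} (hr : 2 ≤ r) :
    ∃ U ∈ @nhds _ (strongTopology E R.Mfd r) (R.shift r), ∀ g ∈ U, ∀ n : ℕ, 0 < n →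
      (g : R.Mfd → R.Mfd)^[n] (R.phi 0 0) ≠ R.phi 0 0 := by
  obtain ⟨U, hU, h⟩ := geo.exists_nhds_core he hc hr
  exact ⟨U, hU, fun g hg n hn => h g hg 0 (by simp) (by simp) n hn⟩

end

end Pool.Agent.Closing
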