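import Mathlib

/-!
# Closing lemma counterexample: common definitions (core data)

The core model space is `E = ℝ_a × ℝ²_b` with the sup norm.  See `BLUEPRINT.md` (team store:
`closing_blueprint.md`).  Everything depends on a large real parameter `B`.
-/

namespace Pool.Agent.Closing

noncomputable section

/-- the core model space `ℝ_a × ℝ²_b`, with the sup norm -/
abbrev E : Type := ℝ × ℝ × ℝ

/-- the scales `κ_k = exp(-B (5/4)^k)` -/
def kappa (B : ℝ) (k : ℕ) : ℝ := Real.exp (-(B * (5 / 4 : ℝ) ^ k))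

/-- the radius constant of the windows -/
def W : ℝ := 64

/-- a permutation of the digits -/
def sperm : ℕ → ℕ
  | 0 => 0 | 1 => 1 | 2 => 2 | 3 => 4 | 4 => 3 | 5 => 5 | 6 => 7 | 7 => 6 | _ => 0

/-- the pattern vectors -/
def xi (d : ℕ) : ℝ × ℝ := (d, sperm d)

/-- the pattern scale: digits `3, 6` use the smaller pattern for the next digit -/
def hs (d : ℕ) : ℝ := if d = 3 ∨ d = 6 then 31 / 32 else 1

/-- class of a digit: `true` = tails move to the right, `false` = tails move up -/
def isX (d : ℕ) : Bool := d == 5 || d == 6 || d == 7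

def eX : ℝ × ℝ := (1, 0)
def eY : ℝ × ℝ := (0, 1)

/-- direction of the tail band attached to the digit `d` -/
def dir (d : ℕ) : ℝ × ℝ := if isX d then eX else eY

/-- position of a finite digit string whose first digit is digit number `k`, the digit before it
being `p` -/
def pos (B : ℝ) : ℕ → ℕ → List ℕ → ℝ × ℝ
  | _, _, [] => 0
  | k, p, d :: l => (kappa B k * hs p) • xi d + pos B (k + 1) d l

/-- position of the `8`-adic integer with (little endian) digits `u` -/
def X (B : ℝ) (u : List ℕ) : ℝ × ℝ := pos B 1 0 u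

/-- the odometer on finite digit strings (little endian, continued by zeros) -/
def succ : List ℕ → List ℕ
  | [] => [1]
  | d :: l => if d = 7 then 0 :: succ l else (d + 1) :: l

/-- a window label: a finite word of nonzero digits (`d : Fin 7` stands for the digit `d+1`) -/
abbrev Word : Type := List (Fin 7)

/-- the digits of a window label -/
def dig (i : Word) : List ℕ := i.map (fun d => d.val + 1)

/-- the digits of the target `i + 1` -/
def tgt (i : Word) : List ℕ := succ (dig i)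

/-- half time (outward) `s_i = ρ_i`; inward half time `r_i = ρ_i - 1` -/
def rho (i : Word) : ℕ := 8 ^ i.length + Nat.ofDigits 8 (dig i)

/-- the return time `t_i = 2 ρ_i - 1` -/
def rt (i : Word) : ℕ := 2 * rho i - 1

/-- band lengths -/
def Lk (B : ℝ) (k : ℕ) : ℝ := kappa B (k + 1) / 4

/-- band heights: `α_0 = 1`, `α_k = κ_{k+3}` for `k ≥ 1` -/
def alpha (B : ℝ) : ℕ → ℝ
  | 0 => 1
  | k + 1 => kappa B (k + 4)

/-- the band functions -/
def Lam (B : ℝ) : ℕ → ℝ → ℝ
  | 0, a => Real.smoothTransition ((a - alpha B 1) / (1 - alpha B 1)) * (100 + a)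
  | k + 1, a =>
      Lk B (k + 1) *
        Real.smoothTransition ((a - alpha B (k + 2)) / (alpha B (k + 1) - alpha B (k + 2)))

def gamAux (B : ℝ) : ℕ → List ℕ → ℝ → ℝ × ℝ
  | _, [], _ => 0
  | k, d :: l, a => Lam B k a • dir d + gamAux B (k + 1) l a

/-- the digits of the target of the window `i` that carry a tail band: the first `|i|` digits -/
def tl (i : Word) : List ℕ := (tgt i).take i.length

/-- the tail with band digits `u`, at height `a` (the tail of the window `i` is `Gam B (tl i)`) -/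
def Gam (B : ℝ) (u : List ℕ) (a : ℝ) : ℝ × ℝ := Lam B 0 a • eY + gamAux B 1 u a

/-- radius of the window `i` -/
def wd (B : ℝ) (i : Word) : ℝ := W * kappa B (i.length + 2)

/-- thickness of the window `i` -/
def tau (B : ℝ) (i : Word) : ℝ := kappa B (i.length + 20) ^ 2 / 10

/-- smooth on `(-1,1)`, zero on `[-1/2,1/2]`, tends to `+∞` at `±1` -/
def zeta (s : ℝ) : ℝ := Real.smoothTransition (4 * s ^ 2 - 1) / (1 - s ^ 2)

/-- rim function of the window `i` -/
def phi (B : ℝ) (i : Word) (β : ℝ × ℝ) : ℝ := zeta (β.1 / wd B i) + zeta (β.2 / wd B i)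

/-- increasing diffeomorphism `ℝ → (-1,1)` -/
def chi (a : ℝ) : ℝ := a / √(1 + a ^ 2)

/-- the window `D_i` (thick in the direction `a`) -/
def D (B : ℝ) (i : Word) : Set E := {p | ‖p.2 - X B (dig i)‖ < wd B i}

/-- the window map `F_i : D_i → S_i` -/
def F (B : ℝ) (i : Word) (p : E) : E :=
  (phi B i (p.2 - X B (dig i)) + tau B i * chi p.1,
    X B (tgt i)
      + Gam B (tl i) (phi B i (p.2 - X B (dig i)) + tau B i * chi p.1)
      + (p.2 - X B (dig i)))

/-- offset of a point from the centre of the (tail of the) target of the window `i` -/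
def off (B : ℝ) (i : Word) (p : E) : ℝ × ℝ := p.2 - X B (tgt i) - Gam B (tl i) p.1

/-- the image `S_i` (thin in the direction `a`) -/
def S (B : ℝ) (i : Word) : Set E :=
  {p | ‖off B i p‖ < wd B i ∧ |p.1 - phi B i (off B i p)| < tau B i}

/-- good region at level `t`: where the single step map of level `t` is controlled -/
def Good (B : ℝ) (t : ℤ) : Set E :=
  {p | |p.1| ≤ 2 ∧ ‖p.2‖ ≤ 50 ∧
    (0 ≤ t → ∀ j : Word, (rt j : ℤ) < 2 * t → p ∉ D B j) ∧
    (t < 0 → ∀ j : Word, (rt j : ℤ) < -(2 * t) → p ∉ S B j)}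

/-- Normal form of a periodic orbit of a perturbation: `y n t` is the position at level `t`
between the `n`-th and the `(n+1)`-st window pass. -/
structure Cycle (B : ℝ) (e : ℕ → ℝ) where
  σ : ℤ → E → E
  smooth : ∀ t : ℤ, ∀ p ∈ Good B t, ContDiffAt ℝ 2 (σ t) p
  close0 : ∀ t : ℤ, ∀ p ∈ Good B t, ‖σ t p - p‖ ≤ e t.natAbs
  close1 : ∀ t : ℤ, ∀ p ∈ Good B t,
    ‖fderiv ℝ (σ t) p - ContinuousLinearMap.id ℝ E‖ ≤ e t.natAbs
  close2 : ∀ t : ℤ, ∀ p ∈ Good B t, ‖iteratedFDeriv ℝ 2 (σ t) p‖ ≤ e t.natAbs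
  N : ℕ
  hN : 0 < N
  i : ℕ → Word
  per : ∀ n, i (n + N) = i n
  y : ℕ → ℤ → E
  good : ∀ n (t : ℤ), 1 - (rho (i n) : ℤ) ≤ t → t < rho (i (n + 1)) → y n t ∈ Good B t
  step : ∀ n (t : ℤ), 1 - (rho (i n) : ℤ) ≤ t → t < rho (i (n + 1)) →
    y n (t + 1) = σ t (y n t)
  start : ∀ n, y n (1 - (rho (i n) : ℤ)) ∈ S B (i n)
  fin : ∀ n, y n (rho (i (n + 1)) : ℤ) ∈ D B (i (n + 1))
  pass : ∀ n, y (n + 1) (1 - (rho (i (n + 1)) : ℤ)) =
    F B (i (n + 1)) (y n (rho (i (n + 1)) : ℤ))

end

end Pool.Agent.Closing
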