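import Pool.Agent.Lib.Closing.GeoSys

/-!
# Closing lemma counterexample: the explicit form of the final theorem
-/

open scoped ContDiff Topology Manifold
open Set Filter

namespace Pool.Agent.Closing

noncomputable section

/-- The explicit form: there is a connected (Hausdorff, second countable) smooth `3`-manifold `M`
without boundary, a `C^∞` diffeomorphism `f` of `M` and a recurrent point `x` of `f` such that,
for every `r` with `2 ≤ r ≤ ∞`, some strong `C^r` neighbourhood of `f` in `Diff^r(M)` contains no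
diffeomorphism having `x` as a periodic point. -/
def ExplicitCounterexample : Prop :=
  ∃ (M : Type) (_ : TopologicalSpace M) (_ : T2Space M) (_ : SecondCountableTopology M)
    (_ : ConnectedSpace M) (_ : ChartedSpace (ℝ × ℝ × ℝ) M)
    (_ : IsManifold 𝓘(ℝ, ℝ × ℝ × ℝ) ∞ M)
    (f : M ≃ₘ^∞⟮𝓘(ℝ, ℝ × ℝ × ℝ), 𝓘(ℝ, ℝ × ℝ × ℝ)⟯ M) (x : M),
    Recurrent f.toEquiv x ∧
      ∀ r : ℕ∞, 2 ≤ r → ∃ (fr : M ≃ₘ^r⟮𝓘(ℝ, ℝ × ℝ × ℝ), 𝓘(ℝ, ℝ × ℝ × ℝ)⟯ M)
        (U : Set (M ≃ₘ^r⟮𝓘(ℝ, ℝ × ℝ × ℝ), 𝓘(ℝ, ℝ × ℝ × ℝ)⟯ M)),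
        (∀ p, fr p = f p) ∧ U ∈ @nhds _ (strongTopology (ℝ × ℝ × ℝ) M r) fr ∧
          ∀ g ∈ U, ∀ n : ℕ, 0 < n → (g : M → M)^[n] x ≠ x

theorem explicit_of_isEmpty {B : ℝ} (hB : 400 ≤ B) {e : ℕ → ℝ} (he : ∀ n, 0 < e n)
    (hc : IsEmpty (Cycle B e)) : ExplicitCounterexample := by
  refine ⟨(sys B hB).Mfd, inferInstance, inferInstance, inferInstance, connectedSpace_sys hB,
    inferInstance, inferInstance, (sys B hB).shift ⊤, (sys B hB).phi 0 0,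
    (rec_sys hB).recurrent ⊤, fun r hr => ?_⟩
  obtain ⟨U, hU, hU'⟩ := (geo_sys hB).exists_nhds he hc hr
  exact ⟨(sys B hB).shift r, U, fun p => rfl, hU, hU'⟩

end

end Pool.Agent.Closing
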