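import Pool.Agent.Lib.Closing.Geometry
import Pool.Agent.Lib.Closing.Assembly

/-!
# Closing lemma counterexample: the concrete system satisfies the geometric hypotheses
-/

open scoped ContDiff Topology Manifold
open Set Filter

namespace Pool.Agent.Closing

noncomputable section

variable {B : ℝ}

/-- The concrete system of windows has all the geometric properties used in the cross lemma. -/
theorem geo_sys (hB : 400 ≤ B) : Geo B (sys B hB) where
  src _ := rfl
  trg _ := rfl
  map _ _ _ := rfl
  time _ := rfl
  bD _ p hp := by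
    have := norm_snd_lt_of_mem_D hB hp
    linarith
  aS _ p hp h := abs_fst_le_of_mem_S hB hp (by linarith)
  rim j := by
    have hw := wd_pos B j
    refine ⟨wd B j / 4, by positivity, fun p h1 h2 => ⟨?_, ?_, ?_⟩⟩
    · have h3 := norm_X_lt hB (isDig_dig j)
      have h4 := wd_le_small hB j
      have h5 : ‖p.2‖ ≤ ‖p.2 - X B (dig j)‖ + ‖X B (dig j)‖ := by
        have : p.2 = (p.2 - X B (dig j)) + X B (dig j) := by abel
        calc ‖p.2‖ = ‖(p.2 - X B (dig j)) + X B (dig j)‖ := by rw [← this]
          _ ≤ _ := norm_add_le _ _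
      norm_num at h3 h4
      linarith
    · exact fun k hk => not_mem_D_of_norm_le hB (Ne.symm hk) (by linarith)
    · intro hp
      have := le_norm_snd_F hB hp (by linarith)
      linarith
  sep k := exists_delta hB k
  bF j ζ hζ := exists_norm_F_le B j (by linarith)
  base k := zero_not_mem_S hB k
  baseD n z hz := by
    have := (norm_snd_of_Chain_zero hB hz).2
    linarith

theorem rec_sys (hB : 400 ≤ B) : Rec (sys B hB) := by
  have h1 : ∀ K : ℕ, ∃ T, 0 < T ∧ (sys B hB).Chain T 0 (0, X B (List.replicate K 0 ++ [1])) := by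
    intro K
    obtain ⟨n, hn, hodo⟩ := exists_odo_eq K
    obtain ⟨T, hT, hc⟩ := exists_chain_odo hB n
    rw [hodo, X_nil] at hc
    exact ⟨T, by omega, hc⟩
  choose T hT hc using h1
  refine ⟨fun K => (0, X B (List.replicate K 0 ++ [1])), T, hT, hc, ?_⟩
  have e0 : (0 : E) = (0, 0) := rfl
  rw [e0]
  refine tendsto_const_nhds.prodMk_nhds ?_
  rw [tendsto_zero_iff_norm_tendsto_zero]
  refine squeeze_zero (fun K => norm_nonneg _)
    (fun K => norm_pos_replicate_le hB K 1 0 (u := [1]) (by simp [IsDig])) ?_
  have h3 := ((tendsto_kappa hB).comp (tendsto_add_atTop_nat 1)).const_mul 8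
  rw [mul_zero] at h3
  refine h3.congr fun K => ?_
  simp only [Function.comp]
  rw [add_comm 1 K]

/-- The geometric half: if the normal form does not exist for some tolerances, the closing lemma
fails. -/
theorem not_closingLemma_of_isEmpty (hB : 400 ≤ B) {e : ℕ → ℝ} (he : ∀ n, 0 < e n)
    (hc : IsEmpty (Cycle B e)) {r : ℕ∞} (hr : 2 ≤ r) : ¬ ClosingLemma r :=
  not_closingLemma_of (geo_sys hB) (rec_sys hB) he hc hr

end

end Pool.Agent.Closing
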