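import Pool.Agent.Lib.Closing.Recur

/-!
# Closing lemma counterexample: geometric facts about the windows (G1)-(G7)
-/

open scoped ContDiff Topology Manifold NNReal
open Set Filter

namespace Pool.Agent.Closing

noncomputable section

variable {B : ℝ}

theorem norm_X_lt (hB : 400 ≤ B) {u : List ℕ} (hu : IsDig u) : ‖X B u‖ ≤ 1 / 10 ^ 26 := by
  have h1 := norm_X_le hB hu
  have h2 := kappa_le_small hB 0
  linarith

/-- (G1) -/
theorem norm_snd_lt_of_mem_D (hB : 400 ≤ B) {j : Word} {p : E} (hp : p ∈ D B j) :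
    ‖p.2‖ < 1 := by
  have h1 : ‖p.2 - X B (dig j)‖ < wd B j := hp
  have h2 := norm_X_lt hB (isDig_dig j)
  have h3 := wd_le_small hB j
  have h4 : ‖p.2‖ ≤ ‖p.2 - X B (dig j)‖ + ‖X B (dig j)‖ := by
    have : p.2 = (p.2 - X B (dig j)) + X B (dig j) := by abel
    calc ‖p.2‖ = ‖(p.2 - X B (dig j)) + X B (dig j)‖ := by rw [← this]
      _ ≤ _ := norm_add_le _ _
  norm_num at h2 h3
  linarith

/-- above height `1` the points of `S j` are far away in `b` -/
theorem le_norm_snd_of_mem_S (hB : 400 ≤ B) {j : Word} {p : E} (hp : p ∈ S B j) (ha : 1 ≤ p.1) :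
    99 + p.1 ≤ ‖p.2‖ := by
  have h3 := Lam_le_Gam_snd hB (tl j) p.1
  rw [Lam_zero_eq hB ha] at h3
  have h4 : |p.2.2 - (X B (tgt j)).2 - (Gam B (tl j) p.1).2| < wd B j := by
    refine lt_of_le_of_lt ?_ hp.1
    exact norm_snd_le (off B j p)
  have h5 : |(X B (tgt j)).2| ≤ ‖X B (tgt j)‖ := norm_snd_le (X B (tgt j))
  have h6 := norm_X_lt hB (isDig_tgt j)
  have h8 := wd_le_small hB j
  have h9 : |p.2.2| ≤ ‖p.2‖ := norm_snd_le p.2
  have h10 := (abs_lt.1 h4).1
  have h11 := (abs_le.1 h5).1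
  have h12 := (abs_le.1 h9).2
  norm_num at h6 h8
  linarith

/-- (G2) -/
theorem abs_fst_le_of_mem_S (hB : 400 ≤ B) {j : Word} {p : E} (hp : p ∈ S B j)
    (hb : ‖p.2‖ ≤ 99) : |p.1| ≤ 1 := by
  have h1 := neg_tau_lt_of_mem_S hp
  have h2 := tau_le_small hB j
  rw [abs_le]
  refine ⟨by norm_num at h2; linarith, ?_⟩
  by_contra hcon
  have := le_norm_snd_of_mem_S hB hp (by linarith)
  linarith

/-- (G3) the ball of radius `2 w_j` around the centre of `D j` meets no other `D k` -/
theorem not_mem_D_of_norm_le (hB : 400 ≤ B) {j k : Word} (hjk : j ≠ k) {p : E}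
    (hp : ‖p.2 - X B (dig j)‖ ≤ 2 * wd B j) : p ∉ D B k := by
  intro hk
  obtain ⟨K, h1, h2, h3, -⟩ := D_gap hB hjk
  have w1 := wd_le hB h1
  have w2 := wd_le hB h2
  have hk' : ‖p.2 - X B (dig k)‖ < wd B k := hk
  have n1 : |(X B (dig j) - X B (dig k)).1| ≤ ‖X B (dig j) - X B (dig k)‖ :=
    norm_fst_le (X B (dig j) - X B (dig k))
  have n2 : ‖X B (dig j) - X B (dig k)‖ ≤ ‖p.2 - X B (dig k)‖ + ‖p.2 - X B (dig j)‖ := by
    have e : X B (dig j) - X B (dig k) = (p.2 - X B (dig k)) - (p.2 - X B (dig j)) := by abel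
    rw [e]
    exact norm_sub_le _ _
  have h0 := kappa_pos B (K + 1)
  linarith

/-- (G5) near the side of the window the image is far away -/
theorem le_norm_snd_F (hB : 400 ≤ B) {j : Word} {p : E} (hp : p ∈ D B j)
    (h : 3 / 4 * wd B j ≤ ‖p.2 - X B (dig j)‖) : 99 ≤ ‖(F B j p).2‖ := by
  have hw := wd_pos B j
  have hF := F_mem_S hp
  set β := p.2 - X B (dig j) with hβ
  have hp' : ‖β‖ < wd B j := hp
  obtain ⟨z1, z2⟩ := abs_div_wd_lt hp'
  -- the rim function is at least 2
  have key : ∀ s : ℝ, |s| < 1 → 3 / 4 ≤ |s| → 2 ≤ zeta s := by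
    intro s hs hs'
    have h1 : s ^ 2 < 1 := by rwa [sq_lt_one_iff_abs_lt_one]
    have h2 : 9 / 16 ≤ s ^ 2 := by
      rw [← sq_abs s]
      nlinarith
    unfold zeta
    rw [Real.smoothTransition.one_of_one_le (by linarith), le_div_iff₀ (by linarith)]
    linarith
  have hphi : 2 ≤ phi B j β := by
    unfold phi
    rw [Prod.norm_def, Real.norm_eq_abs, Real.norm_eq_abs] at h
    rcases le_max_iff.1 h with h | h
    · have h1 : 3 / 4 ≤ |β.1 / wd B j| := by
        rw [abs_div, abs_of_pos hw, le_div_iff₀ hw]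
        exact h
      have := key _ z1 h1
      have := zeta_nonneg z2
      linarith
    · have h1 : 3 / 4 ≤ |β.2 / wd B j| := by
        rw [abs_div, abs_of_pos hw, le_div_iff₀ hw]
        exact h
      have := key _ z2 h1
      have := zeta_nonneg z1
      linarith
  have h1 : 1 ≤ (F B j p).1 := by
    simp only [F, ← hβ]
    have h2 := (abs_lt.1 (abs_chi_lt_one p.1)).1
    have h3 := tau_le_small hB j
    have h4 := tau_pos B j
    norm_num at h3
    nlinarith
  have := le_norm_snd_of_mem_S hB hF h1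
  linarith

theorem continuousOn_phi (B : ℝ) (j : Word) :
    ContinuousOn (phi B j) {β : ℝ × ℝ | ‖β‖ < wd B j} :=
  fun _ hβ => (contDiffAt_phi (n := 0) hβ).continuousAt.continuousWithinAt

/-- (G6) `F j` is bounded away from the side of the window -/
theorem exists_norm_F_le (B : ℝ) (j : Word) {c : ℝ} (hc : c < wd B j) :
    ∃ C : ℝ, ∀ p : E, ‖p.2 - X B (dig j)‖ ≤ c → ‖F B j p‖ ≤ C := by
  have hcomp : IsCompact {β : ℝ × ℝ | ‖β‖ ≤ c} := by
    have h0 : {β : ℝ × ℝ | ‖β‖ ≤ c} = Metric.closedBall 0 c := by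
      ext β
      rw [mem_closedBall_zero_iff]
      exact Iff.rfl
    rw [h0]
    exact isCompact_closedBall (0 : ℝ × ℝ) c
  have hcont : ContinuousOn (phi B j) {β : ℝ × ℝ | ‖β‖ ≤ c} :=
    (continuousOn_phi B j).mono fun β (hβ : ‖β‖ ≤ c) => lt_of_le_of_lt hβ hc
  obtain ⟨C1, hC1⟩ := hcomp.exists_bound_of_continuousOn hcont
  have hG : ContinuousOn (Gam B (tl j)) (Icc (-(|C1| + tau B j)) (|C1| + tau B j)) :=
    (contDiff_Gam B (tl j) (n := 0)).continuous.continuousOn
  obtain ⟨C2, hC2⟩ := isCompact_Icc.exists_bound_of_continuousOn hG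
  refine ⟨max (|C1| + tau B j) (‖X B (tgt j)‖ + C2 + c), fun p hp => ?_⟩
  have h1 : |phi B j (p.2 - X B (dig j)) + tau B j * chi p.1| ≤ |C1| + tau B j := by
    refine (abs_add_le _ _).trans (add_le_add ?_ ?_)
    · exact (hC1 _ hp).trans (le_abs_self C1)
    · rw [abs_mul, abs_of_pos (tau_pos B j)]
      have := abs_chi_lt_one p.1
      have := tau_pos B j
      nlinarith
  rw [Prod.norm_def]
  refine max_le_max ?_ ?_
  · exact h1
  · have h2 := hC2 _ (abs_le.1 h1)
    simp only [F]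
    refine (norm_add_le _ _).trans (add_le_add ((norm_add_le _ _).trans (add_le_add le_rfl h2)) hp)

/-! ### (G4) -/

theorem lipschitz_smoothTransition : ∃ C : ℝ≥0, LipschitzWith C Real.smoothTransition := by
  have h1 : ContDiff ℝ 1 Real.smoothTransition := Real.smoothTransition.contDiff (n := 1)
  obtain ⟨C, hC⟩ := (h1.locallyLipschitz.locallyLipschitzOn
    (s := Icc (0 : ℝ) 1)).exists_lipschitzOnWith_of_compact isCompact_Icc
  refine ⟨C, ?_⟩
  have h2 : Real.smoothTransition =
      (fun x => Real.smoothTransition (projIcc (0 : ℝ) 1 zero_le_one x)) := by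
    ext x
    exact (Real.smoothTransition.projIcc).symm
  rw [h2]
  intro x y
  have h3 := hC (projIcc (0 : ℝ) 1 zero_le_one x).2 (projIcc (0 : ℝ) 1 zero_le_one y).2
  refine h3.trans ?_
  gcongr
  exact (LipschitzWith.projIcc (zero_le_one (α := ℝ))) x y |>.trans (by simp)

theorem exists_lip_smoothTransition :
    ∃ C : ℝ, 0 ≤ C ∧ ∀ x y, |Real.smoothTransition x - Real.smoothTransition y| ≤ C * |x - y| := by
  obtain ⟨C, hC⟩ := lipschitz_smoothTransition
  exact ⟨C, C.2, fun x y => by simpa [Real.dist_eq] using hC.dist_le_mul x y⟩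

theorem exists_lip_Lam (hB : 400 ≤ B) (k : ℕ) :
    ∃ C : ℝ, 0 ≤ C ∧ ∀ a a', |Lam B k a - Lam B k a'| ≤ C * |a - a'| := by
  obtain ⟨C, hC0, hC⟩ := exists_lip_smoothTransition
  cases k with
  | zero =>
    have h1 := alpha_succ_lt hB 0
    rw [alpha_zero, zero_add] at h1
    have h0 := alpha_pos B 1
    -- a formula for `Lam B 0`
    have hform : ∀ a, Lam B 0 a =
        Real.smoothTransition ((a - alpha B 1) / (1 - alpha B 1)) * (100 + max 0 (min 1 a)) +
          max (a - 1) 0 := by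
      intro a
      rw [Lam]
      rcases le_total a 0 with ha | ha
      · rw [Real.smoothTransition.zero_of_nonpos, zero_mul, zero_mul, max_eq_right (by linarith),
          add_zero]
        exact div_nonpos_of_nonpos_of_nonneg (by linarith) (by linarith)
      · rcases le_total a 1 with ha' | ha'
        · rw [min_eq_right ha', max_eq_right ha, max_eq_right (by linarith), add_zero]
        · rw [min_eq_left ha', max_eq_right (by norm_num), max_eq_left (by linarith),
            Real.smoothTransition.one_of_one_le]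
          · ring
          · rw [le_div_iff₀ (by linarith)]
            linarith
    refine ⟨C / (1 - alpha B 1) * 101 + 2, by positivity [sub_pos.2 h1], fun a a' => ?_⟩
    rw [hform, hform]
    set s := Real.smoothTransition ((a - alpha B 1) / (1 - alpha B 1))
    set s' := Real.smoothTransition ((a' - alpha B 1) / (1 - alpha B 1))
    set g := max 0 (min 1 a)
    set g' := max 0 (min 1 a')
    have e1 : |s - s'| ≤ C / (1 - alpha B 1) * |a - a'| := by
      refine (hC _ _).trans ?_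
      rw [← sub_div, sub_sub_sub_cancel_right, abs_div, abs_of_pos (sub_pos.2 h1)]
      apply le_of_eq
      ring
    have e2 : |g - g'| ≤ |a - a'| := by
      refine (abs_max_sub_max_le_max _ _ _ _).trans (max_le (by simp) ?_)
      exact (abs_min_sub_min_le_max _ _ _ _).trans (max_le (by simp) le_rfl)
    have e3 : |max (a - 1) 0 - max (a' - 1) 0| ≤ |a - a'| := by
      refine (abs_max_sub_max_le_abs _ _ _).trans ?_
      rw [sub_sub_sub_cancel_right]
    have e4 : 0 ≤ g := le_max_left _ _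
    have e5 : g ≤ 1 := max_le zero_le_one (min_le_left _ _)
    have e6 : |s'| ≤ 1 := by
      rw [abs_of_nonneg (Real.smoothTransition.nonneg _)]
      exact Real.smoothTransition.le_one _
    have e7 : s * (100 + g) + max (a - 1) 0 - (s' * (100 + g') + max (a' - 1) 0) =
        (s - s') * (100 + g) + s' * (g - g') + (max (a - 1) 0 - max (a' - 1) 0) := by ring
    rw [e7]
    have e8 : |(s - s') * (100 + g)| ≤ C / (1 - alpha B 1) * |a - a'| * 101 := by
      rw [abs_mul, abs_of_nonneg (by linarith : 0 ≤ 100 + g)]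
      exact mul_le_mul e1 (by linarith) (by linarith)
        (mul_nonneg (div_nonneg hC0 (by linarith)) (abs_nonneg _))
    have e9 : |s' * (g - g')| ≤ |a - a'| := by
      rw [abs_mul]
      have := abs_nonneg (g - g')
      nlinarith
    have := abs_add_le ((s - s') * (100 + g) + s' * (g - g')) (max (a - 1) 0 - max (a' - 1) 0)
    have := abs_add_le ((s - s') * (100 + g)) (s' * (g - g'))
    nlinarith
  | succ k =>
    have h1 : alpha B (k + 2) < alpha B (k + 1) := alpha_succ_lt hB (k + 1)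
    have h0 := Lk_nonneg B (k + 1)
    refine ⟨Lk B (k + 1) * (C / (alpha B (k + 1) - alpha B (k + 2))), ?_, fun a a' => ?_⟩
    · exact mul_nonneg h0 (div_nonneg hC0 (by linarith))
    · rw [Lam, Lam, ← mul_sub, abs_mul, abs_of_nonneg h0, mul_assoc]
      apply mul_le_mul_of_nonneg_left _ h0
      refine (hC _ _).trans ?_
      rw [← sub_div, sub_sub_sub_cancel_right, abs_div, abs_of_pos (sub_pos.2 h1)]
      apply le_of_eq
      ring

theorem norm_dir_le (d : ℕ) : ‖dir d‖ ≤ 1 := by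
  unfold dir eX eY
  split_ifs <;> simp [Prod.norm_def]

theorem exists_lip_gamAux (hB : 400 ≤ B) (k : ℕ) (u : List ℕ) :
    ∃ C : ℝ, 0 ≤ C ∧ ∀ a a', ‖gamAux B k u a - gamAux B k u a'‖ ≤ C * |a - a'| := by
  induction u generalizing k with
  | nil => exact ⟨0, le_rfl, fun a a' => by simp [gamAux_nil]⟩
  | cons d u ih =>
    obtain ⟨C1, h1, h1'⟩ := exists_lip_Lam hB k
    obtain ⟨C2, h2, h2'⟩ := ih (k + 1)
    refine ⟨C1 + C2, by positivity, fun a a' => ?_⟩
    rw [gamAux_cons, gamAux_cons]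
    have e : Lam B k a • dir d + gamAux B (k + 1) u a -
        (Lam B k a' • dir d + gamAux B (k + 1) u a') =
        (Lam B k a - Lam B k a') • dir d + (gamAux B (k + 1) u a - gamAux B (k + 1) u a') := by
      rw [sub_smul]
      abel
    rw [e]
    refine (norm_add_le _ _).trans ?_
    rw [norm_smul, Real.norm_eq_abs, add_mul]
    refine add_le_add ?_ (h2' a a')
    have := norm_dir_le d
    have := h1' a a'
    have := abs_nonneg (Lam B k a - Lam B k a')
    nlinarith

theorem exists_lip_Gam (hB : 400 ≤ B) (u : List ℕ) :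
    ∃ C : ℝ, 0 ≤ C ∧ ∀ a a', ‖Gam B u a - Gam B u a'‖ ≤ C * |a - a'| := by
  obtain ⟨C1, h1, h1'⟩ := exists_lip_Lam hB 0
  obtain ⟨C2, h2, h2'⟩ := exists_lip_gamAux hB 1 u
  refine ⟨C1 + C2, by positivity, fun a a' => ?_⟩
  rw [Gam, Gam]
  have e : Lam B 0 a • eY + gamAux B 1 u a - (Lam B 0 a' • eY + gamAux B 1 u a') =
      (Lam B 0 a - Lam B 0 a') • eY + (gamAux B 1 u a - gamAux B 1 u a') := by
    rw [sub_smul]
    abel
  rw [e]
  refine (norm_add_le _ _).trans ?_
  rw [norm_smul, Real.norm_eq_abs, add_mul]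
  refine add_le_add ?_ (h2' a a')
  have h3 : ‖eY‖ ≤ 1 := by simp [eY, Prod.norm_def]
  have := h1' a a'
  have := abs_nonneg (Lam B 0 a - Lam B 0 a')
  nlinarith

/-- (G4) the distance of `S k` from the other `S j` is bounded below, uniformly in `j` -/
theorem exists_delta (hB : 400 ≤ B) (k : Word) :
    ∃ δ : ℝ, 0 < δ ∧ ∀ j : Word, j ≠ k → ∀ z ∈ S B j, ∀ z' ∈ S B k, δ ≤ ‖z - z'‖ := by
  obtain ⟨C, hC0, hC⟩ := exists_lip_Gam hB (tl k)
  have hk := kappa_pos B (k.length + 1)
  refine ⟨kappa B (k.length + 1) / (4 * (1 + C)), by positivity, fun j hjk z hz z' hz' => ?_⟩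
  by_contra hcon
  push Not at hcon
  set δ := kappa B (k.length + 1) / (4 * (1 + C)) with hδ
  obtain ⟨K, h1, h2, h3⟩ := S_gap hB hjk
  have h3 := (h3 z.1).1
  have w1 := wd_le hB h1
  have w2 := wd_le hB h2
  have hkK : kappa B (k.length + 1) ≤ kappa B (K + 1) :=
    kappa_antitone (by linarith) (by omega)
  have d1 : |z.1 - z'.1| < δ := lt_of_le_of_lt (norm_fst_le (z - z')) hcon
  have d2 : ‖z.2 - z'.2‖ < δ := lt_of_le_of_lt (norm_snd_le (z - z')) hcon
  have n1 : ‖z.2 - X B (tgt j) - Gam B (tl j) z.1‖ < wd B j := hz.1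
  have n2 : ‖z'.2 - X B (tgt k) - Gam B (tl k) z'.1‖ < wd B k := hz'.1
  have n3 := hC z.1 z'.1
  set y := X B (tgt j) + Gam B (tl j) z.1 - (X B (tgt k) + Gam B (tl k) z.1) with hy
  have n4 : |y.1| ≤ ‖y‖ := norm_fst_le y
  have e : y = ((z.2 - z'.2) - (z.2 - X B (tgt j) - Gam B (tl j) z.1)) +
      ((z'.2 - X B (tgt k) - Gam B (tl k) z'.1) - (Gam B (tl k) z.1 - Gam B (tl k) z'.1)) := by
    rw [hy]
    abel
  have n5 : ‖y‖ ≤ (‖z.2 - z'.2‖ + ‖z.2 - X B (tgt j) - Gam B (tl j) z.1‖) +
      (‖z'.2 - X B (tgt k) - Gam B (tl k) z'.1‖ + ‖Gam B (tl k) z.1 - Gam B (tl k) z'.1‖) := by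
    rw [e]
    exact (norm_add_le _ _).trans (add_le_add (norm_sub_le _ _) (norm_sub_le _ _))
  have n6 : C * |z.1 - z'.1| ≤ C * δ := mul_le_mul_of_nonneg_left d1.le hC0
  have h7 : (1 + C) * δ = kappa B (k.length + 1) / 4 := by
    rw [hδ]
    field_simp
  have h0 := kappa_pos B (K + 1)
  nlinarith

/-! ### (G7) -/

theorem le_norm_pos_tgt (hB : 400 ≤ B) (k p : ℕ) (i : Word) :
    9 / 10 * kappa B (k + i.length) ≤ ‖pos B k p (tgt i)‖ := by
  have key : ∀ u : List ℕ, IsDig u → u.headD 0 ≠ 0 → ∀ k p, 9 / 10 * kappa B k ≤ ‖pos B k p u‖ := by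
    intro u hu h0 k p
    have := (pos_sub_head hB k p hu IsDig.nil (v := []) (by simpa using h0)).1
    rw [pos_nil, sub_zero] at this
    exact this.trans (norm_fst_le (pos B k p u))
  induction i generalizing k p with
  | nil => simpa using key [1] (by simp [IsDig]) (by simp) k p
  | cons d i ih =>
    have hd := isDig_tgt (d :: i)
    rw [tgt_cons] at hd ⊢
    split_ifs at hd ⊢ with h
    · rw [pos_cons, xi_zero, smul_zero, zero_add]
      have := ih (k + 1) 0
      rw [List.length_cons]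
      have e : k + (i.length + 1) = k + 1 + i.length := by ring
      rwa [e]
    · refine le_trans ?_ (key _ hd (by simp) k p)
      have := kappa_antitone (by linarith : 0 ≤ B)
        (show k ≤ k + (d :: i : Word).length by omega)
      linarith

/-- (G7a) the base point is in no `S k` -/
theorem zero_not_mem_S (hB : 400 ≤ B) (k : Word) : (0 : E) ∉ S B k := by
  intro h
  have h1 : ‖off B k 0‖ < wd B k := h.1
  have h2 : off B k 0 = -X B (tgt k) := by
    simp only [off, Prod.snd_zero, Prod.fst_zero]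
    rw [Gam_eq_zero hB (alpha_pos B _).le]
    simp
  rw [h2, norm_neg] at h1
  have h3 := le_norm_pos_tgt hB 1 0 k
  have h4 := kappa_succ_le hB (k.length + 1)
  have h5 := kappa_pos B (k.length + 1)
  have h6 : ‖X B (tgt k)‖ = ‖pos B 1 0 (tgt k)‖ := rfl
  rw [add_comm 1 k.length] at h3
  have h7 : wd B k = 64 * kappa B (k.length + 2) := rfl
  have h8 : k.length + 1 + 1 = k.length + 2 := rfl
  rw [h8] at h4
  linarith

theorem X_nil (B : ℝ) : X B [] = 0 := by rw [X, pos_nil]

/-- (G7b) the forward orbit of the base point through the windows -/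
theorem Chain_zero_imp (hB : 400 ≤ B) {n : ℕ} {y z : E} (h : (sys B hB).Chain n y z) :
    ∀ u : List ℕ, IsDig u → y = (0, X B u) → ∃ v : List ℕ, IsDig v ∧ z = (0, X B v) := by
  induction h with
  | nil y => exact fun u hu hy => ⟨u, hu, hy⟩
  | @cons i y z n hy h ih =>
    intro u hu hyu
    obtain ⟨h1, h2⟩ := F_X hB hu
    have hi : i = gov u := D_disjoint hB hy (by rw [hyu]; exact h1)
    subst hi
    refine ih (succ u) (isDig_succ hu) ?_
    rw [hyu]
    exact h2

theorem norm_snd_of_Chain_zero (hB : 400 ≤ B) {n : ℕ} {z : E} (h : (sys B hB).Chain n 0 z) :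
    z.1 = 0 ∧ ‖z.2‖ ≤ 1 := by
  obtain ⟨v, hv, rfl⟩ := Chain_zero_imp hB h [] IsDig.nil (by rw [X_nil]; rfl)
  refine ⟨rfl, ?_⟩
  have := norm_X_lt hB hv
  norm_num at this
  simp only
  linarith

theorem basePt_eq (hB : 400 ≤ B) : basePt B hB = (sys B hB).phi 0 0 := by
  rw [basePt, X_nil]
  rfl

end

end Pool.Agent.Closing
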