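import Pool.Agent.Lib.Closing.Cross

/-!
# No periodic points at all

Strengthening of the cross lemma: for every controlled perturbation `g`, the existence of any
periodic point of `g` (not only of the base point) gives a `Cycle`.
-/

open scoped ContDiff Manifold Topology
open Set Filter

namespace Pool.Agent.Closing

noncomputable section

variable {B : ℝ} {R : RetSys E Word}

namespace Par

variable {e : ℕ → ℝ} (P : Par B e)

/-! ### no periodic points in the trap -/

/-- `(t, y)` is a rim representation at the window `j` -/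
def RimJ (j : Word) (t : ℤ) (y : E) : Prop :=
  (rho j : ℤ) ≤ t ∧ |‖y.2 - X B (dig j)‖ - wd B j| ≤ P.ζ j * (1 - hf (t.natAbs + 1))

lemma rimJ_facts {j : Word} {t : ℤ} {y : E} (h : P.RimJ j t y) :
    ‖y.2‖ ≤ 48 ∧ (∀ k, k ≠ j → y ∉ D B k) ∧ (y ∈ D B j → 51 ≤ ‖(F B j y).2‖) := by
  have h5 := hf_pos (t.natAbs + 1)
  have h6 := abs_le.1 h.2
  exact P.rim j y (by nlinarith [P.ζpos j]) (by nlinarith [P.ζpos j])

lemma rimJ_pass (geo : Geo B R) {j : Word} {t : ℤ} {y : E} (h : P.RimJ j t y) (hy : y ∈ D B j) :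
    P.Far (t - rt j) (F B j y) := by
  obtain ⟨-, -, hr3⟩ := P.rimJ_facts h
  refine ⟨(Bt_le _).trans (by linarith [hr3 hy]), fun hlt k hk q hq => ?_⟩
  have h1 := h.1
  have hjk : j ≠ k := by
    rintro rfl
    rw [rt_eq] at hk hlt
    omega
  have h7 := P.sep k j hjk _ (geo.F_mem hy) q hq
  have h8 := hf_pos ((t - ↑(rt j)).natAbs + 1)
  nlinarith [P.δpos k]

lemma rimJ_step {j : Word} {t : ℤ} {y y' : E} (h : P.RimJ j t y) {n : ℕ} (hn : t.natAbs ≤ n)
    (hy : ‖y' - y‖ ≤ P.ε n) : P.RimJ j (t + 1) y' := by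
  obtain ⟨hj, h1⟩ := h
  have hy1 : ‖y' - y‖ ≤ P.ε t.natAbs := hy.trans (P.ε_anti hn)
  refine ⟨by omega, ?_⟩
  have h2 := P.ε_le_ζ (n := t.natAbs) (j := j) (by omega)
  have h3 : |‖y'.2 - X B (dig j)‖ - ‖y.2 - X B (dig j)‖| ≤ ‖y' - y‖ := by
    refine (abs_norm_sub_norm_le _ _).trans ?_
    have : y'.2 - X B (dig j) - (y.2 - X B (dig j)) = (y' - y).2 := by
      simp
    rw [this]
    exact norm_snd_le _
  have h4 : (t + 1).natAbs = t.natAbs + 1 := by have := rho_pos j; omega
  rw [h4, hf_succ (t.natAbs + 1)]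
  rw [hf_succ (t.natAbs + 1)] at h2
  have h5 := abs_le.1 h1
  have h6 := abs_le.1 h3
  rw [abs_le]
  constructor <;> nlinarith [hf_pos (t.natAbs + 1), P.ζpos j]

/-- `p` has a far representation at level `L` -/
def FarAt (R : RetSys E Word) (p : R.Mfd) (L : ℤ) : Prop := ∃ y, R.phi L y = p ∧ P.Far L y

/-- the virtual level of a point of the trap -/
def St (R : RetSys E Word) (p : R.Mfd) (L : ℤ) : Prop :=
  P.FarAt R p L ∨ ((∀ L', ¬ P.FarAt R p L') ∧ ∃ j y, R.phi (L + rt j) y = p ∧
    P.RimJ j (L + rt j) y)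

lemma far_notMem_D (geo : Geo B R) {t : ℤ} {y : E} (h : P.Far t y) (k : Word) : y ∉ D B k := by
  intro hk
  linarith [geo.bD k y hk, h.1, Bt_ge t]

lemma level_unique (geo : Geo B R) {s t : ℤ} {w y : E} (hw : ∀ k, w ∉ D B k)
    (hy : ∀ k, y ∉ D B k) (h : R.phi s w = R.phi t y) : s = t := by
  rcases lt_trichotomy s t with h1 | h1 | h1
  · obtain ⟨k, hk, -⟩ := geo.first_step h.symm h1
    exact absurd hk (hy k)
  · exact h1
  · obtain ⟨k, hk, -⟩ := geo.first_step h h1
    exact absurd hk (hw k)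

lemma farAt_unique (geo : Geo B R) {p : R.Mfd} {L L' : ℤ} (h : P.FarAt R p L)
    (h' : P.FarAt R p L') : L = L' := by
  obtain ⟨y, hy, h1⟩ := h
  obtain ⟨y', hy', h2⟩ := h'
  exact level_unique geo (P.far_notMem_D geo h1) (P.far_notMem_D geo h2) (hy.trans hy'.symm)

lemma st_of_rimJ (geo : Geo B R) {j : Word} {t : ℤ} {y : E} (h : P.RimJ j t y) :
    P.St R (R.phi t y) (t - rt j) := by
  by_cases hy : y ∈ D B j
  · left
    exact ⟨F B j y, (geo.phi_pass hy t).symm, P.rimJ_pass geo h hy⟩
  · right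
    obtain ⟨h1, h2, -⟩ := P.rimJ_facts h
    have hno : ∀ k, y ∉ D B k := by
      intro k
      by_cases hk : k = j
      · rw [hk]; exact hy
      · exact h2 k hk
    refine ⟨?_, j, y, by rw [sub_add_cancel], by rw [sub_add_cancel]; exact h⟩
    rintro L' ⟨y', hy', hfar⟩
    have h3 := level_unique geo (P.far_notMem_D geo hfar) hno hy'
    subst h3
    have h4 := R.phi_injective _ hy'
    subst h4
    linarith [hfar.1, Bt_ge L']

lemma st_step (geo : Geo B R) {g : R.Mfd → R.Mfd} (hg : P.Ctrl R g) {p : R.Mfd} {L : ℤ}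
    (hp : P.St R p L) : P.St R (g p) (L + 1) := by
  have hrim : ∀ (n : ℕ) (j : Word) (y : E), R.phi (L + rt j) y = p → P.RimJ j (L + rt j) y →
      (L + rt j).natAbs ≤ n → ‖y‖ ≤ P.rad (n + 1) → p ∉ interior (R.box P.rad n) →
      P.St R (g p) (L + 1) := by
    intro n j y h1 h2 h3 h4 h5
    rw [← h1] at h5
    obtain ⟨c1, -, c2, -, -⟩ := hg n _ y h3 h4 h5
    have h6 := P.rimJ_step h2 h3 c2
    have h7 := P.st_of_rimJ geo h6
    rw [R.phi_sigma c1, h1] at h7
    have h8 : L + ↑(rt j) + 1 - ↑(rt j) = L + 1 := by ring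
    rwa [h8] at h7
  obtain ⟨n, s, w, hsw, hsn, hw, hbox⟩ := P.exists_controlled R p
  rcases hp with ⟨y, hty, hy⟩ | ⟨hfar, j, y, hty, hj⟩
  · have h0 : R.phi s w = R.phi L y := hsw.trans hty.symm
    obtain ⟨hts, hts'⟩ := P.far_level geo hy h0
    by_cases hyr : ‖y‖ ≤ P.rad (n + 1)
    · rw [← hty] at hbox
      obtain ⟨c1, -, c2, -, -⟩ := hg n _ y (hts'.trans hsn) hyr hbox
      left
      refine ⟨R.sigma g L y, ?_, P.far_step hy (hts'.trans hsn) c2⟩
      rw [R.phi_sigma c1, hty]
    push Not at hyr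
    have hlt : L < s := by
      refine lt_of_le_of_ne hts fun h => ?_
      subst h
      have := R.phi_injective _ h0
      subst this
      linarith
    obtain ⟨k, hk, h1, z, hz, hFz, hphi⟩ := geo.last_step h0 hlt
    -- `ρ_k ≤ L + t_k`
    have hT : (rho k : ℤ) ≤ L + rt k := by
      rw [rt_eq]
      have h6 := rho_pos k
      rcases lt_or_ge L 0 with ht | ht
      · have h2 : ¬ rho k ≤ L.natAbs := by
          intro h3
          have h4 := hy.2 ht k h3 y hk
          rw [sub_self, norm_zero] at h4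
          have h5 : hf (L.natAbs + 1) < 1 := by
            rw [hf_succ]
            linarith [hf_le_one L.natAbs]
          nlinarith [P.δpos k]
        omega
      · omega
    have hTn : (L + rt k).natAbs ≤ n := by
      have h6 := rho_pos k
      omega
    -- `z` lies in the rim
    have hrimz : P.RimJ k (L + rt k) z := by
      refine ⟨hT, ?_⟩
      have h2 : ¬ ‖z.2 - X B (dig k)‖ ≤ wd B k - P.ζ k / 2 := by
        intro h3
        have h4 := P.rad_F n k (by have := rho_pos k; omega) z h3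
        rw [hFz] at h4
        linarith
      have h3 : ‖z.2 - X B (dig k)‖ < wd B k := hz
      have h5 : hf ((L + rt k).natAbs + 1) ≤ 1 / 2 := by
        rw [hf_succ]
        linarith [hf_le_one (L + rt k).natAbs]
      push Not at h2
      rw [abs_le]
      constructor <;> nlinarith [P.ζpos k]
    refine hrim n k z (hphi.trans hty) hrimz hTn ?_ hbox
    by_contra hcon
    push Not at hcon
    -- `z` is in no `S_j`, so `s = L + t_k`
    have hz1 := geo.bD k z hz
    have hza : 51 < |z.1| := by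
      by_contra h4
      push Not at h4
      have : ‖z‖ ≤ 51 := by
        rw [norm_eq]; exact max_le h4 (by linarith)
      linarith [P.rad_ge (n + 1)]
    have h7 : R.phi s w = R.phi (L + rt k) z := h0.trans hphi.symm
    rcases h1.eq_or_lt with h8 | h8
    · rw [← h8] at h7
      have := R.phi_injective _ h7
      rw [this] at hw
      linarith
    · obtain ⟨j, hj, -⟩ := geo.last_step h7 h8
      linarith [geo.aS j z hj (by linarith)]
  · set t : ℤ := L + rt j with ht
    have h0 : R.phi s w = R.phi t y := hsw.trans hty.symm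
    have hρ := rho_pos j
    obtain ⟨hr1, hr2, hr3⟩ := P.rimJ_facts hj
    have hyD : y ∉ D B j := by
      intro hyD
      exact hfar _ ⟨F B j y, by rw [← geo.phi_pass hyD]; exact hty, P.rimJ_pass geo hj hyD⟩
    have hnoD : ∀ k, y ∉ D B k := by
      intro k
      by_cases h : k = j
      · rw [h]; exact hyD
      · exact hr2 k h
    have hts : t ≤ s := by
      by_contra hcon
      obtain ⟨k, hk, -⟩ := geo.first_step h0.symm (by omega)
      exact hnoD k hk
    have hjt := hj.1
    refine hrim n j y hty hj (by omega) ?_ hbox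
    rcases hts.eq_or_lt with h | h
    · rw [← h] at h0
      have := R.phi_injective _ h0
      rw [← this]; exact hw
    · obtain ⟨k, hk, -⟩ := geo.last_step h0 h
      have h9 := geo.aS k y hk (by linarith)
      rw [norm_eq]
      exact max_le (by linarith [P.rad_ge (n + 1)]) (by linarith [P.rad_ge (n + 1)])

lemma st_iterate (geo : Geo B R) {g : R.Mfd → R.Mfd} (hg : P.Ctrl R g) {p : R.Mfd} {L : ℤ}
    (hp : P.St R p L) (m : ℕ) : P.St R (g^[m] p) (L + m) := by
  induction m with
  | zero => simpa using hp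
  | succ m ih =>
    rw [Function.iterate_succ_apply']
    have := P.st_step geo hg ih
    rwa [show L + ((m + 1 : ℕ) : ℤ) = L + m + 1 by push_cast; ring]

lemma periodic_notMem_trap (geo : Geo B R) {g : R.Mfd → R.Mfd} (hg : P.Ctrl R g) {p : R.Mfd}
    {n : ℕ} (hn : 0 < n) (hper : g^[n] p = p) : ¬ P.Trap R p := by
  rintro ⟨t, y, hty, h⟩
  have h1 : ∃ L, P.St R p L := by
    rcases h with h | ⟨j, hj, h⟩
    · exact ⟨t, Or.inl ⟨y, hty, h⟩⟩
    · have := P.st_of_rimJ geo (j := j) (t := t) (y := y) ⟨hj, h⟩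
      rw [hty] at this
      exact ⟨_, this⟩
  obtain ⟨L, hL⟩ := h1
  have hper' : ∀ m : ℕ, g^[n * m] p = p := by
    intro m
    rw [Function.iterate_mul]
    exact Function.iterate_fixed hper m
  have h2 : ∀ m : ℕ, P.St R p (L + ((n * m : ℕ) : ℤ)) := by
    intro m
    have := P.st_iterate geo hg hL (n * m)
    rwa [hper'] at this
  by_cases hfar : ∃ L', P.FarAt R p L'
  · obtain ⟨L', hL'⟩ := hfar
    have h3 : ∀ m : ℕ, L + ((n * m : ℕ) : ℤ) = L' := by
      intro m
      rcases h2 m with h4 | ⟨h4, -⟩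
      · exact P.farAt_unique geo h4 hL'
      · exact absurd hL' (h4 L')
    have h5 := h3 0
    have h6 := h3 1
    simp only [mul_zero, mul_one, Nat.cast_zero] at h5 h6
    omega
  · push Not at hfar
    have h3 : ∀ m : ℕ, ∃ j y, R.phi (L + ((n * m : ℕ) : ℤ) + rt j) y = p ∧ ∀ k, y ∉ D B k := by
      intro m
      rcases h2 m with h4 | ⟨-, j, y, h5, h6⟩
      · exact absurd h4 (hfar _)
      · refine ⟨j, y, h5, fun k hk => ?_⟩
        obtain ⟨-, hr2, -⟩ := P.rimJ_facts h6
        have hkj : k = j := by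
          by_contra hne
          exact hr2 k hne hk
        subst hkj
        exact hfar _ ⟨F B k y, by rw [← geo.phi_pass hk]; exact h5, P.rimJ_pass geo h6 hk⟩
    obtain ⟨j0, y0, h4, h5⟩ := h3 0
    obtain ⟨j1, y1, h6, h7⟩ := h3 (rt j0 + 1)
    have h8 := level_unique geo h7 h5 (h6.trans h4.symm)
    have h9 : rt j0 + 1 ≤ n * (rt j0 + 1) := Nat.le_mul_of_pos_left _ hn
    simp only [mul_zero, Nat.cast_zero] at h8
    generalize n * (rt j0 + 1) = Q at h8 h9
    omega

/-! ### an orbit outside the trap passes a window -/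

/-- the parameters can be chosen with growing radii and a shifted control -/
def more : Par B e where
  ζ := P.ζ
  δ := P.δ
  rad n := P.rad n + 2 * n
  C n := P.C (n + 1)
  ζpos := P.ζpos
  δpos := P.δpos
  rim := P.rim
  sep := P.sep
  rad_mono := fun m n h => by
    have h1 := P.rad_mono h
    have h2 : (m : ℝ) < n := by exact_mod_cast h
    simp only
    linarith
  rad_top := by
    refine tendsto_atTop_mono (fun n => ?_) P.rad_top
    have : (0 : ℝ) ≤ n := Nat.cast_nonneg n
    linarith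
  rad_ge := fun n => by
    have h1 := P.rad_ge n
    have : (0 : ℝ) ≤ n := Nat.cast_nonneg n
    linarith
  rad_F := fun n j hj p hp => by
    have h1 := P.rad_F n j hj p hp
    have : (0 : ℝ) ≤ ((n + 1 : ℕ) : ℝ) := Nat.cast_nonneg _
    linarith
  Cpos := fun n => P.Cpos (n + 1)
  Canti := fun m n h => P.Canti (by omega)
  Cone := fun n => P.Cone (n + 1)
  Ce := fun n => (P.Canti (by omega)).trans (P.Ce n)
  Cζ := fun n j hj => P.Cζ (n + 1) j (by omega)
  Cδ := fun n j hj => P.Cδ (n + 1) j (by omega)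

/-- the extra properties of the parameters -/
structure Extra : Prop where
  rad_step : ∀ n, P.rad n + 2 ≤ P.rad (n + 1)
  Cζ' : ∀ n j, rho j ≤ n + 1 → P.C n ≤ P.ζ j

lemma more_extra : P.more.Extra where
  rad_step := fun n => by
    have h := P.rad_mono (Nat.lt_succ_self n)
    simp only [more]
    push_cast
    linarith
  Cζ' := fun n j hj => P.Cζ (n + 1) j hj

/-- controlled representation -/
def CR (R : RetSys E Word) (p : R.Mfd) (n : ℕ) (s : ℤ) (w : E) : Prop :=
  R.phi s w = p ∧ s.natAbs ≤ n ∧ ‖w‖ ≤ P.rad (n + 1) ∧ p ∉ interior (R.box P.rad n)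

variable {P} in
lemma CR.step {p : R.Mfd} {n : ℕ} {s : ℤ} {w : E} (h : P.CR R p n s w) {g : R.Mfd → R.Mfd}
    (hg : P.Ctrl R g) : R.phi (s + 1) (R.sigma g s w) = g p ∧ ‖R.sigma g s w - w‖ ≤ P.ε n := by
  obtain ⟨h1, h2, h3, h4⟩ := h
  rw [← h1] at h4
  obtain ⟨c1, -, c2, -, -⟩ := hg n s w h2 h3 h4
  exact ⟨by rw [R.phi_sigma c1, h1], c2⟩

/-- If the next point of a controlled representation lies in a window `D_k` then either the orbit
has an invariant representation or the level is small. -/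
lemma pass_or (geo : Geo B R) {g : R.Mfd → R.Mfd} (hg : P.Ctrl R g) {O : Set R.Mfd}
    (hO : ∀ p ∈ O, g p ∈ O) (hT : ∀ p ∈ O, ¬ P.Trap R p) {q : R.Mfd} (hq : q ∈ O) {n : ℕ} {s : ℤ}
    {w : E} (h : P.CR R q n s w) {k : Word} (hk : R.sigma g s w ∈ D B k) :
    (∃ z, P.Inv R O k z (1 - rho k) z) ∨ s + 1 < rho k := by
  by_contra hcon
  push Not at hcon
  obtain ⟨hcon1, hcon2⟩ := hcon
  obtain ⟨h1, h2⟩ := h.step hg
  obtain ⟨h3, h4, h5, h6⟩ := h
  generalize R.sigma g s w = w' at hk h1 h2
  have hρ := rho_pos k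
  rcases hcon2.eq_or_lt with heq | hlt
  · -- a pass
    apply hcon1 (F B k w')
    have hS := geo.F_mem hk
    have hphi : R.phi (1 - rho k) (F B k w') = R.phi (s + 1) w' := by
      rw [geo.phi_pass hk (s + 1), rt_eq]
      congr 1
      omega
    have hmem : R.phi (s + 1) w' ∈ O := by rw [h1]; exact hO _ hq
    have hfar' : ‖(F B k w').2‖ < Bt (1 - rho k) := by
      by_contra hcon
      push Not at hcon
      refine hT _ hmem ⟨1 - rho k, F B k w', hphi, Or.inl ⟨hcon, fun ht l hl q hq => ?_⟩⟩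
      have hjk : k ≠ l := by
        rintro rfl
        omega
      have h3 := P.sep l k hjk _ hS q hq
      nlinarith [hf_pos ((1 - (rho k : ℤ)).natAbs + 1), P.δpos l]
    exact {
      lvl := le_rfl
      near := fun _ => ⟨hS, by
        rw [sub_self, norm_zero]
        exact (mul_pos (hf_pos _) (P.Cpos _)).le⟩
      bnd := fun _ => by
        have h1 := geo.aS k _ hS (by linarith [Bt_le (1 - (rho k : ℤ))])
        have h2 : hf ((1 - (rho k : ℤ)).natAbs + 1) ≤ 1 := hf_le_one _
        linarith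
      far := hfar'
      noD := fun h0 k hk => by
        have := rho_pos k
        omega
      mem := by rw [hphi]; exact hmem }
  · by_cases hw : w ∈ D B k
    · have hS := geo.F_mem hw
      have hphi : R.phi (s - rt k) (F B k w) = q := by
        rw [← geo.phi_pass hw s, h3]
      have hfar' : ‖(F B k w).2‖ < Bt (s - rt k) := by
        by_contra hcon
        push Not at hcon
        refine hT _ hq ⟨s - rt k, F B k w, hphi, Or.inl ⟨hcon, fun ht l hl q hq => ?_⟩⟩
        have hjk : k ≠ l := by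
          rintro rfl
          rw [rt_eq] at hl ht
          omega
        have h3 := P.sep l k hjk _ hS q hq
        nlinarith [hf_pos ((s - (rt k : ℤ)).natAbs + 1), P.δpos l]
      have h7 := Bt_le (s - rt k)
      have h8 := geo.aS k _ hS (by linarith)
      apply h6
      rw [← hphi]
      refine R.phi_mem_interior_box ?_ ?_
      · rw [rt_eq]
        omega
      · rw [norm_eq]
        have := P.rad_ge n
        exact max_lt (by linarith) (by linarith)
    · -- the point lies in the rim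
      refine hT _ (by rw [h1]; exact hO _ hq : R.phi (s + 1) w' ∈ O)
        ⟨s + 1, w', rfl, Or.inr ⟨k, by omega, ?_⟩⟩
      have h7 : wd B k ≤ ‖w.2 - X B (dig k)‖ := not_lt.1 hw
      have h8 : ‖w'.2 - X B (dig k)‖ < wd B k := hk
      have h9 : |‖w'.2 - X B (dig k)‖ - ‖w.2 - X B (dig k)‖| ≤ ‖w' - w‖ := by
        refine (abs_norm_sub_norm_le _ _).trans ?_
        have : w'.2 - X B (dig k) - (w.2 - X B (dig k)) = (w' - w).2 := by
          simp
        rw [this]
        exact norm_snd_le _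
      have h10 := abs_le.1 h9
      have h11 := P.ε_le_ζ (n := n) (j := k) (by omega)
      have h12 : hf (n + 2) ≤ 1 / 4 := by
        rw [hf_succ, hf_succ]
        linarith [hf_le_one n]
      have h13 : hf ((s + 1).natAbs + 1) ≤ 1 / 2 := by
        rw [hf_succ]
        linarith [hf_le_one (s + 1).natAbs]
      rw [abs_le]
      constructor <;> nlinarith [P.ζpos k, hf_pos (n + 2), hf_pos ((s + 1).natAbs + 1)]

/-- A finite invariant set outside the trap contains an invariant representation. -/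
lemma exists_inv (geo : Geo B R) (hX : P.Extra) {g : R.Mfd → R.Mfd} (hg : P.Ctrl R g)
    {O : Set R.Mfd} (hfin : O.Finite) (hne : O.Nonempty) (hO : ∀ p ∈ O, g p ∈ O)
    (hO' : ∀ p ∈ O, ∃ q ∈ O, g q = p) (hT : ∀ p ∈ O, ¬ P.Trap R p) :
    ∃ i z, P.Inv R O i z (1 - rho i) z := by
  by_contra hcon
  push Not at hcon
  have hpass : ∀ q ∈ O, ∀ n s w, P.CR R q n s w → ∀ k, R.sigma g s w ∈ D B k →
      s + 1 < rho k := by
    intro q hq n s w h k hk
    rcases P.pass_or geo hg hO hT hq h hk with ⟨z, hz⟩ | h1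
    · exact absurd hz (hcon k z)
    · exact h1
  -- the levels of the controlled representations are bounded
  have hboxmono : ∀ {m n : ℕ}, m ≤ n → R.box P.rad m ⊆ R.box P.rad n := by
    intro m n h
    rcases h.eq_or_lt with rfl | h
    · exact subset_rfl
    · exact (R.box_subset_interior P.rad_mono h).trans interior_subset
  obtain ⟨N, hN⟩ : ∃ N, ∀ p ∈ O, p ∈ R.box P.rad N := by
    choose N hN using fun p => R.exists_mem_box P.rad_top p
    obtain ⟨N', hN'⟩ := (hfin.image N).bddAbove
    exact ⟨N', fun p hp => hboxmono (hN' (mem_image_of_mem N hp)) (hN p)⟩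
  have hbd : ∀ p ∈ O, ∀ n s w, P.CR R p n s w → n ≤ N := by
    rintro p hp n s w ⟨-, -, -, h⟩
    by_contra hlt
    exact h (R.box_subset_interior P.rad_mono (by omega) (hN p hp))
  let A : Set ℤ := {s | ∃ p ∈ O, ∃ n w, P.CR R p n s w}
  have hAne : A.Nonempty := by
    obtain ⟨p, hp⟩ := hne
    obtain ⟨n, s, w, h⟩ := P.exists_controlled R p
    exact ⟨s, p, hp, n, w, h⟩
  have hAbd : ∀ s ∈ A, -(N : ℤ) ≤ s := by
    rintro s ⟨p, hp, n, w, h⟩
    have h1 := hbd p hp n s w h
    have h2 := h.2.1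
    omega
  obtain ⟨s, ⟨p, hp, n, w, hCR⟩, hmin⟩ : ∃ s ∈ A, ∀ s' ∈ A, s ≤ s' := by
    obtain ⟨s, hs, h⟩ := Int.exists_least_of_bdd (P := fun s => s ∈ A) ⟨-(N : ℤ), hAbd⟩ hAne
    exact ⟨s, hs, h⟩
  obtain ⟨q, hq, hqp⟩ := hO' p hp
  obtain ⟨ν, sq, wq, hCRq⟩ := P.exists_controlled R q
  have hCRq : P.CR R q ν sq wq := hCRq
  have hssq : s ≤ sq := hmin sq ⟨q, hq, ν, wq, hCRq⟩
  obtain ⟨h1, h2⟩ := hCRq.step hg
  rw [hqp] at h1
  obtain ⟨h3, h4, h5, h6⟩ := hCR
  obtain ⟨k, hk, h7⟩ := geo.first_step (h1.trans h3.symm) (by omega)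
  have h8 := hpass q hq _ _ _ hCRq k hk
  generalize R.sigma g sq wq = w0 at h1 h2 hk
  have hρ := rho_pos k
  have hbk := geo.bD k w0 hk
  -- `s = s_q + 1 - t_k`
  have hs : s = sq + 1 - rt k := by
    by_contra hne'
    have h9 : R.phi (sq + 1 - rt k) (F B k w0) = R.phi s w := by
      rw [← geo.phi_pass hk, h1, h3]
    obtain ⟨l, hl, h10⟩ := geo.first_step h9 (by omega)
    have hS := geo.F_mem hk
    have h11 := geo.bD l _ hl
    have h12 := geo.aS k _ hS (by linarith)
    apply h6
    rw [← h3, ← h9]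
    refine R.phi_mem_interior_box ?_ ?_
    · have h13 := rho_pos l
      rw [rt_eq] at h7 h10 ⊢
      rw [rt_eq] at h10
      omega
    · rw [norm_eq]
      have := P.rad_ge n
      exact max_lt (by linarith) (by linarith)
  have hρn : rho k ≤ n := by
    rw [rt_eq] at hs
    omega
  -- the point is far away in the direction `a`
  have hw0 : P.rad n ≤ |w0.1| := by
    by_contra hlt
    push Not at hlt
    apply h6
    rw [← h1]
    refine R.phi_mem_interior_box ?_ ?_
    · rw [rt_eq] at hs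
      omega
    · rw [norm_eq]
      have := P.rad_ge n
      exact max_lt hlt (by linarith)
  set s0 : ℤ := sq + 1 with hs0
  set c : ℝ := min 1 (P.ζ k) with hc
  have hcpos : 0 < c := lt_min one_pos (P.ζpos k)
  have hc1 : c ≤ 1 := min_le_left _ _
  have hcζ : c ≤ P.ζ k := min_le_right _ _
  have hrad51 := P.rad_ge n
  -- following the orbit backwards
  have hback : ∀ i : ℕ, ∃ w : E, R.phi (s0 - i) w ∈ O ∧
      ‖w - w0‖ ≤ (Bt (s0 - i) - Bt s0) * c := by
    intro i
    induction i with
    | zero =>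
      refine ⟨w0, ?_, ?_⟩
      · simp only [Nat.cast_zero, sub_zero]
        rw [h1]; exact hp
      · simp
    | succ i ih =>
      obtain ⟨wi, hi1, hi2⟩ := ih
      set si : ℤ := s0 - i with hsi
      have hB1 : (Bt si - Bt s0) * c ≤ c := by
        have := Bt_le si
        have := Bt_ge s0
        nlinarith
      have hd : ‖wi - w0‖ ≤ c := hi2.trans hB1
      have hd1 : |wi.1 - w0.1| ≤ ‖wi - w0‖ := norm_fst_le (wi - w0)
      have hd2 : ‖wi.2 - w0.2‖ ≤ ‖wi - w0‖ := norm_snd_le (wi - w0)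
      have ha : 1 < |wi.1| := by
        have h9 : |w0.1| ≤ |wi.1| + |wi.1 - w0.1| := by
          have := abs_sub_abs_le_abs_sub w0.1 wi.1
          rw [abs_sub_comm] at this
          linarith
        linarith
      have hb : ‖wi.2‖ ≤ 49 := by
        have h9 : ‖wi.2‖ ≤ ‖w0.2‖ + ‖wi.2 - w0.2‖ := by
          have := norm_add_le w0.2 (wi.2 - w0.2)
          simpa using this
        linarith
      have hnoS : ∀ l, wi ∉ S B l := by
        intro l hl
        linarith [geo.aS l wi hl (by linarith)]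
      obtain ⟨q', hq', hq'p⟩ := hO' _ hi1
      obtain ⟨ν', a, v, hCR'⟩ := P.exists_controlled R q'
      have hCR' : P.CR R q' ν' a v := hCR'
      have hsa : s ≤ a := hmin a ⟨q', hq', ν', v, hCR'⟩
      obtain ⟨g1, g2⟩ := hCR'.step hg
      rw [hq'p] at g1
      have hle : a + 1 ≤ si := by
        by_contra hlt
        obtain ⟨l, hl, -⟩ := geo.last_step g1 (by omega)
        exact hnoS l hl
      rcases hle.eq_or_lt with heq | hlt
      · rw [heq] at g1
        have hvi := R.phi_injective _ g1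
        rw [hvi] at g2
        obtain ⟨h9, h10, h11, h12⟩ := hCR'
        have hνn : n ≤ ν' + 1 := by
          by_contra hlt
          have h13 : P.rad (ν' + 1 + 1) ≤ P.rad n := P.rad_mono.monotone (by omega)
          have h14 := hX.rad_step (ν' + 1)
          have h15 : |wi.1| ≤ ‖v‖ + ‖wi - v‖ := by
            have h16 : |wi.1| ≤ ‖wi‖ := norm_fst_le wi
            have h17 : ‖wi‖ ≤ ‖v‖ + ‖wi - v‖ := by
              have := norm_add_le v (wi - v)
              simpa using this
            linarith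
          have h18 : |w0.1| ≤ |wi.1| + |wi.1 - w0.1| := by
            have := abs_sub_abs_le_abs_sub w0.1 wi.1
            rw [abs_sub_comm] at this
            linarith
          have h19 := P.ε_le_hf ν'
          have h20 : hf (ν' + 2) ≤ 1 / 4 := by
            rw [hf_succ, hf_succ]
            linarith [hf_le_one ν']
          linarith
        have hCc : P.C ν' ≤ c := le_min (P.Cone ν') (hX.Cζ' ν' k (by omega))
        have ha' : a = s0 - ((i + 1 : ℕ) : ℤ) := by push_cast; omega
        refine ⟨v, by rw [← ha', h9]; exact hq', ?_⟩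
        rw [← ha']
        have h13 := Bt_step a
        rw [heq] at h13
        have h14 : P.ε ν' ≤ hf (a.natAbs + 2) * c := by
          unfold ε
          have h15 : hf (ν' + 2) ≤ hf (a.natAbs + 2) := hf_anti (by omega)
          exact mul_le_mul h15 hCc (P.Cpos _).le (hf_pos _).le
        have h15 : ‖v - w0‖ ≤ ‖wi - v‖ + ‖wi - w0‖ := by
          have := norm_sub_le (wi - w0) (wi - v)
          rw [sub_sub_sub_cancel_left] at this
          linarith
        nlinarith
      · exfalso
        obtain ⟨l, hl, h9⟩ := geo.first_step g1.symm hlt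
        have hlk : l = k := by
          by_contra hne'
          have hwk : wi ∉ D B k := fun h => hne' (geo.disjD hl h)
          have h10 : wd B k ≤ ‖wi.2 - X B (dig k)‖ := not_lt.1 hwk
          have h11 : ‖w0.2 - X B (dig k)‖ < wd B k := hk
          have h12 : ‖wi.2 - X B (dig k)‖ ≤ ‖w0.2 - X B (dig k)‖ + ‖wi.2 - w0.2‖ := by
            have := norm_add_le (w0.2 - X B (dig k)) (wi.2 - w0.2)
            have h13 : w0.2 - X B (dig k) + (wi.2 - w0.2) = wi.2 - X B (dig k) := by abel
            rwa [h13] at this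
          have h13 := P.rim k wi (by linarith [P.ζpos k]) (by linarith)
          exact h13.2.1 l hne' hl
        subst hlk
        omega
  choose wb hwb1 hwb2 using hback
  have hOf : Finite O := hfin
  obtain ⟨i, j, hij, heq⟩ := Finite.exists_ne_map_eq_of_infinite
    (fun i : ℕ => (⟨R.phi (s0 - i) (wb i), hwb1 i⟩ : O))
  wlog hlt : i < j generalizing i j
  · exact this j i hij.symm heq.symm (by omega)
  simp only [Subtype.mk.injEq] at heq
  obtain ⟨l, hl, -⟩ := geo.last_step heq (by omega)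
  have hd : ‖wb j - w0‖ ≤ 1 := by
    have h9 := Bt_le (s0 - j)
    have h10 := Bt_ge s0
    have h11 := hwb2 j
    nlinarith
  have hd1 : |(wb j).1 - w0.1| ≤ ‖wb j - w0‖ := norm_fst_le (wb j - w0)
  have hd2 : ‖(wb j).2 - w0.2‖ ≤ ‖wb j - w0‖ := norm_snd_le (wb j - w0)
  have h9 : |w0.1| ≤ |(wb j).1| + |(wb j).1 - w0.1| := by
    have := abs_sub_abs_le_abs_sub w0.1 (wb j).1
    rw [abs_sub_comm] at this
    linarith
  have h10 : ‖(wb j).2‖ ≤ ‖w0.2‖ + ‖(wb j).2 - w0.2‖ := by
    have := norm_add_le w0.2 ((wb j).2 - w0.2)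
    simpa using this
  linarith [geo.aS l _ hl (by linarith)]

theorem nonempty_cycle_of_inv (geo : Geo B R) {g : R.Mfd → R.Mfd} (hg : P.Ctrl R g)
    {O : Set R.Mfd} (hfin : O.Finite) (hO : ∀ p ∈ O, g p ∈ O) (hT : ∀ p ∈ O, ¬ P.Trap R p)
    {i : Word} {z : E} {t : ℤ} {y : E} (hstart : P.Inv R O i z t y) : Nonempty (Cycle B e) := by
  classical
  -- the states after a pass
  let Ps : Set (Word × E) := {s | s.2 ∈ S B s.1 ∧ P.Inv R O s.1 s.2 (1 - rho s.1) s.2}
  have hPfin : Finite Ps := by
    have hOf : Finite O := hfin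
    refine Finite.of_injective (β := O) (fun s => ⟨R.phi (1 - rho s.1.1) s.1.2, s.2.2.mem⟩) ?_
    rintro ⟨⟨i, z⟩, h1, h2⟩ ⟨⟨i', z'⟩, h1', h2'⟩ heq
    simp only [Subtype.mk.injEq] at heq
    simp only at h1 h2 h1' h2'
    have h3 := good_unique geo (h2'.good geo) (h2.good geo) heq
    rw [h3] at heq
    have h4 := R.phi_injective _ heq
    subst h4
    have h5 := geo.disjS h1 h1'
    subst h5
    rfl
  -- next state
  let Seg : Word × E → Word × E → Prop := fun s s' =>
    ∃ k : ℕ, (rho s'.1 : ℤ) = (1 - rho s.1) + k + 1 ∧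
      (∀ m ≤ k, seg R g (1 - rho s.1) s.2 m ∈ Good B ((1 - rho s.1) + m)) ∧
      seg R g (1 - rho s.1) s.2 (k + 1) ∈ D B s'.1 ∧
      s'.2 = F B s'.1 (seg R g (1 - rho s.1) s.2 (k + 1))
  have hnext : ∀ s : Ps, ∃ s' : Ps, Seg s.1 s'.1 := by
    rintro ⟨⟨i, z⟩, h1, h2⟩
    obtain ⟨k, hk, j, hj1, hj2, hj3, hj4⟩ := P.exists_pass geo hg hfin hO hT h2
    exact ⟨⟨⟨j, _⟩, hj3, hj4⟩, k, hj1, fun m hm => (hk m hm).good geo, hj2, rfl⟩
  choose nx hnx using hnext
  obtain ⟨k, -, j, -, -, hj3, hj4⟩ := P.exists_pass geo hg hfin hO hT hstart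
  let s0 : Ps := ⟨⟨j, _⟩, hj3, hj4⟩
  obtain ⟨a, b, hab, heq⟩ := Finite.exists_ne_map_eq_of_infinite (fun m : ℕ => nx^[m] s0)
  wlog hlt : a < b generalizing a b
  · exact this b a hab.symm heq.symm (by omega)
  let st : ℕ → Ps := fun m => nx^[a + m] s0
  have hst : ∀ m, st (m + 1) = nx (st m) := fun m =>
    Function.iterate_succ_apply' nx (a + m) s0
  have hstN : ∀ m, st (m + (b - a)) = st m := by
    intro m
    simp only [st]
    rw [show a + (m + (b - a)) = m + b by omega, Function.iterate_add_apply, ← heq,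
      ← Function.iterate_add_apply, add_comm]
  have hseg : ∀ m, Seg (st m).1 (st (m + 1)).1 := fun m => by rw [hst]; exact hnx _
  exact ⟨{
    σ := fun t => R.sigma g t
    smooth := fun t p hp => (P.good_ctrl geo hg hp).2.1
    close0 := fun t p hp => (P.good_ctrl geo hg hp).2.2.1.trans (P.ε_le_e _)
    close1 := fun t p hp => (P.good_ctrl geo hg hp).2.2.2.1.trans (P.ε_le_e _)
    close2 := fun t p hp => (P.good_ctrl geo hg hp).2.2.2.2.trans (P.ε_le_e _)
    N := b - a
    hN := by omega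
    i := fun m => (st m).1.1
    per := fun m => by simp only [hstN]
    y := fun m t => seg R g (1 - rho (st m).1.1) (st m).1.2 (t - (1 - rho (st m).1.1)).toNat
    good := fun m t ht1 ht2 => by
      obtain ⟨k, h1, h2, -, -⟩ := hseg m
      have h3 := h2 (t - (1 - rho (st m).1.1)).toNat (by omega)
      have h4 : (1 - (rho (st m).1.1 : ℤ)) + ((t - (1 - rho (st m).1.1)).toNat : ℤ) = t := by
        omega
      rwa [h4] at h3
    step := fun m t ht1 ht2 => by
      have h3 : (t + 1 - (1 - (rho (st m).1.1 : ℤ))).toNat =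
          (t - (1 - (rho (st m).1.1 : ℤ))).toNat + 1 := by omega
      have h4 : (1 - (rho (st m).1.1 : ℤ)) + ((t - (1 - rho (st m).1.1)).toNat : ℤ) = t := by
        omega
      simp only [h3, seg, h4]
    start := fun m => by
      simp only [sub_self, Int.toNat_zero, seg]
      exact (st m).2.1
    fin := fun m => by
      obtain ⟨k, h1, -, h3, -⟩ := hseg m
      have h4 : ((rho (st (m + 1)).1.1 : ℤ) - (1 - (rho (st m).1.1 : ℤ))).toNat = k + 1 := by
        omega
      simp only [h4]
      exact h3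
    pass := fun m => by
      obtain ⟨k, h1, -, -, h3⟩ := hseg m
      have h4 : ((rho (st (m + 1)).1.1 : ℤ) - (1 - (rho (st m).1.1 : ℤ))).toNat = k + 1 := by
        omega
      simp only [h4, sub_self, Int.toNat_zero, seg]
      simp only [seg] at h3
      exact h3 }⟩

/-- A controlled perturbation with a periodic point gives a cycle. -/
theorem nonempty_cycle_of_periodic (geo : Geo B R) (hX : P.Extra) {g : R.Mfd → R.Mfd}
    (hg : P.Ctrl R g) {x : R.Mfd} {n : ℕ} (hn : 0 < n) (hper : g^[n] x = x) :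
    Nonempty (Cycle B e) := by
  set O : Set R.Mfd := range (fun m : ℕ => g^[m] x) with hOdef
  have hper' : ∀ m : ℕ, g^[n * m] x = x := by
    intro m
    rw [Function.iterate_mul]
    exact Function.iterate_fixed hper m
  have hfin : O.Finite := by
    refine ((Set.finite_lt_nat n).image (fun m : ℕ => g^[m] x)).subset ?_
    rintro _ ⟨m, rfl⟩
    refine ⟨m % n, Nat.mod_lt _ hn, ?_⟩
    simp only
    conv_rhs => rw [← Nat.mod_add_div m n, Function.iterate_add_apply, hper']
  have hO : ∀ p ∈ O, g p ∈ O := by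
    rintro _ ⟨m, rfl⟩
    exact ⟨m + 1, Function.iterate_succ_apply' g m x⟩
  have hO' : ∀ p ∈ O, ∃ q ∈ O, g q = p := by
    rintro _ ⟨m, rfl⟩
    refine ⟨g^[m + (n - 1)] x, ⟨m + (n - 1), rfl⟩, ?_⟩
    rw [← Function.iterate_succ_apply' g, show (m + (n - 1)).succ = m + n by omega,
      Function.iterate_add_apply, hper]
  have hT : ∀ p ∈ O, ¬ P.Trap R p := by
    rintro _ ⟨m, rfl⟩
    refine P.periodic_notMem_trap geo hg hn ?_
    simp only [← Function.iterate_add_apply]
    rw [add_comm, Function.iterate_add_apply, hper]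
  obtain ⟨i, z, h⟩ := P.exists_inv geo hX hg hfin ⟨x, 0, rfl⟩ hO hO' hT
  exact P.nonempty_cycle_of_inv geo hg hfin hO hT h

end Par

/-- The geometric half in the strongest form: no normal form, no periodic point at all. -/
theorem Geo.exists_nhds_noper (geo : Geo B R) {e : ℕ → ℝ} (he : ∀ n, 0 < e n)
    (hc : IsEmpty (Cycle B e)) {r : ℕ∞} (hr : 2 ≤ r) :
    ∃ U ∈ @nhds _ (strongTopology E R.Mfd r) (R.shift r), ∀ g ∈ U, ∀ (p : R.Mfd) (n : ℕ), 0 < n →
      (g : R.Mfd → R.Mfd)^[n] p ≠ p := by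
  obtain ⟨P⟩ := geo.exists_par e he
  refine ⟨_, R.sigma_nhds hr P.more.rad_mono P.more.rad_top P.more.ε_pos,
    fun g hg p n hn hper => ?_⟩
  have hg' : P.more.Ctrl R g := hg
  exact not_nonempty_iff.2 hc (P.more.nonempty_cycle_of_periodic geo P.more_extra hg' hn hper)

end

end Pool.Agent.Closing
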