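import Pool.Agent.Lib.Closing.PureGam

/-!
P1: the base case of the induction: the first digit does not jump.
-/

namespace Pool.Agent.Closing.Pure

variable {S : Sys}

/-- position of a window up to its first digit -/
theorem Xt_window_first {κ : ℕ → ℝ} (hκ : Kap κ) {l w : ℕ} (hw : w < 8 ^ l) :
    ‖Xt κ l w - κ 1 • xi (dig 1 w)‖ ≤ 8 * κ 2 := by
  have h1 := Xt_expand hκ (k := 0) (K := l + 1) (by omega) w
  rw [Xt_of_lt κ hw (Nat.le_succ l), Xt_zero, dig_zero, hs_zero, mul_one, sub_zero] at h1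
  exact h1

theorem Xt_first {κ : ℕ → ℝ} (hκ : Kap κ) (l z : ℕ) :
    ‖Xt κ (l + 1) z - κ 1 • xi (dig 1 z)‖ ≤ 8 * κ 2 := by
  have h1 := Xt_expand hκ (k := 0) (K := l + 1) (by omega) z
  rw [Xt_zero, dig_zero, hs_zero, mul_one, sub_zero] at h1
  exact h1

theorem base_step (O : Orb S) (n : ℕ) : O.w n + 1 ≡ O.w (n + 1) [MOD 8] := by
  have h1 := Xt_first S.hκ (O.l n) (O.w n + 1)
  have h2 := Xt_window_first S.hκ (O.wlt (n + 1))
  have h3 := O.hD n
  have h4 := O.hD (n + 1)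
  have h5 := O.hP n
  have h6 := O.hQ (n + 1)
  have hg0 := (Gam_nonneg (S := S) (O.l n) (O.w n + 1) (O.P (n + 1)).1).1
  have hg1 := Gam_fst_le (S := S) (O.l n) (O.w n + 1) (O.P (n + 1)).1
  have hv := S.v0 (O.P (n + 1))
  have k2 : ∀ m, S.κ (m + 2) ≤ S.κ 2 := fun m => S.hκ.anti (by omega)
  have k10 : S.κ 10 ≤ S.κ 2 := S.hκ.anti (by omega)
  have kst := S.hκ.step 1
  have kp2 := S.hκ.pos 2
  have kp1 := S.hκ.pos 1
  -- first coordinates
  have f1 : |(Xt S.κ (O.l n + 1) (O.w n + 1)).1 - S.κ 1 * dig 1 (O.w n + 1)| ≤ 8 * S.κ 2 := by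
    refine le_trans ?_ h1
    exact norm_fst_le (Xt S.κ (O.l n + 1) (O.w n + 1) - S.κ 1 • xi (dig 1 (O.w n + 1)))
  have f2 : |(Xt S.κ (O.l (n + 1)) (O.w (n + 1))).1 - S.κ 1 * dig 1 (O.w (n + 1))| ≤
      8 * S.κ 2 := by
    refine le_trans ?_ h2
    exact norm_fst_le (Xt S.κ (O.l (n + 1)) (O.w (n + 1)) - S.κ 1 • xi (dig 1 (O.w (n + 1))))
  have f3 : |(O.Q n).2.1 - (Xt S.κ (O.l n) (O.w n)).1| ≤ 64 * S.κ 2 := by
    refine le_trans (norm_fst_le ((O.Q n).2 - Xt S.κ (O.l n) (O.w n))) ?_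
    have := k2 (O.l n)
    linarith
  have f4 : |(O.Q (n + 1)).2.1 - (Xt S.κ (O.l (n + 1)) (O.w (n + 1))).1| ≤ 64 * S.κ 2 := by
    refine le_trans (norm_fst_le ((O.Q (n + 1)).2 - Xt S.κ (O.l (n + 1)) (O.w (n + 1)))) ?_
    have := k2 (O.l (n + 1))
    linarith
  have f5 : (O.P (n + 1)).2.1 = (Xt S.κ (O.l n + 1) (O.w n + 1)).1
      + (S.Gam (O.l n) (O.w n + 1) (O.P (n + 1)).1).1
      + ((O.Q n).2.1 - (Xt S.κ (O.l n) (O.w n)).1) := by
    rw [h5]; rfl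
  have f6 : |(O.Q (n + 1)).2.1 - (O.P (n + 1)).2.1| ≤ S.κ 2 := by
    have e : (O.Q (n + 1)).2.1 - (O.P (n + 1)).2.1 = (S.v (O.P (n + 1))).2.1 := by
      rw [h6]; simp [Sys.sig]
    rw [e]
    exact (norm_fst_le (S.v (O.P (n + 1))).2).trans
      ((norm_snd_le (S.v (O.P (n + 1)))).trans (hv.trans k10))
  rw [abs_le] at f1 f2 f3 f4 f6
  set d := dig 1 (O.w n + 1) with hd
  set d' := dig 1 (O.w (n + 1)) with hd'
  have key : |S.κ 1 * ((d : ℝ) - d')| < S.κ 1 := by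
    have : 200 * S.κ 2 < S.κ 1 := by linarith
    rw [abs_lt]
    constructor <;> nlinarith [f1.1, f1.2, f2.1, f2.2, f3.1, f3.2, f4.1, f4.2, f6.1, f6.2]
  have key2 : |(d : ℝ) - d'| < 1 := by
    rw [abs_mul, abs_of_pos kp1] at key
    by_contra hc
    have := mul_le_mul_of_nonneg_left (not_lt.1 hc) kp1.le
    linarith
  have key3 : d = d' := by
    have h : |(d : ℤ) - d'| < 1 := by exact_mod_cast key2
    rw [Int.abs_lt_one_iff] at h
    omega
  have h8 : O.w n + 1 ≡ O.w (n + 1) [MOD 8 ^ 1] := by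
    apply modEq_of_dig
    intro j hj1 hj2
    have : j = 1 := by omega
    rw [this]; exact key3
  simpa using h8

theorem base (O : Orb S) : O.IND 0 := by
  refine ⟨⟨O.w 0, 0, ?_, ?_⟩, ?_⟩
  · intro n _
    rw [zero_add, min_eq_right (by omega), pow_one]
    induction n with
    | zero => simp [Nat.ModEq]
    | succ n ih =>
      have h1 := (ih (Nat.zero_le _)).add_right 1
      have h2 : n + 1 + O.w 0 = n + O.w 0 + 1 := by ring
      rw [h2]
      exact h1.trans (base_step O n)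
  · intro n _ h
    omega
  · intro i h
    omega

end Pool.Agent.Closing.Pure
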