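import Pool.Agent.Lib.Closing.PureSys

/-!
Constants and the statements used in the induction.
-/

namespace Pool.Agent.Closing.Pure

/-- Growth of the Taylor constants. -/
noncomputable def HH (j : ℕ) : ℝ := 2 ^ (10 * (j + 2) ^ 2)

/-- The main constant. -/
noncomputable def C1 : ℝ := 30000

namespace Sys

variable (S : Sys)

/-- Lipschitz constant in the height direction for tubes of level `j`. -/
noncomputable def ee (j : ℕ) : ℝ := S.κ 10 * (2 - (1 / 2) ^ (j + 1))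

/-- Lipschitz constant in the position for tubes of level `j` after the test. -/
noncomputable def gg (j : ℕ) : ℝ := 7000 * (S.κ (j + 3) / S.κ (j + 1) + HH j * S.κ (j + 1))

/-- Combined growth factor for the concatenation of tubes of level `j`. -/
noncomputable def qq (j : ℕ) : ℝ := S.gg j + 2 ^ (j + 2) * S.κ (j + 5)

/-- Far start bound of level `j`. -/
noncomputable def YY (j : ℕ) : ℝ := 8 ^ (j + 1) * (C1 + 200) * S.κ (j + 2)

/-- Domain of the tubes of level `j` which start at the index `m + 1`. -/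
def Om (j m : ℕ) : Set E3 :=
  {y | |y.1| ≤ S.κ (j + 1) ∧ ‖y.2 - Xt S.κ j (m + 1)‖ ≤ 20 * S.κ (j + 1)}

/-- The smaller domain. -/
def Om' (j m : ℕ) : Set E3 :=
  {y | |y.1| ≤ S.κ (j + 1) ∧ ‖y.2 - Xt S.κ j (m + 1)‖ ≤ 10 * S.κ (j + 1)}

/-- Tube estimate of level `j`: for consecutive numbers `m < n` with `j` nonzero digits. -/
def KK (j : ℕ) : Prop :=
  ∀ m n : ℕ, NZ j m → NZ j n → m < n → (∀ i, m < i → i < n → ¬ NZ j i) →
    TB (S.T (m + 1) (n - m - 1)) (S.Om j m) (S.gg j) (S.ee j) (2 ^ (j + 1)) (HH j) (HH j) ∧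
    ∀ y ∈ S.Om j m, ‖(S.T (m + 1) (n - m - 1) y).2 - y.2 -
      (Xt S.κ j n - Xt S.κ j (m + 1))‖ ≤ C1 * S.κ (j + 3) + S.ee j * |y.1|

/-- Rough tube estimate: `m < n` have `j` nonzero digits and no number strictly between them has
`j + 1` nonzero digits. -/
def VV (j : ℕ) : Prop :=
  ∀ m n : ℕ, NZ j m → NZ j n → m < n → (∀ i, m < i → i < n → ¬ NZ (j + 1) i) →
    TB (S.T (m + 1) (n - m - 1)) (S.Om' j m) (2 * 8 ^ (j + 1) * S.qq j) (S.ee (j + 1))
      (2 ^ (j + 2)) (HH (j + 1)) (HH (j + 1)) ∧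
    ∀ y ∈ S.Om' j m, ‖(S.T (m + 1) (n - m - 1) y).2 - y.2 -
      (Xt S.κ (j + 1) n - Xt S.κ (j + 1) (m + 1))‖ ≤
        8 ^ (j + 1) * (C1 + 1) * S.κ (j + 3) + 2 * S.κ 10 * |y.1|

end Sys

variable {S : Sys}

/-- Tail displacement after the pass number `n`. -/
noncomputable def Orb.γ (O : Orb S) (n : ℕ) : V2 := S.Gam (O.l n) (O.w n + 1) (O.P (n + 1)).1

/-- Digits are compatible with the odometer up to the first `k` digits. -/
def Orb.AA (O : Orb S) (k c M : ℕ) : Prop :=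
  ∀ n, M ≤ n → n + c ≡ O.w n [MOD 8 ^ min (O.l n + 1) k]

/-- The pass number `n` is a core pass. -/
def Orb.Core (O : Orb S) (n : ℕ) : Prop :=
  ‖(O.Q n).2 - Xt S.κ (O.l n) (O.w n)‖ < 16 * S.κ (O.l n + 2)

/-- From time `M` on all passes through windows of stage less than `j` are core passes. -/
def Orb.CP (O : Orb S) (j M : ℕ) : Prop := ∀ n, M ≤ n → O.l n < j → O.Core n

/-- The induction hypothesis. -/
def Orb.IND (O : Orb S) (j : ℕ) : Prop :=
  (∃ c M, O.AA (j + 1) c M ∧ O.CP j M) ∧ ∀ i < j, S.KK i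

/-- A test: a point of the tube which starts at the digit `d`. Here `s = m + 1`. -/
structure Test (S : Sys) (T : E3 → E3) (j m n d : ℕ) where
  y : E3
  N : ℕ
  N' : ℕ
  lam : ℝ
  lam' : ℝ
  hN : N < 8
  hN' : N' < 8
  ha : |y.1| ≤ S.κ (j + 3)
  hy : ‖y.2 - Xt S.κ j (m + 1) - (S.κ (j + 1) * hs (dig j (m + 1))) • xi d‖ ≤ S.κ (j + 1) / 4000
  h0 : 0 ≤ lam
  h1 : lam ≤ S.κ (j + 2) / 4
  h0' : 0 ≤ lam'
  hfull : 0 < lam' → lam = S.κ (j + 2) / 4
  heq : ‖(T y).2 - y.2 - (Xt S.κ j n - Xt S.κ j (m + 1))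
      - ((S.κ (j + 2) * hs d) • (xi N' - xi N)
        - lam • (if isX d then ((1 : ℝ), (0 : ℝ)) else (0, 1))
        - lam' • (if isX (dig j (m + 1)) then ((1 : ℝ), (0 : ℝ)) else (0, 1)))‖ ≤
      146 * S.κ (j + 3)

end Pool.Agent.Closing.Pure
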