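import Pool.Agent.Lib.Closing.PureConst

/-!
P8: arithmetic of the exit tests.
-/

namespace Pool.Agent.Closing.Pure

variable {S : Sys}

/-- Two displacements of the two scales `κ` and `31/32 κ` can only agree if both vanish. -/
theorem int_test {K : ℝ} (hK : 0 < K) {n n' : ℤ} (_hn : |n| ≤ 7) (hn' : |n'| ≤ 7)
    (h : |K * n - K * (31 / 32) * n'| < K / 32) : n = 0 ∧ n' = 0 := by
  have h1 : |(32 * n - 31 * n' : ℝ)| < 1 := by
    have e : K * n - K * (31 / 32) * n' = (K / 32) * (32 * n - 31 * n') := by ring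
    rw [e, abs_mul, abs_of_pos (by positivity : 0 < K / 32)] at h
    by_contra hc
    have := mul_le_mul_of_nonneg_left (not_lt.1 hc) (by positivity : 0 ≤ K / 32)
    linarith
  have h2 : |32 * n - 31 * n'| < 1 := by exact_mod_cast h1
  rw [Int.abs_lt_one_iff] at h2
  rw [abs_le] at hn'
  constructor <;> omega

/-- A displacement by an integer number of steps of size `h K`, `h ≥ 31/32`, which is compensated
by a band is trivial. -/
theorem int_band {K h lam v ε : ℝ} (hK : 0 < K) (hh : 31 / 32 ≤ h) {n : ℤ}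
    (h0 : 0 ≤ lam) (h1 : lam ≤ K / 4) (he : |v - (K * h * n - lam)| ≤ ε) (hv : |v| ≤ K / 400 + ε)
    (hε : 100 * ε ≤ K) : n = 0 ∧ lam < K / 4 := by
  rw [abs_le] at he hv
  have hn : n = 0 := by
    by_contra hne
    have h2 : (1 : ℝ) ≤ |(n : ℝ)| := by
      have : 1 ≤ |n| := Int.one_le_abs hne
      exact_mod_cast this
    have h3 : |K * h * n| = K * h * |(n : ℝ)| := by
      rw [abs_mul, abs_of_pos (by positivity : 0 < K * h)]
    have h4 : K * (31 / 32) * 1 ≤ K * h * |(n : ℝ)| := by gcongr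
    have h5 : |K * h * n| ≤ K / 4 + K / 400 + 2 * ε := by
      rw [abs_le]; constructor <;> linarith [he.1, he.2, hv.1, hv.2]
    linarith
  refine ⟨hn, ?_⟩
  rw [hn] at he
  simp only [Int.cast_zero, mul_zero, zero_sub] at he
  linarith [he.1, he.2, hv.1, hv.2]

theorem fst_of_heq {T : E3 → E3} {j m n d : ℕ} (t : Test S T j m n d) :
    |((T t.y).2 - t.y.2 - (Xt S.κ j n - Xt S.κ j (m + 1))).1
      - (S.κ (j + 2) * hs d * (((t.N' : ℤ) - (t.N : ℤ) : ℤ) : ℝ)
        - (if isX d then t.lam else 0)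
        - (if isX (dig j (m + 1)) then t.lam' else 0))| ≤ 146 * S.κ (j + 3) := by
  refine le_trans (le_of_eq ?_) ((norm_fst_le _).trans t.heq)
  rw [Real.norm_eq_abs]
  congr 1
  rw [Prod.fst_sub (_ - _ : V2) (_ - _ : V2)]
  congr 1
  simp only [Prod.fst_sub, Prod.smul_fst, smul_eq_mul, xi]
  push_cast
  congr 1
  · congr 1
    split_ifs <;> simp
  · split_ifs <;> simp

theorem snd_of_heq {T : E3 → E3} {j m n d : ℕ} (t : Test S T j m n d) :
    |((T t.y).2 - t.y.2 - (Xt S.κ j n - Xt S.κ j (m + 1))).2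
      - (S.κ (j + 2) * hs d * (((sp t.N' : ℤ) - (sp t.N : ℤ) : ℤ) : ℝ)
        - (if isX d then 0 else t.lam)
        - (if isX (dig j (m + 1)) then 0 else t.lam'))| ≤ 146 * S.κ (j + 3) := by
  refine le_trans (le_of_eq ?_) ((norm_snd_le _).trans t.heq)
  rw [Real.norm_eq_abs]
  congr 1
  rw [Prod.snd_sub (_ - _ : V2) (_ - _ : V2)]
  congr 1
  simp only [Prod.snd_sub, Prod.smul_snd, smul_eq_mul, xi]
  push_cast
  congr 1
  · congr 1
    split_ifs <;> simp
  · split_ifs <;> simp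

/-- The common argument: `a`, `b`, `c` are the three tests whose own band does not interfere with
the coordinate, `b` being the one with the smaller pattern. -/
theorem three_tests {K ε u1 u2 u3 : ℝ} (hK : 0 < K) {n1 n2 n3 : ℤ} (b1 : |n1| ≤ 7) (b2 : |n2| ≤ 7)
    (b3 : |n3| ≤ 7) (h1 : |u1 - K * 1 * n1| ≤ ε) (h2 : |u2 - K * (31 / 32) * n2| ≤ ε)
    (h3 : |u3 - K * 1 * n3| ≤ ε) (h12 : |u1 - u2| ≤ K / 400) (h32 : |u3 - u2| ≤ K / 400)
    (hε : 100 * ε ≤ K) : n1 = 0 ∧ n2 = 0 ∧ n3 = 0 := by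
  rw [abs_le] at h1 h2 h3 h12 h32
  have h4 : |K * n1 - K * (31 / 32) * n2| < K / 32 := by
    rw [abs_lt]
    constructor <;> linarith [h1.1, h1.2, h2.1, h2.2, h12.1, h12.2]
  have h5 : |K * n3 - K * (31 / 32) * n2| < K / 32 := by
    rw [abs_lt]
    constructor <;> linarith [h3.1, h3.2, h2.1, h2.2, h32.1, h32.2]
  exact ⟨(int_test hK b1 b2 h4).1, (int_test hK b1 b2 h4).2, (int_test hK b3 b2 h5).1⟩

theorem abs_sub_le_seven {a b : ℕ} (ha : a < 8) (hb : b < 8) : |(a : ℤ) - (b : ℤ)| ≤ 7 := by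
  rw [abs_le]; constructor <;> omega

theorem test_values {T : E3 → E3} {j m n : ℕ}
    (t : ∀ d, 2 ≤ d → d < 8 → Test S T j m n d)
    (hagree : ∀ d (h2 : 2 ≤ d) (h8 : d < 8) d' (h2' : 2 ≤ d') (h8' : d' < 8),
      ‖((T (t d h2 h8).y).2 - (t d h2 h8).y.2) - ((T (t d' h2' h8').y).2 - (t d' h2' h8').y.2)‖ ≤
        S.κ (j + 2) / 400) :
    (∀ d (h2 : 2 ≤ d) (_ : d ≤ 4) (h8 : d < 8),
      |((T (t d h2 h8).y).2 - (t d h2 h8).y.2 - (Xt S.κ j n - Xt S.κ j (m + 1))).1| ≤
        150 * S.κ (j + 3)) ∧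
    (∀ d (h2 : 2 ≤ d) (_ : 5 ≤ d) (h8 : d < 8),
      |((T (t d h2 h8).y).2 - (t d h2 h8).y.2 - (Xt S.κ j n - Xt S.κ j (m + 1))).2| ≤
        150 * S.κ (j + 3)) := by
  have hK : 0 < S.κ (j + 2) := S.hκ.pos _
  have hεp : 0 < S.κ (j + 3) := S.hκ.pos _
  have hε : 100 * (146 * S.κ (j + 3)) ≤ S.κ (j + 2) := by
    have := S.hκ.step (j + 2)
    rw [show j + 2 + 1 = j + 3 by ring] at this
    linarith
  set K := S.κ (j + 2) with hKdef
  set ε := 146 * S.κ (j + 3) with hεdef
  -- notation for the values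
  set ux : ∀ d, 2 ≤ d → d < 8 → ℝ := fun d h2 h8 =>
    ((T (t d h2 h8).y).2 - (t d h2 h8).y.2 - (Xt S.κ j n - Xt S.κ j (m + 1))).1 with hux
  set uy : ∀ d, 2 ≤ d → d < 8 → ℝ := fun d h2 h8 =>
    ((T (t d h2 h8).y).2 - (t d h2 h8).y.2 - (Xt S.κ j n - Xt S.κ j (m + 1))).2 with huy
  have agx : ∀ d h2 h8 d' h2' h8', |ux d h2 h8 - ux d' h2' h8'| ≤ K / 400 := by
    intro d h2 h8 d' h2' h8'
    refine le_trans ?_ (hagree d h2 h8 d' h2' h8')
    refine le_trans (le_of_eq ?_) (norm_fst_le _)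
    rw [Real.norm_eq_abs]
    congr 1
    simp only [hux, Prod.fst_sub]
    ring
  have agy : ∀ d h2 h8 d' h2' h8', |uy d h2 h8 - uy d' h2' h8'| ≤ K / 400 := by
    intro d h2 h8 d' h2' h8'
    refine le_trans ?_ (hagree d h2 h8 d' h2' h8')
    refine le_trans (le_of_eq ?_) (norm_snd_le _)
    rw [Real.norm_eq_abs]
    congr 1
    simp only [huy, Prod.snd_sub]
    ring
  have Hx : ∀ d h2 h8, |ux d h2 h8 - (K * hs d * (((t d h2 h8).N' : ℤ) - ((t d h2 h8).N : ℤ) : ℤ)
      - (if isX d then (t d h2 h8).lam else 0)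
      - (if isX (dig j (m + 1)) then (t d h2 h8).lam' else 0))| ≤ ε :=
    fun d h2 h8 => fst_of_heq (t d h2 h8)
  have Hy : ∀ d h2 h8, |uy d h2 h8 - (K * hs d * ((sp (t d h2 h8).N' : ℤ) - (sp (t d h2 h8).N : ℤ) : ℤ)
      - (if isX d then 0 else (t d h2 h8).lam)
      - (if isX (dig j (m + 1)) then 0 else (t d h2 h8).lam'))| ≤ ε :=
    fun d h2 h8 => snd_of_heq (t d h2 h8)
  have bx : ∀ d h2 h8, |((t d h2 h8).N' : ℤ) - ((t d h2 h8).N : ℤ)| ≤ 7 := fun d h2 h8 =>
    abs_sub_le_seven (t d h2 h8).hN' (t d h2 h8).hN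
  have by' : ∀ d h2 h8, |(sp (t d h2 h8).N' : ℤ) - (sp (t d h2 h8).N : ℤ)| ≤ 7 := fun d h2 h8 =>
    abs_sub_le_seven (sp_lt (t d h2 h8).hN') (sp_lt (t d h2 h8).hN)
  have hs2 : hs 2 = 1 := by norm_num [hs]
  have hs3 : hs 3 = 31 / 32 := by norm_num [hs]
  have hs4 : hs 4 = 1 := by norm_num [hs]
  have hs5 : hs 5 = 1 := by norm_num [hs]
  have hs6 : hs 6 = 31 / 32 := by norm_num [hs]
  have hs7 : hs 7 = 1 := by norm_num [hs]
  have nX : ∀ d, d ≤ 4 → ¬ isX d := fun d h => by unfold isX; omega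
  have yX : ∀ d, 5 ≤ d → isX d := fun d h => h
  have hε0 : 0 ≤ ε := by positivity
  by_cases hc : isX (dig j (m + 1))
  · -- the lower band moves to the right: use the vertical coordinate
    have g5 := Hy 5 (by norm_num) (by norm_num)
    have g6 := Hy 6 (by norm_num) (by norm_num)
    have g7 := Hy 7 (by norm_num) (by norm_num)
    rw [if_pos (yX 5 (by norm_num)), if_pos hc, sub_zero, sub_zero, hs5] at g5
    rw [if_pos (yX 6 (by norm_num)), if_pos hc, sub_zero, sub_zero, hs6] at g6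
    rw [if_pos (yX 7 (by norm_num)), if_pos hc, sub_zero, sub_zero, hs7] at g7
    obtain ⟨z5, z6, z7⟩ := three_tests hK (by' 5 _ _) (by' 6 _ _) (by' 7 _ _) g5 g6 g7
      (agy _ _ _ _ _ _) (agy _ _ _ _ _ _) hε
    rw [z5] at g5; rw [z6] at g6; rw [z7] at g7
    simp only [Int.cast_zero, mul_zero, sub_zero] at g5 g6 g7
    have hall : ∀ d h2 h8, |uy d h2 h8| ≤ K / 400 + ε := by
      intro d h2 h8
      have h := agy d h2 h8 5 (by norm_num) (by norm_num)
      rw [abs_le] at *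
      constructor <;> linarith [h.1, h.2, g5.1, g5.2]
    constructor
    · intro d h2 h4 h8
      show |ux d h2 h8| ≤ _
      have e1 := Hy d h2 h8
      rw [if_neg (nX d h4), if_pos hc, sub_zero] at e1
      obtain ⟨z, hl⟩ := int_band hK (hs_pos d) (t d h2 h8).h0 (t d h2 h8).h1 e1 (hall d h2 h8) hε
      have hNN : (t d h2 h8).N' = (t d h2 h8).N := by
        apply sp_inj; omega
      have hl0 : (t d h2 h8).lam' = 0 := by
        by_contra hne
        have := (t d h2 h8).hfull (lt_of_le_of_ne (t d h2 h8).h0' (Ne.symm hne))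
        linarith
      have e2 := Hx d h2 h8
      rw [if_neg (nX d h4), if_pos hc, hl0, hNN] at e2
      simp only [sub_self, Int.cast_zero, mul_zero, sub_zero] at e2
      refine e2.trans ?_
      rw [hεdef]; linarith
    · intro d h2 h5 h8
      show |uy d h2 h8| ≤ _
      have hd : d = 5 ∨ d = 6 ∨ d = 7 := by omega
      have : |uy d h2 h8| ≤ ε := by
        rcases hd with rfl | rfl | rfl
        · exact g5
        · exact g6
        · exact g7
      refine this.trans ?_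
      rw [hεdef]; linarith
  · have g2 := Hx 2 (by norm_num) (by norm_num)
    have g3 := Hx 3 (by norm_num) (by norm_num)
    have g4 := Hx 4 (by norm_num) (by norm_num)
    rw [if_neg (nX 2 (by norm_num)), if_neg hc, sub_zero, sub_zero, hs2] at g2
    rw [if_neg (nX 3 (by norm_num)), if_neg hc, sub_zero, sub_zero, hs3] at g3
    rw [if_neg (nX 4 (by norm_num)), if_neg hc, sub_zero, sub_zero, hs4] at g4
    obtain ⟨z2, z3, z4⟩ := three_tests hK (bx 2 _ _) (bx 3 _ _) (bx 4 _ _) g2 g3 g4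
      (agx _ _ _ _ _ _) (agx _ _ _ _ _ _) hε
    rw [z2] at g2; rw [z3] at g3; rw [z4] at g4
    simp only [Int.cast_zero, mul_zero, sub_zero] at g2 g3 g4
    have hall : ∀ d h2 h8, |ux d h2 h8| ≤ K / 400 + ε := by
      intro d h2 h8
      have h := agx d h2 h8 2 (by norm_num) (by norm_num)
      rw [abs_le] at *
      constructor <;> linarith [h.1, h.2, g2.1, g2.2]
    constructor
    · intro d h2 h4 h8
      show |ux d h2 h8| ≤ _
      have hd : d = 2 ∨ d = 3 ∨ d = 4 := by omega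
      have : |ux d h2 h8| ≤ ε := by
        rcases hd with rfl | rfl | rfl
        · exact g2
        · exact g3
        · exact g4
      refine this.trans ?_
      rw [hεdef]; linarith
    · intro d h2 h5 h8
      show |uy d h2 h8| ≤ _
      have e1 := Hx d h2 h8
      rw [if_pos (yX d h5), if_neg hc, sub_zero] at e1
      obtain ⟨z, hl⟩ := int_band hK (hs_pos d) (t d h2 h8).h0 (t d h2 h8).h1 e1 (hall d h2 h8) hε
      have hNN : (t d h2 h8).N' = (t d h2 h8).N := by omega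
      have hl0 : (t d h2 h8).lam' = 0 := by
        by_contra hne
        have := (t d h2 h8).hfull (lt_of_le_of_ne (t d h2 h8).h0' (Ne.symm hne))
        linarith
      have e2 := Hy d h2 h8
      rw [if_pos (yX d h5), if_neg hc, hl0, hNN] at e2
      simp only [sub_self, Int.cast_zero, mul_zero, sub_zero] at e2
      refine e2.trans ?_
      rw [hεdef]; linarith

end Pool.Agent.Closing.Pure
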