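import Mathlib

/-!
Octal digits, the windows of the odometer and the per-step lemma.
-/

namespace Pool.Agent.Closing.Pure

/-- The `k`-th octal digit of `z` (`k ≥ 1`, least significant first); the digit of index `0` is `0`. -/
def dig (k z : ℕ) : ℕ := 8 * z / 8 ^ k % 8

/-- The first `k` digits are all nonzero. -/
def NZ (k z : ℕ) : Prop := ∀ j, 1 ≤ j → j ≤ k → dig j z ≠ 0

theorem dig_zero (z : ℕ) : dig 0 z = 0 := by simp [dig]

theorem dig_lt (k z : ℕ) : dig k z < 8 := Nat.mod_lt _ (by norm_num)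

theorem dig_succ (k z : ℕ) : dig (k + 1) z = z / 8 ^ k % 8 := by
  unfold dig
  rw [pow_succ, mul_comm (8 ^ k) 8, Nat.mul_div_mul_left _ _ (by norm_num : 0 < 8)]

theorem dig_succ' (k z : ℕ) : dig (k + 1) z = z % 8 ^ (k + 1) / 8 ^ k := by
  rw [dig_succ, pow_succ, Nat.mod_mul_right_div_self]

theorem dig_congr {k z z' : ℕ} (h : z ≡ z' [MOD 8 ^ k]) {j : ℕ} (hj : j ≤ k) :
    dig j z = dig j z' := by
  rcases j with _ | j
  · simp [dig_zero]
  · rw [dig_succ', dig_succ']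
    have h2 : z ≡ z' [MOD 8 ^ (j + 1)] := h.of_dvd (pow_dvd_pow 8 hj)
    rw [h2]

theorem NZ_congr {k z z' : ℕ} (h : z ≡ z' [MOD 8 ^ k]) : NZ k z ↔ NZ k z' := by
  constructor
  · intro H j h1 h2
    rw [← dig_congr h h2]; exact H j h1 h2
  · intro H j h1 h2
    rw [dig_congr h h2]; exact H j h1 h2

theorem NZ_mono {k l z : ℕ} (hl : l ≤ k) (h : NZ k z) : NZ l z :=
  fun j h1 h2 => h j h1 (h2.trans hl)

theorem NZ_zero (z : ℕ) : NZ 0 z := fun j h1 h2 => by omega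

theorem NZ_succ {k z : ℕ} (h : NZ k z) (h2 : dig (k + 1) z ≠ 0) : NZ (k + 1) z := by
  intro j h3 h4
  rcases Nat.lt_or_ge k j with h5 | h5
  · have : j = k + 1 := by omega
    rw [this]; exact h2
  · exact h j h3 h5

theorem dig_of_lt {w l j : ℕ} (hw : w < 8 ^ l) (hj : l < j) : dig j w = 0 := by
  rcases j with _ | j
  · omega
  · rw [dig_succ, Nat.div_eq_of_lt (lt_of_lt_of_le hw (Nat.pow_le_pow_right (by norm_num) (by omega)))]

/-- Recover a congruence from one more digit. -/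
theorem modEq_succ {k z z' : ℕ} (h : z ≡ z' [MOD 8 ^ k]) (h2 : dig (k + 1) z = dig (k + 1) z') :
    z ≡ z' [MOD 8 ^ (k + 1)] := by
  rw [dig_succ', dig_succ'] at h2
  unfold Nat.ModEq at *
  have e1 : z % 8 ^ (k + 1) = 8 ^ k * (z % 8 ^ (k + 1) / 8 ^ k) + z % 8 ^ (k + 1) % 8 ^ k :=
    (Nat.div_add_mod _ _).symm
  have e2 : z' % 8 ^ (k + 1) = 8 ^ k * (z' % 8 ^ (k + 1) / 8 ^ k) + z' % 8 ^ (k + 1) % 8 ^ k :=
    (Nat.div_add_mod _ _).symm
  have e3 : z % 8 ^ (k + 1) % 8 ^ k = z % 8 ^ k :=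
    Nat.mod_mod_of_dvd _ (pow_dvd_pow 8 (by omega))
  have e4 : z' % 8 ^ (k + 1) % 8 ^ k = z' % 8 ^ k :=
    Nat.mod_mod_of_dvd _ (pow_dvd_pow 8 (by omega))
  rw [e1, e2, e3, e4, h2, h]

theorem modEq_of_dig {k z z' : ℕ} (h : ∀ j, 1 ≤ j → j ≤ k → dig j z = dig j z') :
    z ≡ z' [MOD 8 ^ k] := by
  induction k with
  | zero => simp [Nat.ModEq, Nat.mod_one]
  | succ k ih =>
    exact modEq_succ (ih fun j h1 h2 => h j h1 (by omega)) (h (k + 1) (by omega) le_rfl)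

theorem exists_dig_zero (z : ℕ) : ∃ l, dig (l + 1) z = 0 := by
  refine ⟨z, ?_⟩
  exact dig_of_lt (l := z) (Nat.lt_pow_self (by norm_num)) (by omega)

open Classical in
/-- Number of digits before the first zero digit. -/
noncomputable def fz (z : ℕ) : ℕ := Nat.find (exists_dig_zero z)

theorem dig_fz (z : ℕ) : dig (fz z + 1) z = 0 := by
  classical exact Nat.find_spec (exists_dig_zero z)

theorem NZ_fz (z : ℕ) : NZ (fz z) z := by
  classical
  intro j h1 h2 h3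
  have := Nat.find_min (exists_dig_zero z) (m := j - 1) (by unfold fz at h2; omega)
  apply this
  rw [show j - 1 + 1 = j by omega]; exact h3

theorem fz_eq {z l : ℕ} (h1 : NZ l z) (h2 : dig (l + 1) z = 0) : fz z = l := by
  classical
  rcases lt_trichotomy (fz z) l with h | h | h
  · exact absurd (dig_fz z) (h1 _ (by omega) (by omega))
  · exact h
  · exact absurd h2 (NZ_fz z _ (by omega) (by omega))

theorem fz_lt_of_not_NZ {k z : ℕ} (h : ¬ NZ k z) : fz z < k := by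
  by_contra hc
  exact h (NZ_mono (not_lt.mp hc) (NZ_fz z))

theorem fz_congr {k z z' : ℕ} (h : z ≡ z' [MOD 8 ^ k]) (h2 : ¬ NZ k z) : fz z = fz z' := by
  have h3 := fz_lt_of_not_NZ h2
  symm
  apply fz_eq
  · have : z ≡ z' [MOD 8 ^ fz z] := h.of_dvd (pow_dvd_pow 8 (by omega))
    exact (NZ_congr this).mp (NZ_fz z)
  · rw [← dig_congr h (by omega)]; exact dig_fz z

/-- The window which governs `z`. -/
noncomputable def win (z : ℕ) : ℕ := z % 8 ^ fz z

theorem win_lt (z : ℕ) : win z < 8 ^ fz z := Nat.mod_lt _ (by positivity)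

theorem win_modEq (z : ℕ) : win z ≡ z [MOD 8 ^ fz z] := Nat.mod_modEq _ _

theorem NZ_win (z : ℕ) : NZ (fz z) (win z) := (NZ_congr (win_modEq z)).mpr (NZ_fz z)

theorem win_modEq_succ (z : ℕ) : win z ≡ z [MOD 8 ^ (fz z + 1)] :=
  modEq_succ (win_modEq z) (by rw [dig_of_lt (win_lt z) (by omega), dig_fz])

theorem win_congr {k z z' : ℕ} (h : z ≡ z' [MOD 8 ^ k]) (h2 : ¬ NZ k z) : win z = win z' := by
  unfold win
  rw [← fz_congr h h2]
  have h3 := fz_lt_of_not_NZ h2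
  exact h.of_dvd (pow_dvd_pow 8 (by omega))

/-- Digits after adding one, above the first zero digit. -/
theorem div_succ_eq {l z : ℕ} (h : dig (l + 1) z = 0) : (z + 1) / 8 ^ (l + 1) = z / 8 ^ (l + 1) := by
  have h1 : z % 8 ^ (l + 1) / 8 ^ l = 0 := by rw [← dig_succ']; exact h
  have h2 : z % 8 ^ (l + 1) < 8 ^ l := by
    by_contra hc
    have := Nat.div_pos (not_lt.mp hc) (by positivity : 0 < 8 ^ l)
    omega
  have h3 : (8 : ℕ) ^ (l + 1) = 8 * 8 ^ l := by rw [pow_succ]; ring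
  have h4 : z = 8 ^ (l + 1) * (z / 8 ^ (l + 1)) + z % 8 ^ (l + 1) := (Nat.div_add_mod _ _).symm
  have h6 : 0 < 8 ^ l := by positivity
  have h5 : z % 8 ^ (l + 1) + 1 < 8 ^ (l + 1) := by omega
  conv_lhs => rw [h4]
  rw [add_assoc, Nat.mul_add_div (by positivity), Nat.div_eq_of_lt h5, add_zero]

theorem dig_add_one_of_gt {l z : ℕ} (h : dig (l + 1) z = 0) {j : ℕ} (hj : l + 2 ≤ j) :
    dig j (z + 1) = dig j z := by
  obtain ⟨i, rfl⟩ : ∃ i, j = (l + 1 + i) + 1 := ⟨j - l - 2, by omega⟩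
  rw [dig_succ, dig_succ, pow_add, ← Nat.div_div_eq_div_mul, ← Nat.div_div_eq_div_mul,
    div_succ_eq h]

theorem add_one_modEq {z : ℕ} : win z + 1 ≡ z + 1 [MOD 8 ^ (fz z + 1)] :=
  (win_modEq_succ z).add_right 1

theorem dig_succ_add_one_le {w l : ℕ} (hw : w < 8 ^ l) : dig (l + 1) (w + 1) ≤ 1 := by
  rw [dig_succ]
  have h6 : 0 < 8 ^ l := by positivity
  have : (w + 1) / 8 ^ l ≤ 1 := by
    apply Nat.div_le_of_le_mul
    omega
  calc (w + 1) / 8 ^ l % 8 ≤ (w + 1) / 8 ^ l := Nat.mod_le _ _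
    _ ≤ 1 := this

theorem dig_fz_add_one (z : ℕ) : dig (fz z + 1) (z + 1) ≤ 1 := by
  rw [← dig_congr add_one_modEq le_rfl]
  exact dig_succ_add_one_le (win_lt z)

/-- In every block of `8 ^ k` consecutive numbers there is one with `k` nonzero digits. -/
theorem exists_NZ (k m : ℕ) : ∃ n, m < n ∧ n ≤ m + 8 ^ k ∧ NZ k n := by
  have hpos : 0 < 8 ^ k := by positivity
  -- the number with all digits 1
  have hone : ∃ o, NZ k o := by
    induction k with
    | zero => exact ⟨0, NZ_zero 0⟩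
    | succ k ih =>
      obtain ⟨o, ho⟩ := ih (by positivity)
      refine ⟨o % 8 ^ k + 8 ^ k, NZ_succ ?_ ?_⟩
      · refine (NZ_congr (k := k) (z := o % 8 ^ k + 8 ^ k) (z' := o) ?_).mpr ho
        unfold Nat.ModEq
        simp
      · rw [dig_succ]
        have : (o % 8 ^ k + 8 ^ k) / 8 ^ k = 1 := by
          rw [Nat.add_div_right _ (by positivity), Nat.div_eq_of_lt (Nat.mod_lt _ (by positivity))]
        rw [this]; norm_num
  obtain ⟨o, ho⟩ := hone
  -- find n ≡ o in (m, m + 8^k]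
  refine ⟨m + 1 + (o + (8 ^ k - (m + 1) % 8 ^ k)) % 8 ^ k, by omega, ?_, ?_⟩
  · have := Nat.mod_lt (o + (8 ^ k - (m + 1) % 8 ^ k)) hpos
    omega
  · refine (NZ_congr ?_).mpr ho
    have h1 : (m + 1) % 8 ^ k < 8 ^ k := Nat.mod_lt _ hpos
    have h2 : m + 1 + (o + (8 ^ k - (m + 1) % 8 ^ k)) = o + 8 ^ k * ((m + 1) / 8 ^ k + 1) := by
      have h3 := Nat.div_add_mod (m + 1) (8 ^ k)
      rw [mul_add, mul_one]
      omega
    calc m + 1 + (o + (8 ^ k - (m + 1) % 8 ^ k)) % 8 ^ k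
        ≡ m + 1 + (o + (8 ^ k - (m + 1) % 8 ^ k)) [MOD 8 ^ k] :=
          (Nat.mod_modEq _ _).add_left _
      _ = o + 8 ^ k * ((m + 1) / 8 ^ k + 1) := h2
      _ ≡ o [MOD 8 ^ k] := by
          unfold Nat.ModEq; simp

theorem gap_le {k m n : ℕ} (h : ∀ i, m < i → i < n → ¬ NZ k i) : n ≤ m + 8 ^ k := by
  obtain ⟨i, h1, h2, h3⟩ := exists_NZ k m
  by_contra hc
  exact h i h1 (by omega) h3

/-- Carry into a digit only if all lower digits are seven. -/
theorem carry {k m : ℕ} (h1 : NZ (k + 1) m) (h2 : dig (k + 1) (m + 1) = 0) :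
    m + 1 ≡ 0 [MOD 8 ^ (k + 1)] := by
  have h3 : dig (k + 1) m ≠ 0 := h1 _ (by omega) le_rfl
  have hp : 0 < 8 ^ k := by positivity
  have hp1 : (8 : ℕ) ^ (k + 1) = 8 * 8 ^ k := by rw [pow_succ]; ring
  set r := m % 8 ^ (k + 1) with hr
  have hrl : r < 8 ^ (k + 1) := Nat.mod_lt _ (by positivity)
  have h4 : dig (k + 1) m = r / 8 ^ k := dig_succ' _ _
  have h5 : (m + 1) % 8 ^ (k + 1) = (r + 1) % 8 ^ (k + 1) := by
    rw [hr, Nat.mod_add_mod]
  have h6 : dig (k + 1) (m + 1) = (r + 1) % 8 ^ (k + 1) / 8 ^ k := by rw [dig_succ', h5]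
  rcases Nat.lt_or_ge (r + 1) (8 ^ (k + 1)) with h7 | h7
  · rw [Nat.mod_eq_of_lt h7] at h6
    exfalso
    have h8 : r / 8 ^ k ≤ (r + 1) / 8 ^ k := Nat.div_le_div_right (by omega)
    omega
  · have : r + 1 = 8 ^ (k + 1) := by omega
    unfold Nat.ModEq
    rw [h5, this]; simp

end Pool.Agent.Closing.Pure
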