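import Pool.Agent.Lib.Closing.PureConst

/-!
Numerical inequalities between the scales.
-/

namespace Pool.Agent.Closing.Pure

section nat

theorem ineq_n1 (j : ℕ) : 20 + (3 * (j + 1) + 15) ≤ 100 * ((j + 1) + 1) ^ 2 := by nlinarith
theorem ineq_n2 (j : ℕ) : 11 + (3 * (j + 1) + 15) ≤ 100 * ((j + 1) + 1) ^ 2 := by nlinarith
theorem ineq_n3 (j : ℕ) : 60 * (j + 1) ^ 2 ≤ 100 * (j + 2) ^ 2 := by
  nlinarith [Nat.zero_le (j * j), Nat.zero_le j]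
theorem ineq_n4 (j : ℕ) : 60 * (j + 1) ^ 2 + (j + 2) ≤ 100 * ((j + 4) + 1) ^ 2 := by nlinarith
theorem ineq_n5 (j : ℕ) : 3 * (j + 1) + 14 + (j + 10) ≤ 60 * (j + 1) ^ 2 := by nlinarith
theorem ineq_n6 (j : ℕ) : 60 * (j + 2) ^ 2 ≤ 100 * ((j + 1) + 1) ^ 2 := by nlinarith
theorem ineq_n7 (j : ℕ) : 60 * (j + 2) ^ 2 + 10 * (j + 2) ^ 2 ≤ 100 * (j + 2) ^ 2 := by nlinarith
theorem ineq_n8 (j : ℕ) : 60 * (j + 2) ^ 2 + (j + 2) ≤ 100 * ((j + 1) + 1) ^ 2 := by nlinarith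
theorem ineq_n9 (j : ℕ) : 6 + 3 * (j + 1) + 14 + 10 ≤ 60 * (j + 2) ^ 2 := by nlinarith
theorem ineq_n10 (j : ℕ) : 20 + 10 * (j + 2) ^ 2 ≤ 100 * ((j + 1) + 1) ^ 2 := by
  nlinarith [Nat.zero_le (j * j), Nat.zero_le j]
theorem ineq_n11 (j : ℕ) : 60 * (j + 1) ^ 2 + 10 * (j + 2) ^ 2 ≤ 100 * (j + 1) ^ 2 := by
  nlinarith [Nat.zero_le (j * j), Nat.zero_le j]

end nat

variable {S : Sys}

theorem ineq1 (j : ℕ) {c : ℝ} (hc : c ≤ 2 ^ (100 * (j + 1) ^ 2)) : c * S.κ (j + 1) ≤ S.κ j := by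
  have h1 := S.hκ.m1 j
  have h2 := S.hκ.pos (j + 1)
  unfold MM at h1
  exact (mul_le_mul_of_nonneg_right hc h2.le).trans h1

theorem ineq2 (j : ℕ) {c : ℝ} (hc : c ≤ 2 ^ (100 * (j + 1) ^ 2)) :
    c * S.κ j ^ 2 ≤ S.κ (j + 2) := by
  have h1 := S.hκ.m2 j
  unfold MM at h1
  exact (mul_le_mul_of_nonneg_right hc (sq_nonneg _)).trans h1

theorem eight_pow (n : ℕ) : (8 : ℝ) ^ n = 2 ^ (3 * n) := by
  rw [pow_mul]; norm_num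

theorem two_pow_le {a b : ℕ} (h : a ≤ b) : (2 : ℝ) ^ a ≤ 2 ^ b :=
  pow_le_pow_right₀ (by norm_num) h

/-- `κ (j+1) ≤ 2^(-100 (j+1)^2)`. -/
theorem kappa_le_inv (j : ℕ) : 2 ^ (100 * (j + 1) ^ 2) * S.κ (j + 1) ≤ 1 :=
  (ineq1 j le_rfl).trans (S.hκ.le_one j)

theorem C1_bd : (C1 + 200 : ℝ) ≤ 2 ^ 15 ∧ (C1 + 1 : ℝ) ≤ 2 ^ 15 ∧ (0 : ℝ) ≤ C1 := by
  unfold C1; norm_num

theorem const1 (j : ℕ) : (10 ^ 6 * (8 ^ (j + 1) * (C1 + 200)) : ℝ) ≤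
    2 ^ (100 * ((j + 1) + 1) ^ 2) := by
  have h1 := C1_bd.1
  have h0 := C1_bd.2.2
  have h2 : (10 ^ 6 : ℝ) ≤ 2 ^ 20 := by norm_num
  have h3 : (8 ^ (j + 1) * (C1 + 200) : ℝ) ≤ 2 ^ (3 * (j + 1)) * 2 ^ 15 := by
    rw [← eight_pow]
    exact mul_le_mul_of_nonneg_left h1 (by positivity)
  calc (10 ^ 6 * (8 ^ (j + 1) * (C1 + 200)) : ℝ) ≤ 2 ^ 20 * (2 ^ (3 * (j + 1)) * 2 ^ 15) :=
        mul_le_mul h2 h3 (by positivity) (by positivity)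
    _ = 2 ^ (20 + (3 * (j + 1) + 15)) := by rw [pow_add, pow_add]
    _ ≤ 2 ^ (100 * ((j + 1) + 1) ^ 2) := two_pow_le (ineq_n1 j)

theorem const2 (j : ℕ) : (2000 * (8 ^ (j + 1) * (C1 + 1)) : ℝ) ≤
    2 ^ (100 * ((j + 1) + 1) ^ 2) := by
  have h1 := C1_bd.2.1
  have h0 := C1_bd.2.2
  have h2 : (2000 : ℝ) ≤ 2 ^ 11 := by norm_num
  have h3 : (8 ^ (j + 1) * (C1 + 1) : ℝ) ≤ 2 ^ (3 * (j + 1)) * 2 ^ 15 := by
    rw [← eight_pow]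
    exact mul_le_mul_of_nonneg_left h1 (by positivity)
  calc (2000 * (8 ^ (j + 1) * (C1 + 1)) : ℝ) ≤ 2 ^ 11 * (2 ^ (3 * (j + 1)) * 2 ^ 15) :=
        mul_le_mul h2 h3 (by positivity) (by positivity)
    _ = 2 ^ (11 + (3 * (j + 1) + 15)) := by rw [pow_add, pow_add]
    _ ≤ 2 ^ (100 * ((j + 1) + 1) ^ 2) := two_pow_le (ineq_n2 j)

theorem YY_small (j : ℕ) : S.YY j ≤ S.κ (j + 1) / 10 ^ 6 := by
  have h3 := ineq1 (S := S) (j + 1) (const1 j)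
  unfold Sys.YY
  rw [le_div_iff₀ (by norm_num)]
  calc 8 ^ (j + 1) * (C1 + 200) * S.κ (j + 2) * 10 ^ 6
      = 10 ^ 6 * (8 ^ (j + 1) * (C1 + 200)) * S.κ (j + 1 + 1) := by ring
    _ ≤ S.κ (j + 1) := h3

theorem YY_small' (j : ℕ) : S.YY j < S.κ (j + 1) / 4 := by
  have h1 := YY_small (S := S) j
  have h2 := S.hκ.pos (j + 1)
  refine lt_of_le_of_lt h1 ?_
  rw [div_lt_div_iff₀ (by norm_num) (by norm_num)]
  nlinarith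

theorem kappa10_le : S.κ 10 ≤ 1 / 10 ^ 6 := by
  have := S.hκ.step 9
  have h8 := S.hκ.le_one 9
  rw [le_div_iff₀ (by norm_num)]
  linarith

theorem V_small (j : ℕ) :
    8 ^ (j + 1) * (C1 + 1) * S.κ (j + 3) + 2 * S.κ 10 * S.κ (j + 1) ≤ S.κ (j + 1) / 1000 := by
  have h3 := ineq1 (S := S) (j + 1) (const2 j)
  have h4 := S.hκ.anti_succ (j + 2)
  have h0 := C1_bd.2.2
  have h5 : (8 ^ (j + 1) * (C1 + 1) : ℝ) * S.κ (j + 3) ≤ S.κ (j + 1) / 2000 := by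
    rw [le_div_iff₀ (by norm_num)]
    have h6 : (0 : ℝ) ≤ 2000 * (8 ^ (j + 1) * (C1 + 1)) := by positivity
    calc 8 ^ (j + 1) * (C1 + 1) * S.κ (j + 3) * 2000
        = 2000 * (8 ^ (j + 1) * (C1 + 1)) * S.κ (j + 2 + 1) := by ring
      _ ≤ 2000 * (8 ^ (j + 1) * (C1 + 1)) * S.κ (j + 2) := mul_le_mul_of_nonneg_left h4 h6
      _ ≤ S.κ (j + 1) := h3
  have h7 := kappa10_le (S := S)
  have h9 := S.hκ.pos (j + 1)
  have h10 : 2 * S.κ 10 * S.κ (j + 1) ≤ S.κ (j + 1) / 2000 := by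
    rw [le_div_iff₀ (by norm_num)]
    have : S.κ 10 * S.κ (j + 1) ≤ 1 / 10 ^ 6 * S.κ (j + 1) := mul_le_mul_of_nonneg_right h7 h9.le
    nlinarith
  linarith

/-- The first summand of `qq j`. -/
theorem ratio_small (j : ℕ) : 2 ^ (100 * (j + 2) ^ 2) * (S.κ (j + 3) / S.κ (j + 1)) ≤ 1 := by
  have h1 := S.hκ.pos (j + 1)
  have h4 := ineq1 (S := S) (j + 1) (c := 2 ^ (100 * ((j + 1) + 1) ^ 2)) le_rfl
  have h6 := S.hκ.anti_succ (j + 2)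
  rw [← mul_div_assoc, div_le_one h1]
  exact (mul_le_mul_of_nonneg_left h6 (by positivity)).trans h4

theorem HH_pos (j : ℕ) : 0 < HH j := by unfold HH; positivity

theorem HH_kappa (j : ℕ) : 2 ^ (60 * (j + 1) ^ 2) * (HH j * S.κ (j + 1)) ≤ 1 := by
  have h2 := kappa_le_inv (S := S) j
  have h3 := S.hκ.pos (j + 1)
  calc 2 ^ (60 * (j + 1) ^ 2) * (HH j * S.κ (j + 1))
      = (2 ^ (60 * (j + 1) ^ 2) * 2 ^ (10 * (j + 2) ^ 2)) * S.κ (j + 1) := by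
        unfold HH; ring
    _ = 2 ^ (60 * (j + 1) ^ 2 + 10 * (j + 2) ^ 2) * S.κ (j + 1) := by rw [pow_add]
    _ ≤ 2 ^ (100 * (j + 1) ^ 2) * S.κ (j + 1) :=
        mul_le_mul_of_nonneg_right (two_pow_le (ineq_n11 j)) h3.le
    _ ≤ 1 := h2

theorem gg_nonneg (j : ℕ) : 0 ≤ S.gg j := by
  have h1 := S.hκ.pos (j + 1)
  have h2 := S.hκ.pos (j + 3)
  have h3 := HH_pos j
  unfold Sys.gg
  positivity

theorem qq_nonneg (j : ℕ) : 0 ≤ S.qq j := by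
  have h1 := gg_nonneg (S := S) j
  have h2 := S.hκ.pos (j + 5)
  unfold Sys.qq
  positivity

theorem qq_mul (j : ℕ) (X y : ℝ) : X * (S.qq j * y) =
    7000 * (X * ((S.κ (j + 3) / S.κ (j + 1)) * y)) + 7000 * (X * ((HH j * S.κ (j + 1)) * y))
      + X * ((2 ^ (j + 2) * S.κ (j + 5)) * y) := by
  unfold Sys.qq Sys.gg; ring

theorem qq_small (j : ℕ) : 8 ^ (j + 1) * S.qq j ≤ (1 / 2) ^ (j + 10) := by
  have a1 := ratio_small (S := S) j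
  have a2 := HH_kappa (S := S) j
  have a3 := kappa_le_inv (S := S) (j + 4)
  have p1 := S.hκ.pos (j + 1)
  have p3 := S.hκ.pos (j + 3)
  have p5 := S.hκ.pos (j + 5)
  have pr : 0 ≤ S.κ (j + 3) / S.κ (j + 1) := by positivity
  have ph : 0 ≤ HH j * S.κ (j + 1) := mul_nonneg (HH_pos j).le p1.le
  have b1 : 2 ^ (60 * (j + 1) ^ 2) * (S.κ (j + 3) / S.κ (j + 1)) ≤ 1 :=
    (mul_le_mul_of_nonneg_right (two_pow_le (ineq_n3 j)) pr).trans a1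
  have b3 : 2 ^ (60 * (j + 1) ^ 2) * (2 ^ (j + 2) * S.κ (j + 5)) ≤ 1 := by
    calc 2 ^ (60 * (j + 1) ^ 2) * (2 ^ (j + 2) * S.κ (j + 5))
        = 2 ^ (60 * (j + 1) ^ 2 + (j + 2)) * S.κ (j + 5) := by rw [pow_add]; ring
      _ ≤ 2 ^ (100 * ((j + 4) + 1) ^ 2) * S.κ (j + 5) :=
          mul_le_mul_of_nonneg_right (two_pow_le (ineq_n4 j)) p5.le
      _ ≤ 1 := a3
  have b : 2 ^ (60 * (j + 1) ^ 2) * S.qq j ≤ 2 ^ 14 := by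
    have e := qq_mul (S := S) j (2 ^ (60 * (j + 1) ^ 2)) 1
    rw [mul_one, mul_one, mul_one, mul_one] at e
    rw [e]
    have : (15001 : ℝ) ≤ 2 ^ 14 := by norm_num
    linarith
  have c1 : (0 : ℝ) < 2 ^ (60 * (j + 1) ^ 2) := by positivity
  have c2 : S.qq j ≤ 2 ^ 14 / 2 ^ (60 * (j + 1) ^ 2) := by
    rw [le_div_iff₀ c1]; linarith
  calc 8 ^ (j + 1) * S.qq j ≤ 2 ^ (3 * (j + 1)) * (2 ^ 14 / 2 ^ (60 * (j + 1) ^ 2)) := by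
        rw [eight_pow]; exact mul_le_mul_of_nonneg_left c2 (by positivity)
    _ = 2 ^ (3 * (j + 1) + 14) / 2 ^ (60 * (j + 1) ^ 2) := by rw [pow_add]; ring
    _ ≤ (1 / 2) ^ (j + 10) := by
        rw [div_pow, one_pow, div_le_div_iff₀ c1 (by positivity), one_mul, ← pow_add]
        exact two_pow_le (ineq_n5 j)

/-- `κ (j+1) κ (j+2)` is much smaller than `κ (j+3)`. -/
theorem kappa_mul (j : ℕ) :
    2 ^ (100 * (j + 2) ^ 2) * (S.κ (j + 1) * S.κ (j + 2)) ≤ S.κ (j + 3) := by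
  have h1 := ineq2 (S := S) (j + 1) (c := 2 ^ (100 * ((j + 1) + 1) ^ 2)) le_rfl
  have h2 := S.hκ.anti_succ (j + 1)
  have h3 := S.hκ.pos (j + 1)
  have h4 : S.κ (j + 1) * S.κ (j + 2) ≤ S.κ (j + 1) ^ 2 := by
    rw [sq]; exact mul_le_mul_of_nonneg_left h2 h3.le
  exact (mul_le_mul_of_nonneg_left h4 (by positivity)).trans h1

/-- agreement of the test values -/
theorem agree_small (j : ℕ) :
    2 * 8 ^ (j + 1) * S.qq j * (30 * S.κ (j + 2)) ≤ S.κ (j + 3) / 1000 := by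
  have p1 := S.hκ.pos (j + 1)
  have p2 := S.hκ.pos (j + 2)
  have p3 := S.hκ.pos (j + 3)
  have p5 := S.hκ.pos (j + 5)
  have a1 : 2 ^ (60 * (j + 2) ^ 2) * ((S.κ (j + 3) / S.κ (j + 1)) * S.κ (j + 2)) ≤ S.κ (j + 3) := by
    have h := ineq1 (S := S) (j + 1) (c := 2 ^ (60 * (j + 2) ^ 2)) (two_pow_le (ineq_n6 j))
    have e : 2 ^ (60 * (j + 2) ^ 2) * ((S.κ (j + 3) / S.κ (j + 1)) * S.κ (j + 2))
        = S.κ (j + 3) * ((2 ^ (60 * (j + 2) ^ 2) * S.κ (j + 1 + 1)) / S.κ (j + 1)) := by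
      ring
    rw [e]
    have h' : (2 ^ (60 * (j + 2) ^ 2) * S.κ (j + 1 + 1)) / S.κ (j + 1) ≤ 1 := by
      rw [div_le_one p1]; exact h
    calc _ ≤ S.κ (j + 3) * 1 := mul_le_mul_of_nonneg_left h' p3.le
      _ = _ := mul_one _
  have a2 : 2 ^ (60 * (j + 2) ^ 2) * ((HH j * S.κ (j + 1)) * S.κ (j + 2)) ≤ S.κ (j + 3) := by
    have h := kappa_mul (S := S) j
    calc 2 ^ (60 * (j + 2) ^ 2) * ((HH j * S.κ (j + 1)) * S.κ (j + 2))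
        = (2 ^ (60 * (j + 2) ^ 2) * 2 ^ (10 * (j + 2) ^ 2)) * (S.κ (j + 1) * S.κ (j + 2)) := by
          unfold HH; ring
      _ = 2 ^ (60 * (j + 2) ^ 2 + 10 * (j + 2) ^ 2) * (S.κ (j + 1) * S.κ (j + 2)) := by
          rw [pow_add]
      _ ≤ 2 ^ (100 * (j + 2) ^ 2) * (S.κ (j + 1) * S.κ (j + 2)) :=
          mul_le_mul_of_nonneg_right (two_pow_le (ineq_n7 j)) (mul_nonneg p1.le p2.le)
      _ ≤ S.κ (j + 3) := h
  have a3 : 2 ^ (60 * (j + 2) ^ 2) * ((2 ^ (j + 2) * S.κ (j + 5)) * S.κ (j + 2)) ≤ S.κ (j + 3) := by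
    have h5 : S.κ (j + 5) ≤ S.κ (j + 3) := S.hκ.anti (by omega)
    have h := kappa_le_inv (S := S) (j + 1)
    have e : 2 ^ (60 * (j + 2) ^ 2) * ((2 ^ (j + 2) * S.κ (j + 5)) * S.κ (j + 2))
        = S.κ (j + 5) * (2 ^ (60 * (j + 2) ^ 2 + (j + 2)) * S.κ (j + 2)) := by
      rw [pow_add]; ring
    rw [e]
    have h6 : 2 ^ (60 * (j + 2) ^ 2 + (j + 2)) * S.κ (j + 2) ≤ 1 :=
      (mul_le_mul_of_nonneg_right (two_pow_le (ineq_n8 j)) p2.le).trans h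
    have h7 : 0 ≤ 2 ^ (60 * (j + 2) ^ 2 + (j + 2)) * S.κ (j + 2) := by positivity
    calc _ ≤ S.κ (j + 3) * 1 := mul_le_mul h5 h6 h7 p3.le
      _ = _ := mul_one _
  have b : 2 ^ (60 * (j + 2) ^ 2) * (S.qq j * S.κ (j + 2)) ≤ 2 ^ 14 * S.κ (j + 3) := by
    rw [qq_mul]
    have : (15001 : ℝ) ≤ 2 ^ 14 := by norm_num
    have h9 : 15001 * S.κ (j + 3) ≤ 2 ^ 14 * S.κ (j + 3) := mul_le_mul_of_nonneg_right this p3.le
    linarith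
  have c1 : (0 : ℝ) < 2 ^ (60 * (j + 2) ^ 2) := by positivity
  have c2 : S.qq j * S.κ (j + 2) ≤ 2 ^ 14 * S.κ (j + 3) / 2 ^ (60 * (j + 2) ^ 2) := by
    rw [le_div_iff₀ c1]; linarith
  have c3 : (2 : ℝ) ^ (6 + 3 * (j + 1) + 14) / 2 ^ (60 * (j + 2) ^ 2) ≤ 1 / 1000 := by
    rw [div_le_div_iff₀ c1 (by norm_num), one_mul]
    calc (2 : ℝ) ^ (6 + 3 * (j + 1) + 14) * 1000 ≤ 2 ^ (6 + 3 * (j + 1) + 14) * 2 ^ 10 :=
          mul_le_mul_of_nonneg_left (by norm_num) (by positivity)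
      _ = 2 ^ (6 + 3 * (j + 1) + 14 + 10) := by rw [← pow_add]
      _ ≤ 2 ^ (60 * (j + 2) ^ 2) := two_pow_le (ineq_n9 j)
  have c4 : (60 : ℝ) * 8 ^ (j + 1) ≤ 2 ^ 6 * 2 ^ (3 * (j + 1)) := by
    rw [eight_pow]; exact mul_le_mul_of_nonneg_right (by norm_num) (by positivity)
  have c5 : 0 ≤ 2 ^ 14 * S.κ (j + 3) / 2 ^ (60 * (j + 2) ^ 2) := by positivity
  calc 2 * 8 ^ (j + 1) * S.qq j * (30 * S.κ (j + 2))
      = 60 * 8 ^ (j + 1) * (S.qq j * S.κ (j + 2)) := by ring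
    _ ≤ 60 * 8 ^ (j + 1) * (2 ^ 14 * S.κ (j + 3) / 2 ^ (60 * (j + 2) ^ 2)) :=
        mul_le_mul_of_nonneg_left c2 (by positivity)
    _ ≤ 2 ^ 6 * 2 ^ (3 * (j + 1)) * (2 ^ 14 * S.κ (j + 3) / 2 ^ (60 * (j + 2) ^ 2)) :=
        mul_le_mul_of_nonneg_right c4 c5
    _ = (2 ^ (6 + 3 * (j + 1) + 14) / 2 ^ (60 * (j + 2) ^ 2)) * S.κ (j + 3) := by
        rw [pow_add, pow_add]; ring
    _ ≤ (1 / 1000) * S.κ (j + 3) := mul_le_mul_of_nonneg_right c3 p3.le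
    _ = S.κ (j + 3) / 1000 := by ring

theorem HH_sq_small (j : ℕ) : 10 ^ 6 * HH j * S.κ (j + 1) ^ 2 ≤ S.κ (j + 3) := by
  apply ineq2 (S := S) (j + 1)
  unfold HH
  calc (10 ^ 6 * 2 ^ (10 * (j + 2) ^ 2) : ℝ) ≤ 2 ^ 20 * 2 ^ (10 * (j + 2) ^ 2) :=
        mul_le_mul_of_nonneg_right (by norm_num) (by positivity)
    _ = 2 ^ (20 + 10 * (j + 2) ^ 2) := by rw [← pow_add]
    _ ≤ 2 ^ (100 * ((j + 1) + 1) ^ 2) := two_pow_le (ineq_n10 j)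

theorem kappa10_small : 8 ^ 4 * 100 * S.κ 10 ≤ S.κ 5 := by
  have h1 := S.hκ.step 9
  have h2 : S.κ 9 ≤ S.κ 5 := S.hκ.anti (by norm_num)
  have h3 := S.hκ.pos 10
  have h4 : (8 ^ 4 * 100 : ℝ) * S.κ 10 ≤ 1000000 * S.κ 10 :=
    mul_le_mul_of_nonneg_right (by norm_num) h3.le
  linarith

end Pool.Agent.Closing.Pure
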