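import Pool.Agent.Lib.Closing.PureConst
import Pool.Agent.Lib.Closing.PureIneq

/-!
Concatenation of tubes: the fine estimates of level `j` give the rough estimates of level `j + 1`.
-/

namespace Pool.Agent.Closing.Pure

variable {S : Sys}

namespace VVaux

theorem half_pow_le_one (j : ℕ) : (1 / 2 : ℝ) ^ j ≤ 1 :=
  pow_le_one₀ (by norm_num) (by norm_num)

theorem k10_pos (S : Sys) : 0 < S.κ 10 := S.hκ.pos 10

theorem ee_nonneg (S : Sys) (j : ℕ) : 0 ≤ S.ee j := by
  have h1 := half_pow_le_one (j + 1)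
  have h2 := k10_pos S
  unfold Sys.ee
  exact mul_nonneg h2.le (by linarith)

theorem ee_le (S : Sys) (j : ℕ) : S.ee j ≤ 2 * S.κ 10 := by
  have h1 : (0 : ℝ) < (1 / 2 : ℝ) ^ (j + 1) := by positivity
  have h2 := k10_pos S
  unfold Sys.ee
  nlinarith

theorem k10_small (S : Sys) : S.κ 10 ≤ 1 / 1000 := by
  have h1 := S.hκ.step 9
  have h2 := S.hκ.le_one 9
  norm_num at h1
  linarith

theorem ee_le_one (S : Sys) (j : ℕ) : S.ee j ≤ 1 := by
  have h1 := ee_le S j
  have h2 := k10_small S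
  linarith

theorem HH_pos (j : ℕ) : 0 < HH j := by unfold HH; positivity

theorem one_le_HH (j : ℕ) : 1 ≤ HH j := by
  unfold HH
  exact one_le_pow₀ (by norm_num)

theorem gg_nonneg (S : Sys) (j : ℕ) : 0 ≤ S.gg j := by
  have h1 := S.hκ.pos (j + 3)
  have h2 := S.hκ.pos (j + 1)
  have h3 := HH_pos j
  unfold Sys.gg
  positivity

theorem gg_le_qq (S : Sys) (j : ℕ) : S.gg j ≤ S.qq j := by
  have h1 := S.hκ.pos (j + 5)
  unfold Sys.qq
  have : 0 ≤ (2 : ℝ) ^ (j + 2) * S.κ (j + 5) := by positivity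
  linarith

theorem tau_le_qq (S : Sys) (j : ℕ) : 2 ^ (j + 2) * S.κ (j + 5) ≤ S.qq j := by
  have h1 := gg_nonneg S j
  unfold Sys.qq
  linarith

theorem qq_nonneg (S : Sys) (j : ℕ) : 0 ≤ S.qq j := (gg_nonneg S j).trans (gg_le_qq S j)

theorem eight_pow (j : ℕ) : (2 : ℝ) ^ (j + 2) ≤ 8 ^ (j + 1) := by
  induction j with
  | zero => norm_num
  | succ j ih =>
    have h1 : (2 : ℝ) ^ (j + 1 + 2) = 2 * 2 ^ (j + 2) := by ring
    have h2 : (8 : ℝ) ^ (j + 1 + 1) = 8 * 8 ^ (j + 1) := by ring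
    rw [h1, h2]
    have h3 : (0 : ℝ) < 2 ^ (j + 2) := by positivity
    linarith

theorem HH_growth (j : ℕ) : 20 * 16 ^ (j + 1) * HH j ≤ HH (j + 1) := by
  have h1 : HH (j + 1) = 2 ^ (20 * j + 50) * HH j := by
    unfold HH
    rw [← pow_add]
    congr 1
    ring
  rw [h1]
  have h2 : (20 : ℝ) * 16 ^ (j + 1) ≤ 2 ^ (20 * j + 50) := by
    have h3 : (16 : ℝ) ^ (j + 1) = 2 ^ (4 * (j + 1)) := by
      rw [pow_mul]; norm_num
    rw [h3]
    calc (20 : ℝ) * 2 ^ (4 * (j + 1)) ≤ 2 ^ 5 * 2 ^ (4 * (j + 1)) := by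
          gcongr; norm_num
      _ = 2 ^ (5 + 4 * (j + 1)) := by rw [pow_add]
      _ ≤ 2 ^ (20 * j + 50) := pow_le_pow_right₀ (by norm_num) (by omega)
  have h4 := HH_pos j
  gcongr

/-- The next digit contributes a vector with coordinates in `[0, 7 κ]`. -/
theorem step_digit {κ : ℕ → ℝ} (hκ : Kap κ) (k z z' : ℕ) :
    ‖(κ (k + 1) * hs (dig k z)) • xi (dig (k + 1) z) -
      (κ (k + 1) * hs (dig k z')) • xi (dig (k + 1) z')‖ ≤ 7 * κ (k + 1) := by
  have hk := hκ.pos (k + 1)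
  have key : ∀ z : ℕ, 0 ≤ ((κ (k + 1) * hs (dig k z)) • xi (dig (k + 1) z)).1 ∧
      ((κ (k + 1) * hs (dig k z)) • xi (dig (k + 1) z)).1 ≤ 7 * κ (k + 1) ∧
      0 ≤ ((κ (k + 1) * hs (dig k z)) • xi (dig (k + 1) z)).2 ∧
      ((κ (k + 1) * hs (dig k z)) • xi (dig (k + 1) z)).2 ≤ 7 * κ (k + 1) := by
    intro z
    have a1 := hs_pos (dig k z)
    have a2 := hs_le (dig k z)
    have a0 : 0 ≤ hs (dig k z) := by linarith
    have b1 : ((dig (k + 1) z : ℕ) : ℝ) ≤ 7 := by
      exact_mod_cast (by have := dig_lt (k + 1) z; omega : dig (k + 1) z ≤ 7)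
    have b2 : ((sp (dig (k + 1) z) : ℕ) : ℝ) ≤ 7 := by
      exact_mod_cast (by have := sp_lt (dig_lt (k + 1) z); omega : sp (dig (k + 1) z) ≤ 7)
    have c1 : (0 : ℝ) ≤ ((dig (k + 1) z : ℕ) : ℝ) := by positivity
    have c2 : (0 : ℝ) ≤ ((sp (dig (k + 1) z) : ℕ) : ℝ) := by positivity
    have d0 : 0 ≤ κ (k + 1) * hs (dig k z) := mul_nonneg hk.le a0
    have d1 : κ (k + 1) * hs (dig k z) ≤ κ (k + 1) := by nlinarith
    simp only [xi, Prod.smul_fst, Prod.smul_snd, smul_eq_mul]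
    refine ⟨mul_nonneg d0 c1, ?_, mul_nonneg d0 c2, ?_⟩
    · calc κ (k + 1) * hs (dig k z) * ((dig (k + 1) z : ℕ) : ℝ) ≤ κ (k + 1) * 7 := by gcongr
        _ = _ := by ring
    · calc κ (k + 1) * hs (dig k z) * ((sp (dig (k + 1) z) : ℕ) : ℝ) ≤ κ (k + 1) * 7 := by gcongr
        _ = _ := by ring
  obtain ⟨p1, p2, p3, p4⟩ := key z
  obtain ⟨q1, q2, q3, q4⟩ := key z'
  rw [Prod.norm_def]
  apply max_le
  · rw [Prod.fst_sub, Real.norm_eq_abs, abs_le]; constructor <;> linarith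
  · rw [Prod.snd_sub, Real.norm_eq_abs, abs_le]; constructor <;> linarith

/-- The last number with `j` nonzero digits before `n`. -/
theorem exists_last {j m n : ℕ} (hm : NZ j m) (hmn : m < n) :
    ∃ n', m ≤ n' ∧ n' < n ∧ NZ j n' ∧ ∀ i, n' < i → i < n → ¬ NZ j i := by
  classical
  have h1 : m ≤ n - 1 := by omega
  refine ⟨Nat.findGreatest (NZ j) (n - 1), Nat.le_findGreatest h1 hm, ?_,
    Nat.findGreatest_spec h1 hm, fun i hi hin => ?_⟩
  · have := Nat.findGreatest_le (P := NZ j) (n - 1)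
    omega
  · exact Nat.findGreatest_is_greatest hi (by omega)

/-- Accumulated estimate. -/
theorem acc (j : ℕ) (h : S.KK j)
    (hV : 8 ^ (j + 1) * (C1 + 1) * S.κ (j + 3) + 2 * S.κ 10 * S.κ (j + 1) ≤ S.κ (j + 1) / 1000)
    (hq : 8 ^ (j + 1) * S.qq j ≤ (1 / 2) ^ (j + 10))
    {m : ℕ} (hm : NZ j m) : ∀ n, NZ j n → m < n → (∀ i, m < i → i < n → ¬ NZ (j + 1) i) →
    TB (S.T (m + 1) (n - m - 1)) (S.Om' j m) (2 * ((n - m : ℕ) : ℝ) * S.qq j)
      (S.ee j * (1 + 2 * ((n - m : ℕ) : ℝ) * S.qq j)) (2 ^ (j + 2))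
      (10 * ((n - m : ℕ) : ℝ) * HH j) (20 * 2 ^ (j + 1) * ((n - m : ℕ) : ℝ) * HH j) ∧
    ∀ y ∈ S.Om' j m, ‖(S.T (m + 1) (n - m - 1) y).2 - y.2 -
      (Xt S.κ (j + 1) n - Xt S.κ (j + 1) (m + 1))‖ ≤
        ((n - m : ℕ) : ℝ) * ((C1 + 1) * S.κ (j + 3)) + 2 * S.κ 10 * |y.1| := by
  have hk1 := S.hκ.pos (j + 1)
  have hk3 := S.hκ.pos (j + 3)
  have hk10 := k10_pos S
  have hC : (0 : ℝ) < C1 + 1 := by unfold C1; norm_num
  have hH := HH_pos j
  have hH1 := one_le_HH j
  have he0 := ee_nonneg S j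
  have he1 := ee_le S j
  have he2 := ee_le_one S j
  have hg0 := gg_nonneg S j
  have hgq := gg_le_qq S j
  have hq0 := qq_nonneg S j
  have hOm : S.Om' j m ⊆ S.Om j m := by
    rintro y ⟨h1, h2⟩
    exact ⟨h1, h2.trans (by linarith)⟩
  intro n
  induction n using Nat.strong_induction_on with
  | _ n ih =>
    intro hn hmn hno
    obtain ⟨n', hn1, hn2, hn3, hn4⟩ := exists_last hm hmn
    rcases Nat.eq_or_lt_of_le hn1 with heq | hlt
    · -- consecutive numbers
      subst heq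
      obtain ⟨k1, k2⟩ := h m n hm hn hmn hn4
      have hR : (1 : ℝ) ≤ ((n - m : ℕ) : ℝ) := by exact_mod_cast (by omega : 1 ≤ n - m)
      refine ⟨k1.mono hOm ?_ ?_ ?_ ?_ ?_, fun y hy => ?_⟩
      · nlinarith
      · have : 0 ≤ 2 * ((n - m : ℕ) : ℝ) * S.qq j := by positivity
        nlinarith
      · exact pow_le_pow_right₀ (by norm_num) (by omega)
      · nlinarith
      · have h2 : (1 : ℝ) ≤ 2 ^ (j + 1) := one_le_pow₀ (by norm_num)
        have h3 : (1 : ℝ) ≤ 2 ^ (j + 1) * ((n - m : ℕ) : ℝ) := by nlinarith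
        nlinarith
      · rw [Sys.tele S hmn hn4 (Nat.le_succ j)]
        refine (k2 y (hOm hy)).trans ?_
        have h4 : 0 ≤ |y.1| := abs_nonneg _
        have h5 : S.ee j * |y.1| ≤ 2 * S.κ 10 * |y.1| := by gcongr
        have h6 : C1 * S.κ (j + 3) ≤ (C1 + 1) * S.κ (j + 3) := by gcongr; linarith
        have h7 : 1 * ((C1 + 1) * S.κ (j + 3)) ≤ ((n - m : ℕ) : ℝ) * ((C1 + 1) * S.κ (j + 3)) := by
          gcongr
        linarith
    · -- split off the last piece
      obtain ⟨a1, a2⟩ := ih n' hn2 hn3 hlt fun i hi hi' => hno i hi (by omega)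
      obtain ⟨k1, k2⟩ := h n' n hn3 hn hn2 hn4
      have hfz : fz n' = j := by
        apply fz_eq hn3
        by_contra hc
        exact hno n' hlt hn2 (NZ_succ hn3 hc)
      set R : ℝ := ((n' - m : ℕ) : ℝ) with hRdef
      have hR1 : (1 : ℝ) ≤ R := by rw [hRdef]; exact_mod_cast (by omega : 1 ≤ n' - m)
      have hR8 : R + 1 ≤ 8 ^ (j + 1) := by
        have := gap_le (k := j + 1) (m := m) (n := n) hno
        rw [hRdef]
        exact_mod_cast (by omega : n' - m + 1 ≤ 8 ^ (j + 1))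
      have hRn : R + 1 ≤ ((n - m : ℕ) : ℝ) := by
        rw [hRdef]; exact_mod_cast (by omega : n' - m + 1 ≤ n - m)
      -- smallness
      have hRq : (R + 1) * S.qq j ≤ 1 / 1000 := by
        calc (R + 1) * S.qq j ≤ 8 ^ (j + 1) * S.qq j := by gcongr
          _ ≤ (1 / 2) ^ (j + 10) := hq
          _ = (1 / 2) ^ j * (1 / 2) ^ 10 := by rw [pow_add]
          _ ≤ 1 * (1 / 2) ^ 10 := by gcongr; exact half_pow_le_one j
          _ ≤ 1 / 1000 := by norm_num
      have h2q : 2 ^ (j + 2) * S.qq j ≤ 1 / 1000 := by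
        calc 2 ^ (j + 2) * S.qq j ≤ 8 ^ (j + 1) * S.qq j := by gcongr; exact eight_pow j
          _ ≤ (1 / 2) ^ (j + 10) := hq
          _ = (1 / 2) ^ j * (1 / 2) ^ 10 := by rw [pow_add]
          _ ≤ 1 * (1 / 2) ^ 10 := by gcongr; exact half_pow_le_one j
          _ ≤ 1 / 1000 := by norm_num
      set τ : ℝ := S.τ (fz n') (win n') with hτdef
      have hτ0 : 0 ≤ τ := S.τ0 _ _
      have hτ1 : τ ≤ S.κ (j + 5) := by
        have := S.τle (fz n') (win n')
        rw [hfz] at this; rw [hτdef, hfz]; exact this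
      have hτq : 2 ^ (j + 2) * τ ≤ S.qq j :=
        (mul_le_mul_of_nonneg_left hτ1 (by positivity)).trans (tau_le_qq S j)
      have hτk : τ ≤ S.κ (j + 1) := hτ1.trans (S.hκ.anti (by omega))
      -- displacement at the end of the first part
      have hdisp : ∀ y ∈ S.Om' j m,
          R * ((C1 + 1) * S.κ (j + 3)) + 2 * S.κ 10 * |y.1| ≤ S.κ (j + 1) / 1000 := by
        intro y hy
        refine le_trans ?_ hV
        have h1 : |y.1| ≤ S.κ (j + 1) := hy.1
        have h2 : R ≤ 8 ^ (j + 1) := by linarith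
        have h3 : R * ((C1 + 1) * S.κ (j + 3)) ≤ 8 ^ (j + 1) * ((C1 + 1) * S.κ (j + 3)) := by
          gcongr
        have h4 : 2 * S.κ 10 * |y.1| ≤ 2 * S.κ 10 * S.κ (j + 1) := by gcongr
        linarith
      -- position after the window n'
      have hpos : ∀ y : E3, (S.Fc (fz n') (win n') (S.T (m + 1) (n' - m - 1) y)).2 =
          (S.T (m + 1) (n' - m - 1) y).2 + (Xt S.κ (j + 1) (n' + 1) - Xt S.κ (j + 1) n') := by
        intro y
        show (S.T (m + 1) (n' - m - 1) y).2 + (_ - _) = _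
        rw [Xt_step S.κ (z := n') (K := j + 1) (by omega)]
      have hmem : ∀ y ∈ S.Om' j m,
          Fw S.χ τ (Xt S.κ (fz n' + 1) (win n' + 1) - Xt S.κ (fz n') (win n'))
            (S.T (m + 1) (n' - m - 1) y) ∈ S.Om j n' := by
        intro y hy
        have hFc : Fw S.χ τ (Xt S.κ (fz n' + 1) (win n' + 1) - Xt S.κ (fz n') (win n'))
            (S.T (m + 1) (n' - m - 1) y) =
            S.Fc (fz n') (win n') (S.T (m + 1) (n' - m - 1) y) := rfl
        rw [hFc]
        constructor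
        · show |τ * S.χ _| ≤ _
          rw [abs_mul, abs_of_nonneg hτ0]
          calc τ * |S.χ (S.T (m + 1) (n' - m - 1) y).1| ≤ S.κ (j + 1) * 1 := by
                gcongr; exact S.hχ.bd _
            _ = _ := mul_one _
        · rw [hpos y]
          have b1 := a2 y hy
          have b2 := hdisp y hy
          have b3 := step_digit S.hκ j (n' + 1) (m + 1)
          have b4 : ‖y.2 - Xt S.κ j (m + 1)‖ ≤ 10 * S.κ (j + 1) := hy.2
          have e1 : (S.T (m + 1) (n' - m - 1) y).2 +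
              (Xt S.κ (j + 1) (n' + 1) - Xt S.κ (j + 1) n') - Xt S.κ j (n' + 1) =
              ((S.T (m + 1) (n' - m - 1) y).2 - y.2 -
                (Xt S.κ (j + 1) n' - Xt S.κ (j + 1) (m + 1))) +
              (y.2 - Xt S.κ j (m + 1)) +
              ((S.κ (j + 1) * hs (dig j (n' + 1))) • xi (dig (j + 1) (n' + 1)) -
                (S.κ (j + 1) * hs (dig j (m + 1))) • xi (dig (j + 1) (m + 1))) := by
            rw [Xt_succ S.κ j (n' + 1), Xt_succ S.κ j (m + 1)]
            abel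
          rw [e1]
          refine (norm_add_le _ _).trans ?_
          refine (add_le_add (norm_add_le _ _) le_rfl).trans ?_
          linarith
      -- the concatenation
      have hT : S.T (m + 1) (n - m - 1) = fun y => S.T (n' + 1) (n - n' - 1)
          (Fw S.χ τ (Xt S.κ (fz n' + 1) (win n' + 1) - Xt S.κ (fz n') (win n'))
            (S.T (m + 1) (n' - m - 1) y)) := by
        funext y
        have e1 : n - m - 1 = (n' - m - 1) + 1 + (n - n' - 1) := by omega
        rw [e1, S.T_concat]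
        have e2 : m + 1 + (n' - m - 1) = n' := by omega
        rw [e2]
        rfl
      have hg1 : 0 ≤ 2 * R * S.qq j := by positivity
      have hg2 : 2 * R * S.qq j ≤ 1 / 500 := by linarith
      have hgg1 : S.gg j ≤ 1 / 1000 := by nlinarith
      have hqq1 : S.qq j ≤ 1 / 1000 := by nlinarith
      have hK : τ * 2 ^ (j + 2) ≤ S.qq j := by rw [mul_comm]; exact hτq
      have he3 : S.ee j * (1 + 2 * R * S.qq j) ≤ 1 / 100 := by
        have := k10_small S
        have h1 : S.ee j ≤ 1 / 500 := by linarith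
        calc S.ee j * (1 + 2 * R * S.qq j) ≤ 1 / 500 * (1 + 1 / 500) := by gcongr
          _ ≤ 1 / 100 := by norm_num
      have hcomp := TB.comp S.hχ (τ := τ)
        (c := Xt S.κ (fz n' + 1) (win n' + 1) - Xt S.κ (fz n') (win n')) a1 k1 hmem hg1
        (by positivity) (by positivity) hg0 he0 (by positivity) hH.le hH.le hτ0
        (by linarith) (by linarith) (by linarith)
      constructor
      · rw [hT]
        refine hcomp.mono (Set.Subset.refl _) ?_ ?_ ?_ ?_ ?_
        · -- g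
          have h1 : S.gg j * (1 + 2 * R * S.qq j) ≤ S.gg j * 2 := by gcongr; linarith
          have h2 : S.ee j * τ * 2 ^ (j + 2) ≤ 1 * S.qq j := by
            rw [mul_assoc]; gcongr
          have h3 : 2 * (R + 1) * S.qq j ≤ 2 * ((n - m : ℕ) : ℝ) * S.qq j := by gcongr
          have h4 : S.ee j * τ * 2 ^ (j + 2) ≤ 2 ^ (j + 2) * S.κ (j + 5) := by
            calc S.ee j * τ * 2 ^ (j + 2) ≤ 1 * S.κ (j + 5) * 2 ^ (j + 2) := by gcongr
              _ = _ := by ring
          have h5 : S.qq j = S.gg j + 2 ^ (j + 2) * S.κ (j + 5) := rfl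
          have h6 : 0 ≤ (2 : ℝ) ^ (j + 2) * S.κ (j + 5) := by
            have := S.hκ.pos (j + 5); positivity
          linarith
        · -- e
          have h1 : S.gg j * (S.ee j * (1 + 2 * R * S.qq j)) ≤ S.gg j * (S.ee j * 2) := by
            gcongr; linarith
          have h4 : S.ee j * τ * 2 ^ (j + 2) ≤ S.ee j * (2 ^ (j + 2) * S.κ (j + 5)) := by
            calc S.ee j * τ * 2 ^ (j + 2) = S.ee j * (2 ^ (j + 2) * τ) := by ring
              _ ≤ _ := by gcongr
          have h5 : S.qq j = S.gg j + 2 ^ (j + 2) * S.κ (j + 5) := rfl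
          have h6 : 0 ≤ S.ee j * ((2 : ℝ) ^ (j + 2) * S.κ (j + 5)) := by
            have := S.hκ.pos (j + 5); positivity
          have h3 : S.ee j * (1 + 2 * (R + 1) * S.qq j) ≤
              S.ee j * (1 + 2 * ((n - m : ℕ) : ℝ) * S.qq j) := by gcongr
          have h7 : S.ee j * (1 + 2 * (R + 1) * S.qq j) =
              S.ee j * (1 + 2 * R * S.qq j) + S.gg j * (S.ee j * 2) +
                2 * (S.ee j * (2 ^ (j + 2) * S.κ (j + 5))) := by
            rw [h5]; ring
          linarith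
        · -- K
          apply le_of_eq; ring
        · -- B
          have hτA : τ * (20 * 2 ^ (j + 1) * R * HH j + 4 * (2 ^ (j + 2)) ^ 2) ≤ 2 * HH j := by
            have e1 : τ * (20 * 2 ^ (j + 1) * R * HH j + 4 * (2 ^ (j + 2)) ^ 2) =
                10 * (R * (2 ^ (j + 2) * τ)) * HH j + 4 * (2 ^ (j + 2) * (2 ^ (j + 2) * τ)) := by
              ring
            rw [e1]
            have e2 : R * (2 ^ (j + 2) * τ) ≤ 1 / 1000 := by
              calc R * (2 ^ (j + 2) * τ) ≤ (R + 1) * S.qq j := by gcongr; linarith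
                _ ≤ _ := hRq
            have e3 : 2 ^ (j + 2) * (2 ^ (j + 2) * τ) ≤ 1 / 1000 :=
              (mul_le_mul_of_nonneg_left hτq (by positivity)).trans h2q
            have e4 : 10 * (R * (2 ^ (j + 2) * τ)) * HH j ≤ 10 * (1 / 1000) * HH j := by gcongr
            linarith
          have h1 : S.ee j * (τ * (20 * 2 ^ (j + 1) * R * HH j + 4 * (2 ^ (j + 2)) ^ 2)) ≤
              1 * (2 * HH j) := by gcongr
          have h2 : S.gg j * (10 * R * HH j) ≤ 1 * HH j := by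
            have : S.gg j * (10 * R * HH j) = 10 * (R * S.gg j) * HH j := by ring
            rw [this]
            have h3 : R * S.gg j ≤ 1 / 1000 := by
              calc R * S.gg j ≤ (R + 1) * S.qq j := by gcongr; linarith
                _ ≤ _ := hRq
            have : 10 * (R * S.gg j) ≤ 1 := by linarith
            gcongr
          have h3 : 10 * (R + 1) * HH j ≤ 10 * ((n - m : ℕ) : ℝ) * HH j := by gcongr
          linarith
        · -- A
          have hτA : τ * (20 * 2 ^ (j + 1) * R * HH j + 4 * (2 ^ (j + 2)) ^ 2) ≤ 2 * HH j := by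
            have e1 : τ * (20 * 2 ^ (j + 1) * R * HH j + 4 * (2 ^ (j + 2)) ^ 2) =
                10 * (R * (2 ^ (j + 2) * τ)) * HH j + 4 * (2 ^ (j + 2) * (2 ^ (j + 2) * τ)) := by
              ring
            rw [e1]
            have e2 : R * (2 ^ (j + 2) * τ) ≤ 1 / 1000 := by
              calc R * (2 ^ (j + 2) * τ) ≤ (R + 1) * S.qq j := by gcongr; linarith
                _ ≤ _ := hRq
            have e3 : 2 ^ (j + 2) * (2 ^ (j + 2) * τ) ≤ 1 / 1000 :=
              (mul_le_mul_of_nonneg_left hτq (by positivity)).trans h2q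
            have e4 : 10 * (R * (2 ^ (j + 2) * τ)) * HH j ≤ 10 * (1 / 1000) * HH j := by gcongr
            linarith
          have hp : (1 : ℝ) ≤ 2 ^ (j + 1) := one_le_pow₀ (by norm_num)
          have h1 : (2 : ℝ) ^ (j + 1) * (10 * R * HH j +
              τ * (20 * 2 ^ (j + 1) * R * HH j + 4 * (2 ^ (j + 2)) ^ 2)) ≤
              2 ^ (j + 1) * (10 * R * HH j + 2 * HH j) := by gcongr
          have h2 : 4 * HH j ≤ 4 * (2 ^ (j + 1) * HH j) := by nlinarith
          have h3 : 20 * 2 ^ (j + 1) * (R + 1) * HH j ≤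
              20 * 2 ^ (j + 1) * ((n - m : ℕ) : ℝ) * HH j := by gcongr
          have h4 : 0 ≤ (2 : ℝ) ^ (j + 1) * HH j := by positivity
          have h5 : 0 ≤ (2 : ℝ) ^ (j + 1) * (R * HH j) := by positivity
          have h6 : 20 * 2 ^ (j + 1) * (R + 1) * HH j =
              20 * (2 ^ (j + 1) * (R * HH j)) + 20 * (2 ^ (j + 1) * HH j) := by ring
          have h7 : (2 : ℝ) ^ (j + 1) * (10 * R * HH j + 2 * HH j) =
              10 * (2 ^ (j + 1) * (R * HH j)) + 2 * (2 ^ (j + 1) * HH j) := by ring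
          linarith
      · intro y hy
        have hz := hmem y hy
        have hd := k2 _ hz
        have b1 := a2 y hy
        rw [hT]
        show ‖(S.T (n' + 1) (n - n' - 1) (Fw S.χ τ (Xt S.κ (fz n' + 1) (win n' + 1) -
            Xt S.κ (fz n') (win n')) (S.T (m + 1) (n' - m - 1) y))).2 - y.2 - _‖ ≤ _
        rw [← Sys.tele S hn2 hn4 (Nat.le_succ j)] at hd
        have hp2 : (Fw S.χ τ (Xt S.κ (fz n' + 1) (win n' + 1) - Xt S.κ (fz n') (win n'))
            (S.T (m + 1) (n' - m - 1) y)).2 =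
            (S.T (m + 1) (n' - m - 1) y).2 + (Xt S.κ (j + 1) (n' + 1) - Xt S.κ (j + 1) n') :=
          hpos y
        have hp1 : |(Fw S.χ τ (Xt S.κ (fz n' + 1) (win n' + 1) - Xt S.κ (fz n') (win n'))
            (S.T (m + 1) (n' - m - 1) y)).1| ≤ S.κ (j + 5) := by
          show |τ * S.χ _| ≤ _
          rw [abs_mul, abs_of_nonneg hτ0]
          calc τ * |S.χ (S.T (m + 1) (n' - m - 1) y).1| ≤ S.κ (j + 5) * 1 := by
                gcongr
                · exact (S.hκ.pos _).le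
                · exact S.hχ.bd _
            _ = _ := mul_one _
        set z := Fw S.χ τ (Xt S.κ (fz n' + 1) (win n' + 1) - Xt S.κ (fz n') (win n'))
            (S.T (m + 1) (n' - m - 1) y) with hzdef
        have e1 : (S.T (n' + 1) (n - n' - 1) z).2 - y.2 -
            (Xt S.κ (j + 1) n - Xt S.κ (j + 1) (m + 1)) =
            ((S.T (n' + 1) (n - n' - 1) z).2 - z.2 -
              (Xt S.κ (j + 1) n - Xt S.κ (j + 1) (n' + 1))) +
            ((S.T (m + 1) (n' - m - 1) y).2 - y.2 -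
              (Xt S.κ (j + 1) n' - Xt S.κ (j + 1) (m + 1))) := by
          rw [hp2]; abel
        rw [e1]
        have h5 : S.ee j * |z.1| ≤ S.κ (j + 3) := by
          calc S.ee j * |z.1| ≤ 1 * S.κ (j + 5) := by gcongr
            _ ≤ S.κ (j + 3) := by rw [one_mul]; exact S.hκ.anti (by omega)
        have h6 : (R + 1) * ((C1 + 1) * S.κ (j + 3)) ≤
            ((n - m : ℕ) : ℝ) * ((C1 + 1) * S.κ (j + 3)) := by gcongr
        calc _ ≤ _ := norm_add_le _ _
          _ ≤ (C1 * S.κ (j + 3) + S.ee j * |z.1|) +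
              (R * ((C1 + 1) * S.κ (j + 3)) + 2 * S.κ 10 * |y.1|) := add_le_add hd b1
          _ ≤ _ := by linarith

end VVaux

/-- Concatenation of tubes. -/
theorem VV_of_KK_aux (j : ℕ) (h : S.KK j)
    (hV : 8 ^ (j + 1) * (C1 + 1) * S.κ (j + 3) + 2 * S.κ 10 * S.κ (j + 1) ≤ S.κ (j + 1) / 1000)
    (hq : 8 ^ (j + 1) * S.qq j ≤ (1 / 2) ^ (j + 10)) : S.VV j := by
  intro m n hm hn hmn hno
  obtain ⟨h1, h2⟩ := VVaux.acc j h hV hq hm n hn hmn hno
  have hR : ((n - m : ℕ) : ℝ) ≤ 8 ^ (j + 1) := by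
    have := gap_le (k := j + 1) (m := m) (n := n) hno
    exact_mod_cast (by omega : n - m ≤ 8 ^ (j + 1))
  have hq0 := VVaux.qq_nonneg S j
  have he0 := VVaux.ee_nonneg S j
  have hH := VVaux.HH_pos j
  have hg := VVaux.HH_growth j
  have hk10 := VVaux.k10_pos S
  have hk3 := S.hκ.pos (j + 3)
  have hC : (0 : ℝ) < C1 + 1 := by unfold C1; norm_num
  have hR0 : (0 : ℝ) ≤ ((n - m : ℕ) : ℝ) := by positivity
  refine ⟨h1.mono (Set.Subset.refl _) ?_ ?_ le_rfl ?_ ?_, fun y hy => (h2 y hy).trans ?_⟩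
  · gcongr
  · -- e
    have h3 : 2 * ((n - m : ℕ) : ℝ) * S.qq j ≤ 2 * (1 / 2) ^ (j + 10) := by
      calc 2 * ((n - m : ℕ) : ℝ) * S.qq j ≤ 2 * 8 ^ (j + 1) * S.qq j := by gcongr
        _ = 2 * (8 ^ (j + 1) * S.qq j) := by ring
        _ ≤ _ := by gcongr
    have h4 : S.ee j * (1 + 2 * ((n - m : ℕ) : ℝ) * S.qq j) ≤
        S.ee j * (1 + 2 * (1 / 2) ^ (j + 10)) := by gcongr
    refine h4.trans ?_
    unfold Sys.ee
    have e1 : (1 / 2 : ℝ) ^ (j + 10) = (1 / 2) ^ j * (1 / 1024) := by rw [pow_add]; norm_num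
    have e2 : (1 / 2 : ℝ) ^ (j + 1) = (1 / 2) ^ j * (1 / 2) := by rw [pow_succ]
    have e3 : (1 / 2 : ℝ) ^ (j + 1 + 1) = (1 / 2) ^ j * (1 / 4) := by
      rw [pow_succ, pow_succ]; ring
    rw [e1, e2, e3]
    have hp : (0 : ℝ) < (1 / 2 : ℝ) ^ j := by positivity
    have hp1 := VVaux.half_pow_le_one j
    set p := (1 / 2 : ℝ) ^ j
    rw [mul_assoc]
    apply mul_le_mul_of_nonneg_left _ hk10.le
    nlinarith
  · -- B
    refine le_trans ?_ hg
    have h3 : 10 * ((n - m : ℕ) : ℝ) * HH j ≤ 10 * 8 ^ (j + 1) * HH j := by gcongr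
    refine h3.trans ?_
    gcongr
    · norm_num
    · norm_num
  · -- A
    refine le_trans ?_ hg
    have h3 : 20 * 2 ^ (j + 1) * ((n - m : ℕ) : ℝ) * HH j ≤
        20 * 2 ^ (j + 1) * 8 ^ (j + 1) * HH j := by gcongr
    refine h3.trans (le_of_eq ?_)
    have : (16 : ℝ) ^ (j + 1) = 2 ^ (j + 1) * 8 ^ (j + 1) := by rw [← mul_pow]; norm_num
    rw [this]; ring
  · have h3 : ((n - m : ℕ) : ℝ) * ((C1 + 1) * S.κ (j + 3)) ≤
        8 ^ (j + 1) * ((C1 + 1) * S.κ (j + 3)) := by gcongr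
    linarith

/-- Concatenation of tubes: the fine estimates of level `j` imply the rough estimates. -/
theorem VV_of_KK (j : ℕ) (h : S.KK j) : S.VV j :=
  VV_of_KK_aux j h (V_small j) (qq_small j)

end Pool.Agent.Closing.Pure
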