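import Pool.Agent.Lib.Closing.PureTrans
import Pool.Agent.Lib.Closing.PureVV

/-!
Far start lemma: the tail after a pass is short.
-/

namespace Pool.Agent.Closing.Pure

variable {S : Sys}

theorem next_time (k c n : ℕ) : ∃ n2, n < n2 ∧ NZ k (n2 + c) ∧
    ∀ t, n < t → t < n2 → ¬ NZ k (t + c) := by
  classical
  obtain ⟨z, h1, _, h3⟩ := exists_NZ k (n + c)
  have hex : ∃ n2, n < n2 ∧ NZ k (n2 + c) := ⟨z - c, by omega, by
    rwa [show z - c + c = z by omega]⟩
  refine ⟨Nat.find hex, (Nat.find_spec hex).1, (Nat.find_spec hex).2, ?_⟩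
  intro t h4 h5 h6
  exact Nat.find_min hex h5 ⟨h4, h6⟩

/-- One scale of the far start lemma. -/
theorem far_scale (O : Orb S) {j c M : ℕ} (hA : O.AA (j + 1) c M) (hC : O.CP j M)
    (hK : ∀ i < j, S.KK i) {n : ℕ} (hn : M ≤ n) (hl : j ≤ O.l n) {i : ℕ} (hi : i ≤ j)
    (hγ : ‖O.γ n‖ ≤ S.κ i) {a : ℝ} (ha0 : 0 ≤ a) (ha : 3 ≤ i → |(O.P (n + 1)).1| ≤ a)
    (ha' : 3 ≤ i → a ≤ S.κ i) :
    ‖O.γ n‖ ≤ (144 + 8 ^ i * (C1 + 1)) * S.κ (i + 2) + 2 * S.κ 10 * a := by
  have hz : NZ j (n + c) := NZ_of_stage O hA (by omega) hn hl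
  obtain ⟨n', h1, h2, h3⟩ := next_time i c n
  have hrun := run O hA hC hi hn h1 h3
  have h3' : ∀ t, n + c < t → t < n' + c → ¬ NZ i t := by
    intro t t1 t2
    have := h3 (t - c) (by omega) (by omega)
    rwa [show t - c + c = t by omega] at this
  have hgap := gap_le (k := i) (m := n + c) (n := n' + c) h3'
  have p2 := S.hκ.pos (i + 2)
  have p10 := S.hκ.pos 10
  have hmod1 : O.w n + 1 ≡ n + c + 1 [MOD 8 ^ (j + 1)] := by
    have := hA n hn
    rw [show min (O.l n + 1) (j + 1) = j + 1 by omega] at this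
    exact this.symm.add_right 1
  -- displacement
  have hu : ‖(O.Q n').2 - (O.P (n + 1)).2 - (Xt S.κ i (n' + c) - Xt S.κ i (n + c + 1))‖ ≤
      8 ^ i * (C1 + 1) * S.κ (i + 2) + 2 * S.κ 10 * a := by
    rcases Nat.lt_or_ge i 3 with hi3 | hi3
    · rw [hrun]
      have hc := S.T_disp_crude (n + 1 + c) (n' - n - 1) (k := i)
        (fun t ht => h3' _ (by omega) (by omega)) (O.P (n + 1))
      rw [show n + 1 + c + (n' - n - 1) = n' + c by omega, show n + 1 + c = n + c + 1 by omega]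
        at hc
      rw [show n + 1 + c = n + c + 1 by omega]
      refine hc.trans ?_
      have h5 : ((n' - n - 1 : ℕ) : ℝ) + 1 ≤ 8 ^ i := by
        have : n' - n - 1 + 1 ≤ 8 ^ i := by omega
        exact_mod_cast this
      have h6 : S.κ 10 ≤ S.κ (i + 2) := S.hκ.anti (by omega)
      have h7 : (1 : ℝ) ≤ C1 + 1 := by unfold C1; norm_num
      have h8 : 0 ≤ 2 * S.κ 10 * a := by positivity
      have h9 : (0 : ℝ) ≤ ((n' - n - 1 : ℕ) : ℝ) + 1 := by positivity
      calc (((n' - n - 1 : ℕ) : ℝ) + 1) * S.κ 10 ≤ 8 ^ i * S.κ (i + 2) := by gcongr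
        _ = 8 ^ i * 1 * S.κ (i + 2) := by ring
        _ ≤ 8 ^ i * (C1 + 1) * S.κ (i + 2) := by gcongr
        _ ≤ _ := by linarith
    · obtain ⟨q, rfl⟩ : ∃ q, i = q + 1 := ⟨i - 1, by omega⟩
      have hV := VV_of_KK q (hK q (by omega))
      obtain ⟨_, hd⟩ := hV (n + c) (n' + c) (NZ_mono (by omega) hz) (NZ_mono (by omega) h2)
        (by omega) h3'
      rw [show n' + c - (n + c) - 1 = n' - n - 1 by omega] at hd
      have hdom : O.P (n + 1) ∈ S.Om' q (n + c) := by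
        refine ⟨(ha hi3).trans (ha' hi3), ?_⟩
        have e := O.hP n
        have hX : Xt S.κ q (O.w n + 1) = Xt S.κ q (n + c + 1) :=
          Xt_congr S.κ (hmod1.of_dvd (pow_dvd_pow 8 (by omega)))
        have e1 : (O.P (n + 1)).2 - Xt S.κ q (n + c + 1) =
            (Xt S.κ (O.l n + 1) (O.w n + 1) - Xt S.κ q (O.w n + 1)) + O.γ n
              + ((O.Q n).2 - Xt S.κ (O.l n) (O.w n)) := by
          rw [e, ← hX]; unfold Orb.γ; abel
        rw [e1]
        have b1 := Xt_tail' S.hκ (k := q) (K := O.l n + 1) (by omega) (O.w n + 1)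
        have b2 := (O.hD n).le
        have b4 : S.κ (O.l n + 2) ≤ S.κ (q + 2) := S.hκ.anti (by omega)
        have b5 : 1000000 * S.κ (q + 2) ≤ S.κ (q + 1) := S.hκ.step (q + 1)
        have b6 := S.hκ.pos (q + 1)
        calc _ ≤ _ := norm_add₃_le
          _ ≤ 8 * S.κ (q + 1) + S.κ (q + 1) + 64 * S.κ (q + 2) := by
            refine add_le_add (add_le_add b1 hγ) (b2.trans ?_)
            linarith
          _ ≤ 10 * S.κ (q + 1) := by linarith
      have h4 := hd _ hdom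
      rw [hrun, show n + 1 + c = n + c + 1 by omega]
      refine h4.trans ?_
      have h5 : 2 * S.κ 10 * |(O.P (n + 1)).1| ≤ 2 * S.κ 10 * a := by
        have := ha hi3; gcongr
      have e5 : S.κ (q + 3) = S.κ (q + 1 + 2) := rfl
      rw [e5]
      linarith
  -- the windows
  have hl' : i ≤ O.l n' := stage_ge O hA (by omega) (by omega) h2
  have hmod2 : O.w n' ≡ n' + c [MOD 8 ^ (i + 1)] := by
    have := hA n' (by omega)
    exact (this.of_dvd (pow_dvd_pow 8 (by omega))).symm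
  have htele := S.tele (k := i) (m := n + c) (n := n' + c) (by omega) h3' (K := i + 1) (by omega)
  have b1 := Xt_tail' S.hκ (k := i + 1) (K := O.l n + 1) (by omega) (O.w n + 1)
  have b2 := Xt_tail' S.hκ (k := i + 1) (K := O.l n' + 1) (by omega) (O.w n')
  rw [Xt_of_lt S.κ (O.wlt n') (Nat.le_succ _)] at b2
  have d1 := (O.hD n).le
  have d2 := (O.hD n').le
  have c1 : S.κ (O.l n + 2) ≤ S.κ (i + 2) := S.hκ.anti (by omega)
  have c2 : S.κ (O.l n' + 2) ≤ S.κ (i + 2) := S.hκ.anti (by omega)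
  have hX1 : Xt S.κ (i + 1) (O.w n + 1) = Xt S.κ (i + 1) (n + c + 1) :=
    Xt_congr S.κ (hmod1.of_dvd (pow_dvd_pow 8 (by omega)))
  have hX2 : Xt S.κ (i + 1) (O.w n') = Xt S.κ (i + 1) (n' + c) := Xt_congr S.κ hmod2
  set u := (O.Q n').2 - (O.P (n + 1)).2 - (Xt S.κ i (n' + c) - Xt S.κ i (n + c + 1)) with hudef
  have hPe := O.hP n
  have e : O.γ n = ((O.Q n').2 - Xt S.κ (O.l n') (O.w n'))
      + (Xt S.κ (O.l n') (O.w n') - Xt S.κ (i + 1) (O.w n'))
      + (-(Xt S.κ (O.l n + 1) (O.w n + 1) - Xt S.κ (i + 1) (O.w n + 1)))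
      + (-((O.Q n).2 - Xt S.κ (O.l n) (O.w n))) + (-u) := by
    rw [hudef, ← htele, hX1, hX2, hPe]
    unfold Orb.γ
    abel
  rw [e]
  have t1 : ‖(O.Q n').2 - Xt S.κ (O.l n') (O.w n')‖ ≤ 64 * S.κ (i + 2) :=
    d2.trans (by linarith)
  have t2 : ‖(O.Q n).2 - Xt S.κ (O.l n) (O.w n)‖ ≤ 64 * S.κ (i + 2) := d1.trans (by linarith)
  calc _ ≤ 64 * S.κ (i + 2) + 8 * S.κ (i + 2) + 8 * S.κ (i + 2) + 64 * S.κ (i + 2)
        + (8 ^ i * (C1 + 1) * S.κ (i + 2) + 2 * S.κ 10 * a) := by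
        refine (norm_add_le _ _).trans (add_le_add ?_ (by rw [norm_neg]; exact hu))
        refine (norm_add_le _ _).trans (add_le_add ?_ (by rw [norm_neg]; exact t2))
        refine (norm_add_le _ _).trans (add_le_add ?_ (by rw [norm_neg]; exact b1))
        exact (norm_add_le _ _).trans (add_le_add t1 b2)
    _ = _ := by ring

/-- Height of the exit when the tail is short. -/
theorem height_of_small (O : Orb S) {n i : ℕ} (hi : 1 ≤ i) (hl : i ≤ O.l n)
    (hγ : ‖O.γ n‖ < S.κ (i + 1) / 4) : |(O.P (n + 1)).1| ≤ S.κ (i + 3) := by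
  have hlam : S.Λ i (O.P (n + 1)).1 < S.κ (i + 1) / 4 :=
    lt_of_le_of_lt (Lam_le_Gam hl (O.w n + 1) _) hγ
  have hh := height_lt hi hlam
  have hh2 := S.hα i hi
  have hh3 := O.ha n
  have k1 : S.κ (O.l n + 5) ≤ S.κ (i + 3) := S.hκ.anti (by omega)
  rw [abs_le]; constructor <;> linarith

theorem far_all (O : Orb S) {j c M : ℕ} (hA : O.AA (j + 1) c M) (hC : O.CP j M)
    (hK : ∀ i < j, S.KK i) {n : ℕ} (hn : M ≤ n) (hl : j ≤ O.l n) :
    ∀ i, i ≤ j + 1 → ‖O.γ n‖ ≤ S.κ i := by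
  intro i
  induction i with
  | zero =>
    intro _
    have e := O.hP n
    have hq := O.hQ (n + 1)
    have d1 := (O.hD n).le
    have d2 := (O.hD (n + 1)).le
    have x1 := Xt_norm S.hκ (O.l n + 1) (O.w n + 1)
    have x2 := Xt_norm S.hκ (O.l (n + 1)) (O.w (n + 1))
    have c1 : S.κ (O.l n + 2) ≤ S.κ 1 := S.hκ.anti (by omega)
    have c2 : S.κ (O.l (n + 1) + 2) ≤ S.κ 1 := S.hκ.anti (by omega)
    have c3 : S.κ 10 ≤ S.κ 1 := S.hκ.anti (by omega)
    have s1 : 1000000 * S.κ 1 ≤ S.κ 0 := S.hκ.step 0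
    have p1 := S.hκ.pos 1
    have hv : ‖(O.Q (n + 1)).2 - (O.P (n + 1)).2‖ ≤ S.κ 10 := by
      have e2 : (O.Q (n + 1)).2 - (O.P (n + 1)).2 = (S.v (O.P (n + 1))).2 := by
        rw [hq]; simp [Sys.sig]
      rw [e2]; exact (snd_le_norm _).trans (S.v0 _)
    have e3 : O.γ n = ((O.Q (n + 1)).2 - Xt S.κ (O.l (n + 1)) (O.w (n + 1)))
        + Xt S.κ (O.l (n + 1)) (O.w (n + 1)) + (-Xt S.κ (O.l n + 1) (O.w n + 1))
        + (-((O.Q n).2 - Xt S.κ (O.l n) (O.w n)))
        + (-((O.Q (n + 1)).2 - (O.P (n + 1)).2)) := by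
      rw [e]; unfold Orb.γ; abel
    rw [e3]
    calc _ ≤ 64 * S.κ 1 + 8 * S.κ 1 + 8 * S.κ 1 + 64 * S.κ 1 + S.κ 1 := by
          refine (norm_add_le _ _).trans (add_le_add ?_ (by rw [norm_neg]; exact hv.trans c3))
          refine (norm_add_le _ _).trans (add_le_add ?_
            (by rw [norm_neg]; exact d1.trans (by linarith)))
          refine (norm_add_le _ _).trans (add_le_add ?_ (by rw [norm_neg]; exact x1))
          exact (norm_add_le _ _).trans (add_le_add (d2.trans (by linarith)) x2)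
      _ ≤ S.κ 0 := by linarith
  | succ i ih =>
    intro hi
    have hγ := ih (by omega)
    have p1 := S.hκ.pos (i + 1)
    have p0 := S.hκ.pos i
    have hE := E0_small (S := S) i
    have s0 : 1000000 * S.κ (i + 1) ≤ S.κ i := S.hκ.step i
    have s2 : 1000000 * S.κ (i + 2) ≤ S.κ (i + 1) := S.hκ.step (i + 1)
    have p2 := S.hκ.pos (i + 2)
    have p10 := S.hκ.pos 10
    have h10 : S.κ 10 ≤ 1 / 1000000 := by
      have := S.hκ.step 9
      have h9 := S.hκ.le_one 9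
      linarith
    have hheight : 3 ≤ i → |(O.P (n + 1)).1| ≤ S.κ (i + 1) := by
      intro h3
      obtain ⟨q, rfl⟩ : ∃ q, i = q + 2 := ⟨i - 2, by omega⟩
      have hs : 1000000 * S.κ (q + 2) ≤ S.κ (q + 1) := S.hκ.step (q + 1)
      have hp := S.hκ.pos (q + 1)
      have hp2 := S.hκ.pos (q + 2)
      exact height_of_small O (by omega) (by omega) (by linarith)
    have hmain := far_scale O hA hC hK hn hl (i := i) (by omega) hγ (a := S.κ (i + 1)) p1.le hheight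
      (fun _ => by linarith)
    refine hmain.trans ?_
    -- numerical
    have hA1 : (144 + 8 ^ i * (C1 + 1)) * S.κ (i + 2) ≤ S.κ (i + 1) / 2 := by
      have h1 : 2 * (144 + 8 ^ i * (C1 + 1)) ≤ (2 : ℝ) ^ (100 * (i + 1 + 1) ^ 2) := by
        refine le_trans ?_ (pow_aux' (i := i) (j := i + 1) (by omega))
        have : (1 : ℝ) ≤ 8 ^ i := one_le_pow₀ (by norm_num)
        rw [pow_succ]
        unfold C1
        nlinarith
      have h2 := ineq1 (S := S) (i + 1) h1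
      have e : S.κ (i + 1 + 1) = S.κ (i + 2) := rfl
      rw [e] at h2
      linarith
    have hA2 : 2 * S.κ 10 * S.κ (i + 1) ≤ S.κ (i + 1) / 2 := by nlinarith
    linarith

theorem far (O : Orb S) {j c M : ℕ} (hA : O.AA (j + 1) c M) (hC : O.CP j M)
    (hK : ∀ i < j, S.KK i) {n : ℕ} (hn : M ≤ n) (hl : j ≤ O.l n) : ‖O.γ n‖ ≤ S.YY j := by
  have h1 := far_all O hA hC hK hn hl (j + 1) le_rfl
  have h0 := far_all O hA hC hK hn hl j (by omega)
  have p2 := S.hκ.pos (j + 2)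
  have p10 := S.hκ.pos 10
  have h10 := S.hκ.le_one 10
  have hheight : 3 ≤ j → |(O.P (n + 1)).1| ≤ S.κ (j + 2) := by
    intro h3
    obtain ⟨q, rfl⟩ : ∃ q, j = q + 1 := ⟨j - 1, by omega⟩
    have hs : 1000000 * S.κ (q + 2) ≤ S.κ (q + 1) := S.hκ.step (q + 1)
    have hp := S.hκ.pos (q + 1)
    have h1' : ‖O.γ n‖ ≤ S.κ (q + 2) := h1
    exact height_of_small O (by omega) (by omega) (by linarith)
  have hmain := far_scale O hA hC hK hn hl (i := j) le_rfl h0 (a := S.κ (j + 2)) p2.le hheight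
    (fun _ => S.hκ.anti (by omega))
  refine hmain.trans ?_
  unfold Sys.YY
  have h8 : (1 : ℝ) ≤ 8 ^ j := one_le_pow₀ (by norm_num)
  have hc : 2 * S.κ 10 * S.κ (j + 2) ≤ 2 * S.κ (j + 2) := by nlinarith
  have hd : (144 + 8 ^ j * (C1 + 1)) + 2 ≤ 8 ^ (j + 1) * (C1 + 200) := by
    rw [pow_succ]; unfold C1; nlinarith
  calc _ ≤ (144 + 8 ^ j * (C1 + 1)) * S.κ (j + 2) + 2 * S.κ (j + 2) := by linarith
    _ = ((144 + 8 ^ j * (C1 + 1)) + 2) * S.κ (j + 2) := by ring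
    _ ≤ _ := by gcongr

end Pool.Agent.Closing.Pure
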