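import Pool.Agent.Lib.Closing.PureConst

/-!
P2: the tails.
-/

namespace Pool.Agent.Closing.Pure

variable {S : Sys}

theorem sum_kappa_le {κ : ℕ → ℝ} (hκ : Kap κ) (m n : ℕ) :
    ∑ i ∈ Finset.range n, κ (m + i) ≤ 2 * κ m - 2 * κ (m + n) := by
  induction n with
  | zero => simp
  | succ n ih =>
    rw [Finset.sum_range_succ]
    have h1 := hκ.step (m + n)
    have h2 := hκ.pos (m + n + 1)
    rw [← add_assoc]
    linarith

theorem sum_kappa_le' {κ : ℕ → ℝ} (hκ : Kap κ) (m n : ℕ) :
    ∑ i ∈ Finset.range n, κ (m + i) ≤ 2 * κ m := by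
  have h1 := sum_kappa_le hκ m n
  have h2 := hκ.pos (m + n)
  linarith

theorem Gam_fst (L u : ℕ) (a : ℝ) :
    (S.Gam L u a).1 = ∑ j ∈ Finset.range (L + 1), if isX (dig j u) then S.Λ j a else 0 := rfl

theorem Gam_snd (L u : ℕ) (a : ℝ) :
    (S.Gam L u a).2 = ∑ j ∈ Finset.range (L + 1), if isX (dig j u) then 0 else S.Λ j a := rfl

theorem Gam_nonneg (L u : ℕ) (a : ℝ) : 0 ≤ (S.Gam L u a).1 ∧ 0 ≤ (S.Gam L u a).2 := by
  rw [Gam_fst, Gam_snd]
  constructor
  · refine Finset.sum_nonneg fun j _ => ?_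
    split_ifs
    · exact S.Λ0 j a
    · exact le_rfl
  · refine Finset.sum_nonneg fun j _ => ?_
    split_ifs
    · exact le_rfl
    · exact S.Λ0 j a

/-- each band is bounded by the norm of the tail -/
theorem Lam_le_Gam {L j : ℕ} (hj : j ≤ L) (u : ℕ) (a : ℝ) : S.Λ j a ≤ ‖S.Gam L u a‖ := by
  have hm : j ∈ Finset.range (L + 1) := Finset.mem_range.2 (by omega)
  by_cases h : isX (dig j u)
  · have h1 : S.Λ j a ≤ (S.Gam L u a).1 := by
      have h2 := Finset.single_le_sum
        (f := fun j => if isX (dig j u) then S.Λ j a else 0)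
        (s := Finset.range (L + 1)) (fun i _ => by
          split_ifs
          · exact S.Λ0 i a
          · exact le_rfl) hm
      rw [Gam_fst]
      simpa only [if_pos h] using h2
    exact h1.trans ((le_abs_self _).trans (norm_fst_le (S.Gam L u a)))
  · have h1 : S.Λ j a ≤ (S.Gam L u a).2 := by
      have h2 := Finset.single_le_sum
        (f := fun j => if isX (dig j u) then 0 else S.Λ j a)
        (s := Finset.range (L + 1)) (fun i _ => by
          split_ifs
          · exact le_rfl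
          · exact S.Λ0 i a) hm
      rw [Gam_snd]
      simpa only [if_neg h] using h2
    exact h1.trans ((le_abs_self _).trans (norm_snd_le (S.Gam L u a)))

theorem Lam_sum_le (m n : ℕ) (a : ℝ) :
    ∑ i ∈ Finset.range n, S.Λ (m + 1 + i) a ≤ S.κ (m + 2) := by
  have h1 : ∑ i ∈ Finset.range n, S.Λ (m + 1 + i) a ≤
      ∑ i ∈ Finset.range n, (1 / 4) * S.κ (m + 2 + i) := by
    refine Finset.sum_le_sum fun i _ => ?_
    have := S.Λle (m + 1 + i) a (by omega)
    rw [eta, show m + 1 + i + 1 = m + 2 + i by ring] at this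
    exact this
  rw [← Finset.mul_sum] at h1
  have h2 := sum_kappa_le' S.hκ (m + 2) n
  have h3 := S.hκ.pos (m + 2)
  linarith

/-- the horizontal part of every tail is tiny compared with `κ 1` -/
theorem Gam_fst_le (L u : ℕ) (a : ℝ) : (S.Gam L u a).1 ≤ S.κ 2 := by
  show ∑ j ∈ Finset.range (L + 1), (if isX (dig j u) then S.Λ j a else 0) ≤ S.κ 2
  rw [Finset.sum_range_succ']
  have h0 : ¬ isX (dig 0 u) := by rw [dig_zero]; simp [isX]
  rw [if_neg h0, add_zero]
  refine le_trans ?_ (Lam_sum_le (S := S) 0 L a)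
  refine Finset.sum_le_sum fun i _ => ?_
  rw [show 0 + 1 + i = i + 1 by ring]
  split_ifs
  · exact le_rfl
  · exact S.Λ0 (i + 1) a

/-- splitting off the bands `j` and `j+1`; the higher bands are negligible, the lower ones are not
yet used if the height is less than `α j` -/
theorem Gam_split {L j : ℕ} (hj : j + 1 ≤ L) (u : ℕ) {a : ℝ} (ha : 1 ≤ j → a < S.α j) :
    ∃ r : V2, 0 ≤ r.1 ∧ r.1 ≤ S.κ (j + 3) ∧ 0 ≤ r.2 ∧ r.2 ≤ S.κ (j + 3) ∧
      S.Gam L u a = S.Λ j a • (if isX (dig j u) then ((1 : ℝ), (0 : ℝ)) else (0, 1))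
        + S.Λ (j + 1) a • (if isX (dig (j + 1) u) then ((1 : ℝ), (0 : ℝ)) else (0, 1)) + r := by
  obtain ⟨n, rfl⟩ : ∃ n, L = j + 1 + n := ⟨L - (j + 1), by omega⟩
  have hanti : ∀ i, i < j → S.α j ≤ S.α (i + 1) := by
    intro i hi
    exact antitone_nat_of_succ_le S.hα' (by omega : i + 1 ≤ j)
  have hlow : ∀ i, i < j → S.Λ i a = 0 := fun i hi =>
    S.Λz i a ((ha (by omega)).le.trans (hanti i hi))
  have hsplit : ∀ f : ℕ → ℝ, (∀ i, i < j → f i = 0) →
      ∑ i ∈ Finset.range (j + 1 + n + 1), f i =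
        f j + f (j + 1) + ∑ i ∈ Finset.range n, f (j + 1 + 1 + i) := by
    intro f hf
    rw [show j + 1 + n + 1 = j + (2 + n) by ring, Finset.sum_range_add,
      Finset.sum_eq_zero (fun i hi => hf i (Finset.mem_range.1 hi)), zero_add,
      show 2 + n = n + 1 + 1 by ring, Finset.sum_range_succ', Finset.sum_range_succ']
    simp only [add_zero, zero_add]
    have : ∀ i, j + (i + 1 + 1) = j + 1 + 1 + i := fun i => by ring
    simp only [this]
    ring
  refine ⟨(∑ i ∈ Finset.range n, if isX (dig (j + 1 + 1 + i) u) then S.Λ (j + 1 + 1 + i) a else 0,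
    ∑ i ∈ Finset.range n, if isX (dig (j + 1 + 1 + i) u) then 0 else S.Λ (j + 1 + 1 + i) a),
    ?_, ?_, ?_, ?_, ?_⟩
  · dsimp only
    refine Finset.sum_nonneg fun i _ => ?_
    split_ifs
    · exact S.Λ0 _ a
    · exact le_rfl
  · dsimp only
    refine le_trans ?_ (Lam_sum_le (S := S) (j + 1) n a)
    refine Finset.sum_le_sum fun i _ => ?_
    split_ifs
    · exact le_rfl
    · exact S.Λ0 _ a
  · dsimp only
    refine Finset.sum_nonneg fun i _ => ?_
    split_ifs
    · exact le_rfl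
    · exact S.Λ0 _ a
  · dsimp only
    refine le_trans ?_ (Lam_sum_le (S := S) (j + 1) n a)
    refine Finset.sum_le_sum fun i _ => ?_
    split_ifs
    · exact S.Λ0 _ a
    · exact le_rfl
  · unfold Sys.Gam
    rw [hsplit (fun i => if isX (dig i u) then S.Λ i a else 0) (fun i hi => by
        rw [hlow i hi]; simp),
      hsplit (fun i => if isX (dig i u) then 0 else S.Λ i a) (fun i hi => by
        rw [hlow i hi]; simp)]
    ext
    · simp only [Prod.fst_add, Prod.smul_fst, smul_eq_mul]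
      congr 1
      congr 1 <;> split_ifs <;> simp
    · simp only [Prod.snd_add, Prod.smul_snd, smul_eq_mul]
      congr 1
      congr 1 <;> split_ifs <;> simp

/-- a band is only used if the next one is full -/
theorem Lam_full_of_pos {j : ℕ} {a : ℝ} (h : 0 < S.Λ j a) :
    S.Λ (j + 1) a = S.κ (j + 2) / 4 := by
  have h1 : S.α (j + 1) ≤ a := by
    by_contra hc
    rw [S.Λz j a (not_le.1 hc).le] at h
    exact lt_irrefl _ h
  rw [S.Λfull (j + 1) a (by omega) h1, eta]
  ring

theorem height_lt {j : ℕ} (hj : 1 ≤ j) {a : ℝ} (h : S.Λ j a < S.κ (j + 1) / 4) :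
    a < S.α j := by
  by_contra hc
  rw [S.Λfull j a hj (not_lt.1 hc), eta] at h
  linarith

end Pool.Agent.Closing.Pure
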