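import Pool.Agent.Lib.Closing.PureConst

/-!
# Pure theorem, piece D: three point interpolation

Scalar functions on a box `|a| ≤ A`, `‖b - c‖ ≤ R` with first order Taylor control.
-/

namespace Pool.Agent.Closing.Pure

noncomputable section

/-- the box `|a| ≤ A`, `‖b - c‖ ≤ R` -/
def Box (c : ℝ × ℝ) (A R : ℝ) : Set E3 := {p | |p.1| ≤ A ∧ ‖p.2 - c‖ ≤ R}

/-- first order control of a scalar function on a set: at each point `y` of the set there is a
linear map `l y`, small in the two directions, with Taylor remainder at most `H ‖·‖²` -/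
structure SC (Om : Set E3) (u : E3 → ℝ) (l : E3 → (E3 →ₗ[ℝ] ℝ)) (G e H : ℝ) : Prop where
  gb : ∀ y ∈ Om, ∀ b : ℝ × ℝ, |l y (0, b)| ≤ G * ‖b‖
  ea : ∀ y ∈ Om, ∀ a : ℝ, |l y (a, 0)| ≤ e * |a|
  tay : ∀ y ∈ Om, ∀ y' ∈ Om, |u y' - u y - l y (y' - y)| ≤ H * ‖y' - y‖ ^ 2

theorem norm_E_le {p : E3} {r : ℝ} (h1 : |p.1| ≤ r) (h2 : ‖p.2‖ ≤ r) : ‖p‖ ≤ r := by
  rw [Prod.norm_def]
  exact max_le h1 h2

theorem norm_two_le {b : ℝ × ℝ} {r : ℝ} (h1 : |b.1| ≤ r) (h2 : |b.2| ≤ r) : ‖b‖ ≤ r := by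
  rw [Prod.norm_def]
  exact max_le h1 h2

theorem abs_fst_le (b : ℝ × ℝ) : |b.1| ≤ ‖b‖ := norm_fst_le b

theorem abs_snd_le (b : ℝ × ℝ) : |b.2| ≤ ‖b‖ := norm_snd_le b

theorem E_split (p : E3) : p = (p.1, 0) + (0, p.2) := by
  ext <;> simp

theorem SC.split {Om : Set E3} {u : E3 → ℝ} {l : E3 → (E3 →ₗ[ℝ] ℝ)} {G e H : ℝ}
    (h : SC Om u l G e H) {y : E3} (hy : y ∈ Om) (w : E3) :
    |l y w| ≤ G * ‖w.2‖ + e * |w.1| := by
  have h1 := h.gb y hy w.2
  have h2 := h.ea y hy w.1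
  have h3 : l y w = l y (w.1, 0) + l y (0, w.2) := by
    rw [← map_add, ← E_split]
  rw [h3]
  have h4 := abs_add_le (l y (w.1, 0)) (l y (0, w.2))
  linarith

theorem convex_Box (c : ℝ × ℝ) (A R : ℝ) : Convex ℝ (Box c A R) := by
  have h1 : Box c A R = (Metric.closedBall (0 : ℝ) A) ×ˢ (Metric.closedBall c R) := by
    ext p
    simp [Box, Set.mem_prod, Metric.mem_closedBall, dist_eq_norm]
  rw [h1]
  exact (convex_closedBall _ _).prod (convex_closedBall _ _)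

theorem Box_dist {c : ℝ × ℝ} {A R : ℝ} (hAR : A ≤ R) {y y' : E3} (hy : y ∈ Box c A R)
    (hy' : y' ∈ Box c A R) : ‖y' - y‖ ≤ 2 * R := by
  apply norm_E_le
  · have h1 := abs_sub y'.1 y.1
    have := hy.1
    have := hy'.1
    show |y'.1 - y.1| ≤ _
    linarith
  · have h1 : (y' - y).2 = (y'.2 - c) - (y.2 - c) := by
      show y'.2 - y.2 = _
      abel
    rw [h1]
    have h2 := norm_sub_le (y'.2 - c) (y.2 - c)
    have := hy.2
    have := hy'.2
    linarith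

/-- mean value inequality for the increments -/
theorem SC.incr {Om : Set E3} (hOm : Convex ℝ Om) {u : E3 → ℝ} {l : E3 → (E3 →ₗ[ℝ] ℝ)} {G e H : ℝ}
    (h : SC Om u l G e H) {y y' : E3} (hy : y ∈ Om) (hy' : y' ∈ Om) :
    |u y' - u y| ≤ G * ‖y'.2 - y.2‖ + e * |y'.1 - y.1| := by
  set w : E3 := y' - y with hw
  have hseg : ∀ t ∈ Set.Icc (0 : ℝ) 1, y + t • w ∈ Om := by
    intro t ht
    have h1 := hOm hy hy' (sub_nonneg.2 ht.2) ht.1 (by ring)
    have h2 : y + t • w = (1 - t) • y + t • y' := by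
      rw [hw, smul_sub, sub_smul, one_smul]
      abel
    rw [h2]
    exact h1
  have hder : ∀ t ∈ Set.Icc (0 : ℝ) 1,
      HasDerivWithinAt (fun s : ℝ => u (y + s • w)) (l (y + t • w) w) (Set.Icc 0 1) t := by
    intro t ht
    rw [hasDerivWithinAt_iff_isLittleO]
    have hO : (fun s : ℝ => u (y + s • w) - u (y + t • w) - (s - t) • l (y + t • w) w)
        =O[nhdsWithin t (Set.Icc 0 1)] fun s => (s - t) ^ 2 := by
      apply Asymptotics.IsBigO.of_bound (|H| * ‖w‖ ^ 2)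
      filter_upwards [self_mem_nhdsWithin] with s hs
      have h1 := h.tay _ (hseg t ht) _ (hseg s hs)
      have h2 : y + s • w - (y + t • w) = (s - t) • w := by
        rw [sub_smul]
        abel
      rw [h2, map_smul, norm_smul] at h1
      rw [Real.norm_eq_abs, Real.norm_eq_abs]
      have h3 : H * (‖s - t‖ * ‖w‖) ^ 2 ≤ |H| * ‖w‖ ^ 2 * |(s - t) ^ 2| := by
        have h4 : |(s - t) ^ 2| = ‖s - t‖ ^ 2 := by
          rw [abs_pow, Real.norm_eq_abs]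
        rw [h4]
        have h5 : H ≤ |H| := le_abs_self H
        have h6 : 0 ≤ (‖s - t‖ * ‖w‖) ^ 2 := by positivity
        calc H * (‖s - t‖ * ‖w‖) ^ 2 ≤ |H| * (‖s - t‖ * ‖w‖) ^ 2 :=
              mul_le_mul_of_nonneg_right h5 h6
          _ = _ := by ring
      exact h1.trans h3
    apply hO.trans_isLittleO
    have h7 : (fun s : ℝ => (s - t) ^ 2) = fun s => (s - t) * (s - t) := by
      funext s
      ring
    rw [h7]
    have h8 : (fun s : ℝ => s - t) =o[nhdsWithin t (Set.Icc 0 1)] fun _ => (1 : ℝ) := by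
      rw [Asymptotics.isLittleO_one_iff]
      have h9 : Filter.Tendsto (fun s : ℝ => s - t) (nhds t) (nhds (t - t)) :=
        (continuous_id.sub continuous_const).tendsto t
      rw [sub_self] at h9
      exact h9.mono_left nhdsWithin_le_nhds
    have h10 := h8.mul_isBigO (Asymptotics.isBigO_refl (fun s : ℝ => s - t)
      (nhdsWithin t (Set.Icc 0 1)))
    simpa using h10
  have hmv := Convex.norm_image_sub_le_of_norm_hasDerivWithin_le (C := G * ‖w.2‖ + e * |w.1|)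
    hder (fun t ht => by
      rw [Real.norm_eq_abs]
      exact h.split (hseg t ht) w) (convex_Icc (0 : ℝ) 1)
    (Set.left_mem_Icc.2 zero_le_one) (Set.right_mem_Icc.2 zero_le_one)
  have e1 : y + (1 : ℝ) • w = y' := by
    rw [one_smul, hw]
    abel
  have e0 : y + (0 : ℝ) • w = y := by
    rw [zero_smul, add_zero]
  simp only [e1, e0, sub_zero, norm_one, mul_one, Real.norm_eq_abs] at hmv
  exact hmv

/-- the linear part at the base point of the triangle -/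
theorem lin_base {u : E3 → ℝ} {f : E3 →ₗ[ℝ] ℝ} {G e H : ℝ} {q0 q1 q2 : E3}
    (hb : ∀ b : V2, |f (0, b)| ≤ G * ‖b‖) (ha : ∀ a : ℝ, |f (a, 0)| ≤ e * |a|)
    (ht1 : |u q1 - u q0 - f (q1 - q0)| ≤ H * ‖q1 - q0‖ ^ 2)
    (ht2 : |u q2 - u q0 - f (q2 - q0)| ≤ H * ‖q2 - q0‖ ^ 2)
    (hG : 0 ≤ G) (he : 0 ≤ e) (hH : 0 ≤ H) {s d al v : ℝ} (hs : 0 < s)
    (d1 : ‖q1.2 - q0.2 - s • ((1, 2) : ℝ × ℝ)‖ ≤ d) (d2 : ‖q2.2 - q0.2 - s • ((2, 1) : ℝ × ℝ)‖ ≤ d)
    (a0 : |q0.1| ≤ al) (a1 : |q1.1| ≤ al) (a2 : |q2.1| ≤ al)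
    (v0 : |u q0| ≤ v) (v1 : |u q1| ≤ v) (v2 : |u q2| ≤ v) (b : ℝ × ℝ) :
    |f (0, b)| ≤
      2 * (2 * v + H * (2 * s + d + 2 * al) ^ 2 + G * d + 2 * e * al) / s * ‖b‖ := by
  have hd : 0 ≤ d := (norm_nonneg _).trans d1
  have hal : 0 ≤ al := (abs_nonneg _).trans a0
  set M : ℝ := 2 * v + H * (2 * s + d + 2 * al) ^ 2 + G * d + 2 * e * al with hM
  have hsplit : ∀ w : E3, |f w| ≤ G * ‖w.2‖ + e * |w.1| := by
    intro w
    have h1 := hb w.2
    have h2 := ha w.1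
    have h3 : f w = f (w.1, 0) + f (0, w.2) := by
      rw [← map_add, ← E_split]
    rw [h3]
    have h4 := abs_add_le (f (w.1, 0)) (f (0, w.2))
    linarith
  -- one leg of the triangle
  have leg : ∀ (q : E3) (x : ℝ × ℝ), |u q - u q0 - f (q - q0)| ≤ H * ‖q - q0‖ ^ 2 → ‖x‖ ≤ 2 →
      ‖q.2 - q0.2 - s • x‖ ≤ d → |q.1| ≤ al →
      |u q| ≤ v → |f (0, s • x)| ≤ M := by
    intro q x t1 hx hd' ha hv
    have n1 : ‖q - q0‖ ≤ 2 * s + d + 2 * al := by
      apply norm_E_le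
      · have := abs_sub q.1 q0.1
        show |q.1 - q0.1| ≤ _
        linarith
      · have n2 : (q - q0).2 = (q.2 - q0.2 - s • x) + s • x := by
          show q.2 - q0.2 = _
          abel
        rw [n2]
        have n3 := norm_add_le (q.2 - q0.2 - s • x) (s • x)
        have n4 : ‖s • x‖ ≤ 2 * s := by
          rw [norm_smul, Real.norm_eq_abs, abs_of_pos hs]
          nlinarith
        linarith
    have n5 : H * ‖q - q0‖ ^ 2 ≤ H * (2 * s + d + 2 * al) ^ 2 := by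
      apply mul_le_mul_of_nonneg_left _ hH
      exact pow_le_pow_left₀ (norm_nonneg _) n1 2
    have n6 : f (q - q0) = f (0, s • x) + f (q - q0 - (0, s • x)) := by
      rw [← map_add]
      congr 1
      abel
    have n7 := hsplit (q - q0 - (0, s • x))
    have n8 : (q - q0 - ((0, s • x) : E3)).2 = q.2 - q0.2 - s • x := rfl
    have n9 : (q - q0 - ((0, s • x) : E3)).1 = q.1 - q0.1 - 0 := rfl
    rw [n8, n9, sub_zero] at n7
    have n10 : G * ‖q.2 - q0.2 - s • x‖ ≤ G * d := mul_le_mul_of_nonneg_left hd' hG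
    have n11 : e * |q.1 - q0.1| ≤ e * (2 * al) := by
      apply mul_le_mul_of_nonneg_left _ he
      have := abs_sub q.1 q0.1
      linarith
    have n12 : f (0, s • x) = (u q - u q0) - (u q - u q0 - f (q - q0))
        - f (q - q0 - (0, s • x)) := by
      rw [n6]
      ring
    rw [n12]
    have n13 := abs_sub ((u q - u q0) - (u q - u q0 - f (q - q0)))
      (f (q - q0 - (0, s • x)))
    have n14 := abs_sub (u q - u q0) (u q - u q0 - f (q - q0))
    have n15 := abs_sub (u q) (u q0)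
    rw [hM]
    linarith
  have L1 := leg q1 (1, 2) ht1 (norm_two_le (by norm_num) (by norm_num)) d1 a1 v1
  have L2 := leg q2 (2, 1) ht2 (norm_two_le (by norm_num) (by norm_num)) d2 a2 v2
  have hMn : 0 ≤ M := (abs_nonneg _).trans L1
  have c1 : |(2 * b.2 - b.1) / 3| ≤ ‖b‖ := by
    have := abs_le.1 (abs_fst_le b)
    have := abs_le.1 (abs_snd_le b)
    rw [abs_le]
    constructor <;> linarith
  have c2 : |(2 * b.1 - b.2) / 3| ≤ ‖b‖ := by
    have := abs_le.1 (abs_fst_le b)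
    have := abs_le.1 (abs_snd_le b)
    rw [abs_le]
    constructor <;> linarith
  have hb' : ((0, b) : E3) = (s⁻¹ * ((2 * b.2 - b.1) / 3)) • ((0, s • ((1, 2) : ℝ × ℝ)) : E3)
      + (s⁻¹ * ((2 * b.1 - b.2) / 3)) • ((0, s • ((2, 1) : ℝ × ℝ)) : E3) := by
    have hs' : s ≠ 0 := hs.ne'
    ext
    · simp
    · simp
      field_simp
      ring
    · simp
      field_simp
      ring
  rw [hb', map_add, map_smul, map_smul]
  have t1 := abs_add_le ((s⁻¹ * ((2 * b.2 - b.1) / 3)) • f (0, s • ((1, 2) : ℝ × ℝ)))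
    ((s⁻¹ * ((2 * b.1 - b.2) / 3)) • f (0, s • ((2, 1) : ℝ × ℝ)))
  have hsi : 0 < s⁻¹ := inv_pos.2 hs
  have t2 : |(s⁻¹ * ((2 * b.2 - b.1) / 3)) • f (0, s • ((1, 2) : ℝ × ℝ))| ≤ s⁻¹ * ‖b‖ * M := by
    rw [smul_eq_mul, abs_mul, abs_mul, abs_of_pos hsi]
    exact mul_le_mul (mul_le_mul_of_nonneg_left c1 hsi.le) L1 (abs_nonneg _)
      (mul_nonneg hsi.le (norm_nonneg _))
  have t3 : |(s⁻¹ * ((2 * b.1 - b.2) / 3)) • f (0, s • ((2, 1) : ℝ × ℝ))| ≤ s⁻¹ * ‖b‖ * M := by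
    rw [smul_eq_mul, abs_mul, abs_mul, abs_of_pos hsi]
    exact mul_le_mul (mul_le_mul_of_nonneg_left c2 hsi.le) L2 (abs_nonneg _)
      (mul_nonneg hsi.le (norm_nonneg _))
  have t4 : 2 * M / s * ‖b‖ = s⁻¹ * ‖b‖ * M + s⁻¹ * ‖b‖ * M := by
    rw [div_eq_mul_inv]
    ring
  rw [t4]
  linarith

/-- the linear part at the base point, absorbing the error of the vertices -/
theorem lin_base' {u : E3 → ℝ} {f : E3 →ₗ[ℝ] ℝ} {e H : ℝ} {q0 q1 q2 : E3}
    (ha : ∀ a : ℝ, |f (a, 0)| ≤ e * |a|)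
    (ht1 : |u q1 - u q0 - f (q1 - q0)| ≤ H * ‖q1 - q0‖ ^ 2)
    (ht2 : |u q2 - u q0 - f (q2 - q0)| ≤ H * ‖q2 - q0‖ ^ 2)
    (he : 0 ≤ e) (hH : 0 ≤ H) {s d al v : ℝ} (hs : 0 < s) (hds : 400 * d ≤ s)
    (d1 : ‖q1.2 - q0.2 - s • ((1, 2) : ℝ × ℝ)‖ ≤ d) (d2 : ‖q2.2 - q0.2 - s • ((2, 1) : ℝ × ℝ)‖ ≤ d)
    (a0 : |q0.1| ≤ al) (a1 : |q1.1| ≤ al) (a2 : |q2.1| ≤ al)
    (v0 : |u q0| ≤ v) (v1 : |u q1| ≤ v) (v2 : |u q2| ≤ v) (b : ℝ × ℝ) :
    |f (0, b)| ≤
      (202 / 100) * (2 * v + H * (2 * s + d + 2 * al) ^ 2 + 2 * e * al) / s * ‖b‖ := by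
  set x : ℝ := f (0, (1, 0)) with hx
  set y : ℝ := f (0, (0, 1)) with hy
  have hf : ∀ b : V2, f (0, b) = b.1 * x + b.2 * y := by
    intro b
    have : ((0, b) : E3) = b.1 • ((0, (1, 0)) : E3) + b.2 • ((0, (0, 1)) : E3) := by
      ext <;> simp
    rw [this, map_add, map_smul, map_smul, smul_eq_mul, smul_eq_mul]
  have hN : ∀ b : V2, |f (0, b)| ≤ (|x| + |y|) * ‖b‖ := by
    intro b
    rw [hf b]
    have t1 := abs_add_le (b.1 * x) (b.2 * y)
    rw [abs_mul, abs_mul] at t1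
    have t2 := mul_le_mul_of_nonneg_right (abs_fst_le b) (abs_nonneg x)
    have t3 := mul_le_mul_of_nonneg_right (abs_snd_le b) (abs_nonneg y)
    linarith
  have hNn : 0 ≤ |x| + |y| := add_nonneg (abs_nonneg _) (abs_nonneg _)
  have key := lin_base hN ha ht1 ht2 hNn he hH hs d1 d2 a0 a1 a2 v0 v1 v2
  -- test vector realising the norm
  have hreal : ∃ c : V2, ‖c‖ ≤ 1 ∧ |f (0, c)| = |x| + |y| := by
    have sgn : ∀ t : ℝ, ∃ σ : ℝ, |σ| ≤ 1 ∧ σ * t = |t| := by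
      intro t
      rcases le_total 0 t with h0 | h0
      · exact ⟨1, by norm_num, by rw [abs_of_nonneg h0, one_mul]⟩
      · exact ⟨-1, by norm_num, by rw [abs_of_nonpos h0]; ring⟩
    obtain ⟨σ, hσ, hσ'⟩ := sgn x
    obtain ⟨ρ, hρ, hρ'⟩ := sgn y
    refine ⟨(σ, ρ), norm_two_le hσ hρ, ?_⟩
    rw [hf]
    show |σ * x + ρ * y| = _
    rw [hσ', hρ', abs_of_nonneg hNn]
  obtain ⟨c, hc, hc'⟩ := hreal
  have k1 := key c
  rw [hc'] at k1
  set M0 : ℝ := 2 * v + H * (2 * s + d + 2 * al) ^ 2 + 2 * e * al with hM0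
  have hd : 0 ≤ d := (norm_nonneg _).trans d1
  have hM0n : 0 ≤ M0 := by
    have hal : 0 ≤ al := (abs_nonneg _).trans a0
    have hv : 0 ≤ v := (abs_nonneg _).trans v0
    rw [hM0]
    positivity
  have k2 : 2 * (2 * v + H * (2 * s + d + 2 * al) ^ 2 + (|x| + |y|) * d + 2 * e * al) / s
      = 2 * M0 / s + 2 * (|x| + |y|) * (d / s) := by
    rw [hM0]
    field_simp
    ring
  rw [k2] at k1
  have hdsn : 0 ≤ d / s := div_nonneg hd hs.le
  have hds' : d / s ≤ 1 / 400 := by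
    rw [div_le_iff₀ hs]
    linarith
  have k3 : 0 ≤ 2 * M0 / s + 2 * (|x| + |y|) * (d / s) := by positivity
  have k4 : (2 * M0 / s + 2 * (|x| + |y|) * (d / s)) * ‖c‖
      ≤ 2 * M0 / s + 2 * (|x| + |y|) * (d / s) := mul_le_of_le_one_right k3 hc
  have k5 : 2 * (|x| + |y|) * (d / s) ≤ 2 * (|x| + |y|) * (1 / 400) :=
    mul_le_mul_of_nonneg_left hds' (by positivity)
  have k6 : |x| + |y| ≤ (202 / 100) * M0 / s := by
    have e1 : (202 / 100) * M0 / s = (101 / 100) * (2 * M0 / s) := by ring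
    have e2 : 0 ≤ 2 * M0 / s := by positivity
    rw [e1]
    linarith
  exact (hN b).trans (mul_le_mul_of_nonneg_right k6 (norm_nonneg _))

/-- comparison of the linear parts at two points of a box, in one coordinate direction -/
theorem SC.compare_dir {c : ℝ × ℝ} {A R : ℝ} (hAR : A ≤ R)
    {u : E3 → ℝ} {l : E3 → (E3 →ₗ[ℝ] ℝ)} {G e H : ℝ}
    (h : SC (Box c A R) u l G e H) (hH : 0 ≤ H) {y y' z : E3}
    (hy : y ∈ Box c A R) (hy' : y' ∈ Box c A R) (hz : z ∈ Box c A R) (hzn : ‖z - y'‖ ≤ R) :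
    |l y' (z - y') - l y (z - y')| ≤ 9 * H * R ^ 2 := by
  have t1 := h.tay y' hy' z hz
  have t2 := h.tay y hy z hz
  have t3 := h.tay y hy y' hy'
  have n1 : H * ‖z - y'‖ ^ 2 ≤ H * R ^ 2 :=
    mul_le_mul_of_nonneg_left (pow_le_pow_left₀ (norm_nonneg _) hzn 2) hH
  have n2 : H * ‖z - y‖ ^ 2 ≤ H * (2 * R) ^ 2 :=
    mul_le_mul_of_nonneg_left (pow_le_pow_left₀ (norm_nonneg _) (Box_dist hAR hy hz) 2) hH
  have n3 : H * ‖y' - y‖ ^ 2 ≤ H * (2 * R) ^ 2 :=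
    mul_le_mul_of_nonneg_left (pow_le_pow_left₀ (norm_nonneg _) (Box_dist hAR hy hy') 2) hH
  have e1 : l y (z - y') = l y (z - y) - l y (y' - y) := by
    rw [← map_sub]
    congr 1
    abel
  rw [e1]
  have b1 := abs_le.1 t1
  have b2 := abs_le.1 t2
  have b3 := abs_le.1 t3
  rw [abs_le]
  constructor <;> nlinarith

theorem SC.compare {c : ℝ × ℝ} {A R : ℝ} (hAR : A ≤ R) (hR : 0 < R)
    {u : E3 → ℝ} {l : E3 → (E3 →ₗ[ℝ] ℝ)} {G e H : ℝ}
    (h : SC (Box c A R) u l G e H) (hH : 0 ≤ H) {y y' : E3}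
    (hy : y ∈ Box c A R) (hy' : y' ∈ Box c A R) (b : ℝ × ℝ) :
    |l y' (0, b) - l y (0, b)| ≤ 18 * H * R * ‖b‖ := by
  -- sign choices
  have key : ∀ t : ℝ, |t| ≤ R → ∃ σ : ℝ, |σ| = 1 ∧ |t + σ * R| ≤ R := by
    intro t ht
    rcases le_total 0 t with h0 | h0
    · refine ⟨-1, by norm_num, ?_⟩
      rw [abs_le] at ht ⊢
      constructor <;> linarith [ht.1, ht.2]
    · refine ⟨1, by norm_num, ?_⟩
      rw [abs_le] at ht ⊢
      constructor <;> linarith [ht.1, ht.2]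
  obtain ⟨σ1, hσ1, hk1⟩ := key (y'.2.1 - c.1) ((abs_fst_le (y'.2 - c)).trans hy'.2)
  obtain ⟨σ2, hσ2, hk2⟩ := key (y'.2.2 - c.2) ((abs_snd_le (y'.2 - c)).trans hy'.2)
  have hz1 : y' + ((0, (σ1 * R, 0)) : E3) ∈ Box c A R := by
    refine ⟨?_, ?_⟩
    · show |y'.1 + 0| ≤ A
      rw [add_zero]
      exact hy'.1
    · apply norm_two_le
      · show |y'.2.1 + σ1 * R - c.1| ≤ R
        have : y'.2.1 + σ1 * R - c.1 = y'.2.1 - c.1 + σ1 * R := by ring
        rw [this]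
        exact hk1
      · show |y'.2.2 + 0 - c.2| ≤ R
        rw [add_zero]
        exact (abs_snd_le (y'.2 - c)).trans hy'.2
  have hz2 : y' + ((0, (0, σ2 * R)) : E3) ∈ Box c A R := by
    refine ⟨?_, ?_⟩
    · show |y'.1 + 0| ≤ A
      rw [add_zero]
      exact hy'.1
    · apply norm_two_le
      · show |y'.2.1 + 0 - c.1| ≤ R
        rw [add_zero]
        exact (abs_fst_le (y'.2 - c)).trans hy'.2
      · show |y'.2.2 + σ2 * R - c.2| ≤ R
        have : y'.2.2 + σ2 * R - c.2 = y'.2.2 - c.2 + σ2 * R := by ring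
        rw [this]
        exact hk2
  have hn1 : ‖((0, (σ1 * R, 0)) : E3)‖ ≤ R := by
    apply norm_E_le
    · show |(0 : ℝ)| ≤ R
      rw [abs_zero]
      exact hR.le
    · apply norm_two_le
      · show |σ1 * R| ≤ R
        rw [abs_mul, hσ1, abs_of_pos hR, one_mul]
      · show |(0 : ℝ)| ≤ R
        rw [abs_zero]
        exact hR.le
  have hn2 : ‖((0, (0, σ2 * R)) : E3)‖ ≤ R := by
    apply norm_E_le
    · show |(0 : ℝ)| ≤ R
      rw [abs_zero]
      exact hR.le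
    · apply norm_two_le
      · show |(0 : ℝ)| ≤ R
        rw [abs_zero]
        exact hR.le
      · show |σ2 * R| ≤ R
        rw [abs_mul, hσ2, abs_of_pos hR, one_mul]
  have d1 := h.compare_dir hAR hH hy hy' hz1 (by rw [add_sub_cancel_left]; exact hn1)
  have d2 := h.compare_dir hAR hH hy hy' hz2 (by rw [add_sub_cancel_left]; exact hn2)
  rw [add_sub_cancel_left] at d1 d2
  -- coordinates
  have s1 : σ1 * σ1 = 1 := by
    have := abs_mul_abs_self σ1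
    rw [hσ1] at this
    linarith
  have s2 : σ2 * σ2 = 1 := by
    have := abs_mul_abs_self σ2
    rw [hσ2] at this
    linarith
  have hRn : R ≠ 0 := hR.ne'
  have dec : ((0, b) : E3) = (b.1 * σ1 * R⁻¹) • ((0, (σ1 * R, 0)) : E3)
      + (b.2 * σ2 * R⁻¹) • ((0, (0, σ2 * R)) : E3) := by
    have i1 : b.1 * σ1 * R⁻¹ * (σ1 * R) = b.1 := by
      have : b.1 * σ1 * R⁻¹ * (σ1 * R) = b.1 * (σ1 * σ1) * (R⁻¹ * R) := by ring
      rw [this, s1, inv_mul_cancel₀ hRn]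
      ring
    have i2 : b.2 * σ2 * R⁻¹ * (σ2 * R) = b.2 := by
      have : b.2 * σ2 * R⁻¹ * (σ2 * R) = b.2 * (σ2 * σ2) * (R⁻¹ * R) := by ring
      rw [this, s2, inv_mul_cancel₀ hRn]
      ring
    ext
    · simp
    · show b.1 = b.1 * σ1 * R⁻¹ * (σ1 * R) + b.2 * σ2 * R⁻¹ * 0
      rw [i1, mul_zero, add_zero]
    · show b.2 = b.1 * σ1 * R⁻¹ * 0 + b.2 * σ2 * R⁻¹ * (σ2 * R)
      rw [i2, mul_zero, zero_add]
  rw [dec, map_add, map_add, map_smul, map_smul, map_smul, map_smul]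
  have e1 : (b.1 * σ1 * R⁻¹) • l y' ((0, (σ1 * R, 0)) : E3) + (b.2 * σ2 * R⁻¹) •
        l y' ((0, (0, σ2 * R)) : E3)
      - ((b.1 * σ1 * R⁻¹) • l y ((0, (σ1 * R, 0)) : E3) + (b.2 * σ2 * R⁻¹) •
        l y ((0, (0, σ2 * R)) : E3))
      = (b.1 * σ1 * R⁻¹) * (l y' ((0, (σ1 * R, 0)) : E3) - l y ((0, (σ1 * R, 0)) : E3))
        + (b.2 * σ2 * R⁻¹) * (l y' ((0, (0, σ2 * R)) : E3) - l y ((0, (0, σ2 * R)) : E3)) := by
    simp only [smul_eq_mul]
    ring
  rw [e1]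
  have hRi : 0 < R⁻¹ := inv_pos.2 hR
  have f1 : |(b.1 * σ1 * R⁻¹) * (l y' ((0, (σ1 * R, 0)) : E3) - l y ((0, (σ1 * R, 0)) : E3))|
      ≤ (‖b‖ * R⁻¹) * (9 * H * R ^ 2) := by
    rw [abs_mul]
    apply mul_le_mul _ d1 (abs_nonneg _) (by positivity)
    rw [abs_mul, abs_mul, hσ1, mul_one, abs_of_pos hRi]
    exact mul_le_mul_of_nonneg_right (abs_fst_le b) hRi.le
  have f2 : |(b.2 * σ2 * R⁻¹) * (l y' ((0, (0, σ2 * R)) : E3) - l y ((0, (0, σ2 * R)) : E3))|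
      ≤ (‖b‖ * R⁻¹) * (9 * H * R ^ 2) := by
    rw [abs_mul]
    apply mul_le_mul _ d2 (abs_nonneg _) (by positivity)
    rw [abs_mul, abs_mul, hσ2, mul_one, abs_of_pos hRi]
    exact mul_le_mul_of_nonneg_right (abs_snd_le b) hRi.le
  have f3 := abs_add_le ((b.1 * σ1 * R⁻¹) * (l y' ((0, (σ1 * R, 0)) : E3)
      - l y ((0, (σ1 * R, 0)) : E3)))
    ((b.2 * σ2 * R⁻¹) * (l y' ((0, (0, σ2 * R)) : E3) - l y ((0, (0, σ2 * R)) : E3)))
  have f4 : (‖b‖ * R⁻¹) * (9 * H * R ^ 2) = 9 * H * R * ‖b‖ := by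
    have : (‖b‖ * R⁻¹) * (9 * H * R ^ 2) = 9 * H * R * ‖b‖ * (R⁻¹ * R) := by ring
    rw [this, inv_mul_cancel₀ hRn, mul_one]
  rw [f4] at f1 f2
  linarith

/-- **Three point interpolation.** -/
theorem SC.interp {c : ℝ × ℝ} {A R : ℝ} (hAR : A ≤ R) (hR : 0 < R)
    {u : E3 → ℝ} {l : E3 → (E3 →ₗ[ℝ] ℝ)} {G e H : ℝ}
    (h : SC (Box c A R) u l G e H) (he : 0 ≤ e) (hH : 0 ≤ H)
    {s d al v g : ℝ} (hs : 0 < s) (hds : 400 * d ≤ s)
    {q0 q1 q2 : E3} (h0 : q0 ∈ Box c A R) (h1 : q1 ∈ Box c A R) (h2 : q2 ∈ Box c A R)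
    (d1 : ‖q1.2 - q0.2 - s • ((1, 2) : ℝ × ℝ)‖ ≤ d) (d2 : ‖q2.2 - q0.2 - s • ((2, 1) : ℝ × ℝ)‖ ≤ d)
    (a0 : |q0.1| ≤ al) (a1 : |q1.1| ≤ al) (a2 : |q2.1| ≤ al)
    (v0 : |u q0| ≤ v) (v1 : |u q1| ≤ v) (v2 : |u q2| ≤ v)
    (hg : (202 / 100) * (2 * v + H * (2 * s + d + 2 * al) ^ 2 + 2 * e * al) / s + 18 * H * R ≤ g) :
    SC (Box c A R) u l g e H ∧
    (∀ y ∈ Box c A R, ∀ y' ∈ Box c A R,
      |u y' - u y| ≤ g * ‖y'.2 - y.2‖ + e * |y'.1 - y.1|) ∧
    ∀ y ∈ Box c A R, |u y| ≤ v + g * (2 * R) + e * (|y.1| + al) := by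
  have hb := lin_base' (h.ea q0 h0) (h.tay q0 h0 q1 h1) (h.tay q0 h0 q2 h2) he hH hs hds
    d1 d2 a0 a1 a2 v0 v1 v2
  have hSC : SC (Box c A R) u l g e H := by
    refine ⟨?_, h.ea, h.tay⟩
    intro y hy b
    have t1 := hb b
    have t2 := h.compare hAR hR hH h0 hy b
    have t3 : |l y (0, b)| ≤ |l q0 (0, b)| + |l y (0, b) - l q0 (0, b)| := by
      have := abs_add_le (l q0 (0, b)) (l y (0, b) - l q0 (0, b))
      rw [add_sub_cancel] at this
      exact this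
    have t4 := mul_le_mul_of_nonneg_right hg (norm_nonneg b)
    rw [add_mul] at t4
    linarith
  have hinc : ∀ y ∈ Box c A R, ∀ y' ∈ Box c A R,
      |u y' - u y| ≤ g * ‖y'.2 - y.2‖ + e * |y'.1 - y.1| :=
    fun y hy y' hy' => hSC.incr (convex_Box c A R) hy hy'
  refine ⟨hSC, hinc, ?_⟩
  intro y hy
  have t1 := hinc q0 h0 y hy
  have t2 : ‖y.2 - q0.2‖ ≤ 2 * R := (norm_snd_le (y - q0)).trans (Box_dist hAR h0 hy)
  have hg0 : 0 ≤ g := by
    have t := hSC.gb q0 h0 (1, 0)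
    have n : ‖((1, 0) : ℝ × ℝ)‖ = 1 := by
      rw [Prod.norm_def]
      simp
    rw [n, mul_one] at t
    exact (abs_nonneg _).trans t
  have t3 := mul_le_mul_of_nonneg_left t2 hg0
  have t4 : e * |y.1 - q0.1| ≤ e * (|y.1| + al) := by
    apply mul_le_mul_of_nonneg_left _ he
    have := abs_sub y.1 q0.1
    linarith
  have t5 : |u y| ≤ |u q0| + |u y - u q0| := by
    have := abs_add_le (u q0) (u y - u q0)
    rw [add_sub_cancel] at this
    exact this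
  linarith

variable {S : Sys}

theorem HH_pos_interp (j : ℕ) : 0 < HH j := by
  unfold HH
  positivity

theorem HH_sq_le (j : ℕ) : 10 ^ 6 * HH j * S.κ (j + 1) ^ 2 ≤ S.κ (j + 3) := by
  have h1 := S.hκ.m2 (j + 1)
  have h2 : (10 : ℝ) ^ 6 * HH j ≤ MM (j + 1) := by
    unfold HH MM
    have h8 : 2 ^ 2 ≤ (j + 2) ^ 2 := Nat.pow_le_pow_left (by omega) 2
    have h6 : 20 ≤ 90 * (j + 2) ^ 2 := by
      generalize (j + 2) ^ 2 = q at h8 ⊢
      omega
    have h3 : (10 : ℝ) ^ 6 ≤ 2 ^ (90 * (j + 2) ^ 2) := by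
      have h7 : (10 : ℝ) ^ 6 ≤ 2 ^ 20 := by norm_num
      exact h7.trans (pow_le_pow_right₀ (by norm_num : (1 : ℝ) ≤ 2) h6)
    have h5 : 100 * (j + 1 + 1) ^ 2 = 90 * (j + 2) ^ 2 + 10 * (j + 2) ^ 2 := by ring
    rw [h5, pow_add]
    exact mul_le_mul_of_nonneg_right h3 (pow_nonneg (by norm_num) _)
  have h4 : 0 ≤ S.κ (j + 1) ^ 2 := sq_nonneg _
  calc 10 ^ 6 * HH j * S.κ (j + 1) ^ 2 ≤ MM (j + 1) * S.κ (j + 1) ^ 2 :=
        mul_le_mul_of_nonneg_right h2 h4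
    _ ≤ S.κ (j + 3) := h1

/-- numerical estimate of the new gradient bound -/
theorem grad_num (j : ℕ) {e s v : ℝ} (he1 : e ≤ 2 * S.κ 10)
    (hs1 : 31 / 32 * S.κ (j + 1) ≤ s) (hs2 : s ≤ S.κ (j + 1)) (hv : v = 150 * S.κ (j + 3)) :
    (202 / 100) * (2 * v + HH j * (2 * s + S.κ (j + 1) / 2000 + 2 * S.κ (j + 3)) ^ 2
      + 2 * e * S.κ (j + 3)) / s + 18 * HH j * (20 * S.κ (j + 1)) ≤
      640 * (S.κ (j + 3) / S.κ (j + 1)) + 400 * (HH j * S.κ (j + 1)) := by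
  have hκ := S.hκ
  have p1 := hκ.pos (j + 1)
  have p3 := hκ.pos (j + 3)
  have st1 := hκ.step (j + 1)
  have st2 := hκ.step (j + 2)
  have p10 := hκ.le_one 10
  have st10 := hκ.step 9
  have l9 := hκ.le_one 9
  have he2 : e ≤ 1 / 10 := by
    have : S.κ 10 ≤ 1 / 1000000 := by linarith
    linarith
  have hH := HH_pos_interp j
  have hs0 : 0 < s := by
    have : 0 < 31 / 32 * S.κ (j + 1) := by positivity
    linarith
  have h31 : S.κ (j + 3) ≤ S.κ (j + 1) / 1000000 := by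
    have := hκ.anti_succ (j + 2)
    linarith
  -- the numerator
  have hsum : 2 * s + S.κ (j + 1) / 2000 + 2 * S.κ (j + 3) ≤ 201 / 100 * S.κ (j + 1) := by
    linarith
  have hsum0 : 0 ≤ 2 * s + S.κ (j + 1) / 2000 + 2 * S.κ (j + 3) := by positivity
  have hsq : (2 * s + S.κ (j + 1) / 2000 + 2 * S.κ (j + 3)) ^ 2
      ≤ (201 / 100 * S.κ (j + 1)) ^ 2 := pow_le_pow_left₀ hsum0 hsum 2
  have hHsq := mul_le_mul_of_nonneg_left hsq hH.le
  have he3 : 2 * e * S.κ (j + 3) ≤ 1 / 5 * S.κ (j + 3) := by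
    have := mul_le_mul_of_nonneg_right he2 p3.le
    linarith
  have num : (202 / 100) * (2 * v + HH j * (2 * s + S.κ (j + 1) / 2000 + 2 * S.κ (j + 3)) ^ 2
      + 2 * e * S.κ (j + 3)) ≤ 607 * S.κ (j + 3) + 9 * (HH j * S.κ (j + 1) ^ 2) := by
    rw [hv]
    have t : HH j * (201 / 100 * S.κ (j + 1)) ^ 2 = (201 / 100) ^ 2 * (HH j * S.κ (j + 1) ^ 2) := by
      ring
    rw [t] at hHsq
    have t2 : 0 ≤ HH j * S.κ (j + 1) ^ 2 := by positivity
    linarith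
  have hdiv : (202 / 100) * (2 * v + HH j * (2 * s + S.κ (j + 1) / 2000 + 2 * S.κ (j + 3)) ^ 2
      + 2 * e * S.κ (j + 3)) / s ≤
      (607 * S.κ (j + 3) + 9 * (HH j * S.κ (j + 1) ^ 2)) / (31 / 32 * S.κ (j + 1)) := by
    have hnn : 0 ≤ 607 * S.κ (j + 3) + 9 * (HH j * S.κ (j + 1) ^ 2) := by positivity
    calc _ ≤ (607 * S.κ (j + 3) + 9 * (HH j * S.κ (j + 1) ^ 2)) / s :=
          div_le_div_of_nonneg_right num hs0.le
      _ ≤ _ := div_le_div_of_nonneg_left hnn (by positivity) hs1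
  have heq : (607 * S.κ (j + 3) + 9 * (HH j * S.κ (j + 1) ^ 2)) / (31 / 32 * S.κ (j + 1))
      = 32 / 31 * 607 * (S.κ (j + 3) / S.κ (j + 1)) + 32 / 31 * 9 * (HH j * S.κ (j + 1)) := by
    field_simp
  rw [heq] at hdiv
  have t1 : 0 ≤ S.κ (j + 3) / S.κ (j + 1) := by positivity
  have t2 : 0 ≤ HH j * S.κ (j + 1) := by positivity
  have t3 : 18 * HH j * (20 * S.κ (j + 1)) = 360 * (HH j * S.κ (j + 1)) := by ring
  rw [t3]
  linarith

/-- P9: from `TB` with rough constants and three small values for each coordinate to the fine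
estimate. -/
theorem interp {T : E3 → E3} {j m n : ℕ} {g e : ℝ} (he0 : 0 ≤ e) (he1 : e ≤ 2 * S.κ 10)
    (hTB : TB T (S.Om j m) g e (2 ^ (j + 1)) (HH j) (HH j))
    (t : ∀ d, 2 ≤ d → d < 8 → Test S T j m n d)
    (h1 : ∀ d (h2 : 2 ≤ d) (_ : d ≤ 4) (h8 : d < 8),
      |((T (t d h2 h8).y).2 - (t d h2 h8).y.2 - (Xt S.κ j n - Xt S.κ j (m + 1))).1| ≤
        150 * S.κ (j + 3))
    (h2 : ∀ d (h2 : 2 ≤ d) (_ : 5 ≤ d) (h8 : d < 8),
      |((T (t d h2 h8).y).2 - (t d h2 h8).y.2 - (Xt S.κ j n - Xt S.κ j (m + 1))).2| ≤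
        150 * S.κ (j + 3)) :
    TB T (S.Om j m) (S.gg j) e (2 ^ (j + 1)) (HH j) (HH j) ∧
    ∀ y ∈ S.Om j m, ‖(T y).2 - y.2 - (Xt S.κ j n - Xt S.κ j (m + 1))‖ ≤
      C1 * S.κ (j + 3) + e * |y.1| := by
  classical
  have hκ := S.hκ
  have p1 := hκ.pos (j + 1)
  have p3 := hκ.pos (j + 3)
  have st1 := hκ.step (j + 1)
  have st2 := hκ.step (j + 2)
  have hH := HH_pos_interp j
  set x0 := Xt S.κ j (m + 1) with hx0
  set C0 := Xt S.κ j n - x0 with hC0
  set hh := hs (dig j (m + 1)) with hhh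
  have hh1 := hs_pos (dig j (m + 1))
  have hh2 := hs_le (dig j (m + 1))
  rw [← hhh] at hh1 hh2
  have hOm : S.Om j m = Box x0 (S.κ (j + 1)) (20 * S.κ (j + 1)) := rfl
  -- choice of the linear maps
  choose! L hL1 hL2 hL3 using hTB.tay
  set lx : E3 → (E3 →ₗ[ℝ] ℝ) := fun y =>
    ((LinearMap.fst ℝ ℝ ℝ) ∘ₗ (LinearMap.snd ℝ ℝ (ℝ × ℝ))) ∘ₗ (L y - LinearMap.id) with hlx
  set ly : E3 → (E3 →ₗ[ℝ] ℝ) := fun y =>
    ((LinearMap.snd ℝ ℝ ℝ) ∘ₗ (LinearMap.snd ℝ ℝ (ℝ × ℝ))) ∘ₗ (L y - LinearMap.id) with hly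
  have elx : ∀ y w, lx y w = ((L y w).2 - w.2).1 := fun y w => rfl
  have ely : ∀ y w, ly y w = ((L y w).2 - w.2).2 := fun y w => rfl
  set ux : E3 → ℝ := fun y => ((T y).2 - y.2 - C0).1 with hux
  set uy : E3 → ℝ := fun y => ((T y).2 - y.2 - C0).2 with huy
  have hSCx : SC (S.Om j m) ux lx g e (HH j) := by
    refine ⟨?_, ?_, ?_⟩
    · intro y hy b
      rw [elx]
      refine (abs_fst_le _).trans ?_
      have := hL2 y hy (0, b)
      simpa using this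
    · intro y hy a
      rw [elx]
      refine (abs_fst_le _).trans ?_
      have := hL2 y hy (a, 0)
      simpa using this
    · intro y hy y' hy'
      have e1 : ux y' - ux y - lx y (y' - y) = ((T y').2 - (T y).2 - (L y (y' - y)).2).1 := by
        rw [elx]
        show ((T y').2 - y'.2 - C0).1 - ((T y).2 - y.2 - C0).1
          - ((L y (y' - y)).2 - (y'.2 - y.2)).1 = _
        simp only [Prod.fst_sub]
        ring
      rw [e1]
      exact (abs_fst_le _).trans (hL1 y hy y' hy').1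
  have hSCy : SC (S.Om j m) uy ly g e (HH j) := by
    refine ⟨?_, ?_, ?_⟩
    · intro y hy b
      rw [ely]
      refine (abs_snd_le _).trans ?_
      have := hL2 y hy (0, b)
      simpa using this
    · intro y hy a
      rw [ely]
      refine (abs_snd_le _).trans ?_
      have := hL2 y hy (a, 0)
      simpa using this
    · intro y hy y' hy'
      have e1 : uy y' - uy y - ly y (y' - y) = ((T y').2 - (T y).2 - (L y (y' - y)).2).2 := by
        rw [ely]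
        show ((T y').2 - y'.2 - C0).2 - ((T y).2 - y.2 - C0).2
          - ((L y (y' - y)).2 - (y'.2 - y.2)).2 = _
        simp only [Prod.snd_sub]
        ring
      rw [e1]
      exact (abs_snd_le _).trans (hL1 y hy y' hy').1
  -- the vertices
  set s : ℝ := S.κ (j + 1) * hh with hsdef
  have hs1 : 31 / 32 * S.κ (j + 1) ≤ s := by
    rw [hsdef, mul_comm (31 / 32 : ℝ)]
    exact mul_le_mul_of_nonneg_left hh1 p1.le
  have hs2 : s ≤ S.κ (j + 1) := by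
    rw [hsdef]
    exact mul_le_of_le_one_right p1.le hh2
  have hs0 : 0 < s := lt_of_lt_of_le (by positivity) hs1
  have h3le : S.κ (j + 3) ≤ S.κ (j + 1) := by
    have := hκ.anti_succ (j + 1)
    have := hκ.anti_succ (j + 2)
    linarith
  have hmem : ∀ d (hd : 2 ≤ d) (hd' : d < 8), (t d hd hd').y ∈ S.Om j m := by
    intro d hd hd'
    refine ⟨(t d hd hd').ha.trans h3le, ?_⟩
    have q1 := (t d hd hd').hy
    have q2 : ‖(S.κ (j + 1) * hh) • xi d‖ ≤ 7 * S.κ (j + 1) := by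
      rw [norm_smul, Real.norm_eq_abs, abs_of_pos hs0]
      have := xi_norm hd'
      have q3 : s * ‖xi d‖ ≤ S.κ (j + 1) * 7 :=
        mul_le_mul hs2 this (norm_nonneg _) p1.le
      linarith
    have q4 : (t d hd hd').y.2 - Xt S.κ j (m + 1)
        = ((t d hd hd').y.2 - Xt S.κ j (m + 1) - (S.κ (j + 1) * hh) • xi d)
          + (S.κ (j + 1) * hh) • xi d := by abel
    rw [q4]
    have q5 := norm_add_le ((t d hd hd').y.2 - Xt S.κ j (m + 1) - (S.κ (j + 1) * hh) • xi d)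
      ((S.κ (j + 1) * hh) • xi d)
    have q6 : ‖(t d hd hd').y.2 - Xt S.κ j (m + 1) - (S.κ (j + 1) * hh) • xi d‖
      ≤ S.κ (j + 1) / 4000 := q1
    linarith
  have hdiff : ∀ d (hd : 2 ≤ d) (hd' : d < 8) d0 (hd0 : 2 ≤ d0) (hd0' : d0 < 8) (x : V2),
      xi d - xi d0 = x →
      ‖(t d hd hd').y.2 - (t d0 hd0 hd0').y.2 - s • x‖ ≤ S.κ (j + 1) / 2000 := by
    intro d hd hd' d0 hd0 hd0' x hx
    have q1 := (t d hd hd').hy
    have q2 := (t d0 hd0 hd0').hy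
    have q3 : (t d hd hd').y.2 - (t d0 hd0 hd0').y.2 - s • x
        = ((t d hd hd').y.2 - Xt S.κ j (m + 1) - (S.κ (j + 1) * hs (dig j (m + 1))) • xi d)
          - ((t d0 hd0 hd0').y.2 - Xt S.κ j (m + 1)
            - (S.κ (j + 1) * hs (dig j (m + 1))) • xi d0) := by
      rw [← hx, smul_sub]
      show _ - _ - (s • xi d - s • xi d0) = _
      abel
    rw [q3]
    have q4 := norm_sub_le
      ((t d hd hd').y.2 - Xt S.κ j (m + 1) - (S.κ (j + 1) * hs (dig j (m + 1))) • xi d)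
      ((t d0 hd0 hd0').y.2 - Xt S.κ j (m + 1) - (S.κ (j + 1) * hs (dig j (m + 1))) • xi d0)
    linarith
  have x32 : xi 3 - xi 2 = (1, 2) := by
    simp [xi, sp]; norm_num
  have x42 : xi 4 - xi 2 = (2, 1) := by
    simp [xi, sp]; norm_num
  have x65 : xi 6 - xi 5 = (1, 2) := by
    simp [xi, sp]; norm_num
  have x75 : xi 7 - xi 5 = (2, 1) := by
    simp [xi, sp]; norm_num
  set gn : ℝ := 640 * (S.κ (j + 3) / S.κ (j + 1)) + 400 * (HH j * S.κ (j + 1)) with hgn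
  have hgrad := grad_num (S := S) j he1 hs1 hs2 (v := 150 * S.κ (j + 3)) rfl
  have hds : 400 * (S.κ (j + 1) / 2000) ≤ s := by linarith
  have Rpos : 0 < 20 * S.κ (j + 1) := by positivity
  have hAR : S.κ (j + 1) ≤ 20 * S.κ (j + 1) := by linarith
  rw [hOm] at hSCx hSCy hmem
  obtain ⟨X1, X2, X3⟩ := hSCx.interp hAR Rpos he0 hH.le hs0 hds
    (hmem 2 (by norm_num) (by norm_num)) (hmem 3 (by norm_num) (by norm_num))
    (hmem 4 (by norm_num) (by norm_num))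
    (hdiff 3 (by norm_num) (by norm_num) 2 (by norm_num) (by norm_num) _ x32)
    (hdiff 4 (by norm_num) (by norm_num) 2 (by norm_num) (by norm_num) _ x42)
    (t 2 (by norm_num) (by norm_num)).ha (t 3 (by norm_num) (by norm_num)).ha
    (t 4 (by norm_num) (by norm_num)).ha
    (h1 2 (by norm_num) (by norm_num) (by norm_num)) (h1 3 (by norm_num) (by norm_num) (by norm_num))
    (h1 4 (by norm_num) (by norm_num) (by norm_num)) hgrad
  obtain ⟨Y1, Y2, Y3⟩ := hSCy.interp hAR Rpos he0 hH.le hs0 hds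
    (hmem 5 (by norm_num) (by norm_num)) (hmem 6 (by norm_num) (by norm_num))
    (hmem 7 (by norm_num) (by norm_num))
    (hdiff 6 (by norm_num) (by norm_num) 5 (by norm_num) (by norm_num) _ x65)
    (hdiff 7 (by norm_num) (by norm_num) 5 (by norm_num) (by norm_num) _ x75)
    (t 5 (by norm_num) (by norm_num)).ha (t 6 (by norm_num) (by norm_num)).ha
    (t 7 (by norm_num) (by norm_num)).ha
    (h2 5 (by norm_num) (by norm_num) (by norm_num)) (h2 6 (by norm_num) (by norm_num) (by norm_num))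
    (h2 7 (by norm_num) (by norm_num) (by norm_num)) hgrad
  have hggn : gn ≤ S.gg j := by
    unfold Sys.gg
    rw [hgn]
    have t1 : 0 ≤ S.κ (j + 3) / S.κ (j + 1) := by positivity
    have t2 : 0 ≤ HH j * S.κ (j + 1) := by positivity
    nlinarith
  rw [← hgn] at X1 X2 X3 Y1 Y2 Y3
  constructor
  · refine ⟨?_, hTB.lipa, ?_⟩
    · intro y hy y' hy'
      rw [hOm] at hy hy'
      have a1 := X2 y hy y' hy'
      have a2 := Y2 y hy y' hy'
      have b1 : gn * ‖y'.2 - y.2‖ ≤ S.gg j * ‖y'.2 - y.2‖ :=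
        mul_le_mul_of_nonneg_right hggn (norm_nonneg _)
      apply norm_two_le
      · have : ((T y').2 - (T y).2 - (y'.2 - y.2)).1 = ux y' - ux y := by
          simp only [hux, Prod.fst_sub]
          ring
        rw [this]
        linarith
      · have : ((T y').2 - (T y).2 - (y'.2 - y.2)).2 = uy y' - uy y := by
          simp only [huy, Prod.snd_sub]
          ring
        rw [this]
        linarith
    · intro y hy
      refine ⟨L y, hL1 y hy, ?_, hL3 y hy⟩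
      intro w
      rw [hOm] at hy
      have a1 := X1.split hy w
      have a2 := Y1.split hy w
      rw [elx] at a1
      rw [ely] at a2
      have b1 : gn * ‖w.2‖ ≤ S.gg j * ‖w.2‖ :=
        mul_le_mul_of_nonneg_right hggn (norm_nonneg _)
      exact norm_two_le (by linarith) (by linarith)
  · intro y hy
    rw [hOm] at hy
    have a1 := X3 y hy
    have a2 := Y3 y hy
    have hsq := HH_sq_le (S := S) j
    have st10 := hκ.step 9
    have l9 := hκ.le_one 9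
    have he2 : e ≤ 1 / 10 := by linarith
    have c1 : gn * (2 * (20 * S.κ (j + 1))) = 25600 * S.κ (j + 3)
        + 16000 * (HH j * S.κ (j + 1) ^ 2) := by
      rw [hgn]
      field_simp
      ring
    have c2 : 16000 * (HH j * S.κ (j + 1) ^ 2) ≤ 1 / 10 * S.κ (j + 3) := by
      have : 10 ^ 6 * HH j * S.κ (j + 1) ^ 2 = 10 ^ 6 * (HH j * S.κ (j + 1) ^ 2) := by ring
      rw [this] at hsq
      have t2 : 0 ≤ HH j * S.κ (j + 1) ^ 2 := by positivity
      linarith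
    have c3 : e * (|y.1| + S.κ (j + 3)) ≤ e * |y.1| + 1 / 10 * S.κ (j + 3) := by
      have := mul_le_mul_of_nonneg_right he2 p3.le
      rw [mul_add]
      linarith
    rw [c1] at a1 a2
    unfold C1
    exact norm_two_le (by linarith) (by linarith)

end

end Pool.Agent.Closing.Pure
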