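import Pool.Agent.Lib.Closing.PureTrans
import Pool.Agent.Lib.Closing.PureFar

/-!
Existence of the tests.
-/

namespace Pool.Agent.Closing.Pure

variable {S : Sys}

theorem tests (O : Orb S) {j c M : ℕ} (hj : 1 ≤ j) (hA : O.AA (j + 1) c M) (hC : O.CP j M)
    (hK : ∀ i < j, S.KK i) {m n : ℕ} (hm : NZ j m) (hn : NZ j n) (hmn : m < n)
    (h : ∀ i, m < i → i < n → ¬ NZ j i) {d : ℕ} (hd : 2 ≤ d) (hd' : d < 8) :
    Nonempty (Test S (S.T (m + 1) (n - m - 1)) j m n d) := by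
  have hpj : 0 < 8 ^ j := by positivity
  -- the start number
  obtain ⟨z, hz1, hz2, hz3⟩ : ∃ z, z ≡ m + 1 [MOD 8 ^ j] ∧ dig (j + 1) z = d ∧ M + c + 2 ≤ z := by
    refine ⟨(m + 1) % 8 ^ j + 8 ^ j * (d + 8 * (M + c + 2)), ?_, ?_, ?_⟩
    · unfold Nat.ModEq
      rw [Nat.add_mul_mod_self_left, Nat.mod_mod]
    · rw [dig_succ, Nat.add_mul_div_left _ _ hpj, Nat.div_eq_of_lt (Nat.mod_lt _ hpj)]
      omega
    · have : 1 * (M + c + 2) ≤ 8 ^ j * (d + 8 * (M + c + 2)) :=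
        Nat.mul_le_mul hpj (by omega)
      omega
  set md := z - 1 with hmd
  have hmdz : md + 1 = z := by omega
  have hmdm : md ≡ m [MOD 8 ^ j] := by
    have : md + 1 ≡ m + 1 [MOD 8 ^ j] := by rw [hmdz]; exact hz1
    exact Nat.ModEq.add_right_cancel' 1 this
  have hNZm : NZ (j + 1) md := by
    apply NZ_succ ((NZ_congr hmdm).mpr hm)
    intro h0
    rw [dig_succ] at h0
    have h1 : dig (j + 1) z = d := hz2
    rw [← hmdz, dig_succ] at h1
    have h2 : (md + 1) / 8 ^ j ≤ md / 8 ^ j + 1 := by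
      calc (md + 1) / 8 ^ j ≤ (md + 8 ^ j) / 8 ^ j := Nat.div_le_div_right (by omega)
        _ = md / 8 ^ j + 1 := Nat.add_div_right _ hpj
    have h3 : md / 8 ^ j ≤ (md + 1) / 8 ^ j := Nat.div_le_div_right (by omega)
    omega
  set nd := z + (n - m - 1) with hnd
  have hndn : nd ≡ n [MOD 8 ^ j] := by
    have : z + (n - m - 1) ≡ m + 1 + (n - m - 1) [MOD 8 ^ j] := hz1.add_right _
    rwa [show m + 1 + (n - m - 1) = n by omega] at this
  have hbet : ∀ i, md < i → i < nd → ¬ NZ j i := by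
    intro i h1 h2 h3
    have h4 : i ≡ m + 1 + (i - z) [MOD 8 ^ j] := by
      have : z + (i - z) ≡ m + 1 + (i - z) [MOD 8 ^ j] := hz1.add_right _
      rwa [show z + (i - z) = i by omega] at this
    exact h (m + 1 + (i - z)) (by omega) (by omega) ((NZ_congr h4).mp h3)
  have hmdnd : md < nd := by omega
  have hdn : dig (j + 1) nd = d := by
    have := Sys.tele_dig (k := j) (j := j + 1) (by omega) hmdnd hbet
    rw [this, hmdz, hz2]
  have hNZn : NZ (j + 1) nd := NZ_succ ((NZ_congr hndn).mpr hn) (by rw [hdn]; omega)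
  set t1 := md - c with ht1
  set t2 := nd - c with ht2
  have e1 : t1 + c = md := by omega
  have e2 : t2 + c = nd := by omega
  have hM1 : M ≤ t1 := by omega
  have hl1 : j + 1 ≤ O.l t1 := stage_ge O hA le_rfl hM1 (by rw [e1]; exact hNZm)
  have hl2 : j + 1 ≤ O.l t2 := stage_ge O hA le_rfl (by omega) (by rw [e2]; exact hNZn)
  have hmod1 : O.w t1 + 1 ≡ z [MOD 8 ^ (j + 1)] := by
    have := hA t1 hM1
    rw [show min (O.l t1 + 1) (j + 1) = j + 1 by omega, e1] at this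
    rw [← hmdz]
    exact this.symm.add_right 1
  have hmod2 : O.w t2 ≡ nd [MOD 8 ^ (j + 1)] := by
    have := hA t2 (by omega)
    rw [show min (O.l t2 + 1) (j + 1) = j + 1 by omega, e2] at this
    exact this.symm
  have hrun := run O hA hC le_rfl hM1 (by omega : t1 < t2) (fun t a b => by
    exact hbet (t + c) (by omega) (by omega))
  have hT : S.T (t1 + 1 + c) (t2 - t1 - 1) = S.T (m + 1) (n - m - 1) := by
    rw [show t1 + 1 + c = z by omega, show t2 - t1 - 1 = n - m - 1 by omega]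
    exact S.T_congr hz1 (fun i hi => hbet _ (by omega) (by omega))
  rw [hT] at hrun
  -- far start bound and height
  have hγ := far O hA hC hK hM1 (by omega : j ≤ O.l t1)
  have hγ' : ‖O.γ t1‖ < S.κ (j + 1) / 4 := lt_of_le_of_lt hγ (YY_small' j)
  have hlam : S.Λ j (O.P (t1 + 1)).1 < S.κ (j + 1) / 4 :=
    lt_of_le_of_lt (Lam_le_Gam (by omega) (O.w t1 + 1) _) hγ'
  have hh := height_lt hj hlam
  have hh2 := S.hα j hj
  have hh3 := O.ha t1
  have k1 : S.κ (O.l t1 + 5) ≤ S.κ (j + 3) := S.hκ.anti (by omega)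
  have habs : |(O.P (t1 + 1)).1| ≤ S.κ (j + 3) := by
    rw [abs_le]; constructor <;> linarith
  obtain ⟨r, r1, r2, r3, r4, he⟩ := Gam_split (S := S) hl1 (O.w t1 + 1) (a := (O.P (t1 + 1)).1)
    (fun _ => hh)
  have hΛ := S.Λle (j + 1) (O.P (t1 + 1)).1 (by omega)
  unfold eta at hΛ
  have p1 := S.hκ.pos (j + 1)
  have p2 := S.hκ.pos (j + 2)
  have p3 := S.hκ.pos (j + 3)
  have q2 : 1000000 * S.κ (j + 2) ≤ S.κ (j + 1) := S.hκ.step (j + 1)
  have q3 : 1000000 * S.κ (j + 3) ≤ S.κ (j + 2) := S.hκ.step (j + 2)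
  have b4 : S.κ (O.l t1 + 2) ≤ S.κ (j + 3) := S.hκ.anti (by omega)
  have b4' : S.κ (O.l t2 + 2) ≤ S.κ (j + 3) := S.hκ.anti (by omega)
  have hPe := O.hP t1
  have hβ1 := (O.hD t1).le
  have hβ2 := (O.hD t2).le
  have hdj : dig j (O.w t1 + 1) = dig j (m + 1) := by
    rw [dig_congr (hmod1.of_dvd (pow_dvd_pow 8 (Nat.le_succ j))) le_rfl, dig_congr hz1 le_rfl]
  have hdj1 : dig (j + 1) (O.w t1 + 1) = d := by rw [dig_congr hmod1 le_rfl, hz2]
  have hdj2 : dig (j + 1) (O.w t2) = d := by rw [dig_congr hmod2 le_rfl, hdn]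
  have hXj : Xt S.κ j (O.w t1 + 1) = Xt S.κ j (m + 1) := by
    rw [Xt_congr S.κ (hmod1.of_dvd (pow_dvd_pow 8 (Nat.le_succ j))), Xt_congr S.κ hz1]
  have hΔX : Xt S.κ (j + 1) (O.w t2) - Xt S.κ (j + 1) (O.w t1 + 1) =
      Xt S.κ j n - Xt S.κ j (m + 1) := by
    rw [Xt_congr S.κ hmod2, Xt_congr S.κ hmod1]
    have := S.tele (k := j) (m := md) (n := nd) hmdnd hbet (K := j + 1) (by omega)
    rw [hmdz] at this
    rw [this, Xt_congr S.κ hndn, Xt_congr S.κ hz1]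
  refine ⟨{ y := O.P (t1 + 1), N := dig (j + 2) (O.w t1 + 1), N' := dig (j + 2) (O.w t2),
            lam := S.Λ (j + 1) (O.P (t1 + 1)).1, lam' := S.Λ j (O.P (t1 + 1)).1,
            hN := dig_lt _ _, hN' := dig_lt _ _, ha := habs, hy := ?_,
            h0 := S.Λ0 _ _, h1 := ?_, h0' := S.Λ0 _ _, hfull := fun hpos => Lam_full_of_pos hpos,
            heq := ?_ }⟩
  · have b1 := Xt_expand S.hκ (k := j) (K := O.l t1 + 1) (by omega) (O.w t1 + 1)
    rw [hdj, hdj1] at b1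
    have b3 := YY_small (S := S) j
    have e : (O.P (t1 + 1)).2 - Xt S.κ j (m + 1) - (S.κ (j + 1) * hs (dig j (m + 1))) • xi d =
        (Xt S.κ (O.l t1 + 1) (O.w t1 + 1) - Xt S.κ j (O.w t1 + 1)
          - (S.κ (j + 1) * hs (dig j (m + 1))) • xi d) + O.γ t1
          + ((O.Q t1).2 - Xt S.κ (O.l t1) (O.w t1)) := by
      rw [hPe, hXj]; unfold Orb.γ; abel
    rw [e]
    calc _ ≤ _ := norm_add₃_le
      _ ≤ 8 * S.κ (j + 2) + S.κ (j + 1) / 10 ^ 6 + 64 * S.κ (j + 3) := by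
        refine add_le_add (add_le_add b1 (hγ.trans b3)) (hβ1.trans ?_)
        linarith
      _ ≤ S.κ (j + 1) / 4000 := by linarith
  · have : S.κ (j + 1 + 1) = S.κ (j + 2) := rfl
    rw [this] at hΛ; linarith
  · have b1 := Xt_expand S.hκ (k := j + 1) (K := O.l t1 + 1) (by omega) (O.w t1 + 1)
    have b2 := Xt_expand S.hκ (k := j + 1) (K := O.l t2 + 1) (by omega) (O.w t2)
    rw [Xt_of_lt S.κ (O.wlt t2) (Nat.le_succ _), hdj2] at b2
    rw [hdj1] at b1
    rw [← hrun]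
    rw [hdj, hdj1] at he
    set D1 : V2 := if isX (dig j (m + 1)) then ((1 : ℝ), (0 : ℝ)) else (0, 1) with hD1
    set D2 : V2 := if isX d then ((1 : ℝ), (0 : ℝ)) else (0, 1) with hD2
    set x1 := Xt S.κ (O.l t1 + 1) (O.w t1 + 1) - Xt S.κ (j + 1) (O.w t1 + 1)
          - (S.κ (j + 1 + 1) * hs d) • xi (dig (j + 1 + 1) (O.w t1 + 1)) with hx1
    set x2 := Xt S.κ (O.l t2) (O.w t2) - Xt S.κ (j + 1) (O.w t2)
          - (S.κ (j + 1 + 1) * hs d) • xi (dig (j + 1 + 1) (O.w t2)) with hx2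
    set β1 := (O.Q t1).2 - Xt S.κ (O.l t1) (O.w t1) with hβ1d
    set β2 := (O.Q t2).2 - Xt S.κ (O.l t2) (O.w t2) with hβ2d
    have hr : ‖r‖ ≤ S.κ (j + 3) := by
      rw [Prod.norm_def]
      apply max_le
      · rw [Real.norm_eq_abs, abs_of_nonneg r1]; exact r2
      · rw [Real.norm_eq_abs, abs_of_nonneg r3]; exact r4
    have e : (O.Q t2).2 - (O.P (t1 + 1)).2 - (Xt S.κ j n - Xt S.κ j (m + 1))
        - ((S.κ (j + 2) * hs d) • (xi (dig (j + 2) (O.w t2)) - xi (dig (j + 2) (O.w t1 + 1)))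
          - S.Λ (j + 1) (O.P (t1 + 1)).1 • D2 - S.Λ j (O.P (t1 + 1)).1 • D1) =
        (β2 + x2) + (-(β1 + x1)) + (-r) := by
      rw [hPe, he, ← hΔX, hβ2d, hβ1d, hx1, hx2, smul_sub]
      abel
    rw [e]
    calc _ ≤ _ := norm_add₃_le
      _ ≤ (64 * S.κ (j + 3) + 8 * S.κ (j + 3)) + (64 * S.κ (j + 3) + 8 * S.κ (j + 3))
          + S.κ (j + 3) := by
        refine add_le_add (add_le_add ?_ ?_) ?_
        · exact (norm_add_le _ _).trans (add_le_add (hβ2.trans (by linarith)) b2)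
        · rw [norm_neg]
          exact (norm_add_le _ _).trans (add_le_add (hβ1.trans (by linarith)) b1)
        · rw [norm_neg]; exact hr
      _ ≤ 146 * S.κ (j + 3) := by linarith

end Pool.Agent.Closing.Pure
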