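import Pool.Agent.Lib.Closing.PureTrans
import Pool.Agent.Lib.Closing.PureBase
import Pool.Agent.Lib.Closing.PureTests
import Pool.Agent.Lib.Closing.PureDigitTest
import Pool.Agent.Lib.Closing.PureInterp

/-!
Assembly of the induction.
-/

namespace Pool.Agent.Closing.Pure

variable {S : Sys}

theorem norm_le_add (y : E3) : ‖y‖ ≤ ‖y.2‖ + |y.1| := by
  rw [Prod.norm_def]
  apply max_le
  · rw [Real.norm_eq_abs]; linarith [norm_nonneg y.2]
  · linarith [abs_nonneg y.1]

theorem one_le_HH (j : ℕ) : 1 ≤ HH j := one_le_pow₀ (by norm_num)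

theorem kappa10_le_gg (S : Sys) : S.κ 10 ≤ S.gg 0 := by
  unfold Sys.gg
  have h1 := S.hκ.pos 1
  have h2 := S.hκ.pos 3
  have h3 : S.κ 10 ≤ S.κ 1 := S.hκ.anti (by norm_num)
  have h4 := one_le_HH 0
  have h5 : 0 ≤ S.κ (0 + 3) / S.κ (0 + 1) := by
    have := S.hκ.pos (0 + 3); have := S.hκ.pos (0 + 1); positivity
  have h6 : S.κ 1 ≤ HH 0 * S.κ (0 + 1) := by
    rw [zero_add]; nlinarith
  nlinarith

theorem sig_TB (S : Sys) (Ω : Set E3) : TB S.sig Ω (S.κ 10) (S.κ 10) 2 1 1 := by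
  have hk := S.hκ.pos 10
  have hk1 : S.κ 10 ≤ 1 := S.hκ.le_one 10
  refine ⟨?_, ?_, ?_⟩
  · intro y _ y' _
    have e : (S.sig y').2 - (S.sig y).2 - (y'.2 - y.2) = (S.v y' - S.v y).2 := by
      simp only [Sys.sig, Prod.snd_add, Prod.snd_sub]; abel
    rw [e]
    have h2 := norm_le_add (y' - y)
    rw [Prod.snd_sub, Prod.fst_sub] at h2
    calc _ ≤ ‖S.v y' - S.v y‖ := snd_le_norm _
      _ ≤ S.κ 10 * ‖y' - y‖ := S.v1 y y'
      _ ≤ S.κ 10 * (‖y'.2 - y.2‖ + |y'.1 - y.1|) := by gcongr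
      _ = _ := by ring
  · intro y _ y' _
    have e : (S.sig y').1 - (S.sig y).1 = (y'.1 - y.1) + (S.v y' - S.v y).1 := by
      simp only [Sys.sig, Prod.fst_add, Prod.fst_sub]; ring
    rw [e]
    have h2 := norm_le_add (y' - y)
    rw [Prod.snd_sub, Prod.fst_sub] at h2
    have h3 := norm_nonneg (y'.2 - y.2)
    have h4 := abs_nonneg (y'.1 - y.1)
    calc _ ≤ _ := abs_add_le _ _
      _ ≤ |y'.1 - y.1| + S.κ 10 * (‖y'.2 - y.2‖ + |y'.1 - y.1|) := by
        gcongr
        exact (fst_le_norm _).trans ((S.v1 y y').trans (by gcongr))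
      _ ≤ |y'.1 - y.1| + 1 * (‖y'.2 - y.2‖ + |y'.1 - y.1|) := by gcongr
      _ ≤ _ := by linarith
  · intro y _
    obtain ⟨L, hL1, hL2⟩ := S.v2 y
    obtain ⟨L', hL'⟩ : ∃ L' : E3 →ₗ[ℝ] E3, ∀ d, L' d = d + L d :=
      ⟨LinearMap.id + L, fun d => by simp⟩
    refine ⟨L', ?_, ?_, ?_⟩
    · intro y' _
      have h := hL2 y'
      have hle : S.κ 10 * ‖y' - y‖ ^ 2 ≤ 1 * ‖y' - y‖ ^ 2 := by gcongr
      have e : S.sig y' - S.sig y - L' (y' - y) =
          S.v y' - S.v y - L (y' - y) := by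
        rw [hL']
        simp only [Sys.sig]
        abel
      constructor
      · have := snd_le_norm (S.sig y' - S.sig y - L' (y' - y))
        rw [e] at this
        have e2 : (S.sig y').2 - (S.sig y).2 - (L' (y' - y)).2 =
            (S.sig y' - S.sig y - L' (y' - y)).2 := rfl
        rw [e2, e]
        exact this.trans (h.trans hle)
      · have := fst_le_norm (S.sig y' - S.sig y - L' (y' - y))
        rw [e] at this
        have e2 : (S.sig y').1 - (S.sig y).1 - (L' (y' - y)).1 =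
            (S.sig y' - S.sig y - L' (y' - y)).1 := rfl
        rw [e2, e]
        exact this.trans (h.trans hle)
    · intro d
      have e : (L' d).2 - d.2 = (L d).2 := by
        rw [hL']; simp
      rw [e]
      calc _ ≤ ‖L d‖ := snd_le_norm _
        _ ≤ S.κ 10 * ‖d‖ := hL1 d
        _ ≤ S.κ 10 * (‖d.2‖ + |d.1|) := by gcongr; exact norm_le_add d
        _ = _ := by ring
    · intro d
      have e : (L' d).1 = d.1 + (L d).1 := by rw [hL']; simp
      rw [e]
      have h3 := norm_nonneg d.2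
      have h4 := abs_nonneg d.1
      calc _ ≤ _ := abs_add_le _ _
        _ ≤ |d.1| + 1 * (‖d.2‖ + |d.1|) := by
          gcongr
          calc _ ≤ ‖L d‖ := fst_le_norm _
            _ ≤ S.κ 10 * ‖d‖ := hL1 d
            _ ≤ 1 * (‖d.2‖ + |d.1|) := by gcongr; exact norm_le_add d
        _ ≤ _ := by linarith

theorem KK_zero (S : Sys) : S.KK 0 := by
  intro m n _ _ hmn h
  have h1 : n = m + 1 := by
    by_contra hne
    exact h (m + 1) (by omega) (by omega) (NZ_zero _)
  subst h1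
  have e : m + 1 - m - 1 = 0 := by omega
  rw [e, Sys.T_zero]
  have hk := S.hκ.pos 10
  constructor
  · refine (sig_TB S (S.Om 0 m)).mono le_rfl (kappa10_le_gg S) ?_ (by norm_num) (one_le_HH 0)
      (one_le_HH 0)
    unfold Sys.ee
    norm_num
    linarith
  · intro y _
    have h3 := S.T_disp_crude (m + 1) 0 (k := 0) (fun i hi => by omega) y
    rw [Sys.T_zero, add_zero] at h3
    refine h3.trans ?_
    have h5 : S.κ 10 ≤ S.κ (0 + 3) := S.hκ.anti (by norm_num)
    have h6 := S.hκ.pos (0 + 3)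
    have h7 : 0 ≤ S.ee 0 * |y.1| := by
      unfold Sys.ee; norm_num
      have := abs_nonneg y.1
      positivity
    unfold C1
    push_cast
    nlinarith

/-- Fine estimate of level `j` from the lower levels and the orbit. -/
theorem KK_step (O : Orb S) {j c M : ℕ} (hA : O.AA (j + 1) c M) (hC : O.CP j M)
    (hK : ∀ i < j, S.KK i) : S.KK j := by
  rcases Nat.eq_zero_or_pos j with hj | hj
  · subst hj; exact KK_zero S
  obtain ⟨i, rfl⟩ : ∃ i, j = i + 1 := ⟨j - 1, by omega⟩
  intro m n hm hn hmn h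
  have hV := VV_of_KK i (hK i (by omega))
  obtain ⟨hTB, _⟩ := hV m n (NZ_mono (by omega) hm) (NZ_mono (by omega) hn) hmn h
  have k1 := S.hκ.pos (i + 1)
  have k2 := S.hκ.pos (i + 2)
  have k3 := S.hκ.pos (i + 3)
  have k4 := S.hκ.pos (i + 4)
  have s2 : 1000000 * S.κ (i + 2) ≤ S.κ (i + 1) := S.hκ.step (i + 1)
  have s3 : 1000000 * S.κ (i + 3) ≤ S.κ (i + 2) := S.hκ.step (i + 2)
  have s4 : 1000000 * S.κ (i + 4) ≤ S.κ (i + 3) := S.hκ.step (i + 3)
  have hsub : S.Om (i + 1) m ⊆ S.Om' i m := by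
    rintro y ⟨h1, h2⟩
    have h1' : |y.1| ≤ S.κ (i + 2) := h1
    have h2' : ‖y.2 - Xt S.κ (i + 1) (m + 1)‖ ≤ 20 * S.κ (i + 2) := h2
    refine ⟨by linarith, ?_⟩
    have h3 := Xt_tail' S.hκ (k := i) (K := i + 1) (by omega) (m + 1)
    have e : y.2 - Xt S.κ i (m + 1) = (y.2 - Xt S.κ (i + 1) (m + 1))
        + (Xt S.κ (i + 1) (m + 1) - Xt S.κ i (m + 1)) := by abel
    rw [e]
    calc _ ≤ _ := norm_add_le _ _
      _ ≤ 20 * S.κ (i + 2) + 8 * S.κ (i + 1) := add_le_add h2' h3
      _ ≤ _ := by linarith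
  have hTB' := hTB.mono hsub le_rfl le_rfl le_rfl le_rfl le_rfl
  have ht : ∀ d, 2 ≤ d → d < 8 → Nonempty (Test S (S.T (m + 1) (n - m - 1)) (i + 1) m n d) :=
    fun d h2 h8 => tests O (by omega) hA hC hK hm hn hmn h h2 h8
  let t : ∀ d, 2 ≤ d → d < 8 → Test S (S.T (m + 1) (n - m - 1)) (i + 1) m n d :=
    fun d h2 h8 => Classical.choice (ht d h2 h8)
  have hmem : ∀ d (h2 : 2 ≤ d) (h8 : d < 8), (t d h2 h8).y ∈ S.Om (i + 1) m := by
    intro d h2 h8
    have a1 := (t d h2 h8).ha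
    have a2 := (t d h2 h8).hy
    refine ⟨?_, ?_⟩
    · refine a1.trans ?_
      show S.κ (i + 4) ≤ S.κ (i + 2)
      linarith
    · set y := (t d h2 h8).y
      set c0 := S.κ (i + 1 + 1) * hs (dig (i + 1) (m + 1)) with hc0
      have e : y.2 - Xt S.κ (i + 1) (m + 1) =
          (y.2 - Xt S.κ (i + 1) (m + 1) - c0 • xi d) + c0 • xi d := by abel
      rw [e]
      have hc1 : 0 ≤ c0 := by
        rw [hc0]
        have := hs_pos (dig (i + 1) (m + 1))
        have : 0 ≤ hs (dig (i + 1) (m + 1)) := by linarith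
        positivity
      have hc2 : c0 ≤ S.κ (i + 2) := by
        rw [hc0]
        have := hs_le (dig (i + 1) (m + 1))
        calc _ ≤ S.κ (i + 1 + 1) * 1 := by gcongr
          _ = _ := by rw [mul_one]
      have hx := xi_norm h8
      have hb : ‖c0 • xi d‖ ≤ 7 * S.κ (i + 2) := by
        rw [norm_smul, Real.norm_eq_abs, abs_of_nonneg hc1]
        calc c0 * ‖xi d‖ ≤ S.κ (i + 2) * 7 := by gcongr
          _ = _ := by ring
      calc _ ≤ _ := norm_add_le _ _
        _ ≤ S.κ (i + 2) / 4000 + 7 * S.κ (i + 2) := add_le_add a2 hb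
        _ ≤ 20 * S.κ (i + 2) := by linarith
  have hagree : ∀ d (h2 : 2 ≤ d) (h8 : d < 8) d' (h2' : 2 ≤ d') (h8' : d' < 8),
      ‖((S.T (m + 1) (n - m - 1) (t d h2 h8).y).2 - (t d h2 h8).y.2) -
        ((S.T (m + 1) (n - m - 1) (t d' h2' h8').y).2 - (t d' h2' h8').y.2)‖ ≤
        S.κ (i + 1 + 2) / 400 := by
    intro d h2 h8 d' h2' h8'
    have a1 := (t d h2 h8).ha
    have a2 := (t d h2 h8).hy
    have b1 := (t d' h2' h8').ha
    have b2 := (t d' h2' h8').hy
    have hl := hTB'.lipb _ (hmem d' h2' h8') _ (hmem d h2 h8)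
    set y := (t d h2 h8).y
    set y' := (t d' h2' h8').y
    set c0 := S.κ (i + 1 + 1) * hs (dig (i + 1) (m + 1)) with hc0
    have hc1 : 0 ≤ c0 := by
      rw [hc0]
      have := hs_pos (dig (i + 1) (m + 1))
      have : 0 ≤ hs (dig (i + 1) (m + 1)) := by linarith
      positivity
    have hc2 : c0 ≤ S.κ (i + 2) := by
      rw [hc0]
      have := hs_le (dig (i + 1) (m + 1))
      calc _ ≤ S.κ (i + 1 + 1) * 1 := by gcongr
        _ = _ := by rw [mul_one]
    have hx := xi_sub_norm h8 h8'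
    have hb : ‖c0 • (xi d - xi d')‖ ≤ 7 * S.κ (i + 2) := by
      rw [norm_smul, Real.norm_eq_abs, abs_of_nonneg hc1]
      calc c0 * ‖xi d - xi d'‖ ≤ S.κ (i + 2) * 7 := by gcongr
        _ = _ := by ring
    have hΔ : ‖y.2 - y'.2‖ ≤ 30 * S.κ (i + 2) := by
      have e : y.2 - y'.2 = (y.2 - Xt S.κ (i + 1) (m + 1) - c0 • xi d)
          + c0 • (xi d - xi d') + (-(y'.2 - Xt S.κ (i + 1) (m + 1) - c0 • xi d')) := by
        rw [smul_sub]; abel
      rw [e]
      calc _ ≤ _ := norm_add₃_le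
        _ ≤ S.κ (i + 2) / 4000 + 7 * S.κ (i + 2) + S.κ (i + 2) / 4000 := by
          refine add_le_add (add_le_add a2 hb) ?_
          rw [norm_neg]; exact b2
        _ ≤ _ := by linarith
    have hΔa : |y.1 - y'.1| ≤ 2 * S.κ (i + 4) := by
      have a1' : |y.1| ≤ S.κ (i + 4) := a1
      have b1' : |y'.1| ≤ S.κ (i + 4) := b1
      rw [abs_le] at *
      constructor <;> linarith [a1'.1, a1'.2, b1'.1, b1'.2]
    have hag := agree_small (S := S) i
    have hq : 0 ≤ 2 * 8 ^ (i + 1) * S.qq i := by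
      have : 0 ≤ S.qq i := by
        unfold Sys.qq Sys.gg
        have := S.hκ.pos (i + 5)
        have := one_le_HH i
        positivity
      positivity
    have he0 : 0 ≤ S.ee (i + 1) := by
      unfold Sys.ee
      have h6 := S.hκ.pos 10
      have h7 : ((1 : ℝ) / 2) ^ (i + 1 + 1) ≤ 1 := pow_le_one₀ (by norm_num) (by norm_num)
      apply mul_nonneg h6.le; linarith
    have he1 : S.ee (i + 1) ≤ 1 := by
      unfold Sys.ee
      have h5 := S.hκ.le_one 10
      have h6 := S.hκ.pos 10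
      have h7 : (0 : ℝ) ≤ (1 / 2) ^ (i + 1 + 1) := by positivity
      have h8 := S.hκ.step 9
      have h9 := S.hκ.le_one 9
      nlinarith
    have e : ((S.T (m + 1) (n - m - 1) y).2 - y.2) - ((S.T (m + 1) (n - m - 1) y').2 - y'.2) =
        (S.T (m + 1) (n - m - 1) y).2 - (S.T (m + 1) (n - m - 1) y').2 - (y.2 - y'.2) := by abel
    rw [e]
    refine hl.trans ?_
    have f1 : 2 * 8 ^ (i + 1) * S.qq i * ‖y.2 - y'.2‖ ≤
        2 * 8 ^ (i + 1) * S.qq i * (30 * S.κ (i + 2)) := by gcongr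
    have f2 : S.ee (i + 1) * |y.1 - y'.1| ≤ 1 * (2 * S.κ (i + 4)) := by gcongr
    have e3 : S.κ (i + 1 + 2) = S.κ (i + 3) := rfl
    rw [e3]
    linarith
  obtain ⟨v1, v2⟩ := test_values t hagree
  have he0 : 0 ≤ S.ee (i + 1) := by
    unfold Sys.ee
    have h6 := S.hκ.pos 10
    have h7 : ((1 : ℝ) / 2) ^ (i + 1 + 1) ≤ 1 := pow_le_one₀ (by norm_num) (by norm_num)
    apply mul_nonneg h6.le; linarith
  have he1 : S.ee (i + 1) ≤ 2 * S.κ 10 := by
    unfold Sys.ee
    have h6 := S.hκ.pos 10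
    have h7 : (0 : ℝ) ≤ (1 / 2) ^ (i + 1 + 1) := by positivity
    nlinarith
  exact interp he0 he1 hTB' t v1 v2

theorem exists_digit (k z e : ℕ) (he : e < 8) : ∃ a, dig (k + 1) (z + a * 8 ^ k) = e := by
  refine ⟨(e + 8 - z / 8 ^ k % 8), ?_⟩
  rw [dig_succ, Nat.add_mul_div_right _ _ (by positivity)]
  have := Nat.mod_lt (z / 8 ^ k) (by norm_num : 0 < 8)
  omega

open Classical in
/-- The last number below `n` satisfying a property. -/
theorem exists_last {p : ℕ → Prop} {a n : ℕ} (ha : a < n) (hp : p a) :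
    ∃ t, a ≤ t ∧ t < n ∧ p t ∧ ∀ i, t < i → i < n → ¬ p i := by
  have hne : ((Finset.range n).filter p).Nonempty := ⟨a, by simp [ha, hp]⟩
  have hmem := Finset.max'_mem _ hne
  simp only [Finset.mem_filter, Finset.mem_range] at hmem
  refine ⟨Finset.max' _ hne, Finset.le_max' _ a (by simp [ha, hp]), hmem.1, hmem.2, ?_⟩
  intro i h1 h2 h3
  have := Finset.le_max' ((Finset.range n).filter p) i (by simp [h2, h3])
  omega

theorem AA_step (O : Orb S) {j c M : ℕ} (hA : O.AA (j + 1) c M) (hC : O.CP j M)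
    (hK : ∀ i < j, S.KK i) (hKj : S.KK j) : ∃ c' M', O.AA (j + 2) c' M' ∧ O.CP (j + 1) M' := by
  have hK' : ∀ i ≤ j, S.KK i := by
    intro i hi
    rcases Nat.lt_or_ge i j with h | h
    · exact hK i h
    · have : i = j := by omega
      rw [this]; exact hKj
  have hF : ∀ n, M ≤ n → j ≤ O.l n → ‖O.γ n‖ ≤ S.YY j := fun n hn hl => far O hA hC hK hn hl
  -- a first time with j + 1 nonzero digits
  obtain ⟨z0, hz0, hz0', hz0n⟩ := exists_NZ (j + 1) (M + c)
  set n0 := z0 - c with hn0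
  have hn0c : n0 + c = z0 := by omega
  have hn0M : M < n0 := by omega
  have hn0z : NZ (j + 1) (n0 + c) := by rw [hn0c]; exact hz0n
  -- the new shift
  obtain ⟨a, ha⟩ := exists_digit (j + 1) (n0 + c) (dig (j + 2) (O.w n0)) (dig_lt _ _)
  set c' := c + a * 8 ^ (j + 1) with hc'
  have hcc : ∀ n, n + c' ≡ n + c [MOD 8 ^ (j + 1)] := by
    intro n
    rw [hc', ← add_assoc]
    unfold Nat.ModEq
    rw [Nat.add_mul_mod_self_right]
  -- last and next times
  have hnext : ∀ n, n0 ≤ n → ∃ n2, n < n2 ∧ NZ (j + 1) (n2 + c) ∧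
      ∀ t, n < t → t < n2 → ¬ NZ (j + 1) (t + c) := by
    classical
    intro n _
    obtain ⟨z, h1, _, h3⟩ := exists_NZ (j + 1) (n + c)
    have hex : ∃ n2, n < n2 ∧ NZ (j + 1) (n2 + c) := ⟨z - c, by omega, by
      rwa [show z - c + c = z by omega]⟩
    refine ⟨Nat.find hex, (Nat.find_spec hex).1, (Nat.find_spec hex).2, ?_⟩
    intro t h4 h5 h6
    exact Nat.find_min hex h5 ⟨h4, h6⟩
  -- the digit j+2 follows the odometer
  have hmain : ∀ n, n0 ≤ n → NZ (j + 1) (n + c) → n + c' ≡ O.w n [MOD 8 ^ (j + 2)] := by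
    intro n
    induction n using Nat.strong_induction_on with
    | _ n ih =>
      intro h1 h2
      have hlow : n + c' ≡ O.w n [MOD 8 ^ (j + 1)] := by
        have hl := stage_ge O hA le_rfl (by omega : M ≤ n) h2
        have := hA n (by omega)
        rw [show min (O.l n + 1) (j + 1) = j + 1 by omega] at this
        exact (hcc n).trans this
      apply modEq_succ hlow
      rcases Nat.eq_or_lt_of_le h1 with h3 | h3
      · rw [← h3, ← ha, hc', ← add_assoc]
      · obtain ⟨n1, b1, b2, b3, b4⟩ := exists_last (p := fun t => NZ (j + 1) (t + c)) h3 hn0z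
        have htr := (transition O hA hC hK' hF (by omega : M ≤ n1) b2 b3 h2 b4).2
        have hI := ih n1 b2 b1 b3
        rw [htr]
        have h5 : n1 + c' + 1 ≡ O.w n1 + 1 [MOD 8 ^ (j + 2)] := hI.add_right 1
        rw [← dig_congr h5 le_rfl]
        apply Sys.tele_dig (k := j + 1) (m := n1 + c') (n := n + c') (by omega) (by omega)
        intro i hi1 hi2
        have h6 := b4 (i - c') (by omega) (by omega)
        rw [← NZ_congr (hcc (i - c'))] at h6
        rwa [show i - c' + c' = i by omega] at h6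
  refine ⟨c', n0 + 8 ^ (j + 1) + 1, ?_, ?_⟩
  · intro n hn
    have hnM : M ≤ n := by omega
    rcases Nat.lt_or_ge (O.l n) (j + 1) with h | h
    · have := hA n hnM
      rw [show min (O.l n + 1) (j + 1) = O.l n + 1 by omega] at this
      rw [show min (O.l n + 1) (j + 2) = O.l n + 1 by omega]
      exact ((hcc n).of_dvd (pow_dvd_pow 8 (by omega))).trans this
    · rw [show min (O.l n + 1) (j + 2) = j + 2 by omega]
      exact hmain n (by omega) (NZ_of_stage O hA le_rfl hnM h)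
  · intro n hn hl
    have hnM : M ≤ n := by omega
    rcases Nat.lt_or_ge (O.l n) j with h | h
    · exact hC n hnM h
    · have hlj : O.l n = j := by omega
      have hnot : ¬ NZ (j + 1) (n + c) := by
        intro hz
        have := stage_ge O hA le_rfl hnM hz
        omega
      have h3 : n0 < n := by omega
      obtain ⟨n1, b1, b2, b3, b4⟩ := exists_last (p := fun t => NZ (j + 1) (t + c)) h3 hn0z
      obtain ⟨n2, d1, d2, d3⟩ := hnext n (by omega)
      have hall : ∀ t, n1 < t → t < n2 → ¬ NZ (j + 1) (t + c) := by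
        intro t t1 t2
        rcases lt_trichotomy t n with h4 | h4 | h4
        · exact b4 t t1 h4
        · rw [h4]; exact hnot
        · exact d3 t h4 t2
      exact (transition O hA hC hK' hF (by omega : M ≤ n1) (by omega) b3 d2 hall).1 n b2 d1 hlj

theorem ind_all (O : Orb S) (j : ℕ) : O.IND j := by
  induction j with
  | zero => exact base O
  | succ j ih =>
    obtain ⟨⟨c, M, hA, hC⟩, hK⟩ := ih
    have hKj := KK_step O hA hC hK
    obtain ⟨c', M', hA', hC'⟩ := AA_step O hA hC hK hKj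
    refine ⟨⟨c', M', hA', hC'⟩, ?_⟩
    intro i hi
    rcases Nat.lt_or_ge i j with h | h
    · exact hK i h
    · have : i = j := by omega
      rw [this]; exact hKj

/-- No orbit of the perturbed system passes only through windows of bounded stage. -/
theorem pure_theorem (O : Orb S) (B : ℕ) (hB : ∀ n, O.l n ≤ B) : False := by
  obtain ⟨⟨c, M, hA, _⟩, _⟩ := ind_all O B
  obtain ⟨z, h1, _, h3⟩ := exists_NZ (B + 1) (M + c)
  have h4 : NZ (B + 1) ((z - c) + c) := by rwa [show z - c + c = z by omega]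
  have := stage_ge O hA le_rfl (by omega : M ≤ z - c) h4
  have := hB (z - c)
  omega

end Pool.Agent.Closing.Pure
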