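import Pool.Agent.Lib.Closing.PureDigits

/-!
Positions of the odometer windows in the plane.
-/

namespace Pool.Agent.Closing.Pure

/-- The plane of positions (sup norm). -/
abbrev V2 := ℝ × ℝ

/-- Scale factor attached to a digit. -/
noncomputable def hs (d : ℕ) : ℝ := if d = 3 ∨ d = 6 then 31 / 32 else 1

/-- The permutation `0,1,2,4,3,5,7,6`. -/
def sp (d : ℕ) : ℕ :=
  if d = 3 then 4 else if d = 4 then 3 else if d = 6 then 7 else if d = 7 then 6 else d

/-- Position of a digit. -/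
noncomputable def xi (d : ℕ) : V2 := ((d : ℝ), (sp d : ℝ))

theorem hs_pos (d : ℕ) : 31 / 32 ≤ hs d := by unfold hs; split_ifs <;> norm_num

theorem hs_le (d : ℕ) : hs d ≤ 1 := by unfold hs; split_ifs <;> norm_num

theorem hs_zero : hs 0 = 1 := by unfold hs; norm_num

theorem hs_of_le_one {d : ℕ} (h : d ≤ 1) : hs d = 1 := by
  unfold hs; rw [if_neg]; omega

theorem xi_zero : xi 0 = 0 := by simp [xi, sp]

theorem sp_lt {d : ℕ} (h : d < 8) : sp d < 8 := by
  unfold sp; split_ifs <;> omega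

theorem sp_inj {d d' : ℕ} (h : sp d = sp d') : d = d' := by
  unfold sp at h; split_ifs at h <;> omega

theorem xi_norm {d : ℕ} (h : d < 8) : ‖xi d‖ ≤ 7 := by
  rw [Prod.norm_def]
  apply max_le
  · simp only [xi, Real.norm_eq_abs]
    rw [abs_of_nonneg (by positivity)]
    have : d ≤ 7 := by omega
    exact_mod_cast this
  · simp only [xi, Real.norm_eq_abs]
    rw [abs_of_nonneg (by positivity)]
    have : sp d ≤ 7 := by have := sp_lt h; omega
    exact_mod_cast this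

theorem xi_sub_norm {d d' : ℕ} (h : d < 8) (h' : d' < 8) : ‖xi d - xi d'‖ ≤ 7 := by
  have h1 : (d : ℝ) ≤ 7 := by exact_mod_cast (by omega : d ≤ 7)
  have h2 : (d' : ℝ) ≤ 7 := by exact_mod_cast (by omega : d' ≤ 7)
  have h3 : (sp d : ℝ) ≤ 7 := by exact_mod_cast (by have := sp_lt h; omega : sp d ≤ 7)
  have h4 : (sp d' : ℝ) ≤ 7 := by exact_mod_cast (by have := sp_lt h'; omega : sp d' ≤ 7)
  have p1 : (0:ℝ) ≤ d := by positivity
  have p2 : (0:ℝ) ≤ d' := by positivity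
  have p3 : (0:ℝ) ≤ sp d := by positivity
  have p4 : (0:ℝ) ≤ sp d' := by positivity
  rw [Prod.norm_def]
  apply max_le
  · simp only [xi, Prod.fst_sub, Real.norm_eq_abs]
    rw [abs_le]; constructor <;> linarith
  · simp only [xi, Prod.snd_sub, Real.norm_eq_abs]
    rw [abs_le]; constructor <;> linarith

/-- Growth constants. -/
noncomputable def MM (k : ℕ) : ℝ := 2 ^ (100 * (k + 1) ^ 2)

/-- A very fast decreasing sequence of scales. -/
structure Kap (κ : ℕ → ℝ) : Prop where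
  pos : ∀ k, 0 < κ k
  one : κ 0 ≤ 1
  m1 : ∀ k, MM k * κ (k + 1) ≤ κ k
  m2 : ∀ k, MM k * κ k ^ 2 ≤ κ (k + 2)

theorem MM_ge (k : ℕ) : 2 ^ 100 ≤ MM k := by
  unfold MM
  exact pow_le_pow_right₀ (by norm_num) (by nlinarith [Nat.zero_le k])

section
variable {κ : ℕ → ℝ} (hκ : Kap κ)
include hκ

theorem Kap.step (k : ℕ) : 1000000 * κ (k + 1) ≤ κ k := by
  have h1 := hκ.m1 k
  have h2 := MM_ge k
  have h3 := hκ.pos (k + 1)
  have h4 : (1000000 : ℝ) ≤ MM k := le_trans (by norm_num) h2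
  nlinarith

theorem Kap.anti_succ (k : ℕ) : κ (k + 1) ≤ κ k := by
  have h1 := hκ.step k
  have h3 := hκ.pos (k + 1)
  linarith

theorem Kap.anti {k l : ℕ} (h : k ≤ l) : κ l ≤ κ k := by
  induction l, h using Nat.le_induction with
  | base => exact le_rfl
  | succ l _ ih => exact (hκ.anti_succ l).trans ih

theorem Kap.le_one (k : ℕ) : κ k ≤ 1 := (hκ.anti (Nat.zero_le k)).trans hκ.one

end

/-- Truncated position. -/
noncomputable def Xt (κ : ℕ → ℝ) (k z : ℕ) : V2 :=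
  ∑ j ∈ Finset.range k, (κ (j + 1) * hs (dig j z)) • xi (dig (j + 1) z)

theorem Xt_succ (κ : ℕ → ℝ) (k z : ℕ) :
    Xt κ (k + 1) z = Xt κ k z + (κ (k + 1) * hs (dig k z)) • xi (dig (k + 1) z) := by
  unfold Xt; rw [Finset.sum_range_succ]

theorem Xt_zero (κ : ℕ → ℝ) (z : ℕ) : Xt κ 0 z = 0 := by simp [Xt]

theorem Xt_congr (κ : ℕ → ℝ) {k z z' : ℕ} (h : z ≡ z' [MOD 8 ^ k]) : Xt κ k z = Xt κ k z' := by
  unfold Xt
  apply Finset.sum_congr rfl
  intro j hj
  have hj := Finset.mem_range.mp hj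
  rw [dig_congr h (by omega : j ≤ k), dig_congr h (by omega : j + 1 ≤ k)]

theorem Xt_of_lt (κ : ℕ → ℝ) {l K w : ℕ} (hw : w < 8 ^ l) (hK : l ≤ K) : Xt κ K w = Xt κ l w := by
  induction K, hK using Nat.le_induction with
  | base => rfl
  | succ K hK ih =>
    rw [Xt_succ, ih, dig_of_lt hw (by omega : l < K + 1), xi_zero, smul_zero, add_zero]

theorem Xt_tail {κ : ℕ → ℝ} (hκ : Kap κ) {k K : ℕ} (hK : k ≤ K) (z : ℕ) :
    ‖Xt κ K z - Xt κ k z‖ ≤ 8 * κ (k + 1) - 8 * κ (K + 1) := by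
  induction K, hK using Nat.le_induction with
  | base => simp
  | succ K hK ih =>
    rw [Xt_succ]
    have h1 : ‖(κ (K + 1) * hs (dig K z)) • xi (dig (K + 1) z)‖ ≤ 7 * κ (K + 1) := by
      rw [norm_smul, Real.norm_eq_abs, abs_of_nonneg (mul_nonneg (hκ.pos _).le
        (le_trans (by norm_num) (hs_pos _)))]
      have a1 := xi_norm (dig_lt (K + 1) z)
      have a2 := hs_le (dig K z)
      have a3 := hκ.pos (K + 1)
      have a4 : 0 ≤ hs (dig K z) := le_trans (by norm_num) (hs_pos _)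
      calc κ (K + 1) * hs (dig K z) * ‖xi (dig (K + 1) z)‖
          ≤ κ (K + 1) * 1 * 7 := by gcongr
        _ = 7 * κ (K + 1) := by ring
    have h2 := hκ.step (K + 1)
    have h3 := hκ.pos (K + 1 + 1)
    calc ‖Xt κ K z + (κ (K + 1) * hs (dig K z)) • xi (dig (K + 1) z) - Xt κ k z‖
        = ‖(Xt κ K z - Xt κ k z) + (κ (K + 1) * hs (dig K z)) • xi (dig (K + 1) z)‖ := by
          congr 1; abel
      _ ≤ _ := norm_add_le _ _
      _ ≤ (8 * κ (k + 1) - 8 * κ (K + 1)) + 7 * κ (K + 1) := by gcongr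
      _ ≤ 8 * κ (k + 1) - 8 * κ (K + 1 + 1) := by linarith

theorem Xt_tail' {κ : ℕ → ℝ} (hκ : Kap κ) {k K : ℕ} (hK : k ≤ K) (z : ℕ) :
    ‖Xt κ K z - Xt κ k z‖ ≤ 8 * κ (k + 1) := by
  have := Xt_tail hκ hK z
  have h2 := hκ.pos (K + 1)
  linarith

theorem Xt_norm {κ : ℕ → ℝ} (hκ : Kap κ) (K z : ℕ) : ‖Xt κ K z‖ ≤ 8 * κ 1 := by
  have := Xt_tail' hκ (Nat.zero_le K) z
  rwa [Xt_zero, sub_zero] at this

/-- Expansion to one more digit. -/
theorem Xt_expand {κ : ℕ → ℝ} (hκ : Kap κ) {k K : ℕ} (hK : k + 1 ≤ K) (z : ℕ) :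
    ‖Xt κ K z - Xt κ k z - (κ (k + 1) * hs (dig k z)) • xi (dig (k + 1) z)‖ ≤ 8 * κ (k + 2) := by
  have := Xt_tail' hκ hK z
  rw [Xt_succ] at this
  rw [sub_sub]; exact this

/-- Per-step lemma: passing a window of stage `fz z` is a rigid translation of the positions. -/
theorem Xt_step (κ : ℕ → ℝ) {z K : ℕ} (hK : fz z + 1 ≤ K) :
    Xt κ K (z + 1) - Xt κ K z = Xt κ (fz z + 1) (win z + 1) - Xt κ (fz z) (win z) := by
  induction K, hK using Nat.le_induction with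
  | base =>
    rw [Xt_congr κ (add_one_modEq (z := z)).symm, Xt_congr κ (win_modEq_succ z).symm,
      Xt_of_lt κ (win_lt z) (Nat.le_succ _)]
  | succ K hK ih =>
    have h1 : dig (K + 1) (z + 1) = dig (K + 1) z := dig_add_one_of_gt (dig_fz z) (by omega)
    have h2 : hs (dig K (z + 1)) = hs (dig K z) := by
      rcases Nat.lt_or_ge (fz z + 1) K with h | h
      · rw [dig_add_one_of_gt (dig_fz z) (by omega)]
      · have : K = fz z + 1 := by omega
        rw [this, dig_fz, hs_zero, hs_of_le_one (dig_fz_add_one z)]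
    rw [Xt_succ, Xt_succ, h1, h2, ← ih]; abel

theorem hs_step {z k : ℕ} (h : ¬ NZ k z) : hs (dig k (z + 1)) = hs (dig k z) := by
  have h3 := fz_lt_of_not_NZ h
  rcases Nat.lt_or_ge (fz z + 1) k with h4 | h4
  · rw [dig_add_one_of_gt (dig_fz z) (by omega)]
  · have : k = fz z + 1 := by omega
    rw [this, dig_fz, hs_zero, hs_of_le_one (dig_fz_add_one z)]

theorem dig_step {z k j : ℕ} (h : ¬ NZ k z) (hj : k < j) : dig j (z + 1) = dig j z :=
  dig_add_one_of_gt (dig_fz z) (by have := fz_lt_of_not_NZ h; omega)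

end Pool.Agent.Closing.Pure
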