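import Pool.Agent.Lib.Closing.PureConst

/-!
Windows are determined by the index, and runs of core passes are tubes.
-/

namespace Pool.Agent.Closing.Pure

variable {S : Sys}

/-- The congruence available at a window of stage less than `k`. -/
theorem AA_modEq_succ (O : Orb S) {k c M n : ℕ} (hA : O.AA k c M) (hn : M ≤ n)
    (h : O.l n < k) : n + c ≡ O.w n [MOD 8 ^ (O.l n + 1)] := by
  have h1 := hA n hn
  rwa [min_eq_left (by omega)] at h1

theorem stage_ge (O : Orb S) {k c M j n : ℕ} (hA : O.AA k c M) (hj : j ≤ k) (hn : M ≤ n)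
    (h : NZ j (n + c)) : j ≤ O.l n := by
  by_contra hc
  have h1 := AA_modEq_succ O hA hn (by omega)
  have h2 : dig (O.l n + 1) (n + c) = 0 := by
    rw [dig_congr h1 le_rfl]
    exact dig_of_lt (O.wlt n) (by omega)
  exact h (O.l n + 1) (by omega) (by omega) h2

theorem NZ_of_stage (O : Orb S) {k c M j n : ℕ} (hA : O.AA k c M) (hj : j ≤ k) (hn : M ≤ n)
    (h : j ≤ O.l n) : NZ j (n + c) := by
  have h1 : n + c ≡ O.w n [MOD 8 ^ j] :=
    (hA n hn).of_dvd (pow_dvd_pow 8 (by omega))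
  exact (NZ_congr h1).mpr (NZ_mono h (O.nz n))

theorem window_eq (O : Orb S) {k c M j n : ℕ} (hA : O.AA k c M) (hj : j ≤ k) (hn : M ≤ n)
    (h : ¬ NZ j (n + c)) : O.l n = fz (n + c) ∧ O.w n = win (n + c) := by
  have hl : O.l n < j := by
    by_contra hc
    exact h (NZ_of_stage O hA hj hn (by omega))
  have h1 := AA_modEq_succ O hA hn (by omega)
  have h0 : n + c ≡ O.w n [MOD 8 ^ O.l n] := h1.of_dvd (pow_dvd_pow 8 (by omega))
  have h2 : fz (n + c) = O.l n := by
    apply fz_eq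
    · exact (NZ_congr h0).mpr (O.nz n)
    · rw [dig_congr h1 le_rfl]
      exact dig_of_lt (O.wlt n) (by omega)
  refine ⟨h2.symm, ?_⟩
  unfold win
  rw [h2]
  have h3 : (n + c) % 8 ^ O.l n = O.w n % 8 ^ O.l n := h0
  rw [h3, Nat.mod_eq_of_lt (O.wlt n)]

/-- A core pass is given by `Fc`. -/
theorem P_succ_of_core (O : Orb S) {n : ℕ} (h : O.Core n) :
    O.P (n + 1) = S.Fc (O.l n) (O.w n) (O.Q n) := by
  obtain ⟨h1, h2⟩ := O.core n h
  have h3 := O.hP n
  rw [h2] at h3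
  apply Prod.ext
  · rw [h1]; rfl
  · rw [h3]
    show _ = (O.Q n).2 + (Xt S.κ (O.l n + 1) (O.w n + 1) - Xt S.κ (O.l n) (O.w n))
    abel

theorem run (O : Orb S) {j i c M n n1 : ℕ} (hA : O.AA (j + 1) c M) (hC : O.CP j M) (hi : i ≤ j)
    (hn : M ≤ n) (hn1 : n < n1) (h : ∀ t, n < t → t < n1 → ¬ NZ i (t + c)) :
    O.Q n1 = S.T (n + 1 + c) (n1 - n - 1) (O.P (n + 1)) := by
  induction n1, hn1 using Nat.le_induction with
  | base =>
    rw [show n + 1 - n - 1 = 0 by omega, Sys.T_zero]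
    exact O.hQ (n + 1)
  | succ n1 hn1 ih =>
    have h1 := ih fun t h2 h3 => h t h2 (by omega)
    have hnz : ¬ NZ i (n1 + c) := h n1 (by omega) (by omega)
    obtain ⟨hl, hw⟩ := window_eq O hA (by omega : i ≤ j + 1) (by omega : M ≤ n1) hnz
    have hlt : O.l n1 < j := by
      rw [hl]; exact lt_of_lt_of_le (fz_lt_of_not_NZ hnz) hi
    have hcore := P_succ_of_core O (hC n1 (by omega) hlt)
    rw [show n1 + 1 - n - 1 = (n1 - n - 1) + 1 by omega, Sys.T_succ, ← h1,
      show n + 1 + c + (n1 - n - 1) = n1 + c by omega, ← hl, ← hw, ← hcore]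
    exact O.hQ (n1 + 1)

end Pool.Agent.Closing.Pure
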