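import Pool.Agent.Lib.Closing.PureIneq
import Pool.Agent.Lib.Closing.PureRun
import Pool.Agent.Lib.Closing.PureGam

/-!
Transition between consecutive times with `j + 1` nonzero digits.
-/

namespace Pool.Agent.Closing.Pure

variable {S : Sys}

theorem pow_aux (j : ℕ) : (8 : ℝ) ^ (j + 1) * 2 ^ 40 ≤ 2 ^ (100 * (j + 1) ^ 2) := by
  rw [show (8 : ℝ) = 2 ^ 3 by norm_num, ← pow_mul, ← pow_add]
  apply pow_le_pow_right₀ (by norm_num)
  nlinarith [Nat.zero_le j]

theorem pow_aux' {i j : ℕ} (h : i ≤ j) : (8 : ℝ) ^ (i + 1) * 2 ^ 40 ≤ 2 ^ (100 * (j + 1) ^ 2) := by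
  refine (pow_aux i).trans (pow_le_pow_right₀ (by norm_num) ?_)
  have : i + 1 ≤ j + 1 := by omega
  nlinarith [Nat.pow_le_pow_left this 2]

theorem E0_small (j : ℕ) :
    (144 + 8 ^ (j + 1) * (C1 + 1)) * S.κ (j + 3) ≤ S.κ (j + 2) / 1000 := by
  have h1 : 1000 * (144 + 8 ^ (j + 1) * (C1 + 1)) ≤ (2 : ℝ) ^ (100 * (j + 2 + 1) ^ 2) := by
    refine le_trans ?_ (pow_aux' (i := j) (j := j + 2) (by omega))
    have : (1 : ℝ) ≤ 8 ^ (j + 1) := one_le_pow₀ (by norm_num)
    unfold C1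
    nlinarith
  have h2 := ineq1 (S := S) (j + 2) h1
  rw [show j + 2 + 1 = j + 3 by ring] at h2
  linarith

/-- Displacement in one tube between consecutive times with `j` nonzero digits. -/
theorem tube_disp (O : Orb S) {j c M : ℕ} (hA : O.AA (j + 1) c M) (hC : O.CP j M)
    (hK : ∀ i ≤ j, S.KK i) (hF : ∀ n, M ≤ n → j ≤ O.l n → ‖O.γ n‖ ≤ S.YY j)
    {t t' : ℕ} (hM : M ≤ t) (htt : t < t') (hz1 : NZ j (t + c)) (hz2 : NZ j (t' + c))
    (hz : ∀ i, t < i → i < t' → ¬ NZ j (i + c)) :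
    ‖(O.Q t').2 - (O.P (t + 1)).2 -
      (Xt S.κ (j + 1) (t' + c) - Xt S.κ (j + 1) (t + c + 1))‖ ≤ (C1 + 1) * S.κ (j + 3) := by
  have hrun := run O hA hC le_rfl hM htt hz
  have hz' : ∀ i, t + c < i → i < t' + c → ¬ NZ j i := by
    intro i h1 h2
    have := hz (i - c) (by omega) (by omega)
    rwa [show i - c + c = i by omega] at this
  have htele := S.tele (k := j) (m := t + c) (n := t' + c) (by omega) hz' (K := j + 1) (by omega)
  have hk3 := S.hκ.pos (j + 3)
  rw [htele]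
  have hidx : t' + c - (t + c) - 1 = t' - t - 1 := by omega
  rcases Nat.eq_zero_or_pos j with hj | hj
  · subst hj
    have h1 : t' = t + 1 := by
      by_contra hne
      exact hz (t + 1) (by omega) (by omega) (NZ_zero _)
    subst h1
    rw [hrun]
    have h3 := S.T_disp_crude (t + 1 + c) (t + 1 - t - 1) (k := 0) (fun i hi => by omega)
      (O.P (t + 1))
    have e1 : t + 1 + c + (t + 1 - t - 1) = t + 1 + c := by omega
    have e2 : t + c + 1 = t + 1 + c := by omega
    rw [e1] at h3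
    rw [e2]
    refine h3.trans ?_
    have h4 : ((t + 1 - t - 1 : ℕ) : ℝ) = 0 := by simp
    rw [h4, zero_add, one_mul]
    have h5 : S.κ 10 ≤ S.κ 3 := S.hκ.anti (by norm_num)
    unfold C1
    linarith
  · obtain ⟨hTB, hd⟩ := hK j le_rfl (t + c) (t' + c) hz1 hz2 (by omega) hz'
    rw [hidx] at hd
    have hlt : j ≤ O.l t := stage_ge O hA (by omega) hM hz1
    have hγ := hF t hM hlt
    have hγ' : ‖O.γ t‖ < S.κ (j + 1) / 4 := lt_of_le_of_lt hγ (YY_small' j)
    have hlam : S.Λ j (O.P (t + 1)).1 < S.κ (j + 1) / 4 :=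
      lt_of_le_of_lt (Lam_le_Gam hlt (O.w t + 1) _) hγ'
    have hh := height_lt hj hlam
    have hh2 := S.hα j hj
    have hh3 := O.ha t
    have k1 : S.κ (O.l t + 5) ≤ S.κ (j + 3) := S.hκ.anti (by omega)
    have k2 : S.κ (j + 3) ≤ S.κ (j + 1) := S.hκ.anti (by omega)
    have habs : |(O.P (t + 1)).1| ≤ S.κ (j + 3) := by
      rw [abs_le]; constructor <;> linarith
    have hmod : O.w t + 1 ≡ t + c + 1 [MOD 8 ^ j] := by
      have := hA t hM
      rw [show min (O.l t + 1) (j + 1) = j + 1 by omega] at this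
      exact ((this.of_dvd (pow_dvd_pow 8 (by omega))).symm).add_right 1
    have hdom : O.P (t + 1) ∈ S.Om j (t + c) := by
      refine ⟨habs.trans k2, ?_⟩
      have e := O.hP t
      have e1 : (O.P (t + 1)).2 - Xt S.κ j (t + c + 1) =
          (Xt S.κ (O.l t + 1) (O.w t + 1) - Xt S.κ j (O.w t + 1)) + O.γ t
            + ((O.Q t).2 - Xt S.κ (O.l t) (O.w t)) := by
        rw [e, ← Xt_congr S.κ hmod]; unfold Orb.γ; abel
      rw [e1]
      have b1 := Xt_tail' S.hκ (k := j) (K := O.l t + 1) (by omega) (O.w t + 1)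
      have b2 := (O.hD t).le
      have b3 := YY_small (S := S) j
      have b4 : S.κ (O.l t + 2) ≤ S.κ (j + 2) := S.hκ.anti (by omega)
      have b5 := S.hκ.step (j + 1)
      have b6 := S.hκ.pos (j + 1)
      have b7 := S.hκ.pos (j + 2)
      calc _ ≤ _ := norm_add₃_le
        _ ≤ 8 * S.κ (j + 1) + S.κ (j + 1) / 10 ^ 6 + 64 * S.κ (j + 2) := by
          refine add_le_add (add_le_add b1 (hγ.trans b3)) (b2.trans ?_)
          linarith
        _ ≤ 20 * S.κ (j + 1) := by
          have : 1000000 * S.κ (j + 2) ≤ S.κ (j + 1) := b5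
          linarith
    have h1 := hd _ hdom
    rw [hrun]
    have e2 : t + 1 + c = t + c + 1 := by omega
    rw [e2]
    refine h1.trans ?_
    have he : S.ee j ≤ 1 := by
      unfold Sys.ee
      have h5 := S.hκ.le_one 10
      have h6 := S.hκ.pos 10
      have h7 : (0 : ℝ) ≤ (1 / 2) ^ (j + 1) := by positivity
      have h8 := S.hκ.step 9
      have h9 := S.hκ.le_one 9
      nlinarith
    have he0 : 0 ≤ S.ee j := by
      unfold Sys.ee
      have h6 := S.hκ.pos 10
      have h7 : ((1 : ℝ) / 2) ^ (j + 1) ≤ 1 := pow_le_one₀ (by norm_num) (by norm_num)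
      apply mul_nonneg h6.le; linarith
    have h9 : S.ee j * |(O.P (t + 1)).1| ≤ 1 * S.κ (j + 3) := by
      gcongr
    linarith

/-- One coordinate of the tail of a window of stage at least `j + 1` is small. -/
theorem tail_coord (O : Orb S) {j t : ℕ} (hl : j + 1 ≤ O.l t) (hγ : ‖O.γ t‖ ≤ S.YY j) :
    (O.γ t).1 ≤ S.κ (j + 2) / 4 + S.κ (j + 3) ∨ (O.γ t).2 ≤ S.κ (j + 2) / 4 + S.κ (j + 3) := by
  have hγ' : ‖O.γ t‖ < S.κ (j + 1) / 4 := lt_of_le_of_lt hγ (YY_small' j)
  have hlam : S.Λ j (O.P (t + 1)).1 < S.κ (j + 1) / 4 :=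
    lt_of_le_of_lt (Lam_le_Gam (by omega) (O.w t + 1) _) hγ'
  obtain ⟨r, r1, r2, r3, r4, he⟩ := Gam_split (S := S) hl (O.w t + 1) (a := (O.P (t + 1)).1)
    (fun hj => height_lt hj hlam)
  have hΛ := S.Λle (j + 1) (O.P (t + 1)).1 (by omega)
  unfold eta at hΛ
  have hκ := S.hκ.pos (j + 2)
  unfold Orb.γ
  rw [he]
  by_cases h1 : isX (dig j (O.w t + 1)) <;> by_cases h2 : isX (dig (j + 1) (O.w t + 1)) <;>
    simp only [h1, h2, if_true, if_false, Prod.smul_mk, smul_eq_mul, mul_one, mul_zero,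
      Prod.fst_add, Prod.snd_add, zero_add, add_zero]
  · right; linarith
  · right
    have : S.κ (j + 1 + 1) = S.κ (j + 2) := rfl
    rw [this] at hΛ; linarith
  · left
    have : S.κ (j + 1 + 1) = S.κ (j + 2) := rfl
    rw [this] at hΛ; linarith
  · left; linarith

open Classical in
/-- Accumulated tails of the passes strictly between `n1` and `p` at times with `j` nonzero
digits. -/
noncomputable def accG (O : Orb S) (j c n1 p : ℕ) : V2 :=
  ∑ t ∈ Finset.Ioo n1 p, if NZ j (t + c) then O.γ t else 0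

theorem γ_nonneg (O : Orb S) (t : ℕ) : 0 ≤ (O.γ t).1 ∧ 0 ≤ (O.γ t).2 := Gam_nonneg _ _ _

theorem accG_nonneg (O : Orb S) (j c n1 p : ℕ) :
    0 ≤ (accG O j c n1 p).1 ∧ 0 ≤ (accG O j c n1 p).2 := by
  unfold accG
  rw [Prod.fst_sum, Prod.snd_sum]
  constructor
  · apply Finset.sum_nonneg; intro t _; split_ifs
    · exact (γ_nonneg O t).1
    · exact le_rfl
  · apply Finset.sum_nonneg; intro t _; split_ifs
    · exact (γ_nonneg O t).2
    · exact le_rfl

theorem accG_mono (O : Orb S) (j c n1 : ℕ) {p q : ℕ} (h : p ≤ q) :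
    (accG O j c n1 p).1 ≤ (accG O j c n1 q).1 ∧ (accG O j c n1 p).2 ≤ (accG O j c n1 q).2 := by
  unfold accG
  rw [Prod.fst_sum, Prod.snd_sum, Prod.fst_sum, Prod.snd_sum]
  have hsub : Finset.Ioo n1 p ⊆ Finset.Ioo n1 q := Finset.Ioo_subset_Ioo le_rfl h
  constructor
  · apply Finset.sum_le_sum_of_subset_of_nonneg hsub; intro t _ _; split_ifs
    · exact (γ_nonneg O t).1
    · exact le_rfl
  · apply Finset.sum_le_sum_of_subset_of_nonneg hsub; intro t _ _; split_ifs
    · exact (γ_nonneg O t).2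
    · exact le_rfl

theorem accG_zero (O : Orb S) {j c n1 p : ℕ} (h : ∀ t, n1 < t → t < p → ¬ NZ j (t + c)) :
    accG O j c n1 p = 0 := by
  unfold accG
  apply Finset.sum_eq_zero
  intro t ht
  rw [Finset.mem_Ioo] at ht
  rw [if_neg (h t ht.1 ht.2)]

open Classical in
theorem accG_step (O : Orb S) {j c n1 t p : ℕ} (h1 : n1 < t) (h2 : t < p) (ht : NZ j (t + c))
    (h : ∀ i, t < i → i < p → ¬ NZ j (i + c)) :
    accG O j c n1 p = accG O j c n1 t + O.γ t := by
  unfold accG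
  have e : Finset.Ioo n1 p = Finset.Ioo n1 t ∪ {t} ∪ Finset.Ioo t p := by
    ext i
    simp only [Finset.mem_union, Finset.mem_Ioo, Finset.mem_singleton]
    omega
  rw [e, Finset.sum_union, Finset.sum_union, Finset.sum_singleton, if_pos ht]
  · have : ∑ x ∈ Finset.Ioo t p, (if NZ j (x + c) then O.γ x else 0) = 0 := by
      apply Finset.sum_eq_zero
      intro i hi
      rw [Finset.mem_Ioo] at hi
      rw [if_neg (h i hi.1 hi.2)]
    rw [this, add_zero]
  · rw [Finset.disjoint_singleton_right, Finset.mem_Ioo]; omega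
  · rw [Finset.disjoint_left]
    intro i hi
    simp only [Finset.mem_union, Finset.mem_Ioo, Finset.mem_singleton] at hi ⊢
    omega

/-- Offsets along the transition. -/
theorem offset (O : Orb S) {j c M : ℕ} (hA : O.AA (j + 1) c M) (hC : O.CP j M)
    (hK : ∀ i ≤ j, S.KK i) (hF : ∀ n, M ≤ n → j ≤ O.l n → ‖O.γ n‖ ≤ S.YY j)
    {n1 n2 : ℕ} (hM : M ≤ n1) (hz1 : NZ (j + 1) (n1 + c))
    (hz : ∀ t, n1 < t → t < n2 → ¬ NZ (j + 1) (t + c)) :
    ∀ p, n1 < p → p ≤ n2 → NZ j (p + c) →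
      ‖(O.Q p).2 - Xt S.κ (j + 1) (p + c) -
        ((O.P (n1 + 1)).2 - Xt S.κ (j + 1) (n1 + c + 1)) - accG O j c n1 p‖ ≤
        (p - n1 : ℝ) * ((C1 + 1) * S.κ (j + 3)) := by
  intro p
  induction p using Nat.strong_induction_on with
  | _ p ih =>
    intro h1 h2 hp
    have hk3 : 0 ≤ (C1 + 1) * S.κ (j + 3) := by
      have := S.hκ.pos (j + 3); unfold C1; positivity
    by_cases hex : ∃ t, n1 < t ∧ t < p ∧ NZ j (t + c)
    · -- the largest such time
      obtain ⟨t, ⟨ht1, ht2, ht3⟩, hmax⟩ : ∃ t, (n1 < t ∧ t < p ∧ NZ j (t + c)) ∧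
          ∀ i, t < i → i < p → ¬ NZ j (i + c) := by
        classical
        obtain ⟨t0, ht0⟩ := hex
        have hne : (((Finset.range p).filter fun t => n1 < t ∧ t < p ∧ NZ j (t + c))).Nonempty :=
          ⟨t0, by simp [ht0.1, ht0.2.1, ht0.2.2]⟩
        refine ⟨Finset.max' _ hne, ?_, ?_⟩
        · have := Finset.max'_mem _ hne
          simp only [Finset.mem_filter] at this
          exact this.2
        · intro i hi hip hni
          have hmem : i ∈ (Finset.range p).filter fun t => n1 < t ∧ t < p ∧ NZ j (t + c) := by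
            simp only [Finset.mem_filter, Finset.mem_range]
            refine ⟨hip, ?_, hip, hni⟩
            have h3 := Finset.max'_mem _ hne
            simp only [Finset.mem_filter] at h3
            omega
          have := Finset.le_max' _ i hmem
          omega
      have hI := ih t ht2 ht1 (by omega) ht3
      have hD := tube_disp O hA hC hK hF (by omega : M ≤ t) ht2 ht3 hp hmax
      rw [accG_step O ht1 ht2 ht3 hmax]
      -- the pass at time t
      have hnz : ¬ NZ (j + 1) (t + c) := hz t ht1 (by omega)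
      obtain ⟨w1, w2⟩ := window_eq O hA le_rfl (by omega : M ≤ t) hnz
      have hfz : fz (t + c) < j + 1 := fz_lt_of_not_NZ hnz
      have hpass : (O.P (t + 1)).2 - Xt S.κ (j + 1) (t + c + 1) =
          (O.Q t).2 - Xt S.κ (j + 1) (t + c) + O.γ t := by
        have e := O.hP t
        have s := Xt_step S.κ (z := t + c) (K := j + 1) (by omega)
        have e3 : Xt S.κ (j + 1) (t + c + 1) =
            Xt S.κ (fz (t + c) + 1) (win (t + c) + 1) - Xt S.κ (fz (t + c)) (win (t + c))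
              + Xt S.κ (j + 1) (t + c) := by rw [← s]; abel
        rw [e, e3]
        unfold Orb.γ
        rw [w1, w2]; abel
      have e1 : (O.Q p).2 - Xt S.κ (j + 1) (p + c) -
          ((O.P (n1 + 1)).2 - Xt S.κ (j + 1) (n1 + c + 1)) - (accG O j c n1 t + O.γ t) =
          ((O.Q p).2 - (O.P (t + 1)).2 - (Xt S.κ (j + 1) (p + c) - Xt S.κ (j + 1) (t + c + 1)))
          + ((O.Q t).2 - Xt S.κ (j + 1) (t + c) -
            ((O.P (n1 + 1)).2 - Xt S.κ (j + 1) (n1 + c + 1)) - accG O j c n1 t) := by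
        have : (O.Q t).2 - Xt S.κ (j + 1) (t + c) =
            (O.P (t + 1)).2 - Xt S.κ (j + 1) (t + c + 1) - O.γ t := by
          rw [hpass]; abel
        rw [this]; abel
      rw [e1]
      have hcast : ((t : ℝ) + 1) ≤ p := by exact_mod_cast ht2
      calc _ ≤ _ := norm_add_le _ _
        _ ≤ (C1 + 1) * S.κ (j + 3) + (t - n1 : ℝ) * ((C1 + 1) * S.κ (j + 3)) := add_le_add hD hI
        _ ≤ _ := by nlinarith
    · have hno : ∀ t, n1 < t → t < p → ¬ NZ j (t + c) := fun t a b hc => hex ⟨t, a, b, hc⟩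
      rw [accG_zero O hno, sub_zero]
      have hD := tube_disp O hA hC hK hF hM h1 (NZ_mono (by omega) hz1) hp hno
      have hcast : ((n1 : ℝ) + 1) ≤ p := by exact_mod_cast h1
      have e1 : (O.Q p).2 - Xt S.κ (j + 1) (p + c) -
          ((O.P (n1 + 1)).2 - Xt S.κ (j + 1) (n1 + c + 1)) =
          (O.Q p).2 - (O.P (n1 + 1)).2 -
            (Xt S.κ (j + 1) (p + c) - Xt S.κ (j + 1) (n1 + c + 1)) := by abel
      rw [e1]
      refine hD.trans ?_
      nlinarith

/-- Integer arithmetic: a small multiple of the scale vanishes. -/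
theorem digit_eq_of_small {N N' : ℕ} {h K x : ℝ} (hK : 0 < K) (hh : 31 / 32 ≤ h)
    (hx : |x| < 31 / 32 * K) (he : x = K * h * ((N' : ℝ) - N)) : N' = N := by
  by_contra hne
  have h1 : (1 : ℝ) ≤ |(N' : ℝ) - N| := by
    rcases Nat.lt_or_gt_of_ne hne with h2 | h2
    · have : (N' : ℝ) + 1 ≤ N := by exact_mod_cast h2
      rw [abs_of_nonpos (by linarith)]; linarith
    · have : (N : ℝ) + 1 ≤ N' := by exact_mod_cast h2
      rw [abs_of_nonneg (by linarith)]; linarith
  rw [he, abs_mul, abs_mul, abs_of_pos hK, abs_of_pos (by linarith : 0 < h)] at hx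
  have : K * (31 / 32) * 1 ≤ K * h * |(N' : ℝ) - N| := by gcongr
  linarith

theorem transition (O : Orb S) {j c M : ℕ} (hA : O.AA (j + 1) c M) (hC : O.CP j M)
    (hK : ∀ i ≤ j, S.KK i) (hF : ∀ n, M ≤ n → j ≤ O.l n → ‖O.γ n‖ ≤ S.YY j)
    {n1 n2 : ℕ} (hM : M ≤ n1) (h12 : n1 < n2)
    (hz1 : NZ (j + 1) (n1 + c)) (hz2 : NZ (j + 1) (n2 + c))
    (hz : ∀ t, n1 < t → t < n2 → ¬ NZ (j + 1) (t + c)) :
    (∀ t, n1 < t → t < n2 → O.l t = j → O.Core t) ∧
    dig (j + 2) (O.w n2) = dig (j + 2) (O.w n1 + 1) := by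
  have hl1 : j + 1 ≤ O.l n1 := stage_ge O hA le_rfl hM hz1
  have hl2 : j + 1 ≤ O.l n2 := stage_ge O hA le_rfl (by omega) hz2
  have hmod1 : O.w n1 + 1 ≡ n1 + c + 1 [MOD 8 ^ (j + 1)] := by
    have := hA n1 hM
    rw [show min (O.l n1 + 1) (j + 1) = j + 1 by omega] at this
    exact this.symm.add_right 1
  have hmod2 : O.w n2 ≡ n2 + c [MOD 8 ^ (j + 1)] := by
    have := hA n2 (by omega)
    rw [show min (O.l n2 + 1) (j + 1) = j + 1 by omega] at this
    exact this.symm
  have hz' : ∀ i, n1 + c < i → i < n2 + c → ¬ NZ (j + 1) i := by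
    intro i h1 h2
    have := hz (i - c) (by omega) (by omega)
    rwa [show i - c + c = i by omega] at this
  -- the common scale
  have hκ := S.hκ.pos (j + 2)
  have hκ3 := S.hκ.pos (j + 3)
  have hh : hs (dig (j + 1) (O.w n2)) = hs (dig (j + 1) (O.w n1 + 1)) := by
    rw [dig_congr hmod2 le_rfl, dig_congr hmod1 le_rfl]
    exact Sys.tele_hs (k := j + 1) (m := n1 + c) (n := n2 + c) (by omega) hz'
  set h := hs (dig (j + 1) (O.w n1 + 1)) with hdef
  have hh1 : 31 / 32 ≤ h := hs_pos _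
  have hh2 : h ≤ 1 := hs_le _
  set N := dig (j + 2) (O.w n1 + 1) with hN
  set N' := dig (j + 2) (O.w n2) with hN'
  have hN8 : N < 8 := dig_lt _ _
  have hN8' : N' < 8 := dig_lt _ _
  set K := S.κ (j + 2) with hK2
  set K3 := S.κ (j + 3) with hK3
  -- start and end
  have hstart : ‖(O.P (n1 + 1)).2 - Xt S.κ (j + 1) (n1 + c + 1) - (K * h) • xi N - O.γ n1‖
      ≤ 72 * K3 := by
    have e := O.hP n1
    have b1 := Xt_expand S.hκ (k := j + 1) (K := O.l n1 + 1) (by omega) (O.w n1 + 1)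
    have b2 := (O.hD n1).le
    have b4 : S.κ (O.l n1 + 2) ≤ K3 := S.hκ.anti (by omega)
    have e1 : (O.P (n1 + 1)).2 - Xt S.κ (j + 1) (n1 + c + 1) - (K * h) • xi N - O.γ n1 =
        (Xt S.κ (O.l n1 + 1) (O.w n1 + 1) - Xt S.κ (j + 1) (O.w n1 + 1) - (K * h) • xi N)
          + ((O.Q n1).2 - Xt S.κ (O.l n1) (O.w n1)) := by
      rw [e, ← Xt_congr S.κ hmod1]; unfold Orb.γ; abel
    rw [e1]
    calc _ ≤ _ := norm_add_le _ _
      _ ≤ 8 * K3 + 64 * K3 := add_le_add b1 (b2.trans (by linarith))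
      _ = _ := by ring
  have hend : ‖(O.Q n2).2 - Xt S.κ (j + 1) (n2 + c) - (K * h) • xi N'‖ ≤ 72 * K3 := by
    have b1 := Xt_expand S.hκ (k := j + 1) (K := O.l n2 + 1) (by omega) (O.w n2)
    rw [Xt_of_lt S.κ (O.wlt n2) (Nat.le_succ _), hh] at b1
    have b2 := (O.hD n2).le
    have b4 : S.κ (O.l n2 + 2) ≤ K3 := S.hκ.anti (by omega)
    have e1 : (O.Q n2).2 - Xt S.κ (j + 1) (n2 + c) - (K * h) • xi N' =
        (Xt S.κ (O.l n2) (O.w n2) - Xt S.κ (j + 1) (O.w n2) - (K * h) • xi N')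
          + ((O.Q n2).2 - Xt S.κ (O.l n2) (O.w n2)) := by
      rw [← Xt_congr S.κ hmod2]; abel
    rw [e1]
    calc _ ≤ _ := norm_add_le _ _
      _ ≤ 8 * K3 + 64 * K3 := add_le_add b1 (b2.trans (by linarith))
      _ = _ := by ring
  have hoff := offset O hA hC hK hF hM hz1 hz
  have hgap : n2 ≤ n1 + 8 ^ (j + 1) := by
    have := gap_le (k := j + 1) (m := n1 + c) (n := n2 + c) hz'
    omega
  have hgapR : (n2 : ℝ) - n1 ≤ 8 ^ (j + 1) := by
    have : (n2 : ℝ) ≤ n1 + 8 ^ (j + 1) := by exact_mod_cast hgap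
    linarith
  set D := (C1 + 1) * K3 with hD
  have hD0 : 0 ≤ D := by rw [hD]; unfold C1; positivity
  set E0 := 8 ^ (j + 1) * D + 144 * K3 with hE0
  have hE0s : E0 ≤ K / 1000 := by
    have := E0_small (S := S) j
    rw [hE0, hD]
    calc 8 ^ (j + 1) * ((C1 + 1) * K3) + 144 * K3 = (144 + 8 ^ (j + 1) * (C1 + 1)) * K3 := by ring
      _ ≤ _ := this
  have hK30 : K3 ≤ K / 1000000 := by
    have := S.hκ.step (j + 2)
    rw [hK3, hK2]
    have e : S.κ (j + 2 + 1) = S.κ (j + 3) := rfl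
    rw [e] at this
    linarith
  -- the total
  have htot : ‖(K * h) • xi N' - (K * h) • xi N - O.γ n1 - accG O j c n1 n2‖ ≤ E0 := by
    have h1 := hoff n2 h12 le_rfl (NZ_mono (by omega) hz2)
    have e1 : (K * h) • xi N' - (K * h) • xi N - O.γ n1 - accG O j c n1 n2 =
        ((O.Q n2).2 - Xt S.κ (j + 1) (n2 + c) -
          ((O.P (n1 + 1)).2 - Xt S.κ (j + 1) (n1 + c + 1)) - accG O j c n1 n2)
        + ((O.P (n1 + 1)).2 - Xt S.κ (j + 1) (n1 + c + 1) - (K * h) • xi N - O.γ n1)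
        + (-((O.Q n2).2 - Xt S.κ (j + 1) (n2 + c) - (K * h) • xi N')) := by abel
    rw [e1]
    calc _ ≤ _ := norm_add₃_le
      _ ≤ ((n2 : ℝ) - n1) * D + 72 * K3 + 72 * K3 := by
        refine add_le_add (add_le_add h1 hstart) ?_
        rw [norm_neg]; exact hend
      _ ≤ 8 ^ (j + 1) * D + 72 * K3 + 72 * K3 := by gcongr
      _ = E0 := by rw [hE0]; ring
  -- coordinates
  have hg := γ_nonneg O n1
  have hG := accG_nonneg O j c n1 n2
  have c1 : |K * h * ((N' : ℝ) - N) - (O.γ n1).1 - (accG O j c n1 n2).1| ≤ E0 := by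
    refine le_trans ?_ ((norm_fst_le _).trans htot)
    rw [Real.norm_eq_abs]
    apply le_of_eq
    congr 1
    simp [xi]; ring
  have c2 : |K * h * ((sp N' : ℝ) - sp N) - (O.γ n1).2 - (accG O j c n1 n2).2| ≤ E0 := by
    refine le_trans ?_ ((norm_snd_le _).trans htot)
    rw [Real.norm_eq_abs]
    apply le_of_eq
    congr 1
    simp [xi]; ring
  have n1a : (0 : ℝ) ≤ N := by positivity
  have n2a : (N' : ℝ) ≤ 7 := by exact_mod_cast (by omega : N' ≤ 7)
  have n1c : (N : ℝ) ≤ 7 := by exact_mod_cast (by omega : N ≤ 7)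
  have n1b : (0 : ℝ) ≤ sp N := by positivity
  have n2b : (sp N' : ℝ) ≤ 7 := by exact_mod_cast (by have := sp_lt hN8'; omega : sp N' ≤ 7)
  have n1d : (sp N : ℝ) ≤ 7 := by exact_mod_cast (by have := sp_lt hN8; omega : sp N ≤ 7)
  have hKh : 0 < K * h := by positivity
  have hKh1 : K * h ≤ K := by nlinarith
  have u1 : (O.γ n1).1 + (accG O j c n1 n2).1 ≤ 7 * K + E0 := by
    have := (abs_le.mp c1).1
    have h3 : K * h * ((N' : ℝ) - N) ≤ 7 * K := by nlinarith
    linarith
  have u2 : (O.γ n1).2 + (accG O j c n1 n2).2 ≤ 7 * K + E0 := by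
    have := (abs_le.mp c2).1
    have h3 : K * h * ((sp N' : ℝ) - sp N) ≤ 7 * K := by nlinarith
    linarith
  -- core passes
  have hcore : ∀ t, n1 < t → t < n2 → O.l t = j → O.Core t := by
    intro t ht1 ht2 hlt
    have hnzj : NZ j (t + c) := NZ_of_stage O hA (by omega) (by omega) (by omega)
    have h1 := hoff t ht1 ht2.le hnzj
    have hmono := accG_mono O j c n1 ht2.le
    have hGt := accG_nonneg O j c n1 t
    have hD1 : ((t : ℝ) - n1) * D ≤ 8 ^ (j + 1) * D := by
      have : (t : ℝ) ≤ n2 := by exact_mod_cast ht2.le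
      have : (t : ℝ) - n1 ≤ 8 ^ (j + 1) := by linarith
      gcongr
    have hsum : ‖(O.Q t).2 - Xt S.κ (j + 1) (t + c) - (K * h) • xi N - O.γ n1
        - accG O j c n1 t‖ ≤ E0 := by
      have e1 : (O.Q t).2 - Xt S.κ (j + 1) (t + c) - (K * h) • xi N - O.γ n1
          - accG O j c n1 t =
          ((O.Q t).2 - Xt S.κ (j + 1) (t + c) -
            ((O.P (n1 + 1)).2 - Xt S.κ (j + 1) (n1 + c + 1)) - accG O j c n1 t)
          + ((O.P (n1 + 1)).2 - Xt S.κ (j + 1) (n1 + c + 1) - (K * h) • xi N - O.γ n1) := by abel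
      rw [e1]
      calc _ ≤ _ := norm_add_le _ _
        _ ≤ 8 ^ (j + 1) * D + 72 * K3 := add_le_add (h1.trans hD1) hstart
        _ ≤ E0 := by rw [hE0]; linarith
    have d1 : |((O.Q t).2 - Xt S.κ (j + 1) (t + c)).1 - (K * h * N + (O.γ n1).1
        + (accG O j c n1 t).1)| ≤ E0 := by
      refine le_trans ?_ ((norm_fst_le _).trans hsum)
      rw [Real.norm_eq_abs]
      apply le_of_eq
      congr 1
      simp [xi]; ring
    have d2 : |((O.Q t).2 - Xt S.κ (j + 1) (t + c)).2 - (K * h * sp N + (O.γ n1).2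
        + (accG O j c n1 t).2)| ≤ E0 := by
      refine le_trans ?_ ((norm_snd_le _).trans hsum)
      rw [Real.norm_eq_abs]
      apply le_of_eq
      congr 1
      simp [xi]; ring
    have hnz : ¬ NZ (j + 1) (t + c) := hz t ht1 ht2
    obtain ⟨w1, w2⟩ := window_eq O hA le_rfl (by omega : M ≤ t) hnz
    unfold Orb.Core
    have hX : Xt S.κ (O.l t) (O.w t) = Xt S.κ (j + 1) (t + c) := by
      rw [w2, ← Xt_of_lt S.κ (l := O.l t) (K := j + 1) (by rw [w1]; exact win_lt _) (by omega)]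
      apply Xt_congr
      have := win_modEq_succ (t + c)
      rwa [← w1, hlt] at this
    rw [hX, hlt]
    have f1 : K * h * N ≤ 7 * K := by nlinarith
    have f2 : K * h * sp N ≤ 7 * K := by nlinarith
    have f3 : 0 ≤ K * h * N := by positivity
    have f4 : 0 ≤ K * h * sp N := by positivity
    have g1 := abs_le.mp d1
    have g2 := abs_le.mp d2
    have hle : ‖(O.Q t).2 - Xt S.κ (j + 1) (t + c)‖ ≤ 15 * K := by
      rw [Prod.norm_def]
      apply max_le
      · rw [Real.norm_eq_abs, abs_le]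
        constructor <;> linarith [hmono.1, hGt.1, hg.1, g1.1, g1.2]
      · rw [Real.norm_eq_abs, abs_le]
        constructor <;> linarith [hmono.2, hGt.2, hg.2, g2.1, g2.2]
    linarith
  refine ⟨hcore, ?_⟩
  -- no tails at the intermediate passes
  have hG0 : accG O j c n1 n2 = 0 := by
    unfold accG
    apply Finset.sum_eq_zero
    intro t ht
    rw [Finset.mem_Ioo] at ht
    split_ifs with hnzj
    · have hnz : ¬ NZ (j + 1) (t + c) := hz t ht.1 ht.2
      obtain ⟨w1, w2⟩ := window_eq O hA le_rfl (by omega : M ≤ t) hnz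
      have h3 := fz_lt_of_not_NZ hnz
      have h4 : j ≤ O.l t := stage_ge O hA (by omega) (by omega) hnzj
      exact (O.core t (hcore t ht.1 ht.2 (by omega))).2
    · rfl
  rw [hG0] at c1 c2
  simp only [Prod.fst_zero, Prod.snd_zero, sub_zero] at c1 c2
  have hγ := hF n1 hM (by omega)
  rcases tail_coord O hl1 hγ with ht | ht
  · refine digit_eq_of_small (h := h) (K := K) hκ hh1 ?_ rfl
    have := abs_le.mp c1
    rw [abs_lt]; constructor <;> linarith [hg.1]
  · apply sp_inj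
    refine digit_eq_of_small (h := h) (K := K) hκ hh1 ?_ rfl
    have := abs_le.mp c2
    rw [abs_lt]; constructor <;> linarith [hg.2]

end Pool.Agent.Closing.Pure
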