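import Mathlib

/-!
# The strong (Whitney) `C^r` topology and the `C^r` closing lemma
-/

open scoped ContDiff Manifold Topology

namespace Pool.Agent.Closing

noncomputable section

variable {V : Type} [NormedAddCommGroup V] [NormedSpace ℝ V]
  {M : Type} [TopologicalSpace M] [ChartedSpace V M]

/-- The data of a basic strong neighbourhood of `f`: countable families of charts
`φ i`, `ψ i` of the maximal smooth atlas, compact sets `K i ⊆ (φ i).source` forming a locally
finite family with `f (K i) ⊆ (ψ i).source`, and positive numbers `ε i`. -/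
structure BasicData (f : M → M) where
  φ : ℕ → OpenPartialHomeomorph M V
  ψ : ℕ → OpenPartialHomeomorph M V
  K : ℕ → Set M
  ε : ℕ → ℝ
  hφ : ∀ i, φ i ∈ IsManifold.maximalAtlas 𝓘(ℝ, V) ∞ M
  hψ : ∀ i, ψ i ∈ IsManifold.maximalAtlas 𝓘(ℝ, V) ∞ M
  hK : ∀ i, IsCompact (K i)
  hKφ : ∀ i, K i ⊆ (φ i).source
  hfK : ∀ i, f '' K i ⊆ (ψ i).source
  lf : LocallyFinite K
  hε : ∀ i, 0 < ε i

/-- `g` lies in the basic strong neighbourhood of order `k` of `f` given by the data: for every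
`i`, `g (K i) ⊆ (ψ i).source` and on `φ i (K i)` all derivatives of order at most `k` of the
local representatives of `f` and `g` differ by less than `ε i`. -/
def BasicData.Mem {f : M → M} (d : BasicData (V := V) f) (k : ℕ) (g : M → M) : Prop :=
  ∀ i, g '' d.K i ⊆ (d.ψ i).source ∧
    ∀ p ∈ d.K i, ∀ j ≤ k,
      ‖iteratedFDeriv ℝ j (d.ψ i ∘ f ∘ (d.φ i).symm) (d.φ i p) -
        iteratedFDeriv ℝ j (d.ψ i ∘ g ∘ (d.φ i).symm) (d.φ i p)‖ < d.ε i

variable (V M) in
/-- The strong (Whitney) `C^r` topology on the set `Diff^r(M)`, generated by the basic strong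
neighbourhoods of all finite orders `k ≤ r`. -/
@[reducible] def strongTopology (r : ℕ∞) : TopologicalSpace (M ≃ₘ^r⟮𝓘(ℝ, V), 𝓘(ℝ, V)⟯ M) :=
  TopologicalSpace.generateFrom
    {N | ∃ (f : M ≃ₘ^r⟮𝓘(ℝ, V), 𝓘(ℝ, V)⟯ M) (d : BasicData (V := V) (f : M → M)) (k : ℕ),
      (k : ℕ∞) ≤ r ∧ N = {g : M ≃ₘ^r⟮𝓘(ℝ, V), 𝓘(ℝ, V)⟯ M | d.Mem k g}}

/-- The point `x` is recurrent for `f` (in the sense of the problem): the map `m ↦ f^m(x)` from
the discrete space `ℤ` to `M` is not a homeomorphism onto its image. -/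
def Recurrent (f : Equiv.Perm M) (x : M) : Prop :=
  ¬ Topology.IsEmbedding (fun m : ℤ => (f ^ m) x)

/-- The `C^r` closing lemma (Q1), for all smooth manifolds without boundary (Hausdorff, second
countable, finite dimensional). -/
def ClosingLemma (r : ℕ∞) : Prop :=
  ∀ (V : Type) [NormedAddCommGroup V] [NormedSpace ℝ V] [FiniteDimensional ℝ V]
    (M : Type) [TopologicalSpace M] [T2Space M] [SecondCountableTopology M]
    [ChartedSpace V M] [IsManifold 𝓘(ℝ, V) ∞ M]
    (f : M ≃ₘ^r⟮𝓘(ℝ, V), 𝓘(ℝ, V)⟯ M) (x : M),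
    Recurrent f.toEquiv x →
    ∀ U ∈ @nhds _ (strongTopology V M r) f,
      ∃ g ∈ U, ∃ n : ℕ, 0 < n ∧ (g : M → M)^[n] x = x

end

end Pool.Agent.Closing
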