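import Pool.Agent.Lib.Closing.Windows
import Pool.Agent.Lib.Closing.Statement

/-!
# Closing lemma counterexample: the odometer orbit and recurrence
-/

open scoped ContDiff Topology Manifold
open Set Filter

namespace Pool.Agent.Closing

noncomputable section

variable {B : ℝ}

/-! ### Governing window -/

/-- the label of the window governing the digit string: the digits before the first zero -/
def gov : List ℕ → Word
  | [] => []
  | d :: l => if h : 1 ≤ d ∧ d ≤ 7 then ⟨d - 1, by omega⟩ :: gov l else []

theorem gov_nil : gov [] = [] := by rw [gov]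

theorem gov_zero (l : List ℕ) : gov (0 :: l) = [] := by
  rw [gov]
  simp

theorem gov_cons {d : ℕ} (h : 1 ≤ d ∧ d ≤ 7) (l : List ℕ) :
    gov (d :: l) = ⟨d - 1, by omega⟩ :: gov l := by
  rw [gov, dif_pos h]

theorem dig_gov_cons {d : ℕ} (h : 1 ≤ d ∧ d ≤ 7) (l : List ℕ) :
    dig (gov (d :: l)) = d :: dig (gov l) := by
  rw [gov_cons h, dig_cons]
  congr 1
  simp only
  omega

theorem tgt_gov_cons {d : ℕ} (h : 1 ≤ d ∧ d ≤ 7) (l : List ℕ) :
    tgt (gov (d :: l)) = if d = 7 then 0 :: tgt (gov l) else (d + 1) :: dig (gov l) := by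
  rw [tgt, dig_gov_cons h, succ]
  rfl

theorem pos_congr (B : ℝ) (k : ℕ) {p q : ℕ} (h : hs p = hs q) (l : List ℕ) :
    pos B k p l = pos B k q l := by
  cases l with
  | nil => rw [pos_nil, pos_nil]
  | cons d l => rw [pos_cons, pos_cons, h]

/-- the offset from the centre of the governing window does not depend on the previous digit -/
theorem pos_sub_gov (B : ℝ) (k p q : ℕ) {u : List ℕ} (hu : IsDig u) :
    pos B k p u - pos B k p (dig (gov u)) = pos B k q u - pos B k q (dig (gov u)) := by
  cases u with
  | nil => simp [gov_nil, pos_nil]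
  | cons d l =>
    rcases Nat.eq_zero_or_pos d with rfl | hd
    · simp [gov_zero, pos_nil, pos_cons]
    · rw [dig_gov_cons ⟨hd, (isDig_cons.1 hu).1⟩, pos_cons, pos_cons, pos_cons, pos_cons]
      abel

/-- The odometer map is a rigid translation on every window. -/
theorem pos_succ_sub_gov (B : ℝ) (k p : ℕ) {u : List ℕ} (hu : IsDig u) :
    pos B k p (succ u) - pos B k p (tgt (gov u)) = pos B k p u - pos B k p (dig (gov u)) := by
  induction u generalizing k p with
  | nil => simp [gov_nil, succ, pos_nil]
  | cons d l ih =>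
    have hl : IsDig l := (isDig_cons.1 hu).2
    rcases Nat.eq_zero_or_pos d with rfl | hd
    · rw [gov_zero]
      simp only [succ, tgt_nil, dig_nil, pos_cons, pos_nil, xi_zero, smul_zero, zero_add, sub_zero,
        OfNat.zero_ne_ofNat, if_false, add_zero, add_sub_cancel_left]
      exact pos_congr B (k + 1) (by simp) l
    · have h7 := (isDig_cons.1 hu).1
      rw [tgt_gov_cons ⟨hd, h7⟩, dig_gov_cons ⟨hd, h7⟩, succ]
      split_ifs with h
      · rw [pos_cons, pos_cons, pos_cons, pos_cons, add_sub_add_left_eq_sub,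
          add_sub_add_left_eq_sub, ih _ _ hl]
        exact pos_sub_gov B _ _ _ hl
      · rw [pos_cons, pos_cons, pos_cons, pos_cons, add_sub_add_left_eq_sub,
          add_sub_add_left_eq_sub]
        exact pos_sub_gov B _ _ _ hl

theorem norm_pos_sub_gov_le (hB : 400 ≤ B) (k p : ℕ) {u : List ℕ} (hu : IsDig u) :
    ‖pos B k p u - pos B k p (dig (gov u))‖ ≤ 8 * kappa B (k + (gov u).length + 1) := by
  induction u generalizing k p with
  | nil =>
    simp only [gov_nil, dig_nil, pos_nil, sub_self, norm_zero]
    have := kappa_nonneg B (k + ([] : Word).length + 1)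
    positivity
  | cons d l ih =>
    have hl : IsDig l := (isDig_cons.1 hu).2
    rcases Nat.eq_zero_or_pos d with rfl | hd
    · rw [gov_zero]
      simp only [dig_nil, pos_nil, pos_cons, xi_zero, smul_zero, zero_add, sub_zero,
        List.length_nil, add_zero]
      exact norm_pos_le hB _ _ hl
    · have h7 := (isDig_cons.1 hu).1
      rw [dig_gov_cons ⟨hd, h7⟩, pos_cons, pos_cons, add_sub_add_left_eq_sub, gov_cons ⟨hd, h7⟩]
      have := ih (k + 1) d hl
      rw [List.length_cons]
      have e : k + ((gov l).length + 1) + 1 = k + 1 + (gov l).length + 1 := by ring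
      rw [e]
      exact this

theorem length_succ_le (u : List ℕ) : (succ u).length ≤ u.length + 1 := by
  induction u with
  | nil => simp [succ]
  | cons d l ih =>
    rw [succ]
    split_ifs <;> simp <;> omega

theorem length_le_succ (u : List ℕ) : u.length ≤ (succ u).length := by
  induction u with
  | nil => simp [succ]
  | cons d l ih =>
    rw [succ]
    split_ifs <;> simp <;> omega

theorem length_tgt_le (i : Word) : (tgt i).length ≤ i.length + 1 := by
  have := length_succ_le (dig i)
  rwa [length_dig] at this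

theorem length_le_tgt (i : Word) : i.length ≤ (tgt i).length := by
  have := length_le_succ (dig i)
  rwa [length_dig] at this

theorem length_tl_le (i : Word) : (tl i).length ≤ i.length := by
  rw [tl, List.length_take]
  exact min_le_left _ _

theorem length_tl (i : Word) : (tl i).length = i.length := by
  rw [tl, List.length_take]
  exact min_eq_left (length_le_tgt i)

/-- the thickness of a window is below the start of its tail -/
theorem tau_le_alpha (hB : 400 ≤ B) (i : Word) : tau B i ≤ alpha B (i.length + 17) / 10 := by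
  rw [show i.length + 17 = i.length + 16 + 1 from rfl, alpha_succ]
  unfold tau
  have e : i.length + 16 + 4 = i.length + 20 := by ring
  rw [e]
  have h1 := kappa_le_one (by linarith : 0 ≤ B) (i.length + 20)
  have h2 := kappa_nonneg B (i.length + 20)
  nlinarith

theorem Gam_eq_zero_of_le_tau (hB : 400 ≤ B) (i : Word) {c : ℝ} (hc : c ≤ tau B i) :
    Gam B (tl i) c = 0 := by
  apply Gam_eq_zero hB
  have h1 := tau_le_alpha hB i
  have h2 := alpha_pos B (i.length + 17)
  have h3 : alpha B (i.length + 17) ≤ alpha B ((tl i).length + 1) := by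
    apply alpha_antitone hB
    have := length_tl_le i
    omega
  linarith

/-- CORE pass: the window map is a translation in `b` and the contraction `τ χ` in `a`. -/
theorem F_core (hB : 400 ≤ B) {i : Word} {p : E} (h : ‖p.2 - X B (dig i)‖ ≤ wd B i / 2) :
    F B i p = (tau B i * chi p.1, X B (tgt i) + (p.2 - X B (dig i))) := by
  unfold F
  rw [phi_eq_zero h, zero_add, Gam_eq_zero_of_le_tau hB, add_zero]
  have h1 := (abs_lt.1 (abs_chi_lt_one p.1)).2
  have h2 := tau_pos B i
  nlinarith

/-- Points of the odometer orbit are passed on by the core of their governing window. -/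
theorem F_X (hB : 400 ≤ B) {u : List ℕ} (hu : IsDig u) :
    ((0, X B u) : E) ∈ D B (gov u) ∧ F B (gov u) (0, X B u) = (0, X B (succ u)) := by
  have h1 : ‖X B u - X B (dig (gov u))‖ ≤ 8 * kappa B ((gov u).length + 2) := by
    have := norm_pos_sub_gov_le hB 1 0 hu
    rwa [add_comm 1 (gov u).length] at this
  have h0 := kappa_pos B ((gov u).length + 2)
  have h2 : ‖X B u - X B (dig (gov u))‖ ≤ wd B (gov u) / 2 := by
    unfold wd W
    linarith
  constructor
  · change ‖X B u - X B (dig (gov u))‖ < wd B (gov u)
    have := wd_pos B (gov u)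
    linarith
  · rw [F_core hB h2]
    have h3 := pos_succ_sub_gov B 1 0 hu
    have h4 : X B (tgt (gov u)) + (X B u - X B (dig (gov u))) = X B (succ u) := by
      rw [X, X, X, X, ← h3]
      abel
    simp [h4]

/-! ### The orbit of the base point -/

/-- The `n`-th point of the odometer orbit. -/
def odo (n : ℕ) : List ℕ := succ^[n] []

theorem isDig_odo (n : ℕ) : IsDig (odo n) := by
  induction n with
  | zero => exact IsDig.nil
  | succ n ih =>
    rw [odo, Function.iterate_succ_apply']
    exact isDig_succ ih

theorem exists_chain_odo (hB : 400 ≤ B) (n : ℕ) :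
    ∃ T, n ≤ T ∧ (sys B hB).Chain T (0, X B []) (0, X B (odo n)) := by
  induction n with
  | zero => exact ⟨0, le_rfl, RetSys.Chain.nil _⟩
  | succ n ih =>
    obtain ⟨T, hT, hc⟩ := ih
    obtain ⟨h1, h2⟩ := F_X hB (isDig_odo n)
    have h3 : (sys B hB).Chain ((sys B hB).t (gov (odo n))) (0, X B (odo n))
        ((sys B hB).F (gov (odo n)) (0, X B (odo n))) := RetSys.Chain.single h1
    have h4 : (sys B hB).F (gov (odo n)) (0, X B (odo n)) = (0, X B (odo (n + 1))) := by
      have h5 : odo (n + 1) = succ (odo n) := Function.iterate_succ_apply' _ _ _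
      rw [h5]
      exact h2
    rw [h4] at h3
    refine ⟨_, ?_, hc.trans h3⟩
    have := (sys B hB).one_le (gov (odo n))
    omega

theorem succ_iterate_eight (u : List ℕ) : succ^[8] (0 :: u) = 0 :: succ u := by
  simp [succ]

theorem succ_iterate_eight_mul (n : ℕ) (u : List ℕ) :
    succ^[8 * n] (0 :: u) = 0 :: succ^[n] u := by
  induction n generalizing u with
  | zero => rfl
  | succ n ih =>
    rw [Nat.mul_succ, Function.iterate_add_apply, succ_iterate_eight, ih,
      Function.iterate_succ_apply]

theorem exists_odo_eq (K : ℕ) : ∃ n, 1 ≤ n ∧ odo n = List.replicate K 0 ++ [1] := by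
  induction K with
  | zero => exact ⟨1, le_rfl, by simp [odo, succ]⟩
  | succ K ih =>
    obtain ⟨n, hn, h⟩ := ih
    refine ⟨8 * n, by omega, ?_⟩
    have h1 : odo (8 * n) = succ^[8 * n] [0] := by
      obtain ⟨m, hm⟩ : ∃ m, 8 * n = m + 1 := ⟨8 * n - 1, by omega⟩
      rw [odo, hm, Function.iterate_succ_apply, Function.iterate_succ_apply]
      rfl
    rw [h1, succ_iterate_eight_mul]
    change 0 :: odo n = _
    rw [h]
    rfl

theorem norm_pos_replicate_le (hB : 400 ≤ B) (K k p : ℕ) {u : List ℕ} (hu : IsDig u) :
    ‖pos B k p (List.replicate K 0 ++ u)‖ ≤ 8 * kappa B (k + K) := by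
  induction K generalizing k p with
  | zero => simpa using norm_pos_le hB k p hu
  | succ K ih =>
    rw [List.replicate_succ, List.cons_append, pos_cons, xi_zero, smul_zero, zero_add]
    have := ih (k + 1) 0
    rwa [add_assoc, add_comm 1 K] at this

/-- the base point -/
def basePt (B : ℝ) (hB : 400 ≤ B) : (sys B hB).Mfd := (sys B hB).phi 0 (0, X B [])

/-- The base point is recurrent. -/
theorem recurrent_basePt (hB : 400 ≤ B) (r : ℕ∞) :
    Recurrent ((sys B hB).shift r).toEquiv (basePt B hB) := by
  intro hemb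
  let R := sys B hB
  -- a neighbourhood of the base point visited only at time zero
  have h0 : ({0} : Set ℤ) ∈ 𝓝 (0 : ℤ) := by simp
  rw [hemb.nhds_eq_comap, mem_comap] at h0
  obtain ⟨V, hV, hVs⟩ := h0
  have e0 : ((R.shift r).toEquiv ^ (0 : ℤ)) (basePt B hB) = basePt B hB := by simp
  rw [e0] at hV
  have h1 : R.phi 0 ⁻¹' V ∈ 𝓝 ((0, X B []) : E) := (R.continuous_phi 0).continuousAt hV
  -- the orbit comes back
  have h2 : Tendsto (fun K : ℕ => ((0, X B (List.replicate K 0 ++ [1])) : E)) atTop
      (𝓝 (0, X B [])) := by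
    refine tendsto_const_nhds.prodMk_nhds ?_
    have e1 : X B [] = 0 := by rw [X, pos_nil]
    rw [e1, tendsto_zero_iff_norm_tendsto_zero]
    refine squeeze_zero (fun K => norm_nonneg _)
      (fun K => norm_pos_replicate_le hB K 1 0 (u := [1]) (by simp [IsDig])) ?_
    have h3 := ((tendsto_kappa hB).comp (tendsto_add_atTop_nat 1)).const_mul 8
    rw [mul_zero] at h3
    refine h3.congr fun K => ?_
    simp only [Function.comp]
    rw [add_comm 1 K]
  obtain ⟨K, hK⟩ := (h2.eventually h1).exists
  obtain ⟨n, hn, hodo⟩ := exists_odo_eq K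
  obtain ⟨T, hT, hc⟩ := exists_chain_odo hB n
  rw [hodo] at hc
  have h4 : ((R.shift r).toEquiv ^ (T : ℤ)) (basePt B hB) =
      R.phi 0 (0, X B (List.replicate K 0 ++ [1])) := by
    refine (R.shift_zpow_phi r T 0 _).trans ?_
    rw [zero_add]
    exact R.phi_eq_iff.2 (Or.inl ⟨T, by simp, hc⟩)
  have h5 : (T : ℤ) ∈ (fun m : ℤ => ((R.shift r).toEquiv ^ m) (basePt B hB)) ⁻¹' V := by
    rw [mem_preimage, h4]
    exact hK
  have h6 := hVs h5
  simp only [mem_singleton_iff] at h6
  omega

theorem connectedSpace_sys (hB : 400 ≤ B) : ConnectedSpace (sys B hB).Mfd :=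
  (sys B hB).connectedSpace [] rt_nil ⟨(0, X B (dig [])), by
    change ‖X B (dig []) - X B (dig [])‖ < wd B []
    rw [sub_self, norm_zero]
    exact wd_pos B []⟩

end

end Pool.Agent.Closing
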