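import Pool.Agent.Lib.Closing.Basics

/-!
# Closing lemma counterexample: tails and gaps between windows
-/

open scoped ContDiff Topology
open Set Filter

namespace Pool.Agent.Closing

noncomputable section

variable {B : ℝ}

/-! ### Bands -/

theorem Lk_pos (B : ℝ) (k : ℕ) : 0 < Lk B k := div_pos (kappa_pos _ _) (by norm_num)

theorem Lk_nonneg (B : ℝ) (k : ℕ) : 0 ≤ Lk B k := (Lk_pos B k).le

theorem Lk_succ_le (hB : 400 ≤ B) (k : ℕ) : Lk B (k + 1) ≤ Lk B k / 10 ^ 30 := by
  have h := kappa_succ_le hB (k + 1)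
  unfold Lk
  linarith

theorem alpha_zero (B : ℝ) : alpha B 0 = 1 := rfl

theorem alpha_succ (B : ℝ) (k : ℕ) : alpha B (k + 1) = kappa B (k + 4) := rfl

theorem alpha_pos (B : ℝ) (k : ℕ) : 0 < alpha B k := by
  cases k with
  | zero => rw [alpha_zero]; norm_num
  | succ k => rw [alpha_succ]; exact kappa_pos _ _

theorem alpha_succ_le (hB : 400 ≤ B) (k : ℕ) : alpha B (k + 1) ≤ alpha B k / 10 ^ 30 := by
  cases k with
  | zero =>
    rw [alpha_zero, alpha_succ]
    exact kappa_le_small hB 3
  | succ k =>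
    rw [alpha_succ, alpha_succ]
    exact kappa_succ_le hB (k + 4)

theorem alpha_succ_lt (hB : 400 ≤ B) (k : ℕ) : alpha B (k + 1) < alpha B k := by
  have h1 := alpha_succ_le hB k
  have h2 := alpha_pos B k
  linarith

theorem alpha_antitone (hB : 400 ≤ B) : Antitone (alpha B) :=
  antitone_nat_of_succ_le fun k => (alpha_succ_lt hB k).le

theorem Lam_nonneg (hB : 400 ≤ B) (k : ℕ) (a : ℝ) : 0 ≤ Lam B k a := by
  cases k with
  | zero =>
    rw [Lam]
    rcases le_or_gt a (alpha B 1) with h | h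
    · rw [Real.smoothTransition.zero_of_nonpos, zero_mul]
      have := alpha_succ_lt hB 0
      rw [alpha_zero, zero_add] at this
      exact div_nonpos_of_nonpos_of_nonneg (by linarith) (by linarith)
    · have := alpha_pos B 1
      exact mul_nonneg (Real.smoothTransition.nonneg _) (by linarith)
  | succ k =>
    rw [Lam]
    exact mul_nonneg (Lk_nonneg _ _) (Real.smoothTransition.nonneg _)

theorem Lam_succ_le (B : ℝ) (k : ℕ) (a : ℝ) : Lam B (k + 1) a ≤ Lk B (k + 1) := by
  rw [Lam]
  have := Real.smoothTransition.le_one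
    ((a - alpha B (k + 2)) / (alpha B (k + 1) - alpha B (k + 2)))
  have h2 := Lk_nonneg B (k + 1)
  nlinarith

/-- a band vanishes below its start -/
theorem Lam_eq_zero (hB : 400 ≤ B) {k : ℕ} {a : ℝ} (h : a ≤ alpha B (k + 1)) :
    Lam B k a = 0 := by
  cases k with
  | zero =>
    rw [Lam, Real.smoothTransition.zero_of_nonpos, zero_mul]
    have := alpha_succ_lt hB 0
    rw [alpha_zero, zero_add] at this
    exact div_nonpos_of_nonpos_of_nonneg (by simpa using h) (by linarith)
  | succ k =>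
    rw [Lam, Real.smoothTransition.zero_of_nonpos, mul_zero]
    have := alpha_succ_lt hB (k + 1)
    exact div_nonpos_of_nonpos_of_nonneg (by simpa using h) (by
      have e : k + 1 + 1 = k + 2 := rfl
      rw [e] at this
      linarith)

/-- a band is full above its end -/
theorem Lam_eq_full (hB : 400 ≤ B) {k : ℕ} {a : ℝ} (h : alpha B (k + 1) ≤ a) :
    Lam B (k + 1) a = Lk B (k + 1) := by
  have h1 : alpha B (k + 2) < alpha B (k + 1) := alpha_succ_lt hB (k + 1)
  rw [Lam, Real.smoothTransition.one_of_one_le, mul_one]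
  rw [le_div_iff₀ (by linarith)]
  linarith

theorem Lam_zero_eq (hB : 400 ≤ B) {a : ℝ} (h : 1 ≤ a) : Lam B 0 a = 100 + a := by
  have h1 := alpha_succ_lt hB 0
  rw [alpha_zero, zero_add] at h1
  rw [Lam, Real.smoothTransition.one_of_one_le, one_mul]
  rw [le_div_iff₀ (by linarith)]
  linarith

theorem Lam_monotone (hB : 400 ≤ B) (k : ℕ) : Monotone (Lam B k) := by
  intro a a' haa
  cases k with
  | zero =>
    have h1 := alpha_succ_lt hB 0
    rw [alpha_zero, zero_add] at h1
    rcases le_or_gt a (alpha B 1) with h | h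
    · rw [Lam_eq_zero hB (by simpa using h)]
      exact Lam_nonneg hB 0 a'
    · rw [Lam, Lam]
      have h0 := alpha_pos B 1
      apply mul_le_mul
      · apply Real.smoothTransition.monotone
        apply div_le_div_of_nonneg_right _ (by linarith)
        linarith
      · linarith
      · linarith
      · exact Real.smoothTransition.nonneg _
  | succ k =>
    have h1 : alpha B (k + 2) < alpha B (k + 1) := alpha_succ_lt hB (k + 1)
    rw [Lam, Lam]
    apply mul_le_mul_of_nonneg_left _ (Lk_nonneg _ _)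
    apply Real.smoothTransition.monotone
    apply div_le_div_of_nonneg_right _ (by linarith)
    linarith

theorem contDiff_Lam (B : ℝ) (k : ℕ) {n : ℕ∞} : ContDiff ℝ n (Lam B k) := by
  cases k with
  | zero =>
    unfold Lam
    have h1 : ContDiff ℝ n (fun a : ℝ => (a - alpha B 1) / (1 - alpha B 1)) := by fun_prop
    exact (Real.smoothTransition.contDiff.comp h1).mul (by fun_prop)
  | succ k =>
    unfold Lam
    have h1 : ContDiff ℝ n
        (fun a : ℝ => (a - alpha B (k + 2)) / (alpha B (k + 1) - alpha B (k + 2))) := by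
      fun_prop
    exact contDiff_const.mul (Real.smoothTransition.contDiff.comp h1)

/-! ### Tails -/

theorem dir_nonneg (d : ℕ) : 0 ≤ (dir d).1 ∧ 0 ≤ (dir d).2 := by
  unfold dir eX eY
  split_ifs <;> simp

theorem dir_le (d : ℕ) : (dir d).1 ≤ 1 ∧ (dir d).2 ≤ 1 := by
  unfold dir eX eY
  split_ifs <;> simp

theorem gamAux_nil (B : ℝ) (k : ℕ) (a : ℝ) : gamAux B k [] a = 0 := by rw [gamAux]

theorem gamAux_cons (B : ℝ) (k d : ℕ) (l : List ℕ) (a : ℝ) :
    gamAux B k (d :: l) a = Lam B k a • dir d + gamAux B (k + 1) l a := by rw [gamAux]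

theorem gamAux_append (B : ℝ) (k : ℕ) (c u : List ℕ) (a : ℝ) :
    gamAux B k (c ++ u) a = gamAux B k c a + gamAux B (k + c.length) u a := by
  induction c generalizing k with
  | nil => simp [gamAux_nil]
  | cons d c ih =>
    have h2 : k + (c.length + 1) = k + 1 + c.length := by ring
    rw [List.cons_append, gamAux_cons, gamAux_cons, ih, List.length_cons, h2,
      add_assoc (Lam B k a • dir d)]

theorem gamAux_nonneg (hB : 400 ≤ B) (k : ℕ) (u : List ℕ) (a : ℝ) :
    0 ≤ (gamAux B k u a).1 ∧ 0 ≤ (gamAux B k u a).2 := by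
  induction u generalizing k with
  | nil => simp [gamAux_nil]
  | cons d u ih =>
    rw [gamAux_cons]
    have h1 := dir_nonneg d
    have h2 := Lam_nonneg hB k a
    have h3 := ih (k + 1)
    simp only [Prod.fst_add, Prod.smul_fst, smul_eq_mul, Prod.snd_add, Prod.smul_snd]
    exact ⟨add_nonneg (mul_nonneg h2 h1.1) h3.1, add_nonneg (mul_nonneg h2 h1.2) h3.2⟩

theorem gamAux_le (hB : 400 ≤ B) (k : ℕ) (u : List ℕ) (a : ℝ) :
    (gamAux B (k + 1) u a).1 ≤ 2 * Lk B (k + 1) ∧ (gamAux B (k + 1) u a).2 ≤ 2 * Lk B (k + 1) := by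
  induction u generalizing k with
  | nil =>
    rw [gamAux_nil]
    have := Lk_nonneg B (k + 1)
    simp only [Prod.fst_zero, Prod.snd_zero]
    constructor <;> linarith
  | cons d u ih =>
    rw [gamAux_cons]
    have h1 := dir_nonneg d
    have h1' := dir_le d
    have h2 := Lam_nonneg hB (k + 1) a
    have h2' := Lam_succ_le B k a
    have h3 := ih (k + 1)
    have h4 := Lk_succ_le hB (k + 1)
    have h5 := Lk_nonneg B (k + 1)
    simp only [Prod.fst_add, Prod.smul_fst, smul_eq_mul, Prod.snd_add, Prod.smul_snd]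
    constructor
    · have := mul_le_mul h2' h1'.1 h1.1 h5
      linarith [h3.1]
    · have := mul_le_mul h2' h1'.2 h1.2 h5
      linarith [h3.2]

theorem norm_gamAux_le (hB : 400 ≤ B) (k : ℕ) (u : List ℕ) (a : ℝ) :
    ‖gamAux B (k + 1) u a‖ ≤ 2 * Lk B (k + 1) := by
  have h1 := gamAux_nonneg hB (k + 1) u a
  have h2 := gamAux_le hB k u a
  rw [Prod.norm_def, Real.norm_eq_abs, Real.norm_eq_abs, abs_of_nonneg h1.1, abs_of_nonneg h1.2]
  exact max_le h2.1 h2.2

/-- a tail vanishes below the start of its last band -/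
theorem gamAux_eq_zero (hB : 400 ≤ B) (k : ℕ) {u : List ℕ} {a : ℝ}
    (h : a ≤ alpha B (k + u.length)) : gamAux B k u a = 0 := by
  induction u generalizing k with
  | nil => rw [gamAux_nil]
  | cons d u ih =>
    rw [gamAux_cons, ih (k + 1) (by rw [List.length_cons] at h; convert h using 2; ring), add_zero,
      Lam_eq_zero hB, zero_smul]
    refine h.trans (alpha_antitone hB ?_)
    rw [List.length_cons]
    omega

theorem Gam_eq_zero (hB : 400 ≤ B) {u : List ℕ} {a : ℝ} (h : a ≤ alpha B (u.length + 1)) :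
    Gam B u a = 0 := by
  rw [Gam, gamAux_eq_zero hB 1 (by rwa [add_comm]), Lam_eq_zero hB, zero_smul, add_zero]
  exact h.trans (alpha_antitone hB (by omega))

theorem Gam_nonneg (hB : 400 ≤ B) (u : List ℕ) (a : ℝ) :
    0 ≤ (Gam B u a).1 ∧ 0 ≤ (Gam B u a).2 := by
  have h1 := gamAux_nonneg hB 1 u a
  have h2 := Lam_nonneg hB 0 a
  rw [Gam]
  simp only [Prod.fst_add, Prod.smul_fst, smul_eq_mul, Prod.snd_add, Prod.smul_snd, eY, mul_zero,
    mul_one, zero_add]
  exact ⟨h1.1, add_nonneg h2 h1.2⟩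

theorem Lam_le_Gam_snd (hB : 400 ≤ B) (u : List ℕ) (a : ℝ) :
    Lam B 0 a ≤ (Gam B u a).2 := by
  have h1 := gamAux_nonneg hB 1 u a
  rw [Gam]
  simp only [Prod.snd_add, Prod.smul_snd, smul_eq_mul, eY, mul_one]
  linarith [h1.2]

theorem contDiff_gamAux (B : ℝ) (k : ℕ) (u : List ℕ) {n : ℕ∞} : ContDiff ℝ n (gamAux B k u) := by
  induction u generalizing k with
  | nil =>
    have : gamAux B k [] = fun _ => 0 := by ext a <;> rw [gamAux_nil]
    rw [this]
    exact contDiff_const
  | cons d u ih =>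
    have : gamAux B k (d :: u) = fun a => Lam B k a • dir d + gamAux B (k + 1) u a := by
      ext a <;> rw [gamAux_cons]
    rw [this]
    exact ((contDiff_Lam B k).smul contDiff_const).add (ih (k + 1))

theorem contDiff_Gam (B : ℝ) (u : List ℕ) {n : ℕ∞} : ContDiff ℝ n (Gam B u) :=
  ((contDiff_Lam B 0).smul contDiff_const).add (contDiff_gamAux B 1 u)

/-! ### Gaps -/

theorem wd_pos (B : ℝ) (i : Word) : 0 < wd B i := mul_pos (by norm_num [W]) (kappa_pos _ _)

theorem tau_pos (B : ℝ) (i : Word) : 0 < tau B i := by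
  unfold tau
  have := kappa_pos B (i.length + 20)
  positivity

theorem wd_le (hB : 400 ≤ B) {i : Word} {n : ℕ} (h : n ≤ i.length) :
    wd B i ≤ kappa B (n + 1) / 10 ^ 26 := by
  unfold wd W
  have h1 : kappa B (i.length + 2) ≤ kappa B (n + 2) := kappa_antitone (by linarith) (by omega)
  have h2 := kappa_succ_le hB (n + 1)
  have e : n + 1 + 1 = n + 2 := rfl
  rw [e] at h2
  have h3 := kappa_nonneg B (n + 1)
  linarith

/-- (W1) gap between two windows `D i`, `D j`: both coordinates of the centres differ by at least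
`0.9 κ_{K+1}`, `K` the length of the common prefix -/
theorem D_gap (hB : 400 ≤ B) {i j : Word} (h : i ≠ j) :
    ∃ K, K ≤ i.length ∧ K ≤ j.length ∧
      9 / 10 * kappa B (K + 1) ≤ |(X B (dig i) - X B (dig j)).1| ∧
      9 / 10 * kappa B (K + 1) ≤ |(X B (dig i) - X B (dig j)).2| := by
  obtain ⟨c, u, v, h1, h2, h3⟩ := dig_common h
  have hu : IsDig u := by
    have := isDig_dig i
    rw [h1, isDig_append] at this
    exact this.2
  have hv : IsDig v := by
    have := isDig_dig j
    rw [h2, isDig_append] at this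
    exact this.2
  refine ⟨c.length, ?_, ?_, ?_⟩
  · rw [← length_dig i, h1]; simp
  · rw [← length_dig j, h2]; simp
  · rw [h1, h2]
    exact X_sub_common hB hu hv h3

/-- (W2) gap between the tails of two windows `S i`, `S j` at the same height -/
theorem S_gap (hB : 400 ≤ B) {i j : Word} (h : i ≠ j) :
    ∃ K, K ≤ i.length ∧ K ≤ j.length ∧ ∀ a : ℝ,
      8 / 10 * kappa B (K + 1) ≤
        |(X B (tgt i) + Gam B (tl i) a - (X B (tgt j) + Gam B (tl j) a)).1| ∧
      8 / 10 * kappa B (K + 1) ≤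
        |(X B (tgt i) + Gam B (tl i) a - (X B (tgt j) + Gam B (tl j) a)).2| := by
  obtain ⟨c, c', u, v, u', v', h1, h2, -, h3, h4, h5, h6⟩ := tgt_common h
  have hu : IsDig u' := by
    have := isDig_tgt i
    rw [h3, isDig_append] at this
    exact this.2
  have hv : IsDig v' := by
    have := isDig_tgt j
    rw [h4, isDig_append] at this
    exact this.2
  have hci : c.length ≤ i.length := by rw [← length_dig i, h1]; simp
  have hcj : c.length ≤ j.length := by rw [← length_dig j, h2]; simp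
  refine ⟨c.length, hci, hcj, ?_⟩
  intro a
  have g1 := X_sub_common hB (c := c') hu hv h5
  have t1 : tl i = c' ++ u'.take (i.length - c'.length) := by
    rw [tl, h3, List.take_append, List.take_of_length_le (by omega)]
  have t2 : tl j = c' ++ v'.take (j.length - c'.length) := by
    rw [tl, h4, List.take_append, List.take_of_length_le (by omega)]
  rw [t1, t2, h3, h4, h6]
  set ut := u'.take (i.length - c'.length)
  set vt := v'.take (j.length - c'.length)
  have g2 : X B (c' ++ u') + Gam B (c' ++ ut) a - (X B (c' ++ v') + Gam B (c' ++ vt) a) =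
      (X B (c' ++ u') - X B (c' ++ v')) +
        (gamAux B (c'.length + 1) ut a - gamAux B (c'.length + 1) vt a) := by
    rw [Gam, Gam, gamAux_append, gamAux_append, add_comm 1 c'.length]
    abel
  rw [g2]
  have n1 := norm_gamAux_le hB c'.length ut a
  have n2 := norm_gamAux_le hB c'.length vt a
  have n3 := norm_sub_le (gamAux B (c'.length + 1) ut a) (gamAux B (c'.length + 1) vt a)
  set g := gamAux B (c'.length + 1) ut a - gamAux B (c'.length + 1) vt a
  set x := X B (c' ++ u') - X B (c' ++ v')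
  have hk : 4 * Lk B (c'.length + 1) ≤ 1 / 10 * kappa B (c'.length + 1) := by
    unfold Lk
    have := kappa_succ_le hB (c'.length + 1)
    have h0 := kappa_nonneg B (c'.length + 1)
    linarith
  have n4 : |g.1| ≤ ‖g‖ := norm_fst_le g
  have n5 : |g.2| ≤ ‖g‖ := norm_snd_le g
  constructor
  · have : |x.1| ≤ |(x + g).1| + |g.1| := by
      have e : x.1 = (x + g).1 - g.1 := by simp
      rw [e]
      exact abs_sub _ _
    linarith [g1.1]
  · have : |x.2| ≤ |(x + g).2| + |g.2| := by
      have e : x.2 = (x + g).2 - g.2 := by simp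
      rw [e]
      exact abs_sub _ _
    linarith [g1.2]

/-- the windows `D i` are pairwise disjoint, with a gap -/
theorem D_gap_norm (hB : 400 ≤ B) {i j : Word} (h : i ≠ j) {p q : E} (hp : p ∈ D B i)
    (hq : q ∈ D B j) : ∃ K, K ≤ i.length ∧ K ≤ j.length ∧ kappa B (K + 1) / 2 ≤ ‖p.2 - q.2‖ := by
  obtain ⟨K, h1, h2, h3, -⟩ := D_gap hB h
  refine ⟨K, h1, h2, ?_⟩
  have hp' : ‖p.2 - X B (dig i)‖ < wd B i := hp
  have hq' : ‖q.2 - X B (dig j)‖ < wd B j := hq
  have w1 := wd_le hB h1
  have w2 := wd_le hB h2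
  have n1 : |(X B (dig i) - X B (dig j)).1| ≤ ‖X B (dig i) - X B (dig j)‖ :=
    norm_fst_le (X B (dig i) - X B (dig j))
  have n2 : ‖X B (dig i) - X B (dig j)‖ ≤
      ‖p.2 - q.2‖ + ‖p.2 - X B (dig i)‖ + ‖q.2 - X B (dig j)‖ := by
    have e : X B (dig i) - X B (dig j) =
      (p.2 - q.2) - (p.2 - X B (dig i)) + (q.2 - X B (dig j)) := by abel
    rw [e]
    refine (norm_add_le _ _).trans ?_
    have := norm_sub_le (p.2 - q.2) (p.2 - X B (dig i))
    linarith
  have h0 := kappa_nonneg B (K + 1)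
  linarith

/-- the windows `S i` are pairwise disjoint, with a gap at equal height -/
theorem S_gap_norm (hB : 400 ≤ B) {i j : Word} (h : i ≠ j) {p q : E} (hp : p ∈ S B i)
    (hq : q ∈ S B j) (ha : p.1 = q.1) :
    ∃ K, K ≤ i.length ∧ K ≤ j.length ∧ kappa B (K + 1) / 2 ≤ ‖p.2 - q.2‖ := by
  obtain ⟨K, h1, h2, h3⟩ := S_gap hB h
  refine ⟨K, h1, h2, ?_⟩
  have h3 := (h3 p.1).1
  have hp' : ‖p.2 - X B (tgt i) - Gam B (tl i) p.1‖ < wd B i := hp.1
  have hq' : ‖q.2 - X B (tgt j) - Gam B (tl j) q.1‖ < wd B j := hq.1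
  rw [← ha] at hq'
  have w1 := wd_le hB h1
  have w2 := wd_le hB h2
  set y := X B (tgt i) + Gam B (tl i) p.1 - (X B (tgt j) + Gam B (tl j) p.1) with hy
  have n1 : |y.1| ≤ ‖y‖ := norm_fst_le y
  have n2 : ‖y‖ ≤ ‖p.2 - q.2‖ + ‖p.2 - X B (tgt i) - Gam B (tl i) p.1‖ +
      ‖q.2 - X B (tgt j) - Gam B (tl j) p.1‖ := by
    have e : y = (p.2 - q.2) - (p.2 - X B (tgt i) - Gam B (tl i) p.1) +
      (q.2 - X B (tgt j) - Gam B (tl j) p.1) := by
      rw [hy]
      abel
    rw [e]
    refine (norm_add_le _ _).trans ?_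
    have := norm_sub_le (p.2 - q.2) (p.2 - X B (tgt i) - Gam B (tl i) p.1)
    linarith
  have h0 := kappa_nonneg B (K + 1)
  linarith

theorem D_disjoint (hB : 400 ≤ B) {i j : Word} {p : E} (hp : p ∈ D B i) (hq : p ∈ D B j) :
    i = j := by
  by_contra h
  obtain ⟨K, -, -, h3⟩ := D_gap_norm hB h hp hq
  rw [sub_self, norm_zero] at h3
  have := kappa_pos B (K + 1)
  linarith

theorem S_disjoint (hB : 400 ≤ B) {i j : Word} {p : E} (hp : p ∈ S B i) (hq : p ∈ S B j) :
    i = j := by
  by_contra h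
  obtain ⟨K, -, -, h3⟩ := S_gap_norm hB h hp hq rfl
  rw [sub_self, norm_zero] at h3
  have := kappa_pos B (K + 1)
  linarith

/-! ### Return times -/

theorem zero_lt_rho (i : Word) : 0 < rho i := by
  unfold rho
  positivity

theorem one_le_rt (i : Word) : 1 ≤ rt i := by
  unfold rt
  have := zero_lt_rho i
  omega

@[simp] theorem rho_nil : rho [] = 1 := by simp [rho]

@[simp] theorem rt_nil : rt [] = 1 := by simp [rt]

theorem length_lt_rho (i : Word) : i.length < rho i := by
  unfold rho
  have : i.length < 8 ^ i.length := Nat.lt_pow_self (by norm_num)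
  omega

theorem length_lt_rt (i : Word) : i.length < rt i := by
  have h1 := length_lt_rho i
  unfold rt
  omega

theorem rt_finite (n : ℕ) : {i : Word | rt i ≤ n}.Finite := by
  refine (List.finite_length_le (Fin 7) n).subset ?_
  intro i hi
  have := length_lt_rt i
  simp only [mem_ofPred_eq] at hi ⊢
  omega

end

end Pool.Agent.Closing
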